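import Mathlib

/-!
# Powers in a finite commutative ring: the group at an idempotent (pure algebra)
-/

set_option autoImplicit false

namespace Pool.Agent.LinU

open Finset

/-- the elements which are invertible relative to `e` -/
def Gp {R : Type*} [CommMonoid R] (e : R) : Type _ := {x : R // x * e = x ∧ ∃ y, x * y = e}

/-- the group of the elements which are invertible relative to the idempotent `e` -/
@[reducible]
noncomputable def Gp.grp {R : Type*} [CommMonoid R] {e : R} (he : e * e = e) : Group (Gp e) where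
  mul x y := ⟨x.1 * y.1, by rw [mul_assoc, y.2.1], by
    obtain ⟨a, ha⟩ := x.2.2
    obtain ⟨b, hb⟩ := y.2.2
    refine ⟨a * b, ?_⟩
    rw [mul_mul_mul_comm, ha, hb, he]⟩
  mul_assoc x y z := Subtype.ext (mul_assoc _ _ _)
  one := ⟨e, he, e, he⟩
  one_mul x := Subtype.ext (by
    change e * x.1 = x.1
    rw [mul_comm, x.2.1])
  mul_one x := Subtype.ext x.2.1
  inv x := ⟨x.2.2.choose * e, by rw [mul_assoc, he], x.1, by
    rw [mul_right_comm, mul_comm _ x.1, x.2.2.choose_spec, he]⟩
  inv_mul_cancel x := Subtype.ext (by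
    change x.2.2.choose * e * x.1 = e
    rw [mul_right_comm, mul_comm _ x.1, x.2.2.choose_spec, he])

theorem Gp.mul_val {R : Type*} [CommMonoid R] {e : R} (he : e * e = e) (x y : Gp e) :
    (letI := Gp.grp he; x * y).1 = x.1 * y.1 := rfl

theorem Gp.pow_val {R : Type*} [CommMonoid R] {e : R} (he : e * e = e) (x : Gp e) (n : ℕ) :
    (letI := Gp.grp he; x ^ n).1 = x.1 ^ n * e := by
  letI := Gp.grp he
  induction n with
  | zero =>
    rw [pow_zero, pow_zero, one_mul]
    rfl
  | succ n ih =>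
    rw [pow_succ]
    change (x ^ n).1 * x.1 = _
    rw [ih, pow_succ, mul_right_comm]

theorem Gp.prod_val {R : Type*} [CommMonoid R] {e : R} (he : e * e = e) (P : ℕ → Gp e) (L : ℕ) :
    (letI := Gp.grp he; ((List.range L).map P).prod).1 = (∏ i ∈ range L, (P i).1) * e := by
  letI := Gp.grp he
  induction L with
  | zero =>
    rw [range_zero, prod_empty, one_mul, List.range_zero, List.map_nil, List.prod_nil]
    rfl
  | succ L ih =>
    rw [List.range_succ, List.map_append, List.prod_append, List.map_singleton,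
      List.prod_singleton, prod_range_succ]
    change ((List.range L).map P).prod.1 * (P L).1 = _
    rw [ih, mul_right_comm]

/-- powers of an element of a finite ring are eventually in a group; the pigeonhole principle
gives the bound -/
theorem exists_pow_eq {R : Type*} [CommRing R] [Finite R] (u : R) {k : ℕ}
    (hk : Nat.card R < 2 ^ k) : ∃ s, u ^ k = u ^ (k + 1) * s := by
  classical
  have : Fintype R := Fintype.ofFinite R
  obtain ⟨S, hS, T, hT, hne, hST⟩ := Finset.exists_ne_map_eq_of_card_lt_of_maps_to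
    (s := (range k).powerset) (t := (univ : Finset R)) (f := fun S => ∑ i ∈ S, u ^ i)
    (by rw [card_powerset, card_range, card_univ, ← Nat.card_eq_fintype_card]; exact hk)
    (fun _ _ => mem_coe.2 (mem_univ _))
  rw [mem_powerset] at hS hT
  have hne2 : (symmDiff S T).Nonempty := by
    rw [nonempty_iff_ne_empty]
    intro h
    exact hne (symmDiff_eq_bot.1 h)
  obtain ⟨j, hj, hjm⟩ : ∃ j ∈ symmDiff S T, ∀ i ∈ symmDiff S T, j ≤ i :=
    ⟨_, min'_mem _ hne2, fun i hi => min'_le _ i hi⟩
  have hjk : j < k := by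
    rcases mem_symmDiff.1 hj with h | h
    · exact mem_range.1 (hS h.1)
    · exact mem_range.1 (hT h.1)
  -- the sum over a set of larger exponents
  have hsum : ∀ U : Finset ℕ, (∀ i ∈ U, j < i) → ∃ s, ∑ i ∈ U, u ^ i = u ^ (j + 1) * s := by
    intro U hU
    refine ⟨∑ i ∈ U, u ^ (i - (j + 1)), ?_⟩
    rw [mul_sum]
    refine sum_congr rfl fun i hi => ?_
    rw [← pow_add]
    congr 1
    have := hU i hi
    omega
  have key : ∀ S T : Finset ℕ, j ∈ S → j ∉ T → (∀ i ∈ symmDiff S T, j ≤ i) →
      ∑ i ∈ S, u ^ i = ∑ i ∈ T, u ^ i → ∃ s, u ^ j = u ^ (j + 1) * s := by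
    intro S T hjS hjT hm h
    obtain ⟨a, ha⟩ := hsum ((S \ T).erase j) (by
      intro i hi
      rw [mem_erase] at hi
      have := hm i (mem_symmDiff.2 (Or.inl (mem_sdiff.1 hi.2)))
      omega)
    obtain ⟨b, hb⟩ := hsum (T \ S) (by
      intro i hi
      have h1 := hm i (mem_symmDiff.2 (Or.inr (mem_sdiff.1 hi)))
      have h2 : i ≠ j := by
        rintro rfl
        exact hjT (mem_sdiff.1 hi).1
      omega)
    have h1 : ∑ i ∈ S \ T, u ^ i = ∑ i ∈ T \ S, u ^ i := by
      have e1 := sum_inter_add_sum_sdiff S T (fun i => u ^ i)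
      have e2 := sum_inter_add_sum_sdiff T S (fun i => u ^ i)
      rw [inter_comm] at e2
      have e3 := e1.trans (h.trans e2.symm)
      exact add_left_cancel e3
    have hj2 : j ∈ S \ T := mem_sdiff.2 ⟨hjS, hjT⟩
    rw [← add_sum_erase _ _ hj2, ha, hb] at h1
    refine ⟨b - a, ?_⟩
    rw [mul_sub, ← h1]
    ring
  have hjj : ∃ s, u ^ j = u ^ (j + 1) * s := by
    rcases mem_symmDiff.1 hj with h | h
    · exact key S T h.1 h.2 hjm hST
    · refine key T S h.1 h.2 ?_ hST.symm
      rw [symmDiff_comm]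
      exact hjm
  obtain ⟨s, hs⟩ := hjj
  refine ⟨s, ?_⟩
  obtain ⟨l, rfl⟩ := Nat.exists_eq_add_of_lt hjk
  calc u ^ (j + l + 1) = u ^ j * u ^ (l + 1) := by ring
    _ = u ^ (j + 1) * s * u ^ (l + 1) := by rw [← hs]
    _ = _ := by ring

theorem exists_idem {R : Type*} [CommRing R] [Finite R] (u : R) {k : ℕ}
    (hk : Nat.card R < 2 ^ k) : ∃ e, e * e = e ∧ u ^ k * e = u ^ k ∧ ∃ y, u ^ k * y = e := by
  obtain ⟨s, hs⟩ := exists_pow_eq u hk
  have h1 : ∀ i, u ^ k = u ^ (k + i) * s ^ i := by
    intro i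
    induction i with
    | zero => simp
    | succ i ih =>
      calc u ^ k = u ^ (k + 1) * s := hs
        _ = u ^ k * (u * s) := by ring
        _ = u ^ (k + i) * s ^ i * (u * s) := by rw [← ih]
        _ = _ := by ring
  have h2 := h1 k
  refine ⟨u ^ k * s ^ k, ?_, ?_, s ^ k, rfl⟩
  · calc u ^ k * s ^ k * (u ^ k * s ^ k) = u ^ (k + k) * s ^ k * s ^ k := by ring
      _ = _ := by rw [← h2]
  · calc u ^ k * (u ^ k * s ^ k) = u ^ (k + k) * s ^ k := by ring
      _ = _ := h2.symm

theorem idem_unique {R : Type*} [CommMonoid R] {w e f : R} (he : w * e = w) (he2 : ∃ y, w * y = e)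
    (hf : w * f = w) (hf2 : ∃ y, w * y = f) : e = f := by
  obtain ⟨y, hy⟩ := he2
  obtain ⟨z, hz⟩ := hf2
  calc e = w * y := hy.symm
    _ = w * f * y := by rw [hf]
    _ = e * f := by rw [mul_right_comm, hy]
    _ = e * (w * z) := by rw [hz]
    _ = w * e * z := by rw [mul_left_comm, mul_assoc]
    _ = f := by rw [he, hz]

end Pool.Agent.LinU
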