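import Pool.Agent.LinU.P4
import Pool.Agent.LinU.P5A

/-!
# Codes of the elements of `(ℤ/m)[X]/(mu)`
-/

set_option autoImplicit false

namespace Pool.Agent.LinU

open Finset Polynomial Pool.Agent.Grz Pool.Agent.GAvg Pool.Agent.PTr Pool.Agent.MTr
open Pool.Agent.LPC Pool.Agent.ECD

theorem coeff_pol (A : Type*) [CommRing A] (m d z j : ℕ) :
    (pol A m d z).coeff j = if j < d then (dg m z j : A) else 0 := by
  rw [pol, finsetSum_coeff]
  simp only [coeff_C_mul_X_pow]
  split_ifs with h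
  · rw [sum_eq_single_of_mem j (mem_range.2 h)]
    · rw [if_pos rfl]
    · intro i _ hi
      rw [if_neg hi.symm]
  · refine sum_eq_zero fun i hi => ?_
    rw [if_neg]
    rintro rfl
    exact h (mem_range.1 hi)

theorem degree_pol_lt (A : Type*) [CommRing A] (m d z : ℕ) : (pol A m d z).degree < d := by
  rw [degree_lt_iff_coeff_zero]
  intro j hj
  rw [coeff_pol, if_neg (not_lt.2 hj)]

theorem cde_lt_aux {m d : ℕ} (hm : 2 ≤ m) (f : (ZMod m)[X]) : cde d f < m ^ d := by
  have : NeZero m := ⟨by omega⟩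
  exact lt_code (by omega) (fun i => (f.coeff i).val) fun i _ => ZMod.val_lt _

theorem dg_cde_aux {m d i : ℕ} (hm : 2 ≤ m) (f : (ZMod m)[X]) (hi : i < d) :
    dg m (cde d f) i = (f.coeff i).val := by
  have : NeZero m := ⟨by omega⟩
  exact dg_code (by omega) (fun i => (f.coeff i).val) (fun i _ => ZMod.val_lt _) hi

theorem pol_cde_aux {m d : ℕ} (hm : 2 ≤ m) {f : (ZMod m)[X]} (hf : f.degree < d) :
    pol (ZMod m) m d (cde d f) = f := by
  have : NeZero m := ⟨by omega⟩
  ext j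
  rw [coeff_pol]
  split_ifs with h
  · rw [dg_cde_aux hm f h, ZMod.natCast_val, ZMod.cast_id]
  · exact ((degree_lt_iff_coeff_zero f d).1 hf j (not_lt.1 h)).symm

theorem cde_pol_aux {m d z : ℕ} (hm : 2 ≤ m) (hz : z < m ^ d) :
    cde d (pol (ZMod m) m d z) = z := by
  refine dg_ext (cde_lt_aux hm _) hz fun i hi => ?_
  rw [dg_cde_aux hm _ hi, coeff_pol, if_pos hi, ZMod.val_natCast,
    Nat.mod_eq_of_lt (dg_lt (by omega) z i)]

/-- the ring `(ℤ/m)[X]/(mu)` -/
abbrev RR (m d c : ℕ) : Type := AdjoinRoot (mu (ZMod m) m d c)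

/-- the code of an element -/
noncomputable def en {m d c : ℕ} (x : RR m d c) : ℕ :=
  cde d (AdjoinRoot.modByMonicHom (mu_monic (ZMod m) m d c) x)

/-- the element with the code `z` -/
noncomputable def de (m d c z : ℕ) : RR m d c :=
  AdjoinRoot.mk _ (pol (ZMod m) m d z)

theorem en_mk {m d c : ℕ} (f : (ZMod m)[X]) :
    en (AdjoinRoot.mk (mu (ZMod m) m d c) f) = cde d (f %ₘ mu (ZMod m) m d c) := by
  rw [en, AdjoinRoot.modByMonicHom_mk]

theorem degree_rem {m d c : ℕ} (hm : 2 ≤ m) (f : (ZMod m)[X]) :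
    (f %ₘ mu (ZMod m) m d c).degree < d := by
  have : Fact (1 < m) := ⟨by omega⟩
  have h1 := degree_modByMonic_lt f (mu_monic (ZMod m) m d c)
  rwa [degree_eq_natDegree (mu_monic (ZMod m) m d c).ne_zero, natDegree_mu] at h1

theorem de_en {m d c : ℕ} (hm : 2 ≤ m) (x : RR m d c) : de m d c (en x) = x := by
  obtain ⟨f, rfl⟩ := AdjoinRoot.mk_surjective x
  rw [en_mk, de, pol_cde_aux hm (degree_rem hm f)]
  have h := AdjoinRoot.mk_leftInverse (mu_monic (ZMod m) m d c) (AdjoinRoot.mk _ f)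
  rwa [AdjoinRoot.modByMonicHom_mk] at h

theorem en_lt {m d c : ℕ} (hm : 2 ≤ m) (x : RR m d c) : en x < m ^ d := cde_lt_aux hm _

theorem en_inj {m d c : ℕ} (hm : 2 ≤ m) {x y : RR m d c} (h : en x = en y) : x = y := by
  rw [← de_en hm x, h, de_en hm y]

theorem en_de {m d c z : ℕ} (hm : 2 ≤ m) (hz : z < m ^ d) : en (de m d c z) = z := by
  have : Fact (1 < m) := ⟨by omega⟩
  rw [de, en_mk, (modByMonic_eq_self_iff (mu_monic (ZMod m) m d c)).2, cde_pol_aux hm hz]
  rw [degree_eq_natDegree (mu_monic (ZMod m) m d c).ne_zero, natDegree_mu]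
  exact degree_pol_lt _ _ _ _

theorem finite_RR {m d c : ℕ} (hm : 2 ≤ m) : Finite (RR m d c) ∧ Nat.card (RR m d c) ≤ m ^ d := by
  have hinj : Function.Injective (fun x : RR m d c => (⟨en x, en_lt hm x⟩ : Fin (m ^ d))) :=
    fun x y h => en_inj hm (Fin.mk.inj h)
  have hf : Finite (RR m d c) := Finite.of_injective _ hinj
  refine ⟨hf, ?_⟩
  have h := Nat.card_le_card_of_injective _ hinj
  rwa [Nat.card_fin] at h

theorem dfun_of_eq {n : ℕ} {f g : (Fin n → ℕ) → ℕ} (hf : DFun n f) (h : ∀ v, f v = g v) :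
    DFun n g := (funext h : f = g) ▸ hf

variable {n : ℕ} {m d c B : (Fin n → ℕ) → ℕ}

/-- short products are definable -/
theorem rprod_def (hm : DFun n m) (hd : DFun n d) (hc : DFun n c) (hB : DFun n B)
    (h2 : ∀ v, 2 ≤ m v) (hmd : ∀ v, m v ^ d v ≤ B v) {L M : (Fin n → ℕ) → ℕ}
    (hL : DFun n L) (hM : DFun n M) (hLM : ∀ v, L v ≤ lg (M v) + 1)
    {P : ∀ v, ℕ → RR (m v) (d v) (c v)}
    (hP : DFun (n + 1) (fun w => en (P (fun i => w i.succ) (w 0)))) :
    DFun n (fun v => en (∏ i ∈ range (L v), P v i)) := by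
  have h := prod_def hm hd hc hB hL hM (z := fun i v => en (P v i)) hP h2 hmd hLM
  refine (?_ : (fun v => _) = fun v => en (∏ i ∈ range (L v), P v i)) ▸ h
  funext v
  rw [← en_mk, map_prod]
  congr 1
  refine prod_congr rfl fun i _ => ?_
  exact de_en (h2 v) (P v i)

theorem rde_def (hm : DFun n m) (hd : DFun n d) (hc : DFun n c) (hB : DFun n B)
    (h2 : ∀ v, 2 ≤ m v) (hmd : ∀ v, m v ^ d v ≤ B v) {z : (Fin n → ℕ) → ℕ} (hz : DFun n z) :
    DFun n (fun v => en (de (m v) (d v) (c v) (z v))) := by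
  have h := prod_def hm hd hc hB (L := fun _ => 1) (M := fun _ => 1) (DFun.const 1) (DFun.const 1)
    (z := fun _ v => z v) hz.weak h2 hmd (fun _ => Nat.succ_pos _)
  refine (?_ : (fun v => _) = fun v => en (de (m v) (d v) (c v) (z v))) ▸ h
  funext v
  rw [← en_mk, prod_range_one]
  rfl

theorem rmul_def (hm : DFun n m) (hd : DFun n d) (hc : DFun n c) (hB : DFun n B)
    (h2 : ∀ v, 2 ≤ m v) (hmd : ∀ v, m v ^ d v ≤ B v)
    {x y : ∀ v, RR (m v) (d v) (c v)} (hx : DFun n (fun v => en (x v)))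
    (hy : DFun n (fun v => en (y v))) : DFun n (fun v => en (x v * y v)) := by
  have h1 : lg 2 = 1 := by
    have h := Nat.log_pow (b := 2) (by norm_num) 1
    exact h
  have hP : DFun (n + 1) (fun w => en (if w 0 = 0 then x (fun i => w i.succ) else
      y (fun i => w i.succ))) :=
    dfun_of_eq (DFun.ite (Delta0.eqFun (DFun.proj 0) (DFun.const 0)) hx.weak hy.weak) (by
      intro w
      split_ifs <;> rfl)
  have h := rprod_def hm hd hc hB h2 hmd (L := fun _ => 2) (M := fun _ => 2) (DFun.const 2)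
    (DFun.const 2) (fun _ => by rw [h1])
    (P := fun v i => if i = 0 then x v else y v) hP
  refine dfun_of_eq h fun v => ?_
  rw [prod_range_succ, prod_range_one, if_pos rfl, if_neg one_ne_zero]

end Pool.Agent.LinU
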