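import Pool.Agent.LinU.P7a

/-!
# Package LinU-P7b: digits of the orbit, bounds for the degree `e`
-/

set_option autoImplicit false

namespace Pool.Agent.LinU

open Finset Polynomial Module

theorem orbit_lt {q N x : ℕ} {T : ℕ → ℕ} (hTb : ∀ z, z < q ^ N → T z < q ^ N) (hx : x < q ^ N)
    (t : ℕ) : T^[t] x < q ^ N := by
  induction t with
  | zero => exact hx
  | succ t ih =>
    rw [Function.iterate_succ_apply']
    exact hTb _ ih

theorem orbit_vec {q N x : ℕ} {T : ℕ → ℕ} (hTb : ∀ z, z < q ^ N → T z < q ^ N) (hx : x < q ^ N)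
    {A : Module.End (ZMod q) (Fin N → ZMod q)}
    (hA : ∀ z, z < q ^ N → vecOf q N (T z) = A (vecOf q N z)) (t : ℕ) :
    vecOf q N (T^[t] x) = (A ^ t) (vecOf q N x) := by
  induction t with
  | zero => rfl
  | succ t ih =>
    rw [Function.iterate_succ_apply', hA _ (orbit_lt hTb hx t), ih, pow_succ']
    rfl

/-- the code of the orbit in terms of its digits -/
theorem orbit_code {q N x : ℕ} {T : ℕ → ℕ} (hTb : ∀ z, z < q ^ N → T z < q ^ N) (hx : x < q ^ N)
    (t : ℕ) : T^[t] x = ∑ j ∈ range N, dg q (T^[t] x) j * q ^ j :=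
  (code_dg (orbit_lt hTb hx t)).symm

/-- Every good pair gives the digit `j` on the orbit, `q` a power of the prime `p`. -/
theorem good_digit_pp {p k q N e x j ν P : ℕ} {T : ℕ → ℕ} (hp : p.Prime) (hk : 0 < k)
    (hqp : q = p ^ k) (he : 1 ≤ e) (hc : 3 * N ≤ p ^ e)
    {A : Module.End (ZMod q) (Fin N → ZMod q)} (hTb : ∀ z, z < q ^ N → T z < q ^ N)
    (hA : ∀ z, z < q ^ N → vecOf q N (T z) = A (vecOf q N z)) (hx : x < q ^ N) (hj : j < N)
    (hν : ν < q ^ N) (hP : P < q ^ N) (h : GoodN q N e x T j ν P) (t : ℕ) :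
    dg q (T^[t] x) j =
      dg q (cde N ((X ^ t * pol (ZMod q) q N P) %ₘ mu (ZMod q) q N ν)) (N - 1) := by
  have hq : 2 ≤ q := by
    rw [hqp]
    exact hp.two_le.trans (Nat.le_self_pow hk.ne' p)
  have h1 := good_coeff_pp hp hk hqp he hc hA hj hν hP h t
  rw [← orbit_vec hTb hx hA] at h1
  have h2 : ((dg q (T^[t] x) j : ℕ) : ZMod q) =
      ((X ^ t * pol (ZMod q) q N P) %ₘ mu (ZMod q) q N ν).coeff (N - 1) := h1
  rw [dg_cde hq _ (by omega : N - 1 < N), ← h2, ZMod.val_natCast_of_lt]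
  exact dg_lt (by omega) _ _

/-- The bound for the number of bits: `e` is the least number `≥ 1` with `3 N ≤ p ^ e`. -/
theorem e_bound {p k q N e B : ℕ} (hp : p.Prime) (hqp : q = p ^ k) (hN : 1 ≤ N)
    (hB : (q * N ^ k) ^ N ≤ B) (he : e = 1 ∨ p ^ (e - 1) < 3 * N) (he1 : 1 ≤ e) :
    (q ^ N) ^ e ≤ B ^ 3 ∧ q ^ e ≤ B ^ 3 ∧ e ≤ 3 * N + 1 := by
  have hq0 : 0 < q := by
    rw [hqp]
    exact pow_pos hp.pos k
  have hqN : q ^ N ≤ B := by
    refine le_trans (Nat.pow_le_pow_left ?_ N) hB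
    exact Nat.le_mul_of_pos_right q (pow_pos (by omega) k)
  have hB1 : 1 ≤ B := (Nat.one_le_pow _ _ hq0).trans hqN
  have hmain : (q ^ N) ^ e ≤ B ^ 3 := by
    rcases he with h | h
    · subst h
      rw [pow_one]
      exact hqN.trans (Nat.le_self_pow (by norm_num) B)
    · have h1 : q ^ e ≤ 3 ^ k * (q * N ^ k) := by
        have e1 : q ^ e = (p ^ (e - 1)) ^ k * q := by
          conv_rhs => rw [hqp]
          rw [← pow_mul, ← pow_add, hqp, ← pow_mul]
          congr 1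
          obtain ⟨e', rfl⟩ : ∃ e', e = e' + 1 := ⟨e - 1, by omega⟩
          rw [Nat.add_sub_cancel]
          ring
        rw [e1]
        calc (p ^ (e - 1)) ^ k * q ≤ (3 * N) ^ k * q :=
              Nat.mul_le_mul_right _ (Nat.pow_le_pow_left h.le k)
          _ = 3 ^ k * (q * N ^ k) := by rw [mul_pow]; ring
      have h2 : 3 ^ (k * N) ≤ B ^ 2 := by
        calc 3 ^ (k * N) ≤ (2 ^ 2) ^ (k * N) := Nat.pow_le_pow_left (by norm_num) _
          _ = (2 ^ (k * N)) ^ 2 := by rw [← pow_mul, ← pow_mul, mul_comm]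
          _ ≤ (p ^ (k * N)) ^ 2 := Nat.pow_le_pow_left (Nat.pow_le_pow_left hp.two_le _) 2
          _ = (q ^ N) ^ 2 := by rw [hqp, ← pow_mul p k N]
          _ ≤ B ^ 2 := Nat.pow_le_pow_left hqN 2
      calc (q ^ N) ^ e = (q ^ e) ^ N := by rw [← pow_mul, ← pow_mul, mul_comm]
        _ ≤ (3 ^ k * (q * N ^ k)) ^ N := Nat.pow_le_pow_left h1 N
        _ = 3 ^ (k * N) * (q * N ^ k) ^ N := by rw [mul_pow, ← pow_mul]
        _ ≤ B ^ 2 * B := Nat.mul_le_mul h2 hB
        _ = B ^ 3 := by ring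
  refine ⟨hmain, ?_, ?_⟩
  · have h3 : q ^ e ≤ (q ^ e) ^ N := Nat.le_self_pow (by omega) _
    refine h3.trans (le_trans (le_of_eq ?_) hmain)
    rw [← pow_mul, ← pow_mul, mul_comm]
  · rcases he with h | h
    · omega
    · have h4 : e - 1 < p ^ (e - 1) := Nat.lt_pow_self hp.one_lt
      omega

end Pool.Agent.LinU
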