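import Pool.Agent.ECD.GPow
import Pool.Agent.ECD.DvdDef
import Pool.Agent.ECD.PowMod
import Pool.Agent.PtC.ProdPoly

/-!
# Iteration of affine maps in unbounded dimension: definitions
-/

set_option autoImplicit false

namespace Pool.Agent.LinU

open Finset Polynomial

/-- the digit `i` of `z` to the base `m` -/
def dg (m z i : ℕ) : ℕ := z / m ^ i % m

/-- the polynomial of degree `< d` whose coefficients are the digits of `z` to the base `m` -/
noncomputable def pol (A : Type*) [CommRing A] (m d z : ℕ) : A[X] :=
  ∑ i ∈ range d, C (dg m z i : A) * X ^ i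

/-- the monic polynomial of degree `d` whose lower coefficients are the digits of `c` -/
noncomputable def mu (A : Type*) [CommRing A] (m d c : ℕ) : A[X] := X ^ d + pol A m d c

/-- the polynomial `mu` with the coefficients in reverse order -/
noncomputable def mus (A : Type*) [CommRing A] (m d c : ℕ) : A[X] :=
  1 + ∑ i ∈ range d, C (dg m c i : A) * X ^ (d - i)

/-- `1 / mus` modulo `X ^ (D + 1)` -/
noncomputable def hs (A : Type*) [CommRing A] (m d c D : ℕ) : A[X] :=
  ∑ i ∈ range (D + 1), (1 - mus A m d c) ^ i

/-- the code of the coefficients of index `< d` of a polynomial over `ℤ/m` -/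
noncomputable def cde {m : ℕ} (d : ℕ) (f : (ZMod m)[X]) : ℕ :=
  ∑ i ∈ range d, (f.coeff i).val * m ^ i

/-- the vector coded by the digits of `z` to the base `p` -/
def vecOf (p N z : ℕ) : Fin N → ZMod p := fun i => (dg p z i : ZMod p)

end Pool.Agent.LinU
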