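import Pool.Agent.LinU.Defs

/-!
# Package LinU-PD: digits to a variable base

* `dfun_powLe`: if `m v ^ i v ≤ B v` then `v ↦ m v ^ i v` is in `DFun`.
* `delta_powLe`: `{v : m v ^ i v ≤ z v}` is in `Delta0`, for `2 ≤ m v`.
* `dfun_dg`: digits.
* `dfun_code`: numbers with given digits.
* `lt_code`, `dg_code`, `code_dg`, `dg_ext`: arithmetic of digits.
-/

set_option autoImplicit false

namespace Pool.Agent.LinU

open Finset Pool.Agent.Grz Pool.Agent.GAvg Pool.Agent.PTr Pool.Agent.MTr Pool.Agent.LPC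
open Pool.Agent.ECD

variable {n : ℕ}

theorem dg_lt {m : ℕ} (hm : 0 < m) (z i : ℕ) : dg m z i < m := Nat.mod_lt _ hm

private theorem PD_dg_eq (m z i : ℕ) : dg m z i = Pool.Agent.GAvg.dig m z i := rfl

theorem lt_code {m d : ℕ} (hm : 0 < m) (g : ℕ → ℕ) (hg : ∀ i < d, g i < m) :
    ∑ i ∈ range d, g i * m ^ i < m ^ d := sum_lt hm g hg

theorem dg_code {m d : ℕ} (hm : 0 < m) (g : ℕ → ℕ) (hg : ∀ i < d, g i < m) {j : ℕ} (hj : j < d) :
    dg m (∑ i ∈ range d, g i * m ^ i) j = g j := dig_sum hm g hg hj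

theorem code_dg {m d z : ℕ} (hz : z < m ^ d) : ∑ i ∈ range d, dg m z i * m ^ i = z := sum_dig hz

theorem dg_ext {m d x y : ℕ} (hx : x < m ^ d) (hy : y < m ^ d)
    (h : ∀ i < d, dg m x i = dg m y i) : x = y := dig_ext hx hy h

theorem le_lg_of_pow_le {m d B : ℕ} (hm : 2 ≤ m) (h : m ^ d ≤ B) : d ≤ lg B :=
  Nat.le_log_of_pow_le (by norm_num) ((Nat.pow_le_pow_left hm d).trans h)

theorem dfun_powLe {m i B : (Fin n → ℕ) → ℕ} (hm : DFun n m) (hi : DFun n i) (hB : DFun n B)
    (h : ∀ v, m v ^ i v ≤ B v) : DFun n (fun v => m v ^ i v) := by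
  classical
  obtain ⟨S, hSdef⟩ : ∃ S : (Fin n → ℕ) → ℕ, S = fun v => if m v ≤ 1 then 0 else i v := ⟨_, rfl⟩
  have hS : DFun n S := by
    rw [hSdef]
    exact DFun.ite (Delta0.leFun hm (DFun.const 1)) (DFun.const 0) hi
  have hprod : DFun n (fun v => ∏ j ∈ range (S v), (fun (_ : ℕ) (v : Fin n → ℕ) => m v) j v) := by
    refine Pool.Agent.PtC.dfun_prodPoly 1 (N := fun v => B v) (B := fun v => B v + 1) hm.weak hS hB
      (hB.add (DFun.const 1)) ?_ ?_
    · intro v
      rw [hSdef, pow_one]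
      by_cases hv : m v ≤ 1
      · simp [hv]
      · simp only [hv, if_false]
        exact (le_lg_of_pow_le (by omega) (h v)).trans (Nat.le_succ _)
    · intro v
      rw [prod_const, card_range, hSdef]
      by_cases hv : m v ≤ 1
      · simp [hv]
      · simp only [hv, if_false]
        exact (h v).trans (Nat.le_succ _)
  have h1 := DFun.ite (Delta0.leFun hm (DFun.const 1))
    (DFun.ite (Delta0.leFun hi (DFun.const 0)) (DFun.const 1) hm) hprod
  have h2 : (fun v => m v ^ i v) = fun v => if m v ≤ 1 then (if i v ≤ 0 then 1 else m v) else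
      ∏ j ∈ range (S v), (fun (_ : ℕ) (v : Fin n → ℕ) => m v) j v := by
    funext v
    by_cases hv : m v ≤ 1
    · rw [if_pos hv]
      by_cases hv' : i v ≤ 0
      · rw [if_pos hv', Nat.le_zero.1 hv', pow_zero]
      · rw [if_neg hv']
        have h3 : m v = 0 ∨ m v = 1 := by omega
        rcases h3 with h3 | h3
        · rw [h3, zero_pow (by omega)]
        · rw [h3, one_pow]
    · rw [if_neg hv, prod_const, card_range, hSdef]
      simp only [hv, if_false]
  rw [h2]
  exact h1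

theorem delta_powLe {m i z : (Fin n → ℕ) → ℕ} (hm : DFun n m) (hi : DFun n i) (hz : DFun n z)
    (h2 : ∀ v, 2 ≤ m v) : Delta0 n (fun v => m v ^ i v ≤ z v) := by
  have hM : DFun n (fun v => 2 * ((lg (m v) + 1) * (lg (z v) + 1) + 1)) :=
    (DFun.const 2).mul ((((DFun.lg hm).add (DFun.const 1)).mul
      ((DFun.lg hz).add (DFun.const 1))).add (DFun.const 1))
  -- the graph of the power
  have hP : Delta0 (n + 1 + 1) (fun w => (fun (t : ℕ) (u : Fin (n + 1) → ℕ) =>
      u 0 % (t + 1) = m (fun l => u l.succ) ^ i (fun l => u l.succ) % (t + 1)) (w 0)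
        (fun l => w l.succ)) :=
    Delta0.eqFun ((DFun.proj (Fin.succ 0)).mod (DFun.proj 0))
      (pow_mod_def hm.weak.weak hi.weak.weak ((DFun.proj 0).add (DFun.const 1))
        (fun u => Nat.succ_pos _))
  have hQ : Delta0 (n + 1) (fun u => ∀ t, t ≤ 2 * ((lg (m (fun l => u l.succ)) + 1) *
      (lg (z (fun l => u l.succ)) + 1) + 1) →
      u 0 % (t + 1) = m (fun l => u l.succ) ^ i (fun l => u l.succ) % (t + 1)) :=
    Delta0.ballFun (n := n + 1) (b := fun u => 2 * ((lg (m (fun l => u l.succ)) + 1) *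
      (lg (z (fun l => u l.succ)) + 1) + 1)) (P := fun (t : ℕ) (u : Fin (n + 1) → ℕ) =>
      u 0 % (t + 1) = m (fun l => u l.succ) ^ i (fun l => u l.succ) % (t + 1)) hM.weak hP
  have hE : Delta0 n (fun v => ∃ y, y ≤ z v ∧ (fun (y : ℕ) (v : Fin n → ℕ) =>
      ∀ t, t ≤ 2 * ((lg (m v) + 1) * (lg (z v) + 1) + 1) →
        y % (t + 1) = m v ^ i v % (t + 1)) y v) :=
    Delta0.bexFun (n := n) (b := z) (P := fun (y : ℕ) (v : Fin n → ℕ) =>
      ∀ t, t ≤ 2 * ((lg (m v) + 1) * (lg (z v) + 1) + 1) →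
        y % (t + 1) = m v ^ i v % (t + 1)) hz hQ
  refine ((Delta0.leFun hi (DFun.lg hz)).and hE).of_iff ?_
  intro v
  constructor
  · intro h
    exact ⟨le_lg_of_pow_le (h2 v) h, m v ^ i v, h, fun t _ => rfl⟩
  · rintro ⟨h3, y, hy, h4⟩
    have h5 : y < 2 ^ ((lg (m v) + 1) * (lg (z v) + 1) + 1) := by
      have h6 := lt_two_pow_lg (z v)
      have h7 : 2 ^ (lg (z v) + 1) ≤ 2 ^ ((lg (m v) + 1) * (lg (z v) + 1) + 1) := by
        apply Nat.pow_le_pow_right (by norm_num)
        nlinarith [Nat.zero_le (lg (m v) * (lg (z v) + 1))]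
      omega
    have h8 : m v ^ i v < 2 ^ ((lg (m v) + 1) * (lg (z v) + 1) + 1) := by
      have h9 : m v ^ i v ≤ (2 ^ (lg (m v) + 1)) ^ i v :=
        Nat.pow_le_pow_left (lt_two_pow_lg (m v)).le _
      have h10 : (2 ^ (lg (m v) + 1)) ^ i v = 2 ^ ((lg (m v) + 1) * i v) := by rw [← pow_mul]
      have h11 : (lg (m v) + 1) * i v ≤ (lg (m v) + 1) * (lg (z v) + 1) :=
        Nat.mul_le_mul_left _ (h3.trans (Nat.le_succ _))
      have h12 : 2 ^ ((lg (m v) + 1) * i v) ≤ 2 ^ ((lg (m v) + 1) * (lg (z v) + 1)) :=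
        Nat.pow_le_pow_right (by norm_num) h11
      have h13 : 2 ^ ((lg (m v) + 1) * (lg (z v) + 1)) <
          2 ^ ((lg (m v) + 1) * (lg (z v) + 1) + 1) :=
        Nat.pow_lt_pow_right (by norm_num) (by omega)
      omega
    have h14 : y = m v ^ i v := by
      refine eq_of_mod_all (Nat.succ_pos _) h5 h8 fun d hd1 hd2 => ?_
      have h15 := h4 (d - 1) (by omega)
      rwa [Nat.sub_add_cancel hd1] at h15
    rw [← h14]
    exact hy

theorem dfun_dg {m z i : (Fin n → ℕ) → ℕ} (hm : DFun n m) (hz : DFun n z) (hi : DFun n i)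
    (h2 : ∀ v, 2 ≤ m v) : DFun n (fun v => dg (m v) (z v) (i v)) := by
  classical
  have hle := delta_powLe hm hi hz h2
  have hj : DFun n (fun v => if m v ^ i v ≤ z v then i v else 0) :=
    DFun.ite hle hi (DFun.const 0)
  have hp : DFun n (fun v => m v ^ (if m v ^ i v ≤ z v then i v else 0)) := by
    refine dfun_powLe hm hj (hz.add (DFun.const 1)) fun v => ?_
    split_ifs with h
    · omega
    · simp
  have hd : DFun n (fun v => z v / m v ^ (if m v ^ i v ≤ z v then i v else 0) % m v) :=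
    DFun.modPos (DFun.divPos hz hp fun v => pow_pos (by have := h2 v; omega) _) hm
      fun v => by have := h2 v; omega
  have h1 := DFun.ite hle hd (DFun.const 0)
  have h3 : (fun v => dg (m v) (z v) (i v)) = fun v => if m v ^ i v ≤ z v then
      z v / m v ^ (if m v ^ i v ≤ z v then i v else 0) % m v else 0 := by
    funext v
    by_cases hv : m v ^ i v ≤ z v
    · rw [if_pos hv, if_pos hv]
      rfl
    · rw [if_neg hv, dg, Nat.div_eq_of_lt (by omega), Nat.zero_mod]
  rw [h3]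
  exact h1

theorem dfun_code {m d B : (Fin n → ℕ) → ℕ} {g : ℕ → (Fin n → ℕ) → ℕ} (hm : DFun n m)
    (hd : DFun n d) (hB : DFun n B) (hg : DFun (n + 1) (fun w => g (w 0) (fun i => w i.succ)))
    (h2 : ∀ v, 2 ≤ m v) (hmd : ∀ v, m v ^ d v ≤ B v) :
    DFun n (fun v => ∑ i ∈ range (d v), g i v * m v ^ i) := by
  have hp : DFun (n + 1) (fun w => m (fun l => w l.succ) ^ min (w 0) (d (fun l => w l.succ))) := by
    refine dfun_powLe hm.weak ((DFun.proj 0).min hd.weak) hB.weak fun w => ?_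
    exact (Nat.pow_le_pow_right (by have := h2 (fun l => w l.succ); omega)
      (min_le_right _ _)).trans (hmd _)
  have hG : DFun (n + 1) (fun w => (fun (i : ℕ) (v : Fin n → ℕ) => g i v * m v ^ min i (d v))
      (w 0) (fun i => w i.succ)) := hg.mul hp
  have h1 := dfun_sumPoly 1 (N := B)
    (g := fun (i : ℕ) (v : Fin n → ℕ) => g i v * m v ^ min i (d v)) hG hd hB (fun v => by
      rw [pow_one]
      exact (le_lg_of_pow_le (h2 v) (hmd v)).trans (Nat.le_succ _))
  have h3 : (fun v => ∑ i ∈ range (d v), g i v * m v ^ i) =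
      fun v => ∑ i ∈ range (d v), (fun (i : ℕ) (v : Fin n → ℕ) => g i v * m v ^ min i (d v)) i v := by
    funext v
    refine sum_congr rfl fun i hi => ?_
    have h4 : min i (d v) = i := min_eq_left (mem_range.1 hi).le
    simp only [h4]
  rw [h3]
  exact h1

end Pool.Agent.LinU
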