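import Pool.Agent.LinU.Defs

/-!
# Package LinU-P0: divisibility from the residues modulo primes in a window

*Statement.* As `Pool.Agent.ECD.dvd_def`, but the residues `R q v` of `W v` are only required for the
primes `q` with `lp (N v) K₀ < q ≤ lp (N v) K₂` (`dvd_def'`), and even only for those among them that
do not divide `m v` (`dvd_def''`).

*Proof.* The proof of `dvd_def` (Pool/Agent/ECD/DvdDef.lean) with the condition
`q.Prime ∧ ¬ q ∣ m` replaced by `q.Prime ∧ ¬ q ∣ m ∧ lp (N v) K₀ < q` everywhere, and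
`Q v = 16 * (lp (N v) K + lp (N v) K₀ + lg (m v) + 4 + lg (m v) + 1) ^ 2 + 3`. The product of the
remaining primes is `≥ 2 ^ (lp (N v) K + lg (m v) + 3)`: `card_primes_ge` (PrimeCt.lean) with
`A = lp (N v) K + lp (N v) K₀ + lg (m v) + 4` gives `A` primes `< Q v` not dividing `m v`, at most
`lp (N v) K₀ + 1` of them are `≤ lp (N v) K₀`. ∎
-/

set_option autoImplicit false

namespace Pool.Agent.LinU

open Finset Pool.Agent.Grz Pool.Agent.GAvg Pool.Agent.PTr Pool.Agent.MTr Pool.Agent.LPC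
open Pool.Agent.ECD

private theorem LinP0_dvd {n : ℕ} {f g : (Fin n → ℕ) → ℕ} (hf : DFun n f) (hg : DFun n g) :
    Delta0 n (fun v => f v ∣ g v) :=
  (Delta0.eqFun (DFun.modAny hg hf) (DFun.const 0)).of_iff fun _ => Nat.dvd_iff_mod_eq_zero

private theorem LinP0_prime {n : ℕ} {f : (Fin n → ℕ) → ℕ} (hf : DFun n f) :
    Delta0 n (fun v => (f v).Prime) := by
  have h1 : Delta0 (n + 1) (fun w => w 0 < f (fun i => w i.succ) →
      w 0 ∣ f (fun i => w i.succ) → w 0 = 1) :=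
    (Delta0.ltFun (DFun.proj 0) hf.weak).imp ((LinP0_dvd (DFun.proj 0) hf.weak).imp
      (Delta0.eqFun (DFun.proj 0) (DFun.const 1)))
  refine ((Delta0.leFun (DFun.const 2) hf).and (Delta0.ballFun
    (P := fun x v => x < f v → x ∣ f v → x = 1) hf h1)).of_iff fun v => ?_
  rw [Nat.prime_def_lt]
  refine and_congr_right fun _ => ⟨fun h x _ => h x, fun h x hx => h x hx.le hx⟩

/-- the least solution -/
private theorem LinP0_find {n : ℕ} {b : (Fin n → ℕ) → ℕ} (hb : DFun n b)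
    {C : ℕ → (Fin n → ℕ) → Prop} (hC : Delta0 (n + 1) (fun w => C (w 0) (fun i => w i.succ))) :
    ∃ u : (Fin n → ℕ) → ℕ, DFun n u ∧ (∀ v, u v ≤ b v) ∧
      ∀ v, (∃ x, x ≤ b v ∧ C x v) → C (u v) v := by
  classical
  let u : (Fin n → ℕ) → ℕ := fun v => if h : ∃ x, x ≤ b v ∧ C x v then Nat.find h else 0
  have hu : ∀ v, u v ≤ b v := by
    intro v
    by_cases h : ∃ x, x ≤ b v ∧ C x v
    · simp only [u, dif_pos h]
      exact (Nat.find_spec h).1
    · simp only [u, dif_neg h]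
      exact Nat.zero_le _
  refine ⟨u, DFun.ofGraph hb hu ?_, hu, fun v h => ?_⟩
  · have h0 : DFun (n + 1) (fun w => w 0) := DFun.proj 0
    have hC2 : Delta0 (n + 1 + 1) (fun w => w 0 = w 1 ∨ ¬ C (w 0) (fun i => w i.succ.succ)) := by
      refine (Delta0.eqFun (DFun.proj 0) (DFun.proj 1)).or (Delta0.not ?_)
      have h1 := hC.rename (n := n + 1 + 1) (Fin.cons 0 fun i => i.succ.succ)
      exact h1
    have hC3 : Delta0 (n + 1 + 1) (fun w => C (w 0) (fun i => w i.succ.succ)) := by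
      have h1 := hC.rename (n := n + 1 + 1) (Fin.cons 0 fun i => i.succ.succ)
      exact h1
    have hA := ((Delta0.leFun h0 hb.weak).and hC).and
      (Delta0.ballFun (n := n + 1) (b := fun w => w 0)
        (P := fun x w => x = w 0 ∨ ¬ C x (fun i => w i.succ)) h0 hC2)
    have hB := (Delta0.eqFun h0 (DFun.const 0)).and
      (Delta0.bexFun (n := n + 1) (b := fun w => b (fun i => w i.succ))
        (P := fun x w => C x (fun i => w i.succ)) hb.weak hC3).not
    refine (hA.or hB).of_iff fun w => ?_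
    by_cases h : ∃ x, x ≤ b (fun i => w i.succ) ∧ C x (fun i => w i.succ)
    · have hu1 : u (fun i => w i.succ) = Nat.find h := dif_pos h
      rw [hu1]
      constructor
      · intro e
        rw [e]
        refine Or.inl ⟨Nat.find_spec h, fun x hx => ?_⟩
        rcases hx.lt_or_eq with h2 | h2
        · right
          intro h3
          exact Nat.find_min h h2 ⟨h2.le.trans (Nat.find_spec h).1, h3⟩
        · exact Or.inl h2
      · rintro (⟨⟨h1, h2⟩, h3⟩ | ⟨-, h2⟩)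
        · refine le_antisymm ?_ (Nat.find_min' h ⟨h1, h2⟩)
          by_contra h4
          push Not at h4
          rcases h3 _ h4.le with h5 | h5
          · exact h4.ne h5
          · exact h5 (Nat.find_spec h).2
        · exact absurd h h2
    · have hu1 : u (fun i => w i.succ) = 0 := dif_neg h
      rw [hu1]
      constructor
      · intro e
        exact Or.inr ⟨e, h⟩
      · rintro (⟨⟨h1, h2⟩, -⟩ | ⟨e, -⟩)
        · exact absurd ⟨_, h1, h2⟩ h
        · exact e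
  · simp only [u, dif_pos h]
    exact (Nat.find_spec h).2

private theorem LinP0_sol {q c : ℕ} (R : ℕ) (h : Nat.Coprime q c) (hq : 1 < q) :
    ∃ z, z ≤ q - 1 ∧ z * c % q = R % q := by
  obtain ⟨z, hz, e⟩ := Nat.exists_mul_mod_eq_of_coprime R h.symm (by omega)
  refine ⟨z, by omega, ?_⟩
  rw [mul_comm]
  exact e

private theorem LinP0_arith {m N K : ℕ} (hmN : m ≤ N) :
    16 * (lp N K + lg m + 3 + lg m + 1) ^ 2 + 3 ≤ lp N (2 * K + 11) ∧
      lp N (2 * K + 11) ≤ (lg (2 * N + 2) + 1) ^ (2 * K + 11) := by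
  have hl : lg m ≤ lg N := Nat.log_mono_right hmN
  constructor
  · unfold Pool.Agent.ECD.lp
    set L := lg N + 2 with hL
    have hL2 : 2 ≤ L := by omega
    have hx : 1 ≤ L ^ K := Nat.one_le_pow _ _ (by omega)
    have h1 : L ^ K + lg m + 3 + lg m + 1 ≤ L ^ (K + 3) := by
      have h2 : L ^ K + lg m + 3 + lg m + 1 ≤ L ^ K + 2 * L := by omega
      have h3 : L ^ K + 2 * L ≤ L ^ K * (2 * L + 1) := by nlinarith
      have h4 : 2 * L + 1 ≤ L ^ 3 := by nlinarith [sq_nonneg L]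
      have h5 := Nat.mul_le_mul_left (L ^ K) h4
      rw [pow_add]
      omega
    have h2 : (L ^ K + lg m + 3 + lg m + 1) ^ 2 ≤ (L ^ (K + 3)) ^ 2 := Nat.pow_le_pow_left h1 2
    have h3 : 1 ≤ (L ^ (K + 3)) ^ 2 := Nat.one_le_pow _ _ (Nat.pow_pos (by omega))
    have h4 : 32 ≤ L ^ 5 := by
      calc 32 = 2 ^ 5 := by norm_num
        _ ≤ L ^ 5 := Nat.pow_le_pow_left hL2 5
    have h5 : L ^ (2 * K + 11) = (L ^ (K + 3)) ^ 2 * L ^ 5 := by
      rw [← pow_mul, ← pow_add]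
      congr 1
      ring
    rw [h5]
    have h6 := Nat.mul_le_mul_left ((L ^ (K + 3)) ^ 2) h4
    omega
  · unfold Pool.Agent.ECD.lp
    refine Nat.pow_le_pow_left ?_ _
    have h1 : lg (2 * N + 2) = lg (N + 1) + 1 := by
      unfold lg
      rw [show 2 * N + 2 = (N + 1) * 2 by ring]
      exact Nat.log_mul_base (by norm_num) (by omega)
    have h2 : lg N ≤ lg (N + 1) := Nat.log_mono_right (by omega)
    omega

private theorem LinP0_arith2 {m N K K₀ : ℕ} (hmN : m ≤ N) :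
    16 * (lp N K + lp N K₀ + lg m + 4 + lg m + 1) ^ 2 + 3 ≤ lp N (2 * (K + K₀ + 2) + 11) ∧
      lp N (2 * (K + K₀ + 2) + 11) ≤ (lg (2 * N + 2) + 1) ^ (2 * (K + K₀ + 2) + 11) := by
  obtain ⟨h1, h2⟩ := LinP0_arith (K := K + K₀ + 2) hmN
  refine ⟨le_trans ?_ h1, h2⟩
  have h3 : lp N K + lp N K₀ + 1 ≤ lp N (K + K₀ + 2) := by
    unfold Pool.Agent.ECD.lp
    set L := lg N + 2 with hL
    have hL2 : 2 ≤ L := by omega
    have a1 : L ^ K ≤ L ^ (K + K₀) := Nat.pow_le_pow_right (by omega) (by omega)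
    have a2 : L ^ K₀ ≤ L ^ (K + K₀) := Nat.pow_le_pow_right (by omega) (by omega)
    have a3 : 1 ≤ L ^ (K + K₀) := Nat.one_le_pow _ _ (by omega)
    have a4 : 4 ≤ L ^ 2 := by
      calc 4 = 2 ^ 2 := by norm_num
        _ ≤ L ^ 2 := Nat.pow_le_pow_left hL2 2
    have a5 := Nat.mul_le_mul_left (L ^ (K + K₀)) a4
    have a6 : L ^ (K + K₀ + 2) = L ^ (K + K₀) * L ^ 2 := pow_add _ _ _
    omega
  have h4 : lp N K + lp N K₀ + lg m + 4 + lg m + 1 ≤ lp N (K + K₀ + 2) + lg m + 3 + lg m + 1 := by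
    omega
  have h5 := Nat.pow_le_pow_left h4 2
  omega

/-- the product of the primes in the window is large -/
private theorem LinP0_prod {m : ℕ} (hm : 0 < m) (A B : ℕ) :
    2 ^ A ≤ ∏ q ∈ range (16 * (A + B + 1 + lg m + 1) ^ 2 + 3) with
      q.Prime ∧ ¬ q ∣ m ∧ B < q, q := by
  have h1 := card_primes_ge hm (A + B + 1)
  have h2 : #{q ∈ range (16 * (A + B + 1 + lg m + 1) ^ 2 + 3) | q.Prime ∧ ¬ q ∣ m} ≤
      #{q ∈ range (16 * (A + B + 1 + lg m + 1) ^ 2 + 3) | q.Prime ∧ ¬ q ∣ m ∧ B < q} +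
        #(range (B + 1)) := by
    refine le_trans (Finset.card_le_card ?_) (Finset.card_union_le _ _)
    intro q hq
    rw [Finset.mem_filter] at hq
    rw [Finset.mem_union, Finset.mem_filter]
    by_cases h : B < q
    · exact Or.inl ⟨hq.1, hq.2.1, hq.2.2, h⟩
    · exact Or.inr (Finset.mem_range.2 (by omega))
  rw [card_range] at h2
  calc 2 ^ A ≤ 2 ^ #{q ∈ range (16 * (A + B + 1 + lg m + 1) ^ 2 + 3) |
          q.Prime ∧ ¬ q ∣ m ∧ B < q} :=
        Nat.pow_le_pow_right (by norm_num) (by omega)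
    _ = ∏ _q ∈ range (16 * (A + B + 1 + lg m + 1) ^ 2 + 3) with
        _q.Prime ∧ ¬ _q ∣ m ∧ B < _q, 2 := by
      rw [Finset.prod_const]
    _ ≤ ∏ q ∈ range (16 * (A + B + 1 + lg m + 1) ^ 2 + 3) with
        q.Prime ∧ ¬ q ∣ m ∧ B < q, q := by
      refine Finset.prod_le_prod' fun q hq => ?_
      exact (Finset.mem_filter.1 hq).2.1.two_le

/-- Divisibility of integers given by their residues modulo the primes `q` of a window that do not
divide the modulus `m` is definable. -/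
theorem dvd_def'' (K K₀ : ℕ) : ∃ K₂ : ℕ, ∀ {r : ℕ} {m N : (Fin r → ℕ) → ℕ} {W : (Fin r → ℕ) → ℤ}
    {R : ℕ → (Fin r → ℕ) → ℕ}, DFun r m → DFun r N → (∀ v, 0 < m v) → (∀ v, m v ≤ N v) →
    DFun (r + 1) (fun w => R (w 0) (fun i => w i.succ)) →
    (∀ v, (W v).natAbs < 2 ^ lp (N v) K) →
    (∀ v q, q.Prime → ¬ q ∣ m v → lp (N v) K₀ < q → q ≤ lp (N v) K₂ →
      (R q v : ℤ) ≡ W v [ZMOD q]) →
    Delta0 r (fun v => (m v : ℤ) ∣ W v) := by
  refine ⟨2 * (K + K₀ + 2) + 11, fun {r m N W R} hm hN hm0 hmN hR hW hRW => ?_⟩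
  obtain ⟨Q, hQ⟩ : ∃ Q : (Fin r → ℕ) → ℕ,
      Q = fun v => 16 * (lp (N v) K + lp (N v) K₀ + lg (m v) + 4 + lg (m v) + 1) ^ 2 + 3 := ⟨_, rfl⟩
  have hlp : ∀ K, DFun r (fun v => lp (N v) K) := fun K =>
    DFun.powConst ((DFun.lg hN).add (DFun.const 2)) K
  have hQd : DFun r Q := by
    rw [hQ]
    have hlm : DFun r (fun v => lg (m v)) := DFun.lg hm
    exact ((DFun.const 16).mul (DFun.powConst
      (((((hlp K).add (hlp K₀)).add hlm).add (DFun.const 4)).add hlm |>.add (DFun.const 1))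
        2)).add (DFun.const 3)
  have hQ1 : ∀ v, Q v ≤ lp (N v) (2 * (K + K₀ + 2) + 11) := fun v => by
    rw [hQ]
    exact (LinP0_arith2 (hmN v)).1
  have hQ2 : ∀ v, Q v ≤ (lg (2 * N v + 2) + 1) ^ (2 * (K + K₀ + 2) + 11) := fun v =>
    (hQ1 v).trans (LinP0_arith2 (K := K) (K₀ := K₀) (hmN v)).2
  have hN2 : DFun r (fun v => 2 * N v + 2) := ((DFun.const 2).mul hN).add (DFun.const 2)
  have hd : DFun (r + 1) (fun w => min (w 0 - 1) (Q fun i => w i.succ)) :=
    ((DFun.proj 0).sub (DFun.const 1)).min hQd.weak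
  -- the product of the other primes modulo `q`
  obtain ⟨f, hf⟩ : ∃ f : ℕ → (Fin (r + 1) → ℕ) → ℕ, f = fun j w =>
      (∏ i ∈ range j, if i.Prime ∧ ¬ i ∣ m (fun i => w i.succ) ∧ lp (N fun i => w i.succ) K₀ < i ∧ i ≠ w 0
        then i else 1) %
        (min (w 0 - 1) (Q fun i => w i.succ) + 1) := ⟨_, rfl⟩
  have hP : DFun (r + 1) (fun w => f (Q fun i => w i.succ) w) := by
    refine rec_poly (2 * (K + K₀ + 2) + 11) (A := fun w => 1 % (min (w 0 - 1) (Q fun i => w i.succ) + 1))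
      (L := fun w => Q fun i => w i.succ) (N := fun w => 2 * N (fun i => w i.succ) + 2)
      (H := fun j a w => if j.Prime ∧ ¬ j ∣ m (fun i => w i.succ) ∧ lp (N fun i => w i.succ) K₀ < j ∧ j ≠ w 0 then
        (a * j) % (min (w 0 - 1) (Q fun i => w i.succ) + 1) else a) (f := f)
      ((DFun.const 1).mod hd) hQd.weak hN2.weak ?_ ?_ ?_ ?_ ?_
    · have h1 : Delta0 (r + 1 + 2) (fun u => (u 0).Prime ∧
          ¬ u 0 ∣ m (fun i => u i.succ.succ.succ) ∧ lp (N fun i => u i.succ.succ.succ) K₀ < u 0 ∧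
          u 0 ≠ u (Fin.succ (Fin.succ 0))) :=
        (LinP0_prime (DFun.proj 0)).and ((LinP0_dvd (DFun.proj 0) hm.weak.weak.weak).not.and
          ((Delta0.ltFun (hlp K₀).weak.weak.weak (DFun.proj 0)).and
          (Delta0.eqFun (DFun.proj 0) (DFun.proj (Fin.succ (Fin.succ 0)))).not))
      have h2 : DFun (r + 1 + 2) (fun u => min (u (Fin.succ (Fin.succ 0)) - 1)
          (Q fun i => u i.succ.succ.succ)) := hd.weak.weak
      exact DFun.ite h1 (((DFun.proj 1).mul (DFun.proj 0)).mod h2) (DFun.proj 1)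
    · intro w
      rw [hf]
      dsimp only
      rw [range_zero, prod_empty]
    · intro w j _
      rw [hf]
      dsimp only
      rw [prod_range_succ]
      split_ifs with h
      · rw [Nat.mod_mul_mod]
      · rw [mul_one]
    · intro w
      exact hQ2 _
    · intro w j _
      rw [hf]
      exact (Nat.lt_succ_iff.1 (Nat.mod_lt _ (Nat.succ_pos _))).trans
        ((min_le_right _ _).trans (hQ2 _))
  -- the solutions modulo `q`
  obtain ⟨u, hu, hub, huC⟩ := LinP0_find hd (C := fun z w =>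
    z * (m (fun i => w i.succ) * f (Q fun i => w i.succ) w) %
      (min (w 0 - 1) (Q fun i => w i.succ) + 1) =
    R (w 0) (fun i => w i.succ) % (min (w 0 - 1) (Q fun i => w i.succ) + 1))
    (Delta0.eqFun (((DFun.proj 0).mul (hm.weak.weak.mul hP.weak)).mod hd.weak)
      (hR.weak.mod hd.weak))
  obtain ⟨T, hT⟩ : ∃ T : (Fin r → ℕ) → ℕ, T = fun v => 8 * m v * (Q v + 1) := ⟨_, rfl⟩
  have hTd : DFun r T := by
    rw [hT]
    exact ((DFun.const 8).mul hm).mul (hQd.add (DFun.const 1))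
  have hs : DFun r (fun v => ∑ q ∈ range (Q v), if q.Prime ∧ ¬ q ∣ m v ∧ lp (N v) K₀ < q then
      u (Fin.cons q v) * T v / (q - 1 + 1) else 0) := by
    refine dfun_sumPoly (2 * (K + K₀ + 2) + 11) (g := fun q v => if q.Prime ∧ ¬ q ∣ m v ∧ lp (N v) K₀ < q then
      u (Fin.cons q v) * T v / (q - 1 + 1) else 0) ?_ hQd hN2 hQ2
    have h1 : Delta0 (r + 1) (fun w => (w 0).Prime ∧ ¬ w 0 ∣ m (fun i => w i.succ) ∧
        lp (N fun i => w i.succ) K₀ < w 0) :=
      (LinP0_prime (DFun.proj 0)).and ((LinP0_dvd (DFun.proj 0) hm.weak).not.and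
        (Delta0.ltFun (hlp K₀).weak (DFun.proj 0)))
    have h2 : DFun (r + 1) (fun w => u (Fin.cons (w 0) (fun i => w i.succ))) := by
      have h3 : (fun w : Fin (r + 1) → ℕ => u (Fin.cons (w 0) (fun i => w i.succ))) = u := by
        funext w
        congr 1
        exact Fin.cons_self_tail w
      rw [h3]
      exact hu
    exact DFun.ite h1 ((h2.mul hTd.weak).div ((DFun.proj 0).sub (DFun.const 1))) (DFun.const 0)
  have hst := DFun.modAny hs hTd
  refine ((Delta0.ltFun (hst.mul ((DFun.const 2).mul hm)) hTd).or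
    (Delta0.ltFun ((hTd.sub hst).mul ((DFun.const 2).mul hm)) hTd)).of_iff fun v => ?_
  obtain ⟨S, hS⟩ : ∃ S : Finset ℕ, S = {q ∈ range (Q v) | q.Prime ∧ ¬ q ∣ m v ∧ lp (N v) K₀ < q} := ⟨_, rfl⟩
  have hmem : ∀ q, q ∈ S ↔ q < Q v ∧ q.Prime ∧ ¬ q ∣ m v ∧ lp (N v) K₀ < q := fun q => by
    rw [hS, mem_filter, mem_range]
  have hsum : (∑ q ∈ range (Q v), if q.Prime ∧ ¬ q ∣ m v ∧ lp (N v) K₀ < q then
      u (Fin.cons q v) * T v / (q - 1 + 1) else 0) = ∑ q ∈ S, u (Fin.cons q v) * T v / q := by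
    rw [hS, sum_filter]
    refine sum_congr rfl fun q _ => ?_
    split_ifs with h
    · rw [Nat.sub_add_cancel h.1.one_lt.le]
    · rfl
  rw [hsum]
  have hmod : ∀ q ∈ S, min (q - 1) (Q v) + 1 = q := by
    intro q hq
    have h1 := (hmem q).1 hq
    have h2 := h1.2.1.two_le
    rw [min_eq_left (by omega)]
    omega
  have hprod : ∀ q ∈ S, f (Q v) (Fin.cons q v) = (∏ q' ∈ S.erase q, q') % q := by
    intro q hq
    have h1 : f (Q v) (Fin.cons q v) = (∏ i ∈ range (Q v),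
        if i.Prime ∧ ¬ i ∣ m v ∧ lp (N v) K₀ < i ∧ i ≠ q then i else 1) % (min (q - 1) (Q v) + 1) := by
      rw [hf]
      rfl
    rw [h1, hmod q hq, ← prod_filter]
    congr 2
    ext i
    rw [mem_filter, mem_range, mem_erase, hmem]
    tauto
  refine dvd_test (fun q hq => ((hmem q).1 hq).2.1) (hm0 v) (fun q hq => ((hmem q).1 hq).2.2.1) ?_
    (u := fun q => u (Fin.cons q v)) ?_ ?_ ?_
  · -- the product is large
    have h1 := LinP0_prod (hm0 v) (lp (N v) K + lg (m v) + 3) (lp (N v) K₀)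
    have h2 : ∏ q ∈ S, q = ∏ q ∈ range (16 * (lp (N v) K + lg (m v) + 3 + lp (N v) K₀ + 1 +
        lg (m v) + 1) ^ 2 + 3) with q.Prime ∧ ¬ q ∣ m v ∧ lp (N v) K₀ < q, q := by
      rw [hS, hQ]
      dsimp only
      rw [show lp (N v) K + lg (m v) + 3 + lp (N v) K₀ + 1 + lg (m v) + 1 =
        lp (N v) K + lp (N v) K₀ + lg (m v) + 4 + lg (m v) + 1 by ring]
    rw [h2]
    refine le_trans ?_ h1
    have h3 : m v ≤ 2 ^ (lg (m v) + 1) := (lt_two_pow_lg _).le
    have h4 : (W v).natAbs + 1 ≤ 2 ^ lp (N v) K := hW v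
    calc 4 * m v * ((W v).natAbs + 1) ≤ 4 * 2 ^ (lg (m v) + 1) * 2 ^ lp (N v) K :=
          Nat.mul_le_mul (Nat.mul_le_mul_left 4 h3) h4
      _ = 2 ^ (lp (N v) K + lg (m v) + 3) := by ring
  · intro q hq
    have h1 := hub (Fin.cons q v)
    have h2 : min ((Fin.cons q v : Fin (r + 1) → ℕ) 0 - 1)
        (Q fun i => (Fin.cons q v : Fin (r + 1) → ℕ) i.succ) = min (q - 1) (Q v) := rfl
    rw [h2] at h1
    have h3 := hmod q hq
    omega
  · intro q hq
    have hq' := (hmem q).1 hq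
    have h1 := huC (Fin.cons q v)
    have h2 : min ((Fin.cons q v : Fin (r + 1) → ℕ) 0 - 1)
        (Q fun i => (Fin.cons q v : Fin (r + 1) → ℕ) i.succ) = min (q - 1) (Q v) := rfl
    have h3 : f (Q fun i => (Fin.cons q v : Fin (r + 1) → ℕ) i.succ) (Fin.cons q v) =
        f (Q v) (Fin.cons q v) := rfl
    have h4 : m (fun i => (Fin.cons q v : Fin (r + 1) → ℕ) i.succ) = m v := rfl
    have h5 : R ((Fin.cons q v : Fin (r + 1) → ℕ) 0)
        (fun i => (Fin.cons q v : Fin (r + 1) → ℕ) i.succ) = R q v := rfl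
    rw [h2, h3, h4, h5, hprod q hq, hmod q hq] at h1
    have h6 : min (q - 1) (Q v) = q - 1 := by
      have := hmod q hq
      omega
    rw [h6] at h1
    have hcop : Nat.Coprime q (m v * ((∏ q' ∈ S.erase q, q') % q)) := by
      rw [Nat.Prime.coprime_iff_not_dvd hq'.2.1, hq'.2.1.dvd_mul, not_or]
      refine ⟨hq'.2.2.1, fun h7 => ?_⟩
      rw [Nat.dvd_mod_iff dvd_rfl, Prime.dvd_finsetProd_iff hq'.2.1.prime] at h7
      obtain ⟨q', h8, h9⟩ := h7
      rw [mem_erase, hmem] at h8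
      exact h8.1 ((Nat.prime_dvd_prime_iff_eq hq'.2.1 h8.2.2.1).1 h9).symm
    have h7 := h1 (LinP0_sol _ hcop hq'.2.1.one_lt)
    have h8 : u (Fin.cons q v) * (m v * ∏ q' ∈ S.erase q, q') ≡ R q v [MOD q] := by
      refine Nat.ModEq.trans ?_ h7
      exact Nat.ModEq.mul_left _ (Nat.ModEq.mul_left _ (Nat.mod_modEq _ _).symm)
    exact (Int.natCast_modEq_iff.2 h8).trans (hRW v q hq'.2.1 hq'.2.2.1 hq'.2.2.2
      (hq'.1.le.trans (hQ1 v)))
  · rw [hT]
    dsimp only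
    refine Nat.mul_le_mul_left _ (Nat.succ_le_succ ?_)
    rw [hS]
    exact (card_filter_le _ _).trans (card_range _).le

/-- Divisibility of integers given by their residues modulo the primes of a window is definable. -/
theorem dvd_def' (K K₀ : ℕ) : ∃ K₂ : ℕ, ∀ {r : ℕ} {m N : (Fin r → ℕ) → ℕ} {W : (Fin r → ℕ) → ℤ}
    {R : ℕ → (Fin r → ℕ) → ℕ}, DFun r m → DFun r N → (∀ v, 0 < m v) → (∀ v, m v ≤ N v) →
    DFun (r + 1) (fun w => R (w 0) (fun i => w i.succ)) →
    (∀ v, (W v).natAbs < 2 ^ lp (N v) K) →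
    (∀ v q, q.Prime → lp (N v) K₀ < q → q ≤ lp (N v) K₂ → (R q v : ℤ) ≡ W v [ZMOD q]) →
    Delta0 r (fun v => (m v : ℤ) ∣ W v) := by
  obtain ⟨K₂, h⟩ := dvd_def'' K K₀
  exact ⟨K₂, fun {r m N W R} hm hN hm0 hmN hR hW hRW =>
    h hm hN hm0 hmN hR hW fun v q hq _ h1 h2 => hRW v q hq h1 h2⟩

end Pool.Agent.LinU
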