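import Pool.Agent.LinU.Defs

/-!
# Package LinU-P1: coefficients and remainders (pure algebra)

* `coeff_fourier`: `∑_(a ≠ 0) G(a) a^(-k) = ∑_i G_i ∑_(a ≠ 0) a^(i-k) = - G_k` over `F_q`
  (`FiniteField.sum_pow_units` or `FiniteField.sum_pow_lt_card_sub_one`; the `a + 1`, `a < q - 1`, are
  the non-zero elements of `ZMod q`; `a^(q-1-k)` is `a^(-k)`).
* `coeff_modByMonic`: let `g k = (hs A m d c D).coeff k`. As `mus * hs = 1 - (1 - mus)^(D+1)` and `X`
  divides `1 - mus`, `∑_(t ≤ min d s) mus_t g(s-t) = [s = 0]` for `s ≤ D`, and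
  `mus_t = mu_(d-t)` for `t ≤ d`. Put `Q_i = ∑_(k ≤ D, k ≥ i+d) F_k g(k-i-d)` and
  `Q = ∑_(i ≤ D) Q_i X^i`. Then `(mu * Q)_n = F_n` for all `n ≥ d` (a double sum), so
  `F - mu * Q` has degree `< d` and is the remainder (`Polynomial.div_modByMonic_unique`; if `A` is
  trivial there is nothing to prove). Its coefficient `j < d` is the right side. ∎ (60 min)
-/

set_option autoImplicit false

namespace Pool.Agent.LinU

open Finset Polynomial

private theorem sum_units_eq {q : ℕ} [Fact q.Prime] (f : ZMod q → ZMod q) :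
    ∑ a : (ZMod q)ˣ, f (a : ZMod q) = ∑ a ∈ range (q - 1), f ((a + 1 : ℕ) : ZMod q) := by
  have hq : q.Prime := Fact.out
  have hq1 := hq.two_le
  have hne : ∀ a ∈ range (q - 1), ((a + 1 : ℕ) : ZMod q) ≠ 0 := by
    intro a ha h
    rw [ZMod.natCast_eq_zero_iff] at h
    have h1 := Nat.le_of_dvd (Nat.succ_pos _) h
    have h2 := mem_range.1 ha
    omega
  symm
  refine sum_bij (fun a ha => Units.mk0 _ (hne a ha)) (fun a ha => mem_univ _) ?_ ?_ ?_
  · intro a ha b hb h
    have h1 : ((a + 1 : ℕ) : ZMod q) = ((b + 1 : ℕ) : ZMod q) := by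
      simpa using congrArg Units.val h
    have h3 := mem_range.1 ha
    have h4 := mem_range.1 hb
    rw [ZMod.natCast_eq_natCast_iff, Nat.ModEq, Nat.mod_eq_of_lt (by omega),
      Nat.mod_eq_of_lt (by omega)] at h1
    omega
  · intro u _
    have h1 : (u : ZMod q).val ≠ 0 := by
      rw [Ne, ZMod.val_eq_zero]
      exact u.ne_zero
    have h2 := ZMod.val_lt (u : ZMod q)
    refine ⟨(u : ZMod q).val - 1, mem_range.2 (by omega), ?_⟩
    ext
    rw [Units.val_mk0, Nat.sub_add_cancel (by omega), ZMod.natCast_zmod_val]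
  · intro a ha
    rw [Units.val_mk0]

private theorem fourier_units {q : ℕ} [Fact q.Prime] (P : (ZMod q)[X]) (hP : P.natDegree < q - 1)
    {k : ℕ} (hk : k < q - 1) :
    P.coeff k = - ∑ a : (ZMod q)ˣ, P.eval (a : ZMod q) * (a : ZMod q) ^ (q - 1 - k) := by
  classical
  have h1 : ∀ a : (ZMod q)ˣ, P.eval (a : ZMod q) * (a : ZMod q) ^ (q - 1 - k)
      = ∑ i ∈ range (q - 1), P.coeff i * ((a ^ (i + (q - 1 - k)) : (ZMod q)ˣ) : ZMod q) := by
    intro a
    rw [P.eval_eq_sum_range' hP, sum_mul]
    refine sum_congr rfl fun i _ => ?_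
    push_cast
    rw [pow_add, mul_assoc]
  simp_rw [h1]
  rw [sum_comm]
  have h2 : ∀ i ∈ range (q - 1), ∑ a : (ZMod q)ˣ, P.coeff i *
      ((a ^ (i + (q - 1 - k)) : (ZMod q)ˣ) : ZMod q) = if i = k then - P.coeff k else 0 := by
    intro i hi
    rw [← mul_sum]
    have h3 := FiniteField.sum_pow_units (ZMod q) (i + (q - 1 - k))
    rw [ZMod.card] at h3
    have h4 : ∑ a : (ZMod q)ˣ, ((a ^ (i + (q - 1 - k)) : (ZMod q)ˣ) : ZMod q)
        = if q - 1 ∣ i + (q - 1 - k) then -1 else 0 := by
      rw [← h3]
      exact sum_congr rfl fun a _ => by push_cast; rfl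
    rw [h4]
    have hi' := mem_range.mp hi
    by_cases hik : i = k
    · subst hik
      have : i + (q - 1 - i) = q - 1 := by omega
      rw [this]; simp
    · rw [if_neg hik, if_neg, mul_zero]
      rintro ⟨t, ht⟩
      rcases Nat.lt_or_ge t 1 with h | h
      · interval_cases t; omega
      · rcases Nat.lt_or_ge t 2 with h' | h'
        · have : t = 1 := by omega
          subst this; omega
        · have := Nat.mul_le_mul_left (q - 1) h'
          omega
  rw [sum_congr rfl h2, sum_ite_eq' (range (q - 1)) k, if_pos (mem_range.mpr hk), neg_neg]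

theorem coeff_fourier {q : ℕ} [Fact q.Prime] (G : (ZMod q)[X]) (hG : G.natDegree < q - 1) {k : ℕ}
    (hk : k < q - 1) :
    G.coeff k = - ∑ a ∈ range (q - 1),
      G.eval ((a + 1 : ℕ) : ZMod q) * ((a + 1 : ℕ) : ZMod q) ^ (q - 1 - k) := by
  rw [fourier_units G hG hk,
    sum_units_eq (fun a : ZMod q => G.eval a * a ^ (q - 1 - k))]

private theorem pol_coeff (A : Type*) [CommRing A] (m d z k : ℕ) :
    (pol A m d z).coeff k = if k < d then (dg m z k : A) else 0 := by
  unfold pol
  rw [finsetSum_coeff]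
  simp only [coeff_C_mul, coeff_X_pow, mul_ite, mul_one, mul_zero]
  rw [sum_ite_eq (range d) k]
  simp only [mem_range]

private theorem degree_pol_lt (A : Type*) [CommRing A] (m d z : ℕ) :
    (pol A m d z).degree < d := by
  rw [degree_lt_iff_coeff_zero]
  intro k hk
  rw [pol_coeff, if_neg (by omega)]

theorem mu_monic (A : Type*) [CommRing A] (m d c : ℕ) : (mu A m d c).Monic :=
  monic_X_pow_add (degree_pol_lt A m d c)

theorem natDegree_mu (A : Type*) [CommRing A] [Nontrivial A] (m d c : ℕ) :
    (mu A m d c).natDegree = d := by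
  refine natDegree_eq_of_degree_eq_some ?_
  have h := degree_pol_lt A m d c
  unfold mu
  rw [degree_add_eq_left_of_degree_lt (by rwa [degree_X_pow]), degree_X_pow]

theorem natDegree_pol_le (A : Type*) [CommRing A] (m d z : ℕ) :
    (pol A m d z).natDegree ≤ d :=
  natDegree_le_of_degree_le (degree_pol_lt A m d z).le

private theorem one_sub_mus (A : Type*) [CommRing A] (m d c : ℕ) :
    1 - mus A m d c = - ∑ i ∈ range d, C (dg m c i : A) * X ^ (d - i) := by
  unfold mus
  ring

theorem natDegree_hs_le (A : Type*) [CommRing A] (m d c D : ℕ) :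
    (hs A m d c D).natDegree ≤ d * D := by
  unfold hs
  refine natDegree_sum_le_of_forall_le _ _ fun i hi => ?_
  have h1 : (1 - mus A m d c).natDegree ≤ d := by
    rw [one_sub_mus, natDegree_neg]
    refine natDegree_sum_le_of_forall_le _ _ fun j _ => ?_
    exact (natDegree_C_mul_X_pow_le _ _).trans (Nat.sub_le _ _)
  have h2 := mem_range.1 hi
  calc ((1 - mus A m d c) ^ i).natDegree ≤ i * (1 - mus A m d c).natDegree := natDegree_pow_le
    _ ≤ D * d := Nat.mul_le_mul (by omega) h1
    _ = d * D := Nat.mul_comm _ _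

/-- the recursion for the coefficients of the reciprocal -/
private theorem hs_rec (A : Type*) [CommRing A] (m d c D : ℕ) {s : ℕ} (hsD : s ≤ D) :
    (hs A m d c D).coeff s + ∑ i ∈ range d, (dg m c i : A) *
      (if d - i ≤ s then (hs A m d c D).coeff (s - (d - i)) else 0) = if s = 0 then 1 else 0 := by
  have h1 : mus A m d c * hs A m d c D = 1 - (1 - mus A m d c) ^ (D + 1) := by
    have h2 := geom_sum_mul (1 - mus A m d c) (D + 1)
    have h3 : hs A m d c D * (1 - mus A m d c - 1) = (1 - mus A m d c) ^ (D + 1) - 1 := h2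
    calc mus A m d c * hs A m d c D = - (hs A m d c D * (1 - mus A m d c - 1)) := by ring
      _ = _ := by rw [h3]; ring
  have h2 : (X : A[X]) ∣ 1 - mus A m d c := by
    rw [one_sub_mus]
    refine (Finset.dvd_sum fun i hi => ?_).neg_right
    have hi' := mem_range.1 hi
    exact (dvd_pow_self X (by omega)).mul_left _
  have h3 : ((1 - mus A m d c) ^ (D + 1)).coeff s = 0 := by
    obtain ⟨w, hw⟩ := pow_dvd_pow_of_dvd h2 (D + 1)
    rw [hw, coeff_X_pow_mul', if_neg (by omega)]
  have h4 : (mus A m d c * hs A m d c D).coeff s = if s = 0 then 1 else 0 := by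
    rw [h1, coeff_sub, h3, sub_zero, coeff_one]
  rw [← h4]
  unfold mus
  rw [add_mul, one_mul, coeff_add, sum_mul, finsetSum_coeff]
  congr 1
  refine sum_congr rfl fun i _ => ?_
  rw [mul_assoc, coeff_C_mul, coeff_X_pow_mul']

theorem coeff_modByMonic {A : Type*} [CommRing A] (m d c D : ℕ) (F : A[X])
    (hF : F.natDegree ≤ D) {j : ℕ} (hj : j < d) :
    (F %ₘ mu A m d c).coeff j = F.coeff j - ∑ i ∈ range (j + 1), (dg m c (j - i) : A) *
      ∑ k ∈ range (D + 1), if i + d ≤ k then F.coeff k * (hs A m d c D).coeff (k - i - d)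
        else 0 := by
  rcases subsingleton_or_nontrivial A with hA | hA
  · exact Subsingleton.elim _ _
  obtain ⟨g, hg⟩ : ∃ g : ℕ → A, g = fun s => (hs A m d c D).coeff s := ⟨_, rfl⟩
  obtain ⟨q, hq⟩ : ∃ q : ℕ → A, q = fun i => ∑ k ∈ range (D + 1),
    if i + d ≤ k then F.coeff k * g (k - i - d) else 0 := ⟨_, rfl⟩
  obtain ⟨Q, hQ⟩ : ∃ Q : A[X], Q = ∑ i ∈ range (D + 1), C (q i) * X ^ i := ⟨_, rfl⟩
  have hQc : ∀ i, Q.coeff i = q i := by
    intro i
    rw [hQ, finsetSum_coeff]
    simp only [coeff_C_mul, coeff_X_pow, mul_ite, mul_one, mul_zero]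
    rw [sum_ite_eq (range (D + 1)) i]
    split_ifs with h
    · rfl
    · rw [hq]
      symm
      refine sum_eq_zero fun k hk => if_neg ?_
      have h1 := mem_range.1 hk
      rw [mem_range] at h
      omega
  -- the coefficients of the product from `d` on
  have hkey : ∀ n, d ≤ n → (mu A m d c * Q).coeff n = F.coeff n := by
    intro n hn
    have h1 : (mu A m d c * Q).coeff n = q (n - d) + ∑ i ∈ range d, (dg m c i : A) * q (n - i) := by
      unfold mu pol
      rw [add_mul, coeff_add, coeff_X_pow_mul', if_pos hn, hQc, sum_mul, finsetSum_coeff]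
      congr 1
      refine sum_congr rfl fun i hi => ?_
      have hi' := mem_range.1 hi
      rw [mul_assoc, coeff_C_mul, coeff_X_pow_mul', if_pos (by omega), hQc]
    have h2 : q (n - d) + ∑ i ∈ range d, (dg m c i : A) * q (n - i) =
        ∑ k ∈ range (D + 1), F.coeff k * (if n ≤ k then (g (k - n) + ∑ i ∈ range d,
          (dg m c i : A) * (if d - i ≤ k - n then g (k - n - (d - i)) else 0)) else 0) := by
      rw [hq]
      simp only
      have h3 : ∀ i ∈ range d, (dg m c i : A) * (∑ k ∈ range (D + 1),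
          if n - i + d ≤ k then F.coeff k * g (k - (n - i) - d) else 0) =
          ∑ k ∈ range (D + 1), F.coeff k * (if n ≤ k then (dg m c i : A) *
            (if d - i ≤ k - n then g (k - n - (d - i)) else 0) else 0) := by
        intro i hi
        have hi' := mem_range.1 hi
        rw [mul_sum]
        refine sum_congr rfl fun k _ => ?_
        by_cases h4 : n - i + d ≤ k
        · rw [if_pos h4, if_pos (by omega), if_pos (by omega)]
          rw [show k - (n - i) - d = k - n - (d - i) by omega]
          ring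
        · rw [if_neg h4]
          by_cases h5 : n ≤ k
          · rw [if_pos h5, if_neg (by omega), mul_zero, mul_zero]
          · rw [if_neg h5, mul_zero, mul_zero]
      rw [sum_congr rfl h3, sum_comm, ← sum_add_distrib]
      refine sum_congr rfl fun k _ => ?_
      by_cases h5 : n ≤ k
      · simp only [if_pos h5]
        rw [if_pos (by omega), show k - (n - d) - d = k - n by omega, mul_add, mul_sum]
      · simp only [if_neg h5]
        rw [if_neg (by omega)]
        simp
    have h3 : ∀ k ∈ range (D + 1), F.coeff k * (if n ≤ k then (g (k - n) + ∑ i ∈ range d,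
          (dg m c i : A) * (if d - i ≤ k - n then g (k - n - (d - i)) else 0)) else 0) =
          if n = k then F.coeff k else 0 := by
      intro k hk
      have hk' := mem_range.1 hk
      by_cases h5 : n ≤ k
      · rw [if_pos h5, hg]
        simp only
        rw [hs_rec A m d c D (s := k - n) (by omega)]
        by_cases h6 : n = k
        · rw [if_pos h6, if_pos (by omega), mul_one]
        · rw [if_neg h6, if_neg (by omega), mul_zero]
      · rw [if_neg h5, if_neg (by omega), mul_zero]
    rw [h1, h2, sum_congr rfl h3, sum_ite_eq (range (D + 1)) n]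
    split_ifs with h
    · rfl
    · rw [mem_range] at h
      exact (coeff_eq_zero_of_natDegree_lt (by omega)).symm
  have hdeg : (F - mu A m d c * Q).degree < (mu A m d c).degree := by
    rw [degree_eq_natDegree (mu_monic A m d c).ne_zero, natDegree_mu, degree_lt_iff_coeff_zero]
    intro n hn
    rw [coeff_sub, hkey n hn, sub_self]
  have hmod := (div_modByMonic_unique Q (F - mu A m d c * Q) (mu_monic A m d c)
    ⟨by ring, hdeg⟩).2
  rw [hmod, coeff_sub, mul_comm, coeff_mul,
    Finset.Nat.sum_antidiagonal_eq_sum_range_succ (fun a b => Q.coeff a * (mu A m d c).coeff b)]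
  congr 1
  refine sum_congr rfl fun i hi => ?_
  have hi' := mem_range.1 hi
  have h1 : (mu A m d c).coeff (j - i) = (dg m c (j - i) : A) := by
    unfold mu
    rw [coeff_add, coeff_X_pow, if_neg (by omega), zero_add, pol_coeff, if_pos (by omega)]
  rw [h1, hQc, mul_comm, hq, hg]

end Pool.Agent.LinU
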