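import Pool.Agent.LinU.Defs
import Pool.Agent.Grz.NormalForm
import Pool.Agent.Grz.Matrices
import Pool.Agent.GAvg.E2Tools
import Pool.Agent.InvCF.Def

/-!
# Package LinU-P10: the same statement for arbitrary maps is Q1
-/

set_option autoImplicit false

namespace Pool.Agent.LinU

open Finset Pool.Agent.Grz Pool.Agent.GAvg Pool.Agent.PTr Pool.Agent.MTr

private theorem iter_le_one {f : ℕ → ℕ} (h0 : f 0 = 0) (h1 : f 1 = 1)
    (hf : ∀ x, 2 ≤ x → f x < x) : ∀ t x, x ≤ t → f^[t] x ≤ 1 := by
  have hfix : ∀ x, x ≤ 1 → f x = x := by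
    intro x hx
    interval_cases x
    · exact h0
    · exact h1
  intro t
  induction t with
  | zero =>
    intro x hx
    have : x = 0 := by omega
    subst this
    simp
  | succ t ih =>
    intro x hx
    rw [Function.iterate_succ_apply]
    by_cases h : x ≤ 1
    · rw [hfix x h]
      by_cases ht : x ≤ t
      · exact ih x ht
      · have hxt : x = t + 1 := by omega
        have : t = 0 := by omega
        subst this
        simpa using h
    · exact ih _ (by have := hf x (by omega); omega)

private theorem iter_fix {f : ℕ → ℕ} {y : ℕ} (hy : f y = y) (t : ℕ) : f^[t] y = y :=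
  Function.iterate_fixed hy t

private theorem exists_iff {f : ℕ → ℕ} (h0 : f 0 = 0) (h1 : f 1 = 1)
    (hf : ∀ x, 2 ≤ x → f x < x) (x : ℕ) : (∃ t, f^[t] x = 1) ↔ f^[x] x = 1 := by
  constructor
  · rintro ⟨t, ht⟩
    rcases Nat.lt_or_ge x t with h | h
    · have hle := iter_le_one h0 h1 hf x x le_rfl
      have e : f^[t] x = f^[t - x] (f^[x] x) := by
        rw [← Function.iterate_add_apply]
        congr 1
        omega
      rcases Nat.lt_or_ge (f^[x] x) 1 with h2 | h2
      · have h3 : f^[x] x = 0 := by omega
        rw [h3, iter_fix h0] at e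
        omega
      · omega
    · have e : f^[x] x = f^[x - t] (f^[t] x) := by
        rw [← Function.iterate_add_apply]
        congr 1
        omega
      rw [e, ht, iter_fix h1]
  · intro h
    exact ⟨x, h⟩

private theorem iter_congr {p : ℕ} {T s : ℕ → ℕ} (hT : ∀ z, z < p → T z < p)
    (hs : ∀ z, z < p → s z = T z) {x : ℕ} (hx : x < p) (t : ℕ) :
    s^[t] x = T^[t] x ∧ T^[t] x < p := by
  induction t with
  | zero => exact ⟨rfl, hx⟩
  | succ t ih =>
    rw [Function.iterate_succ_apply', Function.iterate_succ_apply', ih.1]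
    exact ⟨hs _ ih.2, hT _ ih.2⟩

theorem contrast :
    (∀ (n : ℕ) (R : (Fin n → ℕ) → Prop), Delta0 n R ↔ E2Star n R) ↔
    ∀ (n : ℕ) (p x t : (Fin n → ℕ) → ℕ) (T : ℕ → (Fin n → ℕ) → ℕ), DFun n p → DFun n x →
      DFun n t → DFun (n + 1) (fun w => T (w 0) (fun i => w i.succ)) → (∀ v, (p v).Prime) →
      (∀ v, x v < p v) → (∀ v z, z < p v → T z v < p v) →
      DFun n (fun v => (fun z => T z v)^[t v] (x v)) := by
  constructor
  · intro H n p x t T hp hx ht hT _ hxp hTp
    set s : ℕ → (Fin n → ℕ) → ℕ := fun z v => if z < p v then T z v else 0 with hsdef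
    have hs : DFun (n + 1) (fun w => s (w 0) (fun i => w i.succ)) :=
      DFun.ite (Delta0.ltFun (DFun.proj 0) hp.weak) hT (DFun.const 0)
    have hle : ∀ z v, s z v ≤ p v := by
      intro z v
      simp only [hsdef]
      split_ifs with h
      · exact (hTp v z h).le
      · exact Nat.zero_le _
    have hit := E2.iter_family hp.e2 hs.e2 hle
    have h1 := hit.comp (n := n) (hs := Fin.cons t (Fin.cons x (fun i v => v i))) (by
      intro i
      refine Fin.cases ?_ (fun j => ?_) i
      · exact ht.e2
      · refine Fin.cases ?_ (fun k => ?_) j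
        · exact hx.e2
        · exact E2.proj _)
    have hE : E2 n (fun v => (fun z => T z v)^[t v] (x v)) := by
      refine h1.congr ?_
      intro v
      have h2 := (iter_congr (T := fun z => T z v) (s := fun z => s z v) (hTp v)
        (fun z hz => by simp only [hsdef]; rw [if_pos hz]) (hxp v) (t v)).1
      rw [← h2]
      simp
    refine DFun.ofGraph hp (fun v => ?_) ((H _ _).mpr (E2Star.eqFun (E2.proj 0) hE.weak))
    exact (iter_congr (T := fun z => T z v) (s := fun z => T z v) (hTp v)
      (fun z _ => rfl) (hxp v) (t v)).2.le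
  · intro H n R
    refine ⟨fun h => h.e2Star, fun hR => ?_⟩
    obtain ⟨f, g, f0, f1, ff, hf, hg, _, hRf⟩ := hR.normalForm
    have key := H n (fun v => InvCF.nextPrime (g v)) g g (fun z _ => f z)
      (InvCF.DFun.nextPrime hg) hg
      hg (DFun.comp1 hf (DFun.proj 0)) (fun v => InvCF.nextPrime_prime _)
      (fun v => InvCF.lt_nextPrime _) (fun v z hz => by
        have h : f z ≤ z := by
          rcases Nat.lt_or_ge z 2 with h | h
          · interval_cases z
            · exact f0.le
            · exact f1.le
          · exact (ff z h).le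
        exact lt_of_le_of_lt h hz)
    refine (Delta0.eqFun key (DFun.const 1)).of_iff ?_
    intro v
    rw [hRf v, exists_iff f0 f1 ff]

end Pool.Agent.LinU
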