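import Pool.Agent.LinU.Defs

/-!
# Package LinU-P2: size of the remainder (pure algebra)

*Proof.* Let `‖f‖ = ∑ |f_i|` for `f ∈ ℤ[X]` (`f.support.sum` or `∑ i ∈ range (f.natDegree + 1)`), so
`‖f g‖ ≤ ‖f‖ ‖g‖`, `‖f + g‖ ≤ ‖f‖ + ‖g‖`. For `d = 0` the remainder is `0`. For `d ≥ 1`, `m ≤ B ≤ N`, `d ≤ lg N`
(as `2 ^ d ≤ m ^ d ≤ N`), `‖pol‖ ≤ m d`, `‖mu‖ ≤ 1 + m d`, `‖X ^ n %ₘ mu‖ ≤ (1 + ‖mu‖) ^ n` (induction:
`X ^ (n+1) %ₘ mu = X r - r_(d-1) mu` for `r = X ^ n %ₘ mu`), so `‖F %ₘ mu‖ ≤ ‖F‖ (1 + ‖mu‖) ^ (deg F)` and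
the remainder of the product is at most `(m d) ^ L (2 + m d) ^ (L d) ≤ 2 ^ lp N K` with, say, `K = 8`. ∎ (50 min)
-/

set_option autoImplicit false

namespace Pool.Agent.LinU.Size

open Finset Polynomial Pool.Agent.GAvg Pool.Agent.ECD

/-- sum of the absolute values of the coefficients -/
noncomputable def nrm (f : ℤ[X]) : ℕ := ∑ i ∈ range (f.natDegree + 1), (f.coeff i).natAbs

theorem nrm_eq (f : ℤ[X]) (n : ℕ) (hn : f.natDegree < n) :
    nrm f = ∑ i ∈ range n, (f.coeff i).natAbs := by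
  unfold nrm
  apply Finset.sum_subset
  · intro i hi; rw [mem_range] at *; omega
  · intro i _ hi
    rw [mem_range] at hi
    rw [coeff_eq_zero_of_natDegree_lt (by omega)]; rfl

theorem coeff_le_nrm (f : ℤ[X]) (j : ℕ) : (f.coeff j).natAbs ≤ nrm f := by
  rw [nrm_eq f (f.natDegree + j + 1) (by omega)]
  exact Finset.single_le_sum (f := fun i => (f.coeff i).natAbs) (fun _ _ => Nat.zero_le _)
    (mem_range.2 (by omega))

theorem nrm_add (f g : ℤ[X]) : nrm (f + g) ≤ nrm f + nrm g := by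
  have h := natDegree_add_le f g
  rw [nrm_eq (f + g) (f.natDegree + g.natDegree + 1) (by omega),
    nrm_eq f (f.natDegree + g.natDegree + 1) (by omega),
    nrm_eq g (f.natDegree + g.natDegree + 1) (by omega), ← Finset.sum_add_distrib]
  apply Finset.sum_le_sum
  intro i _
  rw [coeff_add]
  exact Int.natAbs_add_le _ _

theorem nrm_sum {ι : Type*} (s : Finset ι) (f : ι → ℤ[X]) :
    nrm (∑ i ∈ s, f i) ≤ ∑ i ∈ s, nrm (f i) := by
  classical
  induction s using Finset.induction_on with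
  | empty => simp [nrm]
  | insert a s ha ih =>
    rw [Finset.sum_insert ha, Finset.sum_insert ha]
    exact (nrm_add _ _).trans (Nat.add_le_add_left ih _)

theorem nrm_C_mul (a : ℤ) (g : ℤ[X]) : nrm (C a * g) = a.natAbs * nrm g := by
  have h := natDegree_C_mul_le a g
  rw [nrm_eq (C a * g) (g.natDegree + 1) (by omega), nrm, Finset.mul_sum]
  apply Finset.sum_congr rfl
  intro i _
  rw [coeff_C_mul, Int.natAbs_mul]

theorem nrm_X_mul (g : ℤ[X]) : nrm (X * g) = nrm g := by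
  have h : (X * g : ℤ[X]).natDegree < g.natDegree + 1 + 1 := by
    have := natDegree_mul_le (p := (X : ℤ[X])) (q := g)
    rw [natDegree_X] at this; omega
  rw [nrm_eq (X * g) _ h, Finset.sum_range_succ']
  simp only [coeff_X_mul, mul_coeff_zero, coeff_X_zero, zero_mul, Int.natAbs_zero, add_zero]
  rfl

theorem nrm_X_pow_mul (n : ℕ) (g : ℤ[X]) : nrm (X ^ n * g) = nrm g := by
  induction n with
  | zero => rw [pow_zero, one_mul]
  | succ n ih => rw [pow_succ', mul_assoc, nrm_X_mul, ih]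

theorem nrm_mul (f g : ℤ[X]) : nrm (f * g) ≤ nrm f * nrm g := by
  conv_lhs => rw [f.as_sum_range_C_mul_X_pow, Finset.sum_mul]
  refine (nrm_sum _ _).trans ?_
  conv_rhs => rw [nrm, Finset.sum_mul]
  apply Finset.sum_le_sum
  intro i _
  rw [mul_assoc, nrm_C_mul, nrm_X_pow_mul]

theorem nrm_one : nrm 1 = 1 := by simp [nrm]

theorem nrm_prod_le (L b : ℕ) (f : ℕ → ℤ[X]) (h : ∀ i, nrm (f i) ≤ b) :
    nrm (∏ i ∈ range L, f i) ≤ b ^ L := by
  induction L with
  | zero => simp [nrm_one]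
  | succ L ih =>
    rw [Finset.prod_range_succ, pow_succ]
    exact (nrm_mul _ _).trans (Nat.mul_le_mul ih (h L))

theorem nrm_X_pow_mod (g : ℤ[X]) (hg : g.Monic) (hd : 0 < g.natDegree) (n : ℕ) :
    nrm (X ^ n %ₘ g) ≤ (1 + nrm g) ^ n := by
  have hne : g ≠ 1 := by
    intro h; rw [h] at hd; simp at hd
  induction n with
  | zero =>
    rw [pow_zero, pow_zero, (modByMonic_eq_self_iff hg).2]
    · rw [nrm_one]
    · rw [degree_one, ← natDegree_pos_iff_degree_pos]; exact hd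
  | succ n ih =>
    set r := X ^ n %ₘ g with hr
    have hrd : r.degree < g.degree := degree_modByMonic_lt _ hg
    obtain ⟨d, hdd⟩ : ∃ d, g.natDegree = d + 1 := Nat.exists_eq_succ_of_ne_zero hd.ne'
    have hrc : ∀ m, d + 1 ≤ m → r.coeff m = 0 := by
      intro m hm
      apply coeff_eq_zero_of_degree_lt
      refine hrd.trans_le ?_
      rw [degree_eq_natDegree hg.ne_zero, hdd]
      exact_mod_cast hm
    have key : X ^ (n + 1) %ₘ g = X * r - C (r.coeff d) * g := by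
      refine (div_modByMonic_unique (X * (X ^ n /ₘ g) + C (r.coeff d)) _ hg ⟨?_, ?_⟩).2
      · have h3 := modByMonic_add_div (X ^ n) g
        rw [← hr] at h3
        calc X * r - C (r.coeff d) * g + g * (X * (X ^ n /ₘ g) + C (r.coeff d))
            = X * (r + g * (X ^ n /ₘ g)) := by ring
          _ = X ^ (n + 1) := by rw [h3, pow_succ']
      · rw [degree_eq_natDegree hg.ne_zero, hdd]
        rw [degree_lt_iff_coeff_zero]
        intro m hm
        obtain ⟨m, rfl⟩ : ∃ k, m = k + 1 := Nat.exists_eq_succ_of_ne_zero (by omega)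
        rw [coeff_sub, coeff_X_mul, coeff_C_mul]
        by_cases hmd : m = d
        · subst hmd
          have : g.coeff (m + 1) = 1 := by rw [← hdd]; exact hg.coeff_natDegree
          rw [this]; ring
        · rw [hrc m (by omega), coeff_eq_zero_of_natDegree_lt (p := g) (by omega)]; ring
    rw [key, sub_eq_add_neg]
    have h4 : nrm (-(C (r.coeff d) * g)) = (r.coeff d).natAbs * nrm g := by
      rw [← nrm_C_mul]
      simp [nrm]
    calc nrm (X * r + -(C (r.coeff d) * g)) ≤ nrm (X * r) + nrm (-(C (r.coeff d) * g)) :=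
          nrm_add _ _
      _ = nrm r + (r.coeff d).natAbs * nrm g := by rw [nrm_X_mul, h4]
      _ ≤ nrm r + nrm r * nrm g := Nat.add_le_add_left (Nat.mul_le_mul_right _ (coeff_le_nrm _ _)) _
      _ = nrm r * (1 + nrm g) := by ring
      _ ≤ (1 + nrm g) ^ n * (1 + nrm g) := Nat.mul_le_mul_right _ ih
      _ = (1 + nrm g) ^ (n + 1) := by rw [pow_succ]

theorem nrm_mod (f g : ℤ[X]) (hg : g.Monic) (hd : 0 < g.natDegree) (D : ℕ)
    (hD : f.natDegree ≤ D) : nrm (f %ₘ g) ≤ nrm f * (1 + nrm g) ^ D := by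
  have h1 : f %ₘ g = ∑ i ∈ range (f.natDegree + 1), C (f.coeff i) * (X ^ i %ₘ g) := by
    have h2 : f %ₘ g = modByMonicHom g f := rfl
    rw [h2]
    conv_lhs => rw [f.as_sum_range_C_mul_X_pow]
    rw [map_sum]
    apply Finset.sum_congr rfl
    intro i _
    rw [← smul_eq_C_mul, ← smul_eq_C_mul, map_smul]
    rfl
  rw [h1]
  refine (nrm_sum _ _).trans ?_
  rw [nrm, Finset.sum_mul]
  apply Finset.sum_le_sum
  intro i hi
  rw [nrm_C_mul]
  apply Nat.mul_le_mul_left
  refine (nrm_X_pow_mod g hg hd i).trans ?_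
  apply Nat.pow_le_pow_right (by omega)
  have := mem_range.1 hi
  omega

theorem nrm_X_pow (n : ℕ) : nrm (X ^ n) = 1 := by
  have := nrm_X_pow_mul n 1
  rwa [mul_one, nrm_one] at this

theorem nrm_pol (m d z : ℕ) (hm : 0 < m) : nrm (pol ℤ m d z) ≤ d * m := by
  unfold pol
  refine (nrm_sum _ _).trans ?_
  refine (Finset.sum_le_card_nsmul _ _ m ?_).trans ?_
  · intro i _
    rw [nrm_C_mul, nrm_X_pow, mul_one]
    have : dg m z i < m := Nat.mod_lt _ hm
    simp only [Int.natAbs_natCast]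
    exact this.le
  · rw [card_range, smul_eq_mul]

theorem natDegree_pol (m d z : ℕ) : (pol ℤ m d z).natDegree ≤ d := by
  unfold pol
  apply natDegree_sum_le_of_forall_le
  intro i hi
  exact (natDegree_C_mul_X_pow_le _ _).trans (mem_range.1 hi).le

theorem degree_pol_lt (m d z : ℕ) : (pol ℤ m d z).degree < d := by
  rw [degree_lt_iff_coeff_zero]
  intro k hk
  unfold pol
  rw [finsetSum_coeff]
  apply Finset.sum_eq_zero
  intro i hi
  rw [coeff_C_mul_X_pow, if_neg]
  have := mem_range.1 hi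
  omega

theorem mu_monic (m d c : ℕ) : (mu ℤ m d c).Monic := monic_X_pow_add (degree_pol_lt m d c)

theorem mu_natDegree (m d c : ℕ) : (mu ℤ m d c).natDegree = d := by
  unfold mu
  rw [natDegree_add_eq_left_of_degree_lt, natDegree_X_pow]
  rw [degree_X_pow]
  exact degree_pol_lt m d c

theorem nrm_mu (m d c : ℕ) (hm : 0 < m) : nrm (mu ℤ m d c) ≤ 1 + d * m := by
  unfold mu
  refine (nrm_add _ _).trans ?_
  rw [nrm_X_pow]
  exact Nat.add_le_add_left (nrm_pol m d c hm) _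

end Pool.Agent.LinU.Size

namespace Pool.Agent.LinU

open Finset Polynomial Pool.Agent.GAvg Pool.Agent.ECD Size

theorem size_bound : ∃ K : ℕ, ∀ (m d c L B M N : ℕ) (z : ℕ → ℕ), 2 ≤ m → m ^ d ≤ B →
    L ≤ lg M + 1 → B ≤ N → M ≤ N → ∀ j,
    (((∏ i ∈ range L, pol ℤ m d (z i)) %ₘ mu ℤ m d c).coeff j).natAbs < 2 ^ lp N K := by
  refine ⟨8, ?_⟩
  intro m d c L B M N z hm hmd hL hBN hMN j
  rcases Nat.eq_zero_or_pos d with hd0 | hd
  · subst hd0
    have h1 : mu ℤ m 0 c = 1 := by simp [mu, pol]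
    rw [h1, modByMonic_one]
    simp
  set F := ∏ i ∈ range L, pol ℤ m d (z i) with hF
  have hN : m ^ d ≤ N := hmd.trans hBN
  have hN0 : N ≠ 0 := by
    have : 0 < m ^ d := by positivity
    omega
  set l := lg N + 2 with hl
  have hNl : N < 2 ^ l := by
    refine (Nat.lt_pow_succ_log_self (by norm_num : 1 < 2) N).trans_le ?_
    exact Nat.pow_le_pow_right (by norm_num) (by rw [hl]; unfold lg; omega)
  have hml : m < 2 ^ l := by
    refine lt_of_le_of_lt ?_ hNl
    refine le_trans ?_ hN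
    exact Nat.le_self_pow hd.ne' m
  have hdl : d < l := by
    have h1 : 2 ^ d ≤ N := (Nat.pow_le_pow_left hm d).trans hN
    have h2 : d ≤ Nat.log 2 N := Nat.le_log_of_pow_le (by norm_num) h1
    rw [hl]; unfold lg; omega
  have hLl : L < l := by
    have h1 : lg M ≤ lg N := Nat.log_mono_right hMN
    omega
  have hl2 : 2 ≤ l := by omega
  have hdm : d * m ≤ 2 ^ (2 * l) := by
    have h1 : d < 2 ^ l := hdl.trans (Nat.lt_two_pow_self)
    calc d * m ≤ 2 ^ l * 2 ^ l := Nat.mul_le_mul h1.le hml.le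
      _ = 2 ^ (2 * l) := by rw [← pow_add]; congr 1; omega
  have hF1 : nrm F ≤ (2 ^ (3 * l)) ^ L := by
    refine (nrm_prod_le L (d * m) _ (fun i => nrm_pol m d (z i) (by omega))).trans ?_
    apply Nat.pow_le_pow_left
    refine hdm.trans (Nat.pow_le_pow_right (by norm_num) (by omega))
  have hFd : F.natDegree ≤ L * d := by
    refine (natDegree_prod_le _ _).trans ?_
    refine (Finset.sum_le_card_nsmul _ _ d (fun i _ => natDegree_pol m d (z i))).trans ?_
    rw [card_range, smul_eq_mul]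
  have hmu : 1 + nrm (mu ℤ m d c) ≤ 2 ^ (3 * l) := by
    have h1 := nrm_mu m d c (by omega)
    have h2 : 2 + 2 ^ (2 * l) ≤ 2 ^ (3 * l) := by
      have h3 : 2 ^ (3 * l) = 2 ^ (2 * l) * 2 ^ l := by rw [← pow_add]; congr 1; omega
      have h4 : 4 ≤ 2 ^ l := by
        calc 4 = 2 ^ 2 := by norm_num
          _ ≤ 2 ^ l := Nat.pow_le_pow_right (by norm_num) hl2
      have h5 : 1 ≤ 2 ^ (2 * l) := Nat.one_le_two_pow
      rw [h3]; nlinarith
    omega
  have h6 := nrm_mod F (mu ℤ m d c) (mu_monic m d c) (by rw [mu_natDegree]; exact hd) (L * d) hFd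
  have h7 : nrm (F %ₘ mu ℤ m d c) ≤ 2 ^ (3 * l * (L * (1 + d))) := by
    refine h6.trans ?_
    calc nrm F * (1 + nrm (mu ℤ m d c)) ^ (L * d)
        ≤ (2 ^ (3 * l)) ^ L * (2 ^ (3 * l)) ^ (L * d) :=
          Nat.mul_le_mul hF1 (Nat.pow_le_pow_left hmu _)
      _ = 2 ^ (3 * l * (L * (1 + d))) := by
          rw [← pow_add, ← pow_mul]; congr 1; ring
  refine lt_of_le_of_lt ((coeff_le_nrm _ _).trans h7) ?_
  apply Nat.pow_lt_pow_right (by norm_num)
  show 3 * l * (L * (1 + d)) < l ^ 8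
  have h8 : L * (1 + d) ≤ l * l := Nat.mul_le_mul hLl.le (by omega)
  have h9 : 3 * l * (L * (1 + d)) ≤ 3 * l * (l * l) := Nat.mul_le_mul_left _ h8
  have h10 : 3 < l ^ 5 := by
    calc 3 < 2 ^ 5 := by norm_num
      _ ≤ l ^ 5 := Nat.pow_le_pow_left hl2 5
  have h11 : 0 < l ^ 3 := by positivity
  calc 3 * l * (L * (1 + d)) ≤ 3 * l * (l * l) := h9
    _ = 3 * l ^ 3 := by ring
    _ < l ^ 5 * l ^ 3 := Nat.mul_lt_mul_of_pos_right h10 h11
    _ = l ^ 8 := by ring

end Pool.Agent.LinU
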