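import Pool.Agent.LinU.PD
import Pool.Agent.LinU.P1

/-!
# Package LinU-P3: residues of the remainder modulo small primes

Everything modulo `q`, where `q` is replaced by `q' = min q (lp (N v) K₂) + 1` or the like to have
bounded values for all arguments; the values only matter for primes `q` with
`lp (N v) K₀ < q ≤ lp (N v) K₂` (`K₀` such that `d * D + D + 2 ≤ lp (N v) K₀`, where `D = L * d`,
`d ≤ lg (B v) ≤ lg (N v)`, `L ≤ lg (N v) + 1`; e.g. `K₀ = 6`).
* `fval(q,a,i,v) = (∑ s < d, dg m (z i v) s * (a ^ s % q)) % q`        (`dfun_sumPoly`)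
* `Fval(q,a,v) = (∏ i < L, fval) % q`                                  (`rec_poly`)
* `mval(q,a,v) = (1 + ∑ s < d, dg m c s * (a ^ (d - s) % q)) % q`
* `Hval(q,a,v) = (∑ i < D + 1, ((1 + (q - 1) * mval) ^ i % q)) % q`     (`pow_mod_def`)
* `Fc(q,k,v) = (∑ a < q - 1, (q - 1) * Fval(q,a+1,v) * ((a + 1) ^ (q - 1 - k) % q)) % q`, `Hc(q,k,v)` the
  same with `Hval`: by `coeff_fourier` these are the coefficients modulo `q` of `F = ∏ pol` and of `hs`.
* `R(q,j,v) = (Fc(j) + ∑ i < j + 1, (q - 1) * dg m c (j - i) * (∑ k < D + 1, if i + d ≤ k then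
  Fc(k) * Hc(k - i - d) else 0)) % q` (for `j < d`, use `min j (d v)` in the bounds).
The congruence: `Polynomial.map (Int.castRingHom (ZMod q))` of the remainder is the remainder over
`ZMod q` (`Polynomial.map_modByMonic`), `coeff_modByMonic` over `A = ZMod q`. ∎ (90 min; may be split:
the definability of `Fval`, `Hval`, `R`; the congruence)
-/

set_option autoImplicit false

namespace Pool.Agent.LinU

open Finset Polynomial Pool.Agent.Grz Pool.Agent.GAvg Pool.Agent.PTr Pool.Agent.MTr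
open Pool.Agent.LPC Pool.Agent.ECD

/-! ### The numerical functions -/

/-- the value at `a` modulo `q + 1` of `pol m d x` -/
def P3evp (m d x a q : ℕ) : ℕ := (∑ s ∈ range d, dg m x s * (a ^ s % (q + 1))) % (q + 1)

/-- the value at `a` modulo `q + 1` of `mus m d c` -/
def P3evm (m d c a q : ℕ) : ℕ := (1 + ∑ s ∈ range d, dg m c s * (a ^ (d - s) % (q + 1))) % (q + 1)

/-- the value at `a` modulo `q + 1` of `hs m d c D` -/
def P3evh (m d c D a q : ℕ) : ℕ :=
  (∑ i ∈ range (D + 1), ((1 + q * P3evm m d c a q) ^ i % (q + 1))) % (q + 1)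

/-- the value at `a` modulo `q + 1` of the product -/
def P3fF (m d L : ℕ) (z : ℕ → ℕ) (a q : ℕ) : ℕ := (∏ i ∈ range L, P3evp m d (z i) a q) % (q + 1)

/-- a Fourier coefficient -/
def P3fou (G : ℕ → ℕ) (q k : ℕ) : ℕ :=
  (∑ a ∈ range q, q * G (a + 1) * ((a + 1) ^ (q - k) % (q + 1))) % (q + 1)

/-- the coefficient `j` of the remainder modulo `q + 1` -/
def P3res (m d c L : ℕ) (z : ℕ → ℕ) (q j : ℕ) : ℕ :=
  (P3fou (fun a => P3fF m d L z a q) q j + ∑ i ∈ range (j + 1), q * dg m c (j - i) *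
    ∑ k ∈ range (L * d + 1), if i + d ≤ k then P3fou (fun a => P3fF m d L z a q) q k *
      P3fou (fun a => P3evh m d c (L * d) a q) q (k - i - d) else 0) % (q + 1)

/-! ### Their values -/

section values

variable {q : ℕ}

private theorem cast_q : ((q : ℕ) : ZMod (q + 1)) = -1 := by
  have h : ((q + 1 : ℕ) : ZMod (q + 1)) = 0 := ZMod.natCast_self _
  push_cast at h
  exact eq_neg_of_add_eq_zero_left h

private theorem cast_mod (x : ℕ) : ((x % (q + 1) : ℕ) : ZMod (q + 1)) = x :=
  ZMod.natCast_mod x (q + 1)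

private theorem evp_val (m d x a : ℕ) :
    (P3evp m d x a q : ZMod (q + 1)) = (pol (ZMod (q + 1)) m d x).eval (a : ZMod (q + 1)) := by
  unfold P3evp pol
  rw [cast_mod, Nat.cast_sum, eval_finsetSum]
  refine sum_congr rfl fun s _ => ?_
  rw [Nat.cast_mul, cast_mod, Nat.cast_pow, eval_mul, eval_C, eval_pow, eval_X]

private theorem evm_val (m d c a : ℕ) :
    (P3evm m d c a q : ZMod (q + 1)) = (mus (ZMod (q + 1)) m d c).eval (a : ZMod (q + 1)) := by
  unfold P3evm mus
  rw [cast_mod, Nat.cast_add, Nat.cast_one, Nat.cast_sum, eval_add, eval_one, eval_finsetSum]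
  congr 1
  refine sum_congr rfl fun s _ => ?_
  rw [Nat.cast_mul, cast_mod, Nat.cast_pow, eval_mul, eval_C, eval_pow, eval_X]

private theorem evh_val (m d c D a : ℕ) :
    (P3evh m d c D a q : ZMod (q + 1)) = (hs (ZMod (q + 1)) m d c D).eval (a : ZMod (q + 1)) := by
  unfold P3evh hs
  rw [cast_mod, Nat.cast_sum, eval_finsetSum]
  refine sum_congr rfl fun i _ => ?_
  rw [cast_mod, Nat.cast_pow, Nat.cast_add, Nat.cast_one, Nat.cast_mul, evm_val, cast_q, eval_pow,
    eval_sub, eval_one]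
  ring

private theorem fF_val (m d L : ℕ) (z : ℕ → ℕ) (a : ℕ) :
    (P3fF m d L z a q : ZMod (q + 1)) =
      (∏ i ∈ range L, pol (ZMod (q + 1)) m d (z i)).eval (a : ZMod (q + 1)) := by
  unfold P3fF
  rw [cast_mod, Nat.cast_prod, eval_prod]
  exact prod_congr rfl fun i _ => evp_val _ _ _ _

private theorem fou_val [Fact (q + 1).Prime] {G : ℕ → ℕ} {P : (ZMod (q + 1))[X]}
    (hG : ∀ a : ℕ, (G a : ZMod (q + 1)) = P.eval (a : ZMod (q + 1))) (hP : P.natDegree < q)
    {k : ℕ} (hk : k < q) : (P3fou G q k : ZMod (q + 1)) = P.coeff k := by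
  unfold P3fou
  rw [coeff_fourier P (by simpa using hP) (k := k) (by simpa using hk), cast_mod, Nat.cast_sum,
    ← sum_neg_distrib]
  simp only [Nat.add_sub_cancel]
  refine sum_congr rfl fun a _ => ?_
  rw [Nat.cast_mul, Nat.cast_mul, cast_mod, hG, cast_q, Nat.cast_pow]
  ring

private theorem res_val [Fact (q + 1).Prime] (m d c L : ℕ) (z : ℕ → ℕ) {j : ℕ} (hj : j < d)
    (hq : d * (L * d) + L * d + d < q) :
    (P3res m d c L z q j : ZMod (q + 1)) =
      ((∏ i ∈ range L, pol (ZMod (q + 1)) m d (z i)) %ₘ mu (ZMod (q + 1)) m d c).coeff j := by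
  have hdeg : (∏ i ∈ range L, pol (ZMod (q + 1)) m d (z i)).natDegree ≤ L * d := by
    refine (natDegree_prod_le _ _).trans ?_
    refine (sum_le_card_nsmul _ _ d fun i _ => natDegree_pol_le _ _ _ _).trans ?_
    rw [card_range, smul_eq_mul]
  have hdh := natDegree_hs_le (ZMod (q + 1)) m d c (L * d)
  rw [coeff_modByMonic m d c (L * d) _ hdeg hj]
  have hF : ∀ k, k ≤ L * d → (P3fou (fun a => P3fF m d L z a q) q k : ZMod (q + 1)) =
      (∏ i ∈ range L, pol (ZMod (q + 1)) m d (z i)).coeff k := by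
    intro k hk
    exact fou_val (fun a => fF_val m d L z a) (by omega) (by omega)
  have hH : ∀ k, k ≤ L * d → (P3fou (fun a => P3evh m d c (L * d) a q) q k : ZMod (q + 1)) =
      (hs (ZMod (q + 1)) m d c (L * d)).coeff k := by
    intro k hk
    exact fou_val (fun a => evh_val m d c (L * d) a) (by omega) (by omega)
  unfold P3res
  rw [cast_mod, Nat.cast_add, fou_val (fun a => fF_val m d L z a) (by omega) (by omega),
    sub_eq_add_neg, Nat.cast_sum, ← sum_neg_distrib]
  congr 1
  refine sum_congr rfl fun i _ => ?_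
  rw [Nat.cast_mul, Nat.cast_mul, cast_q, Nat.cast_sum, neg_one_mul, neg_mul]
  congr 2
  refine sum_congr rfl fun k hk => ?_
  have hk' : k ≤ L * d := Nat.lt_succ_iff.1 (mem_range.1 hk)
  split_ifs with h
  · rw [Nat.cast_mul, hF k hk', hH _ (by omega)]
  · exact Nat.cast_zero

private theorem map_pol (p m d x : ℕ) :
    (pol ℤ m d x).map (Int.castRingHom (ZMod p)) = pol (ZMod p) m d x := by
  unfold pol
  rw [Polynomial.map_sum]
  refine sum_congr rfl fun i _ => ?_
  rw [Polynomial.map_mul, map_C, Polynomial.map_pow, map_X, map_natCast]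

private theorem res_congr (m d c L : ℕ) (z : ℕ → ℕ) {q j : ℕ} (hp : (q + 1).Prime) (hj : j < d)
    (hq : d * (L * d) + L * d + d < q) :
    (P3res m d c L z q j : ℤ) ≡ ((∏ i ∈ range L, pol ℤ m d (z i)) %ₘ mu ℤ m d c).coeff j
      [ZMOD (q + 1 : ℕ)] := by
  have : Fact (q + 1).Prime := ⟨hp⟩
  rw [← ZMod.intCast_eq_intCast_iff]
  have h1 : ((((∏ i ∈ range L, pol ℤ m d (z i)) %ₘ mu ℤ m d c).coeff j : ℤ) : ZMod (q + 1)) =
      (((∏ i ∈ range L, pol ℤ m d (z i)) %ₘ mu ℤ m d c).map
        (Int.castRingHom (ZMod (q + 1)))).coeff j := by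
    rw [coeff_map]; rfl
  rw [h1, map_modByMonic _ (mu_monic ℤ m d c), Int.cast_natCast, res_val m d c L z hj hq]
  congr 2
  · rw [Polynomial.map_prod]
    exact prod_congr rfl fun i _ => (map_pol _ _ _ _).symm
  · unfold mu
    rw [Polynomial.map_add, Polynomial.map_pow, map_X, map_pol]

end values

/-! ### Definability -/

section definability

variable {n : ℕ}

private theorem fam_at {g : ℕ → (Fin n → ℕ) → ℕ}
    (hg : DFun (n + 1) (fun w => g (w 0) (fun i => w i.succ))) {k : ℕ} {i : (Fin k → ℕ) → ℕ}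
    (σ : Fin n → Fin k) (hi : DFun k i) : DFun k (fun u => g (i u) (fun l => u (σ l))) := by
  have h1 := hg.comp (n := k) (h := Fin.cons i (fun l u => u (σ l))) (by
    intro l
    refine Fin.cases ?_ (fun l => ?_) l
    · exact hi
    · exact DFun.proj (σ l))
  exact h1

private theorem dfun_evp {m d x a q N : (Fin n → ℕ) → ℕ} (hm : DFun n m) (hd : DFun n d)
    (hx : DFun n x) (ha : DFun n a) (hq : DFun n q) (hN : DFun n N) (h2 : ∀ v, 2 ≤ m v)
    (hdN : ∀ v, d v ≤ lg (N v)) :
    DFun n (fun v => P3evp (m v) (d v) (x v) (a v) (q v)) := by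
  have h1 : DFun (n + 1) (fun w => dg (m fun i => w i.succ) (x fun i => w i.succ) (w 0) *
      ((a fun i => w i.succ) ^ (w 0) % ((q fun i => w i.succ) + 1))) :=
    (dfun_dg hm.weak hx.weak (DFun.proj 0) (fun _ => h2 _)).mul
      (pow_mod_def ha.weak (DFun.proj 0) ((hq.add (DFun.const 1)).weak) (fun _ => Nat.succ_pos _))
  exact (dfun_sumPoly 1 (g := fun s v => dg (m v) (x v) s * (a v ^ s % (q v + 1))) h1 hd hN
    (fun v => by rw [pow_one]; exact (hdN v).trans (Nat.le_succ _))).mod hq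

private theorem dfun_evm {m d c a q N : (Fin n → ℕ) → ℕ} (hm : DFun n m) (hd : DFun n d)
    (hc : DFun n c) (ha : DFun n a) (hq : DFun n q) (hN : DFun n N) (h2 : ∀ v, 2 ≤ m v)
    (hdN : ∀ v, d v ≤ lg (N v)) :
    DFun n (fun v => P3evm (m v) (d v) (c v) (a v) (q v)) := by
  have h1 : DFun (n + 1) (fun w => dg (m fun i => w i.succ) (c fun i => w i.succ) (w 0) *
      ((a fun i => w i.succ) ^ ((d fun i => w i.succ) - w 0) % ((q fun i => w i.succ) + 1))) :=
    (dfun_dg hm.weak hc.weak (DFun.proj 0) (fun _ => h2 _)).mul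
      (pow_mod_def ha.weak (hd.weak.sub (DFun.proj 0)) ((hq.add (DFun.const 1)).weak)
        (fun _ => Nat.succ_pos _))
  exact ((DFun.const 1).add (dfun_sumPoly 1
    (g := fun s v => dg (m v) (c v) s * (a v ^ (d v - s) % (q v + 1))) h1 hd hN
    (fun v => by rw [pow_one]; exact (hdN v).trans (Nat.le_succ _)))).mod hq

private theorem dfun_evh {m d c D a q N : (Fin n → ℕ) → ℕ} (K : ℕ) (hm : DFun n m)
    (hd : DFun n d) (hc : DFun n c) (hD : DFun n D) (ha : DFun n a) (hq : DFun n q)
    (hN : DFun n N) (h2 : ∀ v, 2 ≤ m v) (hdN : ∀ v, d v ≤ lg (N v))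
    (hDN : ∀ v, D v + 1 ≤ (lg (N v) + 1) ^ K) :
    DFun n (fun v => P3evh (m v) (d v) (c v) (D v) (a v) (q v)) := by
  have h0 : DFun n (fun v => 1 + q v * P3evm (m v) (d v) (c v) (a v) (q v)) :=
    (DFun.const 1).add (hq.mul (dfun_evm hm hd hc ha hq hN h2 hdN))
  have h1 : DFun (n + 1) (fun w => (1 + (q fun i => w i.succ) * P3evm (m fun i => w i.succ)
      (d fun i => w i.succ) (c fun i => w i.succ) (a fun i => w i.succ) (q fun i => w i.succ)) ^
      (w 0) % ((q fun i => w i.succ) + 1)) :=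
    pow_mod_def h0.weak (DFun.proj 0) ((hq.add (DFun.const 1)).weak) (fun _ => Nat.succ_pos _)
  exact (dfun_sumPoly K
    (g := fun i v => (1 + q v * P3evm (m v) (d v) (c v) (a v) (q v)) ^ i % (q v + 1))
    h1 (hD.add (DFun.const 1)) hN hDN).mod hq

private theorem dfun_fF {m d L a q N : (Fin n → ℕ) → ℕ} {z : ℕ → (Fin n → ℕ) → ℕ} (K : ℕ)
    (hm : DFun n m) (hd : DFun n d) (hL : DFun n L) (ha : DFun n a) (hq : DFun n q)
    (hN : DFun n N) (hz : DFun (n + 1) (fun w => z (w 0) (fun i => w i.succ)))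
    (h2 : ∀ v, 2 ≤ m v) (hdN : ∀ v, d v ≤ lg (N v))
    (hLN : ∀ v, L v ≤ (lg (N v) + 1) ^ K) (hqN : ∀ v, q v ≤ (lg (N v) + 1) ^ K) :
    DFun n (fun v => P3fF (m v) (d v) (L v) (fun i => z i v) (a v) (q v)) := by
  have he : DFun (n + 1) (fun w => P3evp (m fun i => w i.succ) (d fun i => w i.succ)
      (z (w 0) fun i => w i.succ) (a fun i => w i.succ) (q fun i => w i.succ)) :=
    dfun_evp hm.weak hd.weak hz ha.weak hq.weak hN.weak (fun _ => h2 _) (fun _ => hdN _)
  have he2 : DFun (n + 2) (fun w => P3evp (m fun i => w i.succ.succ) (d fun i => w i.succ.succ)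
      (z (w 0) fun i => w i.succ.succ) (a fun i => w i.succ.succ) (q fun i => w i.succ.succ)) :=
    fam_at (g := fun j v => P3evp (m v) (d v) (z j v) (a v) (q v)) he
      (fun i => i.succ.succ) (DFun.proj 0)
  refine rec_poly K (A := fun v => 1 % (q v + 1)) (L := L) (N := N)
    (H := fun j x v => (x * P3evp (m v) (d v) (z j v) (a v) (q v)) % (q v + 1))
    (f := fun j v => P3fF (m v) (d v) j (fun i => z i v) (a v) (q v))
    ((DFun.const 1).mod hq) hL hN ?_ ?_ ?_ hLN ?_
  · exact ((DFun.proj 1).mul he2).mod hq.weak.weak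
  · intro v
    simp only [P3fF, range_zero, prod_empty]
  · intro v j _
    simp only [P3fF, prod_range_succ]
    rw [Nat.mod_mul_mod]
  · intro v j _
    exact (Nat.lt_succ_iff.1 (Nat.mod_lt _ (Nat.succ_pos _))).trans (hqN v)

private theorem dfun_fou {q k N : (Fin n → ℕ) → ℕ} {G : ℕ → (Fin n → ℕ) → ℕ} (K : ℕ)
    (hq : DFun n q) (hk : DFun n k) (hN : DFun n N)
    (hG : DFun (n + 1) (fun w => G (w 0) (fun i => w i.succ)))
    (hqN : ∀ v, q v ≤ (lg (N v) + 1) ^ K) :
    DFun n (fun v => P3fou (fun a => G a v) (q v) (k v)) := by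
  have h1 : DFun (n + 1) (fun w => (q fun i => w i.succ) * G (w 0 + 1) (fun i => w i.succ) *
      ((w 0 + 1) ^ ((q fun i => w i.succ) - (k fun i => w i.succ)) %
        ((q fun i => w i.succ) + 1))) :=
    (hq.weak.mul (fam_at hG Fin.succ ((DFun.proj 0).add (DFun.const 1)))).mul
      (pow_mod_def ((DFun.proj 0).add (DFun.const 1)) (hq.weak.sub hk.weak)
        ((hq.add (DFun.const 1)).weak) (fun _ => Nat.succ_pos _))
  exact (dfun_sumPoly K
    (g := fun a v => q v * G (a + 1) v * ((a + 1) ^ (q v - k v) % (q v + 1)))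
    h1 hq hN hqN).mod hq

private theorem dfun_res {m d c L q j N : (Fin n → ℕ) → ℕ} {z : ℕ → (Fin n → ℕ) → ℕ} (K : ℕ)
    (hm : DFun n m) (hd : DFun n d) (hc : DFun n c) (hL : DFun n L) (hq : DFun n q)
    (hj : DFun n j) (hN : DFun n N) (hz : DFun (n + 1) (fun w => z (w 0) (fun i => w i.succ)))
    (h2 : ∀ v, 2 ≤ m v) (hdN : ∀ v, d v ≤ lg (N v))
    (hLN : ∀ v, L v ≤ (lg (N v) + 1) ^ K) (hDN : ∀ v, L v * d v + 1 ≤ (lg (N v) + 1) ^ K)
    (hjN : ∀ v, j v + 1 ≤ (lg (N v) + 1) ^ K) (hqN : ∀ v, q v ≤ (lg (N v) + 1) ^ K) :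
    DFun n (fun v => P3res (m v) (d v) (c v) (L v) (fun i => z i v) (q v) (j v)) := by
  have hz2 : DFun (n + 2) (fun w => z (w 0) (fun i => w i.succ.succ)) :=
    fam_at hz (fun i => i.succ.succ) (DFun.proj 0)
  have hF : DFun (n + 1) (fun w => P3fF (m fun i => w i.succ) (d fun i => w i.succ)
      (L fun i => w i.succ) (fun l => z l fun i => w i.succ) (w 0) (q fun i => w i.succ)) :=
    dfun_fF (z := fun l w => z l fun i => w i.succ) K hm.weak hd.weak hL.weak (DFun.proj 0)
      hq.weak hN.weak hz2 (fun _ => h2 _) (fun _ => hdN _) (fun _ => hLN _) (fun _ => hqN _)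
  have hH : DFun (n + 1) (fun w => P3evh (m fun i => w i.succ) (d fun i => w i.succ)
      (c fun i => w i.succ) ((L fun i => w i.succ) * (d fun i => w i.succ)) (w 0)
      (q fun i => w i.succ)) :=
    dfun_evh K hm.weak hd.weak hc.weak (hL.mul hd).weak (DFun.proj 0) hq.weak hN.weak
      (fun _ => h2 _) (fun _ => hdN _) (fun _ => hDN _)
  -- the coefficients
  have hFc : DFun (n + 1) (fun w => P3fou (fun a => P3fF (m fun i => w i.succ)
      (d fun i => w i.succ) (L fun i => w i.succ) (fun l => z l fun i => w i.succ) a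
      (q fun i => w i.succ)) (q fun i => w i.succ) (w 0)) :=
    dfun_fou (G := fun a w => P3fF (m fun i => w i.succ)
      (d fun i => w i.succ) (L fun i => w i.succ) (fun l => z l fun i => w i.succ) a
      (q fun i => w i.succ)) K hq.weak (DFun.proj 0) hN.weak
      (fam_at (g := fun a v => P3fF (m v) (d v) (L v) (fun l => z l v) a (q v)) hF
        (fun i => i.succ.succ) (DFun.proj 0)) (fun _ => hqN _)
  have hHc : DFun (n + 1) (fun w => P3fou (fun a => P3evh (m fun i => w i.succ)
      (d fun i => w i.succ) (c fun i => w i.succ) ((L fun i => w i.succ) * (d fun i => w i.succ))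
      a (q fun i => w i.succ)) (q fun i => w i.succ) (w 0)) :=
    dfun_fou (G := fun a w => P3evh (m fun i => w i.succ)
      (d fun i => w i.succ) (c fun i => w i.succ) ((L fun i => w i.succ) * (d fun i => w i.succ))
      a (q fun i => w i.succ)) K hq.weak (DFun.proj 0) hN.weak
      (fam_at (g := fun a v => P3evh (m v) (d v) (c v) (L v * d v) a (q v)) hH
        (fun i => i.succ.succ) (DFun.proj 0)) (fun _ => hqN _)
  have hd2 : DFun (n + 2) (fun w => d fun i => w i.succ.succ) := hd.weak.weak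
  -- the inner sum
  have h3 : DFun (n + 2) (fun w => if w 1 + (d fun i => w i.succ.succ) ≤ w 0 then
      P3fou (fun a => P3fF (m fun i => w i.succ.succ) (d fun i => w i.succ.succ)
        (L fun i => w i.succ.succ) (fun l => z l fun i => w i.succ.succ) a
        (q fun i => w i.succ.succ)) (q fun i => w i.succ.succ) (w 0) *
      P3fou (fun a => P3evh (m fun i => w i.succ.succ) (d fun i => w i.succ.succ)
        (c fun i => w i.succ.succ) ((L fun i => w i.succ.succ) * (d fun i => w i.succ.succ))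
        a (q fun i => w i.succ.succ)) (q fun i => w i.succ.succ)
          (w 0 - w 1 - (d fun i => w i.succ.succ)) else 0) :=
    DFun.ite (Delta0.leFun ((DFun.proj 1).add hd2) (DFun.proj 0))
      ((fam_at (g := fun k v => P3fou (fun a => P3fF (m v) (d v) (L v) (fun l => z l v) a (q v))
          (q v) k) hFc (fun i => i.succ.succ) (DFun.proj 0)).mul
        (fam_at (g := fun k v => P3fou (fun a => P3evh (m v) (d v) (c v) (L v * d v) a (q v))
          (q v) k) hHc (fun i => i.succ.succ) (((DFun.proj 0).sub (DFun.proj 1)).sub hd2)))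
      (DFun.const 0)
  have h4 : DFun (n + 1) (fun w => ∑ k ∈ range ((L fun i => w i.succ) * (d fun i => w i.succ) + 1),
      if w 0 + (d fun i => w i.succ) ≤ k then
      P3fou (fun a => P3fF (m fun i => w i.succ) (d fun i => w i.succ)
        (L fun i => w i.succ) (fun l => z l fun i => w i.succ) a
        (q fun i => w i.succ)) (q fun i => w i.succ) k *
      P3fou (fun a => P3evh (m fun i => w i.succ) (d fun i => w i.succ)
        (c fun i => w i.succ) ((L fun i => w i.succ) * (d fun i => w i.succ))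
        a (q fun i => w i.succ)) (q fun i => w i.succ) (k - w 0 - (d fun i => w i.succ)) else 0) :=
    dfun_sumPoly K (g := fun k w => if w 0 + (d fun i => w i.succ) ≤ k then
      P3fou (fun a => P3fF (m fun i => w i.succ) (d fun i => w i.succ)
        (L fun i => w i.succ) (fun l => z l fun i => w i.succ) a
        (q fun i => w i.succ)) (q fun i => w i.succ) k *
      P3fou (fun a => P3evh (m fun i => w i.succ) (d fun i => w i.succ)
        (c fun i => w i.succ) ((L fun i => w i.succ) * (d fun i => w i.succ))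
        a (q fun i => w i.succ)) (q fun i => w i.succ) (k - w 0 - (d fun i => w i.succ)) else 0)
      h3 ((hL.mul hd).add (DFun.const 1)).weak hN.weak (fun _ => hDN _)
  have h5 : DFun (n + 1) (fun w => (q fun i => w i.succ) *
      dg (m fun i => w i.succ) (c fun i => w i.succ) ((j fun i => w i.succ) - w 0) *
      ∑ k ∈ range ((L fun i => w i.succ) * (d fun i => w i.succ) + 1),
      if w 0 + (d fun i => w i.succ) ≤ k then
      P3fou (fun a => P3fF (m fun i => w i.succ) (d fun i => w i.succ)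
        (L fun i => w i.succ) (fun l => z l fun i => w i.succ) a
        (q fun i => w i.succ)) (q fun i => w i.succ) k *
      P3fou (fun a => P3evh (m fun i => w i.succ) (d fun i => w i.succ)
        (c fun i => w i.succ) ((L fun i => w i.succ) * (d fun i => w i.succ))
        a (q fun i => w i.succ)) (q fun i => w i.succ) (k - w 0 - (d fun i => w i.succ)) else 0) :=
    (hq.weak.mul (dfun_dg hm.weak hc.weak (hj.weak.sub (DFun.proj 0)) (fun _ => h2 _))).mul h4
  have h6 := dfun_sumPoly K (g := fun i v => q v * dg (m v) (c v) (j v - i) *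
      ∑ k ∈ range (L v * d v + 1), if i + d v ≤ k then
      P3fou (fun a => P3fF (m v) (d v) (L v) (fun l => z l v) a (q v)) (q v) k *
      P3fou (fun a => P3evh (m v) (d v) (c v) (L v * d v) a (q v)) (q v) (k - i - d v) else 0)
      h5 (hj.add (DFun.const 1)) hN hjN
  have h7 : DFun n (fun v => P3fou (fun a => P3fF (m v) (d v) (L v) (fun l => z l v) a (q v))
      (q v) (j v)) :=
    dfun_fou (G := fun a v => P3fF (m v) (d v) (L v) (fun l => z l v) a (q v)) K hq hj hN hF hqN
  exact (h7.add h6).mod hq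

end definability

theorem residues : ∃ K₀ : ℕ, ∀ K₂ : ℕ, ∀ {n : ℕ} {m d c B L M N : (Fin n → ℕ) → ℕ}
    {z : ℕ → (Fin n → ℕ) → ℕ}, DFun n m → DFun n d → DFun n c → DFun n B → DFun n L → DFun n M →
    DFun n N → DFun (n + 1) (fun w => z (w 0) (fun i => w i.succ)) → (∀ v, 2 ≤ m v) →
    (∀ v, m v ^ d v ≤ B v) → (∀ v, L v ≤ lg (M v) + 1) → (∀ v, B v ≤ N v) → (∀ v, M v ≤ N v) →
    ∃ R : ℕ → ℕ → (Fin n → ℕ) → ℕ,
      DFun (n + 2) (fun w => R (w 0) (w 1) (fun i => w i.succ.succ)) ∧
      ∀ v q j, q.Prime → lp (N v) K₀ < q → q ≤ lp (N v) K₂ → j < d v →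
        (R q j v : ℤ) ≡ ((∏ i ∈ range (L v), pol ℤ (m v) (d v) (z i v)) %ₘ
          mu ℤ (m v) (d v) (c v)).coeff j [ZMOD q] := by
  refine ⟨3, fun K₂ {n m d c B L M N z} hm hd hc hB hL hM hN hz h2 hmd hLM hBN hMN => ?_⟩
  have hdN : ∀ v, d v ≤ lg (N v) := fun v =>
    (le_lg_of_pow_le (h2 v) (hmd v)).trans (Nat.log_mono_right (hBN v))
  have hLN : ∀ v, L v ≤ lg (N v) + 1 := fun v =>
    (hLM v).trans (Nat.succ_le_succ (Nat.log_mono_right (hMN v)))
  obtain ⟨N', hN'⟩ : ∃ N' : (Fin n → ℕ) → ℕ, N' = fun v => 2 * N v + 2 := ⟨_, rfl⟩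
  have hN'd : DFun n N' := by
    rw [hN']
    exact ((DFun.const 2).mul hN).add (DFun.const 2)
  have hlg : ∀ v, lg (N v) + 2 ≤ lg (N' v) + 1 := by
    intro v
    rw [hN']
    have h1 : lg (2 * N v + 2) = lg (N v + 1) + 1 := by
      unfold lg
      rw [show 2 * N v + 2 = (N v + 1) * 2 by ring]
      exact Nat.log_mul_base (by norm_num) (by omega)
    have h3 : lg (N v) ≤ lg (N v + 1) := Nat.log_mono_right (by omega)
    dsimp only
    omega
  obtain ⟨K, hK⟩ : ∃ K : ℕ, K = K₂ + 3 := ⟨_, rfl⟩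
  have hpow : ∀ v k, k ≤ K → (lg (N v) + 2) ^ k ≤ (lg (N' v) + 1) ^ K := by
    intro v k hk
    exact (Nat.pow_le_pow_left (hlg v) k).trans (Nat.pow_le_pow_right (by omega) hk)
  have hlp : DFun n (fun v => lp (N v) K₂) :=
    DFun.powConst ((DFun.lg hN).add (DFun.const 2)) K₂
  refine ⟨fun q j v => P3res (m v) (d v) (c v) (L v) (fun i => z i v)
    (min (q - 1) (lp (N v) K₂)) (min j (d v)), ?_, ?_⟩
  · refine dfun_res (n := n + 2) (z := fun l w => z l fun i => w i.succ.succ)
      (N := fun w => N' fun i => w i.succ.succ) K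
      hm.weak.weak hd.weak.weak hc.weak.weak hL.weak.weak
      (((DFun.proj 0).sub (DFun.const 1)).min hlp.weak.weak) ((DFun.proj 1).min hd.weak.weak)
      hN'd.weak.weak ?_ (fun _ => h2 _) ?_ ?_ ?_ ?_ ?_
    · exact fam_at hz (fun i => i.succ.succ.succ) (DFun.proj 0)
    · intro w
      have := hlg fun i => w i.succ.succ
      have := hdN fun i => w i.succ.succ
      omega
    · intro w
      refine le_trans ?_ (hpow _ 1 (by omega))
      have := hLN fun i => w i.succ.succ
      rw [pow_one]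
      omega
    · intro w
      refine le_trans ?_ (hpow _ 2 (by omega))
      have h3 := hLN fun i => w i.succ.succ
      have h4 := hdN fun i => w i.succ.succ
      nlinarith [Nat.mul_le_mul h3 h4]
    · intro w
      refine le_trans ?_ (hpow _ 1 (by omega))
      have h4 := hdN fun i => w i.succ.succ
      have h5 : min (w 1) (d fun i => w i.succ.succ) ≤ d fun i => w i.succ.succ := min_le_right _ _
      rw [pow_one]
      omega
    · intro w
      refine le_trans ?_ (hpow _ K₂ (by omega))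
      exact min_le_right _ _
  · intro v q j hq hq1 hq2 hj
    have h3 : min (q - 1) (lp (N v) K₂) = q - 1 := min_eq_left (by omega)
    have h4 : min j (d v) = j := min_eq_left hj.le
    dsimp only
    rw [h3, h4]
    have hq0 := hq.two_le
    obtain ⟨q', rfl⟩ : ∃ q', q = q' + 1 := ⟨q - 1, by omega⟩
    rw [Nat.add_sub_cancel]
    refine res_congr _ _ _ _ _ hq hj ?_
    have h5 := hLN v
    have h6 := hdN v
    unfold ECD.lp at hq1
    obtain ⟨l, hl⟩ : ∃ l, l = lg (N v) := ⟨_, rfl⟩
    rw [← hl] at h5 h6 hq1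
    have h7 : L v * d v ≤ (l + 1) * l := Nat.mul_le_mul h5 h6
    have h8 : d v * (L v * d v) ≤ l * ((l + 1) * l) := Nat.mul_le_mul h6 h7
    have h9 : l * ((l + 1) * l) + (l + 1) * l + l + 1 ≤ (l + 2) ^ 3 := by
      ring_nf
      nlinarith
    omega

end Pool.Agent.LinU
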