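import Pool.Agent.LinU.P0
import Pool.Agent.LinU.P2
import Pool.Agent.LinU.P3

/-!
# Package LinU-P4: products modulo `m` and a monic polynomial

* `coeff_rem_cast`: the remainder over `ZMod m` is the image of the remainder over `ℤ`.
* `prod_def`: the code of the remainder of a product of polylogarithmically many polynomials over
  `ZMod m` modulo a monic polynomial.
-/

set_option autoImplicit false

namespace Pool.Agent.LinU

open Finset Polynomial Pool.Agent.Grz Pool.Agent.GAvg Pool.Agent.PTr Pool.Agent.MTr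
open Pool.Agent.LPC Pool.Agent.ECD

theorem map_pol_cast (m M d z : ℕ) :
    (pol ℤ M d z).map (Int.castRingHom (ZMod m)) = pol (ZMod m) M d z := by
  simp [pol, Polynomial.map_sum]

theorem map_mu_cast (m M d c : ℕ) :
    (mu ℤ M d c).map (Int.castRingHom (ZMod m)) = mu (ZMod m) M d c := by
  simp only [mu, Polynomial.map_add, Polynomial.map_pow, Polynomial.map_X, map_pol_cast]

theorem coeff_rem_cast (m M d c L : ℕ) (z : ℕ → ℕ) (j : ℕ) :
    ((∏ i ∈ range L, pol (ZMod m) M d (z i)) %ₘ mu (ZMod m) M d c).coeff j =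
      ((((∏ i ∈ range L, pol ℤ M d (z i)) %ₘ mu ℤ M d c).coeff j : ℤ) : ZMod m) := by
  have h := Polynomial.map_modByMonic (p := ∏ i ∈ range L, pol ℤ M d (z i))
    (Int.castRingHom (ZMod m)) (mu_monic ℤ M d c)
  rw [map_mu_cast, Polynomial.map_prod] at h
  simp only [map_pol_cast] at h
  rw [← h, coeff_map]
  rfl

private theorem P4_arith {N K : ℕ} : 2 ^ lp N K + N < 2 ^ lp N (K + 1) := by
  have h1 : N + 1 ≤ 2 ^ (lg N + 1) := Nat.lt_pow_succ_log_self (by norm_num) N
  have h2 : 1 ≤ lp N K := Nat.one_le_pow _ _ (by omega)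
  have h3 : lp N K + (lg N + 1) ≤ lp N (K + 1) := by
    have : lp N (K + 1) = lp N K * (lg N + 2) := by
      unfold Pool.Agent.ECD.lp
      rw [pow_succ]
    rw [this]
    nlinarith
  have h4 : 2 ^ lp N K * 2 ^ (lg N + 1) ≤ 2 ^ lp N (K + 1) := by
    rw [← pow_add]
    exact Nat.pow_le_pow_right (by norm_num) h3
  have h5 : 2 ^ 1 ≤ 2 ^ lp N K := Nat.pow_le_pow_right (by norm_num) h2
  have h6 : 2 ^ 1 ≤ 2 ^ (lg N + 1) := Nat.pow_le_pow_right (by norm_num) (by omega)
  generalize 2 ^ lp N K = X at *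
  generalize 2 ^ (lg N + 1) = Y at *
  have h7 : X * (N + 1) ≤ X * Y := Nat.mul_le_mul_left _ h1
  rcases Nat.eq_zero_or_pos N with h | h
  · subst h
    have h8 : X * 2 ≤ X * Y := Nat.mul_le_mul_left _ (by simpa using h6)
    omega
  · have h8 : 2 * N ≤ X * N := Nat.mul_le_mul_right _ (by simpa using h5)
    have h9 : X * (N + 1) = X * N + X := by ring
    omega

theorem prod_def {n : ℕ} {m d c B L M : (Fin n → ℕ) → ℕ} {z : ℕ → (Fin n → ℕ) → ℕ}
    (hm : DFun n m) (hd : DFun n d) (hc : DFun n c) (hB : DFun n B) (hL : DFun n L)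
    (hM : DFun n M) (hz : DFun (n + 1) (fun w => z (w 0) (fun i => w i.succ)))
    (h2 : ∀ v, 2 ≤ m v) (hmd : ∀ v, m v ^ d v ≤ B v) (hLM : ∀ v, L v ≤ lg (M v) + 1) :
    DFun n (fun v => cde (d v) ((∏ i ∈ range (L v), pol (ZMod (m v)) (m v) (d v) (z i v)) %ₘ
      mu (ZMod (m v)) (m v) (d v) (c v))) := by
  classical
  obtain ⟨K, hK⟩ := size_bound
  obtain ⟨K₀, hK₀⟩ := residues
  obtain ⟨K₂, hK₂⟩ := dvd_def' (K + 1) K₀
  obtain ⟨N, hNe⟩ : ∃ N : (Fin n → ℕ) → ℕ, N = fun v => B v + M v + m v := ⟨_, rfl⟩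
  have hN : DFun n N := hNe ▸ (hB.add hM).add hm
  have hBN : ∀ v, B v ≤ N v := fun v => by rw [hNe]; dsimp only; omega
  have hMN : ∀ v, M v ≤ N v := fun v => by rw [hNe]; dsimp only; omega
  have hmN : ∀ v, m v ≤ N v := fun v => by rw [hNe]; dsimp only; omega
  obtain ⟨R, hR, hRc⟩ := hK₀ K₂ hm hd hc hB hL hM hN hz h2 hmd hLM hBN hMN
  obtain ⟨ρ, hρ⟩ : ∃ ρ : ℕ → (Fin n → ℕ) → ℤ, ρ = fun j v =>
      ((∏ i ∈ range (L v), pol ℤ (m v) (d v) (z i v)) %ₘ
        mu ℤ (m v) (d v) (c v)).coeff j := ⟨_, rfl⟩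
  have hρb : ∀ j v, (ρ j v).natAbs < 2 ^ lp (N v) K := fun j v => by
    rw [hρ]
    exact hK (m v) (d v) (c v) (L v) (B v) (M v) (N v) (fun i => z i v) (h2 v) (hmd v) (hLM v)
      (hBN v) (hMN v) j
  -- the arguments are `(s, j, v)`
  obtain ⟨W, hW⟩ : ∃ W : (Fin (n + 2) → ℕ) → ℤ, W = fun w =>
      if w 1 < d (fun i => w i.succ.succ) ∧ w 0 < m (fun i => w i.succ.succ) then
        ρ (w 1) (fun i => w i.succ.succ) - w 0 else 0 := ⟨_, rfl⟩
  have key : Delta0 (n + 2) (fun w => (m (fun i => w i.succ.succ) : ℤ) ∣ W w) := by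
    refine hK₂ (r := n + 2) (m := fun w => m (fun i => w i.succ.succ))
      (N := fun w => N (fun i => w i.succ.succ)) (W := W)
      (R := fun q w => if w 1 < d (fun i => w i.succ.succ) ∧ w 0 < m (fun i => w i.succ.succ) then
        R q (w 1) (fun i => w i.succ.succ) + w 0 * (q - 1) else 0)
      hm.weak.weak hN.weak.weak (fun v => lt_of_lt_of_le two_pos (h2 _)) (fun v => hmN _) ?_ ?_ ?_
    · have hd3 : DFun (n + 3) (fun u => d (fun i => u i.succ.succ.succ)) := hd.weak.weak.weak
      have hm3 : DFun (n + 3) (fun u => m (fun i => u i.succ.succ.succ)) := hm.weak.weak.weak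
      have h1 : DFun (n + 3) (fun u => R (u 0) (u (Fin.succ 1)) (fun i => u i.succ.succ.succ)) := by
        have := hR.comp (n := n + 3) (h := Fin.cons (fun u => u 0) (Fin.cons
          (fun u => u (Fin.succ 1)) (fun i u => u i.succ.succ.succ))) (by
            intro i
            refine Fin.cases ?_ (fun i => Fin.cases ?_ (fun i => ?_) i) i
            · exact DFun.proj 0
            · exact DFun.proj (Fin.succ 1)
            · exact DFun.proj _)
        exact this
      have h3 : Delta0 (n + 3) (fun u => u (Fin.succ 1) < d (fun i => u i.succ.succ.succ) ∧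
          u (Fin.succ 0) < m (fun i => u i.succ.succ.succ)) :=
        (Delta0.ltFun (DFun.proj _) hd3).and (Delta0.ltFun (DFun.proj _) hm3)
      exact DFun.ite h3 (h1.add ((DFun.proj (Fin.succ 0)).mul ((DFun.proj 0).sub (DFun.const 1))))
        (DFun.const 0)
    · intro w
      rw [hW]
      dsimp only
      split_ifs with h
      · have h3 := hρb (w 1) (fun i => w i.succ.succ)
        have h4 := hmN (fun i => w i.succ.succ)
        have h5 := P4_arith (N := N (fun i => w i.succ.succ)) (K := K)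
        have h6 := h.2
        omega
      · exact Nat.pos_of_ne_zero (by positivity)
    · intro w q hq hq1 hq2
      rw [hW]
      dsimp only
      split_ifs with h
      · have h3 := hRc (fun i => w i.succ.succ) q (w 1) hq hq1 hq2 h.1
        have h4 : ((w 0 * (q - 1) : ℕ) : ℤ) ≡ -(w 0 : ℤ) [ZMOD q] := by
          rw [Nat.cast_mul, Nat.cast_sub hq.pos, Int.modEq_iff_dvd]
          refine ⟨-(w 0 : ℤ), ?_⟩
          push_cast
          ring
        rw [Nat.cast_add, sub_eq_add_neg]
        rw [hρ]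
        exact h3.add h4
      · exact Int.ModEq.refl _
  -- the coefficients
  obtain ⟨g, hg⟩ : ∃ g : ℕ → (Fin n → ℕ) → ℕ, g = fun j v =>
      if j < d v then ((ρ j v : ℤ) : ZMod (m v)).val else 0 := ⟨_, rfl⟩
  have hgD : DFun (n + 1) (fun w => g (w 0) (fun i => w i.succ)) := by
    refine DFun.ofGraph (b := fun w => m (fun i => w i.succ)) hm.weak ?_ ?_
    · intro w
      have : NeZero (m fun i => w i.succ) := ⟨by have := h2 (fun i => w i.succ); omega⟩
      rw [hg]
      dsimp only
      split_ifs with h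
      · exact (ZMod.val_lt _).le
      · exact Nat.zero_le _
    · have h3 : Delta0 (n + 2) (fun w => w 1 < d (fun i => w i.succ.succ)) :=
        Delta0.ltFun (DFun.proj 1) hd.weak.weak
      have h4 : Delta0 (n + 2) (fun w => w 0 < m (fun i => w i.succ.succ)) :=
        Delta0.ltFun (DFun.proj 0) hm.weak.weak
      have h5 : Delta0 (n + 2) (fun w => w 0 = 0) := Delta0.eqFun (DFun.proj 0) (DFun.const 0)
      refine ((h3.and (h4.and key)).or (h3.not.and h5)).of_iff ?_
      intro w
      have : NeZero (m fun i => w i.succ.succ) := ⟨by have := h2 (fun i => w i.succ.succ); omega⟩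
      have hw1 : w (Fin.succ 0) = w 1 := rfl
      rw [hg, hW]
      dsimp only
      rw [hw1]
      by_cases h : w 1 < d (fun i => w i.succ.succ)
      · rw [if_pos h]
        simp only [h, not_true_eq_false, false_and, or_false, true_and]
        constructor
        · intro h6
          have h7 : w 0 < m (fun i => w i.succ.succ) := by
            rw [h6]; exact ZMod.val_lt _
          refine ⟨h7, ?_⟩
          rw [if_pos h7]
          rw [← ZMod.intCast_zmod_eq_zero_iff_dvd, Int.cast_sub, Int.cast_natCast, h6,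
            ZMod.natCast_zmod_val, sub_self]
        · rintro ⟨h7, h8⟩
          rw [if_pos h7, ← ZMod.intCast_zmod_eq_zero_iff_dvd, Int.cast_sub, Int.cast_natCast,
            sub_eq_zero] at h8
          rw [h8, ZMod.val_natCast_of_lt h7]
      · rw [if_neg h]
        simp [h]
  have h3 := dfun_code hm hd hB hgD h2 hmd
  have h4 : (fun v => cde (d v) ((∏ i ∈ range (L v), pol (ZMod (m v)) (m v) (d v) (z i v)) %ₘ
      mu (ZMod (m v)) (m v) (d v) (c v))) = fun v => ∑ i ∈ range (d v), g i v * m v ^ i := by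
    funext v
    rw [cde]
    refine sum_congr rfl fun i hi => ?_
    rw [hg]
    dsimp only
    rw [if_pos (mem_range.mp hi), coeff_rem_cast, hρ]
  rw [h4]
  exact h3

end Pool.Agent.LinU
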