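import Pool.Agent.LinU.P5C

/-!
# Package LinU-P5: powers modulo `m` and a monic polynomial

* codes: for `deg f < d` (or `f` a remainder modulo `mu`, `m ≥ 2`): `cde d f < m ^ d` and
  `pol (ZMod m) m d (cde d f) = f`; `cde d (pol (ZMod m) m d z) = z` for `z < m ^ d`.
* Let `R = (ℤ/m)[X]/(mu)` (`AdjoinRoot`), coded by the code of the remainder, `x ∈ R`,
  `E = lg (B v) + 1`, so `|R| ≤ B < 2 ^ E` and `x ^ E = x ^ (E + 1) s` for some `s` (the sums of the sets
  of powers `x ^ i`, `i < E`, are not all different, `P5A.lean`), so there is an idempotent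
  `e = x ^ E y` with `x ^ E e = x ^ E`; it is unique, so its code is in `DFun`. The elements `x`
  with `x e = x` that have an inverse `y`, `x y = e`, form a `GFam` (`P5C.lean`), `prod1` is
  `prod_def`. `x e` is in this group and `x ^ t = (x e) ^ t` for `t ≥ E`; `x ^ t`, `t ≤ E`, is a short
  product.
* `powX_mul_def`: apply this to `X` (its code is `m` for `d ≥ 2`, for `d = 1` it is the code of the
  constant `- c_0`) and multiply by `pol z`. ∎
-/

set_option autoImplicit false

namespace Pool.Agent.LinU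

open Finset Polynomial Pool.Agent.Grz Pool.Agent.GAvg Pool.Agent.PTr Pool.Agent.MTr
open Pool.Agent.LPC Pool.Agent.ECD

theorem cde_lt {m d : ℕ} (hm : 2 ≤ m) (f : (ZMod m)[X]) : cde d f < m ^ d := cde_lt_aux hm f

theorem pol_cde {m d : ℕ} (hm : 2 ≤ m) {f : (ZMod m)[X]} (hf : f.degree < d) :
    pol (ZMod m) m d (cde d f) = f := pol_cde_aux hm hf

theorem cde_pol {m d z : ℕ} (hm : 2 ≤ m) (hz : z < m ^ d) : cde d (pol (ZMod m) m d z) = z :=
  cde_pol_aux hm hz

theorem dg_cde {m d i : ℕ} (hm : 2 ≤ m) (f : (ZMod m)[X]) (hi : i < d) :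
    dg m (cde d f) i = (f.coeff i).val := dg_cde_aux hm f hi

/-- the class of `X` -/
theorem de_X {m d : ℕ} (c : ℕ) (hm : 2 ≤ m) :
    de m d c (if d = 1 then m - c % m else m) =
      AdjoinRoot.mk (mu (ZMod m) m d c) (X : (ZMod m)[X]) := by
  rcases Nat.lt_trichotomy d 1 with hd | hd | hd
  · obtain rfl : d = 0 := by omega
    refine en_inj hm ?_
    have h1 := en_lt hm (de m 0 c (if (0 : ℕ) = 1 then m - c % m else m))
    have h3 := en_lt hm (AdjoinRoot.mk (mu (ZMod m) m 0 c) (X : (ZMod m)[X]))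
    rw [pow_zero] at h1 h3
    omega
  · subst hd
    rw [if_pos rfl, de, AdjoinRoot.mk_eq_mk]
    have h1 : pol (ZMod m) m 1 (m - c % m) - X = - mu (ZMod m) m 1 c := by
      have h3 : ((m - c % m : ℕ) : ZMod m) = - ((c : ℕ) : ZMod m) := by
        rw [Nat.cast_sub (Nat.mod_lt _ (by omega)).le, ZMod.natCast_self, ZMod.natCast_mod, zero_sub]
      rw [mu, pol, pol, sum_range_one, sum_range_one]
      unfold dg
      rw [pow_zero, Nat.div_one, Nat.div_one, ZMod.natCast_mod, ZMod.natCast_mod, h3, pow_zero,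
        mul_one, mul_one, pow_one, C_neg]
      ring
    rw [h1]
    exact (dvd_refl _).neg_right
  · rw [if_neg (by omega), de]
    congr 1
    ext j
    rw [coeff_pol, coeff_X]
    rcases Nat.lt_trichotomy j 1 with hj | hj | hj
    · obtain rfl : j = 0 := by omega
      rw [if_pos (by omega), if_neg (by omega)]
      unfold dg
      rw [pow_zero, Nat.div_one, Nat.mod_self, Nat.cast_zero]
    · subst hj
      rw [if_pos (by omega), if_pos rfl]
      unfold dg
      rw [pow_one, Nat.div_self (by omega), Nat.mod_eq_of_lt (by omega), Nat.cast_one]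
    · rw [if_neg (show ¬ (1 = j) by omega)]
      split_ifs
      · unfold dg
        rw [Nat.div_eq_of_lt, Nat.zero_mod, Nat.cast_zero]
        calc m = m ^ 1 := (pow_one m).symm
          _ < m ^ j := Nat.pow_lt_pow_right (by omega) hj
      · rfl

theorem powX_mul_def {n : ℕ} {m d c B z t : (Fin n → ℕ) → ℕ} (hm : DFun n m) (hd : DFun n d)
    (hc : DFun n c) (hB : DFun n B) (hz : DFun n z) (ht : DFun n t) (h2 : ∀ v, 2 ≤ m v)
    (hmd : ∀ v, m v ^ d v ≤ B v) :
    DFun n (fun v => cde (d v) ((X ^ t v * pol (ZMod (m v)) (m v) (d v) (z v)) %ₘ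
      mu (ZMod (m v)) (m v) (d v) (c v))) := by
  have hxc : DFun n (fun v => if d v = 1 then m v - c v % m v else m v) :=
    DFun.ite (Delta0.eqFun hd (DFun.const 1)) (hm.sub (DFun.modAny hc hm)) hm
  have hx : DFun n (fun v => en (AdjoinRoot.mk (mu (ZMod (m v)) (m v) (d v) (c v))
      (X : (ZMod (m v))[X]))) :=
    dfun_of_eq (rde_def hm hd hc hB h2 hmd hxc) fun v => by rw [de_X (c v) (h2 v)]
  have h := rmul_def hm hd hc hB h2 hmd (rpow_def hm hd hc hB h2 hmd hx ht)
    (rde_def hm hd hc hB h2 hmd hz)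
  refine dfun_of_eq h fun v => ?_
  rw [de, ← map_pow, ← map_mul, en_mk]

end Pool.Agent.LinU
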