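import Pool.Agent.LinU.P5B

/-!
# Powers modulo `m` and a monic polynomial
-/

set_option autoImplicit false

namespace Pool.Agent.LinU

open Finset Polynomial Pool.Agent.Grz Pool.Agent.GAvg Pool.Agent.PTr Pool.Agent.MTr
open Pool.Agent.LPC Pool.Agent.ECD

variable {n : ℕ} {m d c B : (Fin n → ℕ) → ℕ}

/-- the family of the groups at idempotents -/
noncomputable def rfam (hm : DFun n m) (hd : DFun n d) (hc : DFun n c) (hB : DFun n B)
    (h2 : ∀ v, 2 ≤ m v) (hmd : ∀ v, m v ^ d v ≤ B v)
    (e : ∀ v, RR (m v) (d v) (c v)) (he : ∀ v, e v * e v = e v)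
    (hed : DFun n (fun v => en (e v))) : GFam n where
  G v := Gp (e v)
  grp v := Gp.grp (he v)
  enc v x := en x.1
  inj v x y h := Subtype.ext (en_inj (h2 v) h)
  N := B
  hN := hB
  bd v x := (en_lt (h2 v) x.1).le.trans (hmd v)
  mem := by
    have h0 : DFun (n + 1) (fun w => en (de (m fun i => w i.succ) (d fun i => w i.succ)
        (c fun i => w i.succ) (w 0))) :=
      rde_def (m := fun w => m fun i => w i.succ) (d := fun w => d fun i => w i.succ)
        (c := fun w => c fun i => w i.succ) hm.weak hd.weak hc.weak hB.weak (fun _ => h2 _)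
        (fun _ => hmd _) (DFun.proj 0)
    have h1 : DFun (n + 1 + 1) (fun w => en (de (m fun i => w i.succ.succ)
        (d fun i => w i.succ.succ) (c fun i => w i.succ.succ) (w 0))) :=
      rde_def (m := fun w => m fun i => w i.succ.succ) (d := fun w => d fun i => w i.succ.succ)
        (c := fun w => c fun i => w i.succ.succ) hm.weak.weak hd.weak.weak hc.weak.weak
        hB.weak.weak (fun _ => h2 _) (fun _ => hmd _) (DFun.proj 0)
    have h3 : DFun (n + 1) (fun w => en (de (m fun i => w i.succ) (d fun i => w i.succ)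
        (c fun i => w i.succ) (w 0) * e fun i => w i.succ)) :=
      rmul_def (m := fun w => m fun i => w i.succ) (d := fun w => d fun i => w i.succ)
        (c := fun w => c fun i => w i.succ) hm.weak hd.weak hc.weak hB.weak (fun _ => h2 _)
        (fun _ => hmd _) h0 hed.weak
    have h4 : DFun (n + 1 + 1) (fun w => en (de (m fun i => w i.succ.succ)
        (d fun i => w i.succ.succ) (c fun i => w i.succ.succ) (w (Fin.succ 0)) *
        de (m fun i => w i.succ.succ) (d fun i => w i.succ.succ)
        (c fun i => w i.succ.succ) (w 0))) :=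
      rmul_def (m := fun w => m fun i => w i.succ.succ) (d := fun w => d fun i => w i.succ.succ)
        (c := fun w => c fun i => w i.succ.succ) hm.weak.weak hd.weak.weak hc.weak.weak
        hB.weak.weak (fun _ => h2 _) (fun _ => hmd _) h0.weak h1
    refine (((Delta0.eqFun h0 (DFun.proj 0)).and (Delta0.eqFun h3 (DFun.proj 0))).and
      (Delta0.bexFun hB.weak (P := fun y w => en (de (m fun i => w i.succ)
        (d fun i => w i.succ) (c fun i => w i.succ) (w 0) *
        de (m fun i => w i.succ) (d fun i => w i.succ) (c fun i => w i.succ) y) =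
        en (e fun i => w i.succ)) (Delta0.eqFun h4 hed.weak.weak))).of_iff
        fun w => Iff.symm ?_
    constructor
    · rintro ⟨⟨h5, h6⟩, y, -, h7⟩
      refine ⟨⟨de _ _ _ (w 0), ?_, de _ _ _ y, en_inj (h2 _) h7⟩, h5⟩
      exact en_inj (h2 _) (h6.trans h5.symm)
    · rintro ⟨x, hx⟩
      have h5 : de (m fun i => w i.succ) (d fun i => w i.succ) (c fun i => w i.succ) (w 0) =
          x.1 := by
        rw [← hx, de_en (h2 _)]
      obtain ⟨y, hy⟩ := x.2.2
      refine ⟨⟨?_, ?_⟩, en y, (en_lt (h2 _) y).le.trans (hmd _), ?_⟩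
      · rw [h5, hx]
      · rw [h5, x.2.1, hx]
      · rw [h5, de_en (h2 _), hy]
  prod1 := by
    intro k σ P L M hσ hP hL hM hLM
    have hm' : DFun k (fun u => m fun i => σ i u) := hm.comp hσ
    have hd' : DFun k (fun u => d fun i => σ i u) := hd.comp hσ
    have hc' : DFun k (fun u => c fun i => σ i u) := hc.comp hσ
    have hB' : DFun k (fun u => B fun i => σ i u) := hB.comp hσ
    have h5 := rprod_def (m := fun u => m fun i => σ i u) (d := fun u => d fun i => σ i u)
      (c := fun u => c fun i => σ i u) hm' hd' hc' hB' (fun _ => h2 _) (fun _ => hmd _)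
      hL hM hLM (P := fun u i => (P u i).1) hP
    have h6 := rmul_def (m := fun u => m fun i => σ i u) (d := fun u => d fun i => σ i u)
      (c := fun u => c fun i => σ i u) hm' hd' hc' hB' (fun _ => h2 _) (fun _ => hmd _)
      h5 (hed.comp hσ)
    refine dfun_of_eq h6 fun u => ?_
    rw [Gp.prod_val (he _)]

/-- All powers are definable. -/
theorem rpow_def (hm : DFun n m) (hd : DFun n d) (hc : DFun n c) (hB : DFun n B)
    (h2 : ∀ v, 2 ≤ m v) (hmd : ∀ v, m v ^ d v ≤ B v)
    {x : ∀ v, RR (m v) (d v) (c v)} (hx : DFun n (fun v => en (x v))) {t : (Fin n → ℕ) → ℕ}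
    (ht : DFun n t) : DFun n (fun v => en (x v ^ t v)) := by
  -- short powers
  have hshort : ∀ {s : (Fin n → ℕ) → ℕ}, DFun n s → (∀ v, s v ≤ lg (B v) + 1) →
      DFun n (fun v => en (x v ^ s v)) := by
    intro s hs hsb
    refine dfun_of_eq (rprod_def hm hd hc hB h2 hmd hs hB hsb (P := fun v _ => x v) hx.weak)
      fun v => ?_
    rw [prod_const, card_range]
  have hk : ∀ v, ∃ e, e * e = e ∧ x v ^ (lg (B v) + 1) * e = x v ^ (lg (B v) + 1) ∧
      ∃ y, x v ^ (lg (B v) + 1) * y = e := by
    intro v
    obtain ⟨hf, hcard⟩ := finite_RR (m := m v) (d := d v) (c := c v) (h2 v)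
    exact exists_idem (x v) ((hcard.trans (hmd v)).trans_lt (lt_two_pow_lg _))
  choose e he hwe hwy using hk
  have hE : DFun n (fun v => lg (B v) + 1) := (DFun.lg hB).add (DFun.const 1)
  have hw : DFun n (fun v => en (x v ^ (lg (B v) + 1))) := hshort hE fun _ => le_rfl
  -- the code of the idempotent
  have hed : DFun n (fun v => en (e v)) := by
    refine DFun.ofGraph hB (fun v => (en_lt (h2 v) _).le.trans (hmd v)) ?_
    have h0 : DFun (n + 1) (fun w => en (de (m fun i => w i.succ) (d fun i => w i.succ)
        (c fun i => w i.succ) (w 0))) :=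
      rde_def (m := fun w => m fun i => w i.succ) (d := fun w => d fun i => w i.succ)
        (c := fun w => c fun i => w i.succ) hm.weak hd.weak hc.weak hB.weak (fun _ => h2 _)
        (fun _ => hmd _) (DFun.proj 0)
    have h1 : DFun (n + 1 + 1) (fun w => en (de (m fun i => w i.succ.succ)
        (d fun i => w i.succ.succ) (c fun i => w i.succ.succ) (w 0))) :=
      rde_def (m := fun w => m fun i => w i.succ.succ) (d := fun w => d fun i => w i.succ.succ)
        (c := fun w => c fun i => w i.succ.succ) hm.weak.weak hd.weak.weak hc.weak.weak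
        hB.weak.weak (fun _ => h2 _) (fun _ => hmd _) (DFun.proj 0)
    have h3 : DFun (n + 1) (fun w => en (x (fun i => w i.succ) ^
        (lg (B fun i => w i.succ) + 1) * de (m fun i => w i.succ) (d fun i => w i.succ)
        (c fun i => w i.succ) (w 0))) :=
      rmul_def (m := fun w => m fun i => w i.succ) (d := fun w => d fun i => w i.succ)
        (c := fun w => c fun i => w i.succ) hm.weak hd.weak hc.weak hB.weak (fun _ => h2 _)
        (fun _ => hmd _) hw.weak h0
    have h4 : DFun (n + 1 + 1) (fun w => en (x (fun i => w i.succ.succ) ^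
        (lg (B fun i => w i.succ.succ) + 1) *
        de (m fun i => w i.succ.succ) (d fun i => w i.succ.succ)
        (c fun i => w i.succ.succ) (w 0))) :=
      rmul_def (m := fun w => m fun i => w i.succ.succ) (d := fun w => d fun i => w i.succ.succ)
        (c := fun w => c fun i => w i.succ.succ) hm.weak.weak hd.weak.weak hc.weak.weak
        hB.weak.weak (fun _ => h2 _) (fun _ => hmd _) hw.weak.weak h1
    refine (((Delta0.eqFun h0 (DFun.proj 0)).and (Delta0.eqFun h3 hw.weak)).and
      (Delta0.bexFun hB.weak (P := fun y w => en (x (fun i => w i.succ) ^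
        (lg (B fun i => w i.succ) + 1) * de (m fun i => w i.succ) (d fun i => w i.succ)
        (c fun i => w i.succ) y) = w 0) (Delta0.eqFun h4 (DFun.proj (Fin.succ 0))))).of_iff
        fun w => Iff.symm ?_
    constructor
    · rintro ⟨⟨h5, h6⟩, y, -, h7⟩
      have h8 : de (m fun i => w i.succ) (d fun i => w i.succ) (c fun i => w i.succ) (w 0) =
          e fun i => w i.succ := by
        refine idem_unique (en_inj (h2 _) h6) ⟨de _ _ _ y, en_inj (h2 _) ?_⟩ (hwe _) (hwy _)
        rw [h7, h5]
      rw [← h5, h8]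
    · intro h5
      have h6 : de (m fun i => w i.succ) (d fun i => w i.succ) (c fun i => w i.succ) (w 0) =
          e fun i => w i.succ := by
        rw [h5, de_en (h2 _)]
      obtain ⟨y, hy⟩ := hwy fun i => w i.succ
      refine ⟨⟨?_, ?_⟩, en y, (en_lt (h2 _) y).le.trans (hmd _), ?_⟩
      · rw [h6, h5]
      · rw [h6, hwe]
      · rw [de_en (h2 _), hy, h5]
  -- the powers in the group
  let Φ := rfam hm hd hc hB h2 hmd e he hed
  have hg : ∀ v, x v * e v * e v = x v * e v ∧ ∃ y, x v * e v * y = e v := by
    intro v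
    refine ⟨by rw [mul_assoc, he], ?_⟩
    obtain ⟨y, hy⟩ := hwy v
    refine ⟨x v ^ (lg (B v)) * y, ?_⟩
    calc x v * e v * (x v ^ lg (B v) * y) = e v * (x v ^ (lg (B v) + 1) * y) := by ring
      _ = e v := by rw [hy, he]
  have hpow : DFun n (fun v => en ((x v * e v) ^ t v * e v)) := by
    have h := Φ.dpow (σ := fun i v => v i) (fun i => DFun.proj i)
      (g := fun v => (⟨x v * e v, hg v⟩ : Gp (e v))) (rmul_def hm hd hc hB h2 hmd hx hed) ht
    refine dfun_of_eq h fun v => ?_
    exact congrArg en (Gp.pow_val (he v) ⟨x v * e v, hg v⟩ (t v))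
  have hmin := hshort (ht.min hE) fun _ => min_le_right _ _
  refine dfun_of_eq (DFun.ite (Delta0.leFun ht hE) hmin hpow) fun v => ?_
  split_ifs with h
  · rw [min_eq_left h]
  · congr 1
    push Not at h
    have h1 : x v ^ t v = x v ^ t v * e v := by
      obtain ⟨l, hl⟩ := Nat.exists_eq_add_of_lt h
      calc x v ^ t v = x v ^ (lg (B v) + 1) * (x v ^ l * x v) := by rw [hl]; ring
        _ = x v ^ (lg (B v) + 1) * e v * (x v ^ l * x v) := by rw [hwe]
        _ = x v ^ t v * e v := by rw [hl]; ring
    have h3 : ∀ s, (e v) ^ s * e v = e v := by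
      intro s
      induction s with
      | zero => rw [pow_zero, one_mul]
      | succ s ih => rw [pow_succ, mul_assoc, he, ih]
    rw [mul_pow, mul_assoc, h3, ← h1]

end Pool.Agent.LinU
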