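import Pool.Agent.LinU.P7d
import Pool.Agent.H63AB.SolR

/-!
# Package LinU-P7a: the resolvent theorem in digits (pure algebra)

`good_exists_mod` (every modulus `q ≥ 2`) and `good_coeff_pp` (`q` a prime power); `good_exists` and
`good_coeff` are the forms for a prime.
-/

set_option autoImplicit false

namespace Pool.Agent.LinU

open Finset Polynomial Module

namespace A7

open Pool.Agent.SolR

/-! ### digits of the codes of monic polynomials -/

lemma dg_zero_of_lt {q z i : ℕ} (h : z < q ^ i) : dg q z i = 0 := by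
  unfold dg
  rw [Nat.div_eq_of_lt h, Nat.zero_mod]

lemma dg_zero (q i : ℕ) : dg q 0 i = 0 := by
  unfold dg
  rw [Nat.zero_div, Nat.zero_mod]

lemma dg_top {q N c : ℕ} (hq : 2 ≤ q) (hc : c < q ^ N) (i : ℕ) :
    dg q (c + q ^ N) i = if i < N then dg q c i else if i = N then 1 else 0 := by
  have h0 : 0 < q := by omega
  rcases lt_trichotomy i N with h | h | h
  · rw [if_pos h]
    unfold dg
    have e : q ^ N = q ^ (N - i) * q ^ i := by
      rw [← pow_add]
      congr 1
      omega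
    rw [e, Nat.add_mul_div_right _ _ (pow_pos h0 i), Nat.add_mod]
    have h1 : q ^ (N - i) % q = 0 := by
      apply Nat.mod_eq_zero_of_dvd
      exact dvd_pow_self q (by omega)
    rw [h1, add_zero, Nat.mod_mod]
  · subst h
    rw [if_neg (lt_irrefl _), if_pos rfl]
    unfold dg
    have h1 : (c + q ^ i) / q ^ i = 1 := by
      rw [Nat.add_div_right _ (pow_pos h0 i), Nat.div_eq_of_lt hc]
    rw [h1, Nat.mod_eq_of_lt (by omega)]
  · rw [if_neg h.not_gt, if_neg h.ne']
    apply dg_zero_of_lt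
    have h1 : q ^ (N + 1) ≤ q ^ i := Nat.pow_le_pow_right h0 h
    have h2 : 2 * q ^ N ≤ q ^ (N + 1) := by
      rw [pow_succ, mul_comm]
      exact Nat.mul_le_mul_left _ hq
    omega

section coeffs

variable {A : Type*} [CommRing A]

lemma pol_coeff (m d z i : ℕ) : (pol A m d z).coeff i = if i < d then (dg m z i : A) else 0 := by
  unfold pol
  rw [finsetSum_coeff]
  simp only [coeff_C_mul_X_pow]
  by_cases h : i < d
  · rw [if_pos h, Finset.sum_eq_single i]
    · rw [if_pos rfl]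
    · intro b _ hb
      rw [if_neg (Ne.symm hb)]
    · intro hi
      exact absurd (mem_range.2 h) hi
  · rw [if_neg h]
    refine Finset.sum_eq_zero fun b hb => ?_
    rw [if_neg]
    rintro rfl
    exact h (mem_range.1 hb)

/-- all coefficients, for a short code -/
lemma pol_coeff' {m d z : ℕ} (hm : 0 < m) (hz : z < m ^ d) (i : ℕ) :
    (pol A m d z).coeff i = (dg m z i : A) := by
  rw [pol_coeff]
  by_cases h : i < d
  · rw [if_pos h]
  · rw [if_neg h, dg_zero_of_lt (hz.trans_le (Nat.pow_le_pow_right hm (not_lt.1 h)))]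
    simp

lemma mu_coeff (m d c i : ℕ) : (mu A m d c).coeff i =
    if i < d then (dg m c i : A) else if i = d then 1 else 0 := by
  unfold mu
  rw [coeff_add, coeff_X_pow, pol_coeff]
  rcases lt_trichotomy i d with h | h | h
  · simp only [if_neg h.ne, if_pos h, zero_add]
  · subst h
    simp
  · simp only [if_neg h.ne', if_neg h.not_gt, zero_add]

lemma mu_coeff' {m d c : ℕ} (hm : 2 ≤ m) (hc : c < m ^ d) (i : ℕ) :
    (mu A m d c).coeff i = (dg m (c + m ^ d) i : A) := by
  rw [mu_coeff, dg_top hm hc]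
  split_ifs <;> simp

lemma pol_degree (m d z : ℕ) : (pol A m d z).degree < d := by
  rw [degree_lt_iff_coeff_zero]
  intro i hi
  rw [pol_coeff, if_neg (not_lt.2 hi)]

lemma mu_monic_deg [Nontrivial A] (m d c : ℕ) :
    (mu A m d c).Monic ∧ (mu A m d c).natDegree = d := by
  have h1 : (mu A m d c).natDegree ≤ d := by
    rw [natDegree_le_iff_coeff_eq_zero]
    intro i hi
    rw [mu_coeff, if_neg (not_lt.2 hi.le), if_neg hi.ne']
  have h2 : (mu A m d c).coeff d = 1 := by
    rw [mu_coeff, if_neg (lt_irrefl d), if_pos rfl]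
  have h3 : (mu A m d c).natDegree = d := by
    refine le_antisymm h1 (le_natDegree_of_ne_zero ?_)
    rw [h2]
    exact one_ne_zero
  refine ⟨?_, h3⟩
  rw [Monic, leadingCoeff, h3, h2]

end coeffs

lemma mu_cde {q N : ℕ} (hq : 2 ≤ q) {f : (ZMod q)[X]} (hf : f.Monic) (hN : f.natDegree = N) :
    mu (ZMod q) q N (cde N f) = f := by
  haveI : NeZero q := ⟨by omega⟩
  ext i
  rw [mu_coeff]
  rcases lt_trichotomy i N with h | h | h
  · rw [if_pos h, dg_cde hq f h]
    exact ZMod.natCast_zmod_val _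
  · subst h
    rw [if_neg (lt_irrefl _), if_pos rfl, ← hN]
    exact hf.symm
  · rw [if_neg h.not_gt, if_neg h.ne', coeff_eq_zero_of_natDegree_lt (by omega)]

/-- codes of vectors -/
lemma exists_code {q : ℕ} (hq : 2 ≤ q) (N : ℕ) (w : Fin N → ZMod q) :
    ∃ z < q ^ N, vecOf q N z = w := by
  haveI : NeZero q := ⟨by omega⟩
  have h0 : 0 < q := by omega
  set g : ℕ → ℕ := fun i => if h : i < N then (w ⟨i, h⟩).val else 0 with hg
  have hlt : ∀ i < N, g i < q := by
    intro i hi
    rw [hg]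
    simp only
    rw [dif_pos hi]
    exact ZMod.val_lt _
  refine ⟨∑ i ∈ range N, g i * q ^ i, lt_code h0 g hlt, ?_⟩
  funext i
  show ((dg q (∑ i ∈ range N, g i * q ^ i) i : ℕ) : ZMod q) = w i
  rw [dg_code h0 g hlt i.2, hg]
  simp only
  rw [dif_pos i.2]
  exact ZMod.natCast_zmod_val _

/-- codes of families of vectors -/
lemma exists_family {q : ℕ} (hq : 2 ≤ q) (N e : ℕ) (u : ℕ → Fin N → ZMod q) :
    ∃ c < (q ^ N) ^ e, ∀ l < e, vecOf q N (dg (q ^ N) c l) = u l := by
  choose z hz1 hz2 using fun l => exists_code hq N (u l)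
  have hP : 0 < q ^ N := pow_pos (by omega) _
  refine ⟨∑ l ∈ range e, z l * (q ^ N) ^ l, lt_code hP z fun i _ => hz1 i, ?_⟩
  intro l hl
  rw [dg_code hP z (fun i _ => hz1 i) hl, hz2]

lemma sol_iff {q N e g u x : ℕ} (hq : 2 ≤ q) {T : ℕ → ℕ}
    {A : Module.End (ZMod q) (Fin N → ZMod q)}
    (hA : ∀ z < q ^ N, vecOf q N (T z) = A (vecOf q N z)) :
    Sol A (vecOf q N x) e (mu (ZMod q) q e g) (fun l => vecOf q N (dg (q ^ N) u l)) ↔
      SolN q N e x T g u := by
  have hblk : ∀ l, dg (q ^ N) u l < q ^ N := fun l => dg_lt (pow_pos (by omega) _) _ _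
  unfold Sol SolN
  refine forall_congr' fun l => forall_congr' fun hl => ?_
  rw [← hA _ (hblk l), funext_iff]
  constructor
  · intro h i hi
    have h1 := h ⟨i, hi⟩
    rw [mu_coeff, if_pos hl] at h1
    rw [← ZMod.natCast_eq_natCast_iff']
    have h2 : ((dg q (T (dg (q ^ N) u l)) i : ℕ) : ZMod q) =
        (if l = 0 then (0 : Fin N → ZMod q) else vecOf q N (dg (q ^ N) u (l - 1))) ⟨i, hi⟩ -
        (dg q g l : ZMod q) * (dg q (dg (q ^ N) u (e - 1)) i : ZMod q) -
        (if l = 0 then vecOf q N x else 0) ⟨i, hi⟩ := h1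
    push_cast
    rw [h2]
    by_cases h0 : l = 0
    · simp only [if_pos h0, vecOf, Pi.zero_apply]
      ring
    · simp only [if_neg h0, vecOf, Pi.zero_apply]
      ring
  · rintro h ⟨i, hi⟩
    have h1 := h i hi
    rw [← ZMod.natCast_eq_natCast_iff'] at h1
    push_cast at h1
    rw [mu_coeff, if_pos hl]
    show ((dg q (T (dg (q ^ N) u l)) i : ℕ) : ZMod q) =
        (if l = 0 then (0 : Fin N → ZMod q) else vecOf q N (dg (q ^ N) u (l - 1))) ⟨i, hi⟩ -
        (dg q g l : ZMod q) * (dg q (dg (q ^ N) u (e - 1)) i : ZMod q) -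
        (if l = 0 then vecOf q N x else 0) ⟨i, hi⟩
    by_cases h0 : l = 0
    · simp only [if_pos h0, vecOf] at h1 ⊢
      simp only [Pi.zero_apply]
      linear_combination h1
    · simp only [if_neg h0, vecOf] at h1 ⊢
      simp only [Pi.zero_apply]
      linear_combination h1

/-- the projection to a coordinate -/
noncomputable def prj (q N : ℕ) (j : Fin N) : (Fin N → ZMod q) →ₗ[ZMod q] ZMod q :=
  LinearMap.proj j

lemma uPol_coeff' {q N e u j : ℕ} (hq : 2 ≤ q) (hu : u < (q ^ N) ^ e) (hj : j < N) (l : ℕ) :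
    (uPol (prj q N ⟨j, hj⟩) e (fun l => vecOf q N (dg (q ^ N) u l))).coeff l =
      ((dg q (dg (q ^ N) u l) j : ℕ) : ZMod q) := by
  by_cases hl : l < e
  · rw [uPol_coeff _ _ hl]
    rfl
  · have h1 : dg (q ^ N) u l = 0 :=
      dg_zero_of_lt (hu.trans_le (Nat.pow_le_pow_right (pow_pos (by omega) _) (not_lt.1 hl)))
    rw [h1, dg_zero, coeff_eq_zero_of_degree_lt]
    · simp
    · refine (uPol_degree _ _ _).trans_le ?_
      exact_mod_cast not_lt.1 hl

lemma mul_degree_lt {R : Type*} [CommRing R] [Nontrivial R] {f G : R[X]} {a b : ℕ}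
    (hG : G.Monic) (hGe : G.natDegree = a) (hf : f.degree < b) :
    (G * f).degree < ((a + b : ℕ) : WithBot ℕ) := by
  rw [mul_comm, hG.degree_mul]
  rcases eq_or_ne f 0 with h0 | h0
  · rw [h0, degree_zero, WithBot.bot_add]
    exact WithBot.bot_lt_coe _
  · rw [degree_eq_natDegree hG.ne_zero, hGe, degree_eq_natDegree h0]
    rw [degree_eq_natDegree h0] at hf
    have h1 : f.natDegree < b := by exact_mod_cast hf
    have h2 : f.natDegree + a < a + b := by omega
    exact_mod_cast h2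

lemma div_iff {q N e g u ν P j : ℕ} (hq : 2 ≤ q) (hg : g < q ^ e) (hu : u < (q ^ N) ^ e)
    (hν : ν < q ^ N) (hP : P < q ^ N) (hj : j < N) :
    mu (ZMod q) q e g ∣ mu (ZMod q) q N ν *
      uPol (prj q N ⟨j, hj⟩) e (fun l => vecOf q N (dg (q ^ N) u l)) - pol (ZMod q) q N P ↔
      ∃ h, h < q ^ N ∧ DivN q N e j g u ν P h := by
  have h0q : 0 < q := by omega
  haveI : Nontrivial (ZMod q) := ZMod.nontrivial_iff.2 (by omega)
  set U := uPol (prj q N ⟨j, hj⟩) e (fun l => vecOf q N (dg (q ^ N) u l)) with hU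
  set G := mu (ZMod q) q e g with hG
  set M := mu (ZMod q) q N ν with hM
  obtain ⟨hGm, hGe⟩ := mu_monic_deg (A := ZMod q) q e g
  obtain ⟨hMm, hMN⟩ := mu_monic_deg (A := ZMod q) q N ν
  rw [← hG] at hGm hGe
  rw [← hM] at hMm hMN
  -- coefficients of the two products
  have hl : ∀ k, (M * U).coeff k = ((∑ a ∈ range (k + 1), dg q (ν + q ^ N) a *
      dg q (dg (q ^ N) u (k - a)) j : ℕ) : ZMod q) := by
    intro k
    rw [coeff_mul, Finset.Nat.sum_antidiagonal_eq_sum_range_succ
      (fun a b => M.coeff a * U.coeff b)]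
    push_cast
    refine Finset.sum_congr rfl fun i _ => ?_
    rw [hM, mu_coeff' hq hν, hU, uPol_coeff' hq hu hj]
  have hr : ∀ h, h < q ^ N → ∀ k, (G * pol (ZMod q) q N h).coeff k =
      ((∑ a ∈ range (k + 1), dg q (g + q ^ e) a * dg q h (k - a) : ℕ) : ZMod q) := by
    intro h hh k
    rw [coeff_mul, Finset.Nat.sum_antidiagonal_eq_sum_range_succ
      (fun a b => G.coeff a * (pol (ZMod q) q N h).coeff b)]
    push_cast
    refine Finset.sum_congr rfl fun i _ => ?_
    rw [hG, mu_coeff' hq hg, pol_coeff' h0q hh]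
  have hPc : ∀ k, (pol (ZMod q) q N P).coeff k = ((dg q P k : ℕ) : ZMod q) :=
    pol_coeff' h0q hP
  -- degrees
  have hN0 : 0 < N := by omega
  have hUd : U.degree < e := uPol_degree _ _ _
  have hMU : (M * U).degree < ((N + e : ℕ) : WithBot ℕ) := mul_degree_lt hMm hMN hUd
  have hPd : (pol (ZMod q) q N P).degree < ((N + e : ℕ) : WithBot ℕ) :=
    (pol_degree q N P).trans_le (by exact_mod_cast Nat.le_add_right N e)
  have key : ∀ h, h < q ^ N → (M * U - pol (ZMod q) q N P = G * pol (ZMod q) q N h ↔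
      DivN q N e j g u ν P h) := by
    intro h hh
    have hGh : (G * pol (ZMod q) q N h).degree < ((N + e : ℕ) : WithBot ℕ) := by
      rw [add_comm N e]
      exact mul_degree_lt hGm hGe (pol_degree q N h)
    rw [sub_eq_iff_eq_add']
    unfold DivN
    constructor
    · intro heq k _
      rw [← ZMod.natCast_eq_natCast_iff', Nat.cast_add, ← hl, ← hr h hh, ← hPc, heq, coeff_add]
    · intro hD
      ext k
      by_cases hk : k < N + e
      · have h1 := hD k hk
        rw [← ZMod.natCast_eq_natCast_iff', Nat.cast_add, ← hl, ← hr h hh, ← hPc] at h1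
        rw [coeff_add]
        exact h1
      · have hk' : ((N + e : ℕ) : WithBot ℕ) ≤ (k : WithBot ℕ) := by
          exact_mod_cast not_lt.1 hk
        rw [coeff_add, coeff_eq_zero_of_degree_lt (hMU.trans_le hk'),
          coeff_eq_zero_of_degree_lt (hGh.trans_le hk'),
          coeff_eq_zero_of_degree_lt (hPd.trans_le hk'), add_zero]
  constructor
  · rintro ⟨H, hH⟩
    have hHd : H.degree < N := by
      rcases eq_or_ne H 0 with h0 | h0
      · rw [h0, degree_zero]
        exact WithBot.bot_lt_coe _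
      · have h3 : (H * G).degree < ((N + e : ℕ) : WithBot ℕ) := by
          rw [mul_comm, ← hH]
          exact (degree_sub_le _ _).trans_lt (max_lt hMU hPd)
        rw [hGm.degree_mul, degree_eq_natDegree hGm.ne_zero, hGe, degree_eq_natDegree h0] at h3
        have h4 : H.natDegree + e < N + e := by exact_mod_cast h3
        rw [degree_eq_natDegree h0]
        have : H.natDegree < N := by omega
        exact_mod_cast this
    refine ⟨cde N H, cde_lt hq H, (key _ (cde_lt hq H)).1 ?_⟩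
    rw [pol_cde hq hHd]
    exact hH
  · rintro ⟨h, hh, hD⟩
    exact ⟨_, (key h hh).2 hD⟩

end A7

open A7

/-- There is a good pair, for every modulus. -/
theorem good_exists_mod {q N e x j : ℕ} {T : ℕ → ℕ} (hq : 2 ≤ q) (he : 1 ≤ e)
    {A : Module.End (ZMod q) (Fin N → ZMod q)}
    (hA : ∀ z, z < q ^ N → vecOf q N (T z) = A (vecOf q N z)) (hj : j < N) :
    ∃ ν P, ν < q ^ N ∧ P < q ^ N ∧ GoodN q N e x T j ν P := by
  haveI : Nontrivial (ZMod q) := ZMod.nontrivial_iff.2 (by omega)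
  obtain ⟨ν, P, hν, hνN, hP, h⟩ :=
    SolR.exists_sol_rational A (prj q N ⟨j, hj⟩) (vecOf q N x)
  refine ⟨cde N ν, cde N P, cde_lt hq ν, cde_lt hq P, ?_⟩
  intro g hg u hu hs
  obtain ⟨hGm, hGe⟩ := mu_monic_deg (A := ZMod q) q e g
  have h1 := h e he _ hGm hGe _ ((sol_iff hq hA).2 hs)
  rw [← div_iff hq hg hu (cde_lt hq ν) (cde_lt hq P) hj, mu_cde hq hν hνN, pol_cde hq hP]
  exact h1

/-- Every good pair gives the coordinates on the orbit, `q` a power of the prime `p`. -/
theorem good_coeff_pp {p k q N e x j ν P : ℕ} {T : ℕ → ℕ} (hp : p.Prime) (hk : 0 < k)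
    (hqp : q = p ^ k) (he : 1 ≤ e) (hc : 3 * N ≤ p ^ e)
    {A : Module.End (ZMod q) (Fin N → ZMod q)}
    (hA : ∀ z, z < q ^ N → vecOf q N (T z) = A (vecOf q N z)) (hj : j < N)
    (hν : ν < q ^ N) (hP : P < q ^ N) (h : GoodN q N e x T j ν P) (t : ℕ) :
    ((A ^ t) (vecOf q N x)) ⟨j, hj⟩ =
      ((X ^ t * pol (ZMod q) q N P) %ₘ mu (ZMod q) q N ν).coeff (N - 1) := by
  have hq : 2 ≤ q := by
    rw [hqp]
    exact hp.two_le.trans (Nat.le_self_pow hk.ne' p)
  haveI : Nontrivial (ZMod q) := ZMod.nontrivial_iff.2 (by omega)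
  obtain ⟨hMm, hMN⟩ := mu_monic_deg (A := ZMod q) q N ν
  refine SolR.sol_coeff hp hk hqp (by omega) he hc A (prj q N ⟨j, hj⟩) (vecOf q N x) hMm hMN
    (pol_degree q N P) ?_ t
  intro g hg hge u hs
  obtain ⟨c, hc1, hc2⟩ := exists_family hq N e u
  have hs' : SolR.Sol A (vecOf q N x) e (mu (ZMod q) q e (cde e g))
      (fun l => vecOf q N (dg (q ^ N) c l)) := by
    rw [mu_cde hq hg hge]
    intro l hl
    have h3 := hs l hl
    simp only
    rw [hc2 l hl, hc2 (e - 1) (by omega), h3]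
    by_cases h0 : l = 0
    · simp only [if_pos h0]
    · simp only [if_neg h0]
      rw [hc2 (l - 1) (by omega)]
  have h4 := h (cde e g) (cde_lt hq g) c hc1 ((sol_iff hq hA).1 hs')
  rw [← div_iff hq (cde_lt hq g) hc1 hν hP hj, mu_cde hq hg hge] at h4
  have h5 : SolR.uPol (prj q N ⟨j, hj⟩) e (fun l => vecOf q N (dg (q ^ N) c l)) =
      SolR.uPol (prj q N ⟨j, hj⟩) e u := by
    unfold SolR.uPol
    refine Finset.sum_congr rfl fun l hl => ?_
    show C (prj q N ⟨j, hj⟩ (vecOf q N (dg (q ^ N) c l))) * X ^ l = _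
    rw [hc2 l (mem_range.1 hl)]
  rwa [h5] at h4

theorem good_exists {p N e x j : ℕ} {T : ℕ → ℕ} (hp : p.Prime) (he : 1 ≤ e)
    {A : Module.End (ZMod p) (Fin N → ZMod p)} (_hTb : ∀ z, z < p ^ N → T z < p ^ N)
    (hA : ∀ z, z < p ^ N → vecOf p N (T z) = A (vecOf p N z)) (_hx : x < p ^ N) (hj : j < N) :
    ∃ ν P, ν < p ^ N ∧ P < p ^ N ∧ GoodN p N e x T j ν P :=
  good_exists_mod hp.two_le he hA hj

theorem good_coeff {p N e x j ν P : ℕ} {T : ℕ → ℕ} (hp : p.Prime) (he : 1 ≤ e)
    (hc : 3 * N ≤ p ^ e) {A : Module.End (ZMod p) (Fin N → ZMod p)}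
    (_hTb : ∀ z, z < p ^ N → T z < p ^ N)
    (hA : ∀ z, z < p ^ N → vecOf p N (T z) = A (vecOf p N z)) (_hx : x < p ^ N) (hj : j < N)
    (hν : ν < p ^ N) (hP : P < p ^ N) (h : GoodN p N e x T j ν P) (t : ℕ) :
    ((A ^ t) (vecOf p N x)) ⟨j, hj⟩ =
      ((X ^ t * pol (ZMod p) p N P) %ₘ mu (ZMod p) p N ν).coeff (N - 1) :=
  good_coeff_pp hp Nat.one_pos (pow_one p).symm he hc hA hj hν hP h t

end Pool.Agent.LinU
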