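import Pool.Agent.LinU.P5
import Pool.Agent.H63AB.Sol

/-!
# Package LinU-P7d: the relations of P7 in digits, definitions
-/

set_option autoImplicit false

namespace Pool.Agent.LinU

open Finset Polynomial

/-- `Sol` in digits: `u = ∑_(l < e) u_l q ^ l`, `q = p ^ N`, `u_l` the code of a vector -/
def SolN (p N e x : ℕ) (T : ℕ → ℕ) (g u : ℕ) : Prop :=
  ∀ l, l < e → ∀ i, i < N →
    (dg p (T (dg (p ^ N) u l)) i + dg p g l * dg p (dg (p ^ N) u (e - 1)) i +
      (if l = 0 then dg p x i else 0)) % p = (if l = 0 then 0 else dg p (dg (p ^ N) u (l - 1)) i) % p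

/-- `ν U - P = g h` in digits; `ν + p ^ N` and `g + p ^ e` are the codes of the monic polynomials -/
def DivN (p N e j g u ν P h : ℕ) : Prop :=
  ∀ k, k < N + e →
    (∑ a ∈ range (k + 1), dg p (ν + p ^ N) a * dg p (dg (p ^ N) u (k - a)) j) % p =
      (dg p P k + ∑ a ∈ range (k + 1), dg p (g + p ^ e) a * dg p h (k - a)) % p

/-- the pair `(ν, P)` is good for the coordinate `j` -/
def GoodN (p N e x : ℕ) (T : ℕ → ℕ) (j ν P : ℕ) : Prop :=
  ∀ g, g < p ^ e → ∀ u, u < (p ^ N) ^ e → SolN p N e x T g u →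
    ∃ h, h < p ^ N ∧ DivN p N e j g u ν P h

end Pool.Agent.LinU
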