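import Pool.Agent.LinU.P7d

/-!
# Package LinU-P7f: the relations of P7 are definable
-/

set_option autoImplicit false

namespace Pool.Agent.LinU

open Finset Polynomial Pool.Agent.Grz Pool.Agent.GAvg Pool.Agent.PTr Pool.Agent.MTr
open Pool.Agent.LPC Pool.Agent.ECD

variable {n : ℕ}

theorem two_le_powN {p N : ℕ} (h2 : 2 ≤ p) (h1 : 1 ≤ N) : 2 ≤ p ^ N :=
  h2.trans (Nat.le_self_pow (by omega) p)

theorem solN_def {p N e x g u B : (Fin n → ℕ) → ℕ} {T : ℕ → (Fin n → ℕ) → ℕ}
    (hp : DFun n p) (hN : DFun n N) (he : DFun n e) (hx : DFun n x) (hg : DFun n g)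
    (hu : DFun n u) (hB : DFun n B) (hT : DFun (n + 1) (fun w => T (w 0) (fun i => w i.succ)))
    (h2 : ∀ v, 2 ≤ p v) (h1 : ∀ v, 1 ≤ N v) (hb : ∀ v, p v ^ N v ≤ B v) :
    Delta0 n (fun v => SolN (p v) (N v) (e v) (x v) (fun z => T z v) (g v) (u v)) := by
  have hq : DFun n (fun v => p v ^ N v) := dfun_powLe hp hN hB hb
  have hq2 : ∀ v, 2 ≤ p v ^ N v := fun v => two_le_powN (h2 v) (h1 v)
  -- the digit of `T`
  have hi : DFun (n + 1 + 1) (fun w => w 0) := DFun.proj 0
  have hl : DFun (n + 1 + 1) (fun w => w (Fin.succ 0)) := DFun.proj _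
  have hul : DFun (n + 1 + 1) (fun w => dg (p (fun i => w i.succ.succ) ^ N (fun i => w i.succ.succ))
      (u (fun i => w i.succ.succ)) (w (Fin.succ 0))) :=
    dfun_dg hq.weak.weak hu.weak.weak hl fun w => hq2 _
  have hT1 : DFun (n + 1 + 1) (fun w => T (dg (p (fun i => w i.succ.succ) ^
      N (fun i => w i.succ.succ)) (u (fun i => w i.succ.succ)) (w (Fin.succ 0)))
      (fun i => w i.succ.succ)) :=
    DFun.app hT hul fun i => DFun.proj _
  have hT2 := dfun_dg hp.weak.weak hT1 hi fun w => h2 _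
  have hgl := dfun_dg hp.weak.weak hg.weak.weak hl fun w => h2 _
  have hue : DFun (n + 1 + 1) (fun w => dg (p (fun i => w i.succ.succ) ^ N (fun i => w i.succ.succ))
      (u (fun i => w i.succ.succ)) (e (fun i => w i.succ.succ) - 1)) :=
    dfun_dg hq.weak.weak hu.weak.weak (he.weak.weak.sub (DFun.const 1)) fun w => hq2 _
  have hue2 := dfun_dg hp.weak.weak hue hi fun w => h2 _
  have hxi := dfun_dg hp.weak.weak hx.weak.weak hi fun w => h2 _
  have hl0 : Delta0 (n + 1 + 1) (fun w => w (Fin.succ 0) = 0) := Delta0.eqFun hl (DFun.const 0)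
  have hx0 := DFun.ite hl0 hxi (DFun.const 0)
  have hup : DFun (n + 1 + 1) (fun w => dg (p (fun i => w i.succ.succ) ^ N (fun i => w i.succ.succ))
      (u (fun i => w i.succ.succ)) (w (Fin.succ 0) - 1)) :=
    dfun_dg hq.weak.weak hu.weak.weak (hl.sub (DFun.const 1)) fun w => hq2 _
  have hup2 := dfun_dg hp.weak.weak hup hi fun w => h2 _
  have hup0 := DFun.ite hl0 (DFun.const 0) hup2
  have hpp : ∀ w : Fin (n + 1 + 1) → ℕ, 0 < p (fun i => w i.succ.succ) := fun w =>
    lt_of_lt_of_le (by norm_num) (h2 _)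
  have hE := Delta0.eqFun (DFun.modPos ((hT2.add (hgl.mul hue2)).add hx0) hp.weak.weak hpp)
    (DFun.modPos hup0 hp.weak.weak hpp)
  have hlt2 : Delta0 (n + 1 + 1) (fun w => w 0 < N (fun i => w i.succ.succ)) :=
    Delta0.ltFun hi hN.weak.weak
  have hA := Delta0.ballFun (n := n + 1) (b := fun w => N (fun i => w i.succ)) hN.weak
    (P := fun i w => i < N (fun i => w i.succ) →
      (dg (p (fun i => w i.succ)) (T (dg (p (fun i => w i.succ) ^ N (fun i => w i.succ))
        (u (fun i => w i.succ)) (w 0)) (fun i => w i.succ)) i +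
      dg (p (fun i => w i.succ)) (g (fun i => w i.succ)) (w 0) *
        dg (p (fun i => w i.succ)) (dg (p (fun i => w i.succ) ^ N (fun i => w i.succ))
          (u (fun i => w i.succ)) (e (fun i => w i.succ) - 1)) i +
      (if w 0 = 0 then dg (p (fun i => w i.succ)) (x (fun i => w i.succ)) i else 0)) %
        p (fun i => w i.succ) =
      (if w 0 = 0 then 0 else dg (p (fun i => w i.succ))
        (dg (p (fun i => w i.succ) ^ N (fun i => w i.succ)) (u (fun i => w i.succ)) (w 0 - 1)) i) %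
        p (fun i => w i.succ)) (hlt2.imp hE)
  have hC := Delta0.ballFun (n := n) (b := e) he
    (P := fun l v => l < e v → ∀ i, i ≤ N v → i < N v →
      (dg (p v) (T (dg (p v ^ N v) (u v) l) v) i +
      dg (p v) (g v) l * dg (p v) (dg (p v ^ N v) (u v) (e v - 1)) i +
      (if l = 0 then dg (p v) (x v) i else 0)) % p v =
      (if l = 0 then 0 else dg (p v) (dg (p v ^ N v) (u v) (l - 1)) i) % p v)
    ((Delta0.ltFun (DFun.proj 0) he.weak).imp hA)
  refine hC.of_iff fun v => ?_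
  constructor
  · intro h l _ hl i _ hi
    exact h l hl i hi
  · intro h l hl i hi
    exact h l hl.le hl i hi.le hi

theorem divN_def {p N e j g u ν P h B : (Fin n → ℕ) → ℕ}
    (hp : DFun n p) (hN : DFun n N) (he : DFun n e) (hj : DFun n j) (hg : DFun n g)
    (hu : DFun n u) (hν : DFun n ν) (hP : DFun n P) (hh : DFun n h) (hB : DFun n B)
    (h2 : ∀ v, 2 ≤ p v) (h1 : ∀ v, 1 ≤ N v) (hb : ∀ v, (p v ^ N v) ^ e v ≤ B v)
    (hb1 : ∀ v, p v ^ N v ≤ B v) :
    Delta0 n (fun v => DivN (p v) (N v) (e v) (j v) (g v) (u v) (ν v) (P v) (h v)) := by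
  have hq : DFun n (fun v => p v ^ N v) := dfun_powLe hp hN hB hb1
  have hq2 : ∀ v, 2 ≤ p v ^ N v := fun v => two_le_powN (h2 v) (h1 v)
  have hb2 : ∀ v, p v ^ e v ≤ B v := fun v =>
    (Nat.pow_le_pow_left (Nat.le_self_pow (by have := h1 v; omega) (p v)) (e v)).trans (hb v)
  have hpe : DFun n (fun v => p v ^ e v) := dfun_powLe hp he hB hb2
  have hS : DFun (n + 1) (fun w => min (w 0 + 1) (N (fun i => w i.succ) + e (fun i => w i.succ))) :=
    ((DFun.proj 0).add (DFun.const 1)).min (hN.weak.add he.weak)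
  have hSb : ∀ w : Fin (n + 1) → ℕ, min (w 0 + 1) (N (fun i => w i.succ) + e (fun i => w i.succ)) ≤
      (lg (B (fun i => w i.succ)) + 1) ^ 2 := fun w => by
    have a1 : N (fun i => w i.succ) ≤ lg (B (fun i => w i.succ)) := le_lg_of_pow_le (h2 _) (hb1 _)
    have a2 : e (fun i => w i.succ) ≤ lg (B (fun i => w i.succ)) := le_lg_of_pow_le (h2 _) (hb2 _)
    refine (min_le_right _ _).trans ?_
    nlinarith
  -- the variables `(a, k, v)`
  have ha : DFun (n + 1 + 1) (fun w => w 0) := DFun.proj 0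
  have hk : DFun (n + 1 + 1) (fun w => w (Fin.succ 0)) := DFun.proj _
  have hka := hk.sub ha
  have hν2 := dfun_dg hp.weak.weak (hν.weak.weak.add hq.weak.weak) ha fun w => h2 _
  have hua : DFun (n + 1 + 1) (fun w => dg (p (fun i => w i.succ.succ) ^ N (fun i => w i.succ.succ))
      (u (fun i => w i.succ.succ)) (w (Fin.succ 0) - w 0)) :=
    dfun_dg hq.weak.weak hu.weak.weak hka fun w => hq2 _
  have hua2 := dfun_dg hp.weak.weak hua hj.weak.weak fun w => h2 _
  have hg2 := dfun_dg hp.weak.weak (hg.weak.weak.add hpe.weak.weak) ha fun w => h2 _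
  have hh2 := dfun_dg hp.weak.weak hh.weak.weak hka fun w => h2 _
  have hs1 := dfun_sumPoly 2 (n := n + 1)
    (g := fun a w => dg (p (fun i => w i.succ)) (ν (fun i => w i.succ) +
      p (fun i => w i.succ) ^ N (fun i => w i.succ)) a *
      dg (p (fun i => w i.succ)) (dg (p (fun i => w i.succ) ^ N (fun i => w i.succ))
        (u (fun i => w i.succ)) (w 0 - a)) (j (fun i => w i.succ))) (hν2.mul hua2) hS hB.weak hSb
  have hs2 := dfun_sumPoly 2 (n := n + 1)
    (g := fun a w => dg (p (fun i => w i.succ)) (g (fun i => w i.succ) +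
      p (fun i => w i.succ) ^ e (fun i => w i.succ)) a *
      dg (p (fun i => w i.succ)) (h (fun i => w i.succ)) (w 0 - a)) (hg2.mul hh2) hS hB.weak hSb
  have hpp : ∀ w : Fin (n + 1) → ℕ, 0 < p (fun i => w i.succ) := fun w =>
    lt_of_lt_of_le (by norm_num) (h2 _)
  have hPk := dfun_dg hp.weak hP.weak (DFun.proj (n := n + 1) 0) fun w => h2 _
  have hE := Delta0.eqFun (DFun.modPos hs1 hp.weak hpp) (DFun.modPos (hPk.add hs2) hp.weak hpp)
  have hlt : Delta0 (n + 1) (fun w => w 0 < N (fun i => w i.succ) + e (fun i => w i.succ)) :=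
    Delta0.ltFun (DFun.proj 0) (hN.weak.add he.weak)
  have hC := Delta0.ballFun (n := n) (b := fun v => N v + e v) (hN.add he)
    (P := fun k v => k < N v + e v →
      (∑ a ∈ range (min (k + 1) (N v + e v)), dg (p v) (ν v + p v ^ N v) a *
        dg (p v) (dg (p v ^ N v) (u v) (k - a)) (j v)) % p v =
      (dg (p v) (P v) k + ∑ a ∈ range (min (k + 1) (N v + e v)), dg (p v) (g v + p v ^ e v) a *
        dg (p v) (h v) (k - a)) % p v) (hlt.imp hE)
  refine hC.of_iff fun v => ?_
  constructor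
  · intro h k _ hk
    rw [min_eq_left (by omega)]
    exact h k hk
  · intro h k hk
    have := h k hk.le hk
    rw [min_eq_left (by omega)] at this
    exact this

theorem goodN_def {p N e x j ν P B : (Fin n → ℕ) → ℕ} {T : ℕ → (Fin n → ℕ) → ℕ}
    (hp : DFun n p) (hN : DFun n N) (he : DFun n e) (hx : DFun n x) (hj : DFun n j)
    (hν : DFun n ν) (hP : DFun n P) (hB : DFun n B)
    (hT : DFun (n + 1) (fun w => T (w 0) (fun i => w i.succ)))
    (h2 : ∀ v, 2 ≤ p v) (h1 : ∀ v, 1 ≤ N v) (hb : ∀ v, (p v ^ N v) ^ e v ≤ B v)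
    (hb1 : ∀ v, p v ^ N v ≤ B v) :
    Delta0 n (fun v => GoodN (p v) (N v) (e v) (x v) (fun z => T z v) (j v) (ν v) (P v)) := by
  have hq : DFun n (fun v => p v ^ N v) := dfun_powLe hp hN hB hb1
  have hq2 : ∀ v, 2 ≤ p v ^ N v := fun v => two_le_powN (h2 v) (h1 v)
  have hb2 : ∀ v, p v ^ e v ≤ B v := fun v =>
    (Nat.pow_le_pow_left (Nat.le_self_pow (by have := h1 v; omega) (p v)) (e v)).trans (hb v)
  have hpe : DFun n (fun v => p v ^ e v) := dfun_powLe hp he hB hb2
  have hqe : DFun n (fun v => (p v ^ N v) ^ e v) := dfun_powLe hq he hB hb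
  -- `(h, u, g, v)`
  have hD := divN_def (n := n + 1 + 1 + 1) hp.weak.weak.weak hN.weak.weak.weak he.weak.weak.weak
    hj.weak.weak.weak (g := fun w => w (Fin.succ (Fin.succ 0))) (DFun.proj _)
    (u := fun w => w (Fin.succ 0)) (DFun.proj _) hν.weak.weak.weak hP.weak.weak.weak
    (h := fun w => w 0) (DFun.proj _) hB.weak.weak.weak (fun w => h2 _) (fun w => h1 _)
    (fun w => hb _) fun w => hb1 _
  have hH : Delta0 (n + 1 + 1 + 1) (fun w => w 0 < p (fun i => w i.succ.succ.succ) ^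
      N (fun i => w i.succ.succ.succ)) := Delta0.ltFun (DFun.proj 0) hq.weak.weak.weak
  have hE := Delta0.bexFun (n := n + 1 + 1)
    (b := fun w => p (fun i => w i.succ.succ) ^ N (fun i => w i.succ.succ)) hq.weak.weak
    (P := fun h w => h < p (fun i => w i.succ.succ) ^ N (fun i => w i.succ.succ) ∧
      DivN (p (fun i => w i.succ.succ)) (N (fun i => w i.succ.succ)) (e (fun i => w i.succ.succ))
        (j (fun i => w i.succ.succ)) (w (Fin.succ 0)) (w 0) (ν (fun i => w i.succ.succ))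
        (P (fun i => w i.succ.succ)) h) (hH.and hD)
  have hT2 : DFun (n + 1 + 1 + 1) (fun w => T (w 0) (fun i => w i.succ.succ.succ)) :=
    DFun.app hT (DFun.proj 0) fun i => DFun.proj _
  have hSol := solN_def (n := n + 1 + 1) hp.weak.weak hN.weak.weak he.weak.weak hx.weak.weak
    (g := fun w => w (Fin.succ 0)) (DFun.proj _) (u := fun w => w 0) (DFun.proj _) hB.weak.weak
    (T := fun z w => T z (fun i => w i.succ.succ)) hT2 (fun w => h2 _) (fun w => h1 _)
    fun w => hb1 _
  have hU : Delta0 (n + 1 + 1) (fun w => w 0 < (p (fun i => w i.succ.succ) ^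
      N (fun i => w i.succ.succ)) ^ e (fun i => w i.succ.succ)) :=
    Delta0.ltFun (DFun.proj 0) hqe.weak.weak
  have hF := Delta0.ballFun (n := n + 1)
    (b := fun w => (p (fun i => w i.succ) ^ N (fun i => w i.succ)) ^ e (fun i => w i.succ))
    hqe.weak
    (P := fun u w => u < (p (fun i => w i.succ) ^ N (fun i => w i.succ)) ^ e (fun i => w i.succ) →
      SolN (p (fun i => w i.succ)) (N (fun i => w i.succ)) (e (fun i => w i.succ))
        (x (fun i => w i.succ)) (fun z => T z (fun i => w i.succ)) (w 0) u →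
      ∃ h, h ≤ p (fun i => w i.succ) ^ N (fun i => w i.succ) ∧
        (h < p (fun i => w i.succ) ^ N (fun i => w i.succ) ∧
        DivN (p (fun i => w i.succ)) (N (fun i => w i.succ)) (e (fun i => w i.succ))
          (j (fun i => w i.succ)) (w 0) u (ν (fun i => w i.succ)) (P (fun i => w i.succ)) h))
    (hU.imp (hSol.imp hE))
  have hG := Delta0.ballFun (n := n) (b := fun v => p v ^ e v) hpe
    (P := fun g v => g < p v ^ e v → ∀ u, u ≤ (p v ^ N v) ^ e v → u < (p v ^ N v) ^ e v →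
      SolN (p v) (N v) (e v) (x v) (fun z => T z v) g u →
      ∃ h, h ≤ p v ^ N v ∧ (h < p v ^ N v ∧ DivN (p v) (N v) (e v) (j v) g u (ν v) (P v) h))
    ((Delta0.ltFun (DFun.proj 0) hpe.weak).imp hF)
  refine hG.of_iff fun v => ?_
  constructor
  · intro h g _ hg u _ hu hs
    obtain ⟨z, hz, hd⟩ := h g hg u hu hs
    exact ⟨z, hz.le, hz, hd⟩
  · intro h g hg u hu hs
    obtain ⟨z, _, hz, hd⟩ := h g hg.le hg u hu.le hu hs
    exact ⟨z, hz, hd⟩

end Pool.Agent.LinU
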