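import Pool.Agent.LinU.P5

/-!
# Package LinU-P9: linear recurrences of unbounded order

*Proof.* `k = 0`: `s v i = 0` for all `i`. Let `k ≥ 1`. Let `c'` be the code with the digits
`(m - dg m c l) % m` (`dfun_code`), so `mu (ZMod m) m k c' = X ^ k - ∑ c_l X ^ l`, and let
`ρ = X ^ t %ₘ mu` (`powX_mul_def` with `z = 1`: `pol (ZMod m) m k 1 = 1` for `k ≥ 1`, `m ≥ 2`). The
linear map `f ↦ ∑ f_i s_i` (`f ∈ (ZMod m)[X]`) kills `mu * g` for all `g` (linearity and the
recurrence), so `s_t = ∑ i < k, ρ_i s_i` in `ZMod m`, i.e.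
`s v t = (∑ i < k, dg ρ i * dg z i) % m` (note `s v i < m` for all `i`). `dfun_sumPoly`, `k ≤ lg B`. ∎
-/

set_option autoImplicit false

namespace Pool.Agent.LinU

open Finset Polynomial Pool.Agent.Grz Pool.Agent.GAvg Pool.Agent.PTr Pool.Agent.MTr
open Pool.Agent.LPC Pool.Agent.ECD

section alg

variable {A : Type*} [CommRing A]

/-- the linear functional `f ↦ ∑ f_i s_i` -/
noncomputable def p9fun (s : ℕ → A) : A[X] →ₗ[A] A :=
  Polynomial.lsum fun i => LinearMap.toSpanSingleton A A (s i)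

theorem p9fun_monomial (s : ℕ → A) (i : ℕ) (a : A) :
    p9fun s (monomial i a) = a * s i := by
  unfold p9fun
  rw [Polynomial.lsum_apply, Polynomial.sum_monomial_index]
  · rfl
  · simp

theorem p9fun_X_pow (s : ℕ → A) (i : ℕ) : p9fun s (X ^ i) = s i := by
  rw [← Polynomial.monomial_one_right_eq_X_pow, p9fun_monomial, one_mul]

theorem p9fun_C_mul (s : ℕ → A) (a : A) (f : A[X]) :
    p9fun s (C a * f) = a * p9fun s f := by
  rw [← Polynomial.smul_eq_C_mul, map_smul, smul_eq_mul]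

theorem p9fun_mul (s : ℕ → A) (k : ℕ) (c : ℕ → A)
    (hs : ∀ i, s (i + k) + ∑ l ∈ range k, c l * s (i + l) = 0) (g : A[X]) :
    p9fun s ((X ^ k + ∑ l ∈ range k, C (c l) * X ^ l) * g) = 0 := by
  have h1 : ∀ j, p9fun s ((X ^ k + ∑ l ∈ range k, C (c l) * X ^ l) * X ^ j) = 0 := by
    intro j
    rw [add_mul, map_add, ← pow_add, p9fun_X_pow, Finset.sum_mul, map_sum, ← hs j]
    congr 1
    · rw [add_comm]
    · refine Finset.sum_congr rfl fun l _ => ?_
      rw [mul_assoc, ← pow_add, p9fun_C_mul, p9fun_X_pow, add_comm l j]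
  induction g using Polynomial.induction_on' with
  | add p q hp hq => rw [mul_add, map_add, hp, hq, add_zero]
  | monomial j a =>
    rw [← Polynomial.C_mul_X_pow_eq_monomial, mul_left_comm, p9fun_C_mul, h1, mul_zero]

theorem p9fun_eq (s : ℕ → A) {k : ℕ} {f : A[X]} (hf : f.degree < k) :
    p9fun s f = ∑ i ∈ range k, f.coeff i * s i := by
  rcases Nat.eq_zero_or_pos k with hk | hk
  · subst hk
    have : f = 0 := by
      rw [← Polynomial.degree_eq_bot]
      exact Nat.WithBot.lt_zero_iff.1 (by simpa using hf)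
    rw [this]
    simp
  · have h1 : f.natDegree < k := by
      by_cases h0 : f = 0
      · rw [h0, Polynomial.natDegree_zero]
        exact hk
      · exact (Polynomial.natDegree_lt_iff_degree_lt h0).2 hf
    unfold p9fun
    rw [Polynomial.lsum_apply, Polynomial.sum_over_range' f _ k h1]
    · rfl
    · intro n
      simp

end alg

theorem p9_pol_one {m k : ℕ} (h2 : 2 ≤ m) (hk : 1 ≤ k) : pol (ZMod m) m k 1 = 1 := by
  unfold pol
  obtain ⟨k, rfl⟩ := Nat.exists_eq_add_of_le' hk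
  rw [Finset.sum_range_succ', Finset.sum_eq_zero]
  · unfold dg
    rw [pow_zero, Nat.div_one, Nat.mod_eq_of_lt (by omega)]
    simp
  · intro i _
    unfold dg
    rw [Nat.div_eq_of_lt (Nat.one_lt_pow (by omega) (by omega))]
    simp

theorem p9_pol_degree_lt {A : Type*} [CommRing A] (m k z : ℕ) :
    (pol A m k z).degree < (k : WithBot ℕ) := by
  unfold pol
  refine Polynomial.mem_degreeLT.1 (Submodule.sum_mem _ fun i hi => Polynomial.mem_degreeLT.2 ?_)
  refine lt_of_le_of_lt (Polynomial.degree_C_mul_X_pow_le _ _) ?_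
  exact_mod_cast Finset.mem_range.1 hi

theorem rec_alg {m k c z : ℕ} (h2 : 2 ≤ m) (hk : 1 ≤ k) {s : ℕ → ℕ}
    (hs0 : ∀ i, i < k → s i = dg m z i)
    (hs : ∀ i, s (i + k) = (∑ l ∈ range k, dg m c l * s (i + l)) % m) (t : ℕ) :
    s t = (∑ i ∈ range k, dg m (cde k ((X ^ t * pol (ZMod m) m k 1) %ₘ
      mu (ZMod m) m k (∑ l ∈ range k, ((m - dg m c l) % m) * m ^ l))) i * dg m z i) % m := by
  haveI : NeZero m := ⟨by omega⟩
  haveI : Nontrivial (ZMod m) := by
    haveI : Fact (1 < m) := ⟨by omega⟩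
    infer_instance
  have hm0 : 0 < m := by omega
  set c' : ℕ := ∑ l ∈ range k, ((m - dg m c l) % m) * m ^ l with hc'
  have hdg : ∀ l, l < k → ((dg m c' l : ℕ) : ZMod m) = -((dg m c l : ℕ) : ZMod m) := by
    intro l hl
    rw [hc', dg_code hm0 (fun l => (m - dg m c l) % m) (fun i _ => Nat.mod_lt _ hm0) hl,
      ZMod.natCast_mod, Nat.cast_sub (dg_lt hm0 c l).le, ZMod.natCast_self, zero_sub]
  have hmon : (mu (ZMod m) m k c').Monic := by
    unfold mu
    exact Polynomial.monic_X_pow_add (p9_pol_degree_lt m k c')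
  have hdeg : (mu (ZMod m) m k c').degree = k := by
    unfold mu
    rw [Polynomial.degree_add_eq_left_of_degree_lt, Polynomial.degree_X_pow]
    rw [Polynomial.degree_X_pow]
    exact p9_pol_degree_lt m k c'
  rw [p9_pol_one h2 hk, mul_one]
  set μ := mu (ZMod m) m k c' with hμ
  set ρ := (X ^ t : (ZMod m)[X]) %ₘ μ with hρ
  have hρd : ρ.degree < (k : WithBot ℕ) := by
    rw [← hdeg]
    exact Polynomial.degree_modByMonic_lt _ hmon
  -- the p9fun
  set σ : ℕ → ZMod m := fun i => (s i : ZMod m) with hσ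
  have hrec : ∀ i, σ (i + k) + ∑ l ∈ range k, ((dg m c' l : ℕ) : ZMod m) * σ (i + l) = 0 := by
    intro i
    rw [hσ]
    simp only
    rw [hs i, ZMod.natCast_mod]
    push_cast
    rw [← Finset.sum_add_distrib]
    refine Finset.sum_eq_zero fun l hl => ?_
    rw [hdg l (Finset.mem_range.1 hl)]
    ring
  have hkill : ∀ g, p9fun σ (μ * g) = 0 := by
    intro g
    have := p9fun_mul σ k (fun l => ((dg m c' l : ℕ) : ZMod m)) hrec g
    exact this
  have e1 : p9fun σ (X ^ t) = p9fun σ ρ := by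
    have h := Polynomial.modByMonic_add_div (X ^ t : (ZMod m)[X]) μ
    rw [← hρ] at h
    conv_lhs => rw [← h]
    rw [map_add, hkill, add_zero]
  rw [p9fun_X_pow, p9fun_eq σ hρd] at e1
  -- back to the numbers
  have hlt : s t < m := by
    rcases lt_or_ge t k with h | h
    · rw [hs0 t h]
      exact dg_lt hm0 _ _
    · obtain ⟨i, rfl⟩ := Nat.exists_eq_add_of_le' h
      rw [hs i]
      exact Nat.mod_lt _ hm0
  have e2 : ((s t : ℕ) : ZMod m) =
      ((∑ i ∈ range k, dg m (cde k ρ) i * dg m z i : ℕ) : ZMod m) := by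
    have e3 : ((s t : ℕ) : ZMod m) = σ t := rfl
    rw [e3, e1]
    push_cast
    refine Finset.sum_congr rfl fun i hi => ?_
    have hi' := Finset.mem_range.1 hi
    rw [dg_cde h2 ρ hi', ZMod.natCast_zmod_val, hσ]
    simp only
    rw [hs0 i hi']
  rw [ZMod.natCast_eq_natCast_iff', Nat.mod_eq_of_lt hlt] at e2
  exact e2

theorem rec_term {n : ℕ} {m k c z t B : (Fin n → ℕ) → ℕ} (hm : DFun n m) (hk : DFun n k)
    (hc : DFun n c) (hz : DFun n z) (ht : DFun n t) (hB : DFun n B) (h2 : ∀ v, 2 ≤ m v)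
    (hmk : ∀ v, m v ^ k v ≤ B v) {s : (Fin n → ℕ) → ℕ → ℕ}
    (hs0 : ∀ v i, i < k v → s v i = dg (m v) (z v) i)
    (hs : ∀ v i, s v (i + k v) = (∑ l ∈ range (k v), dg (m v) (c v) l * s v (i + l)) % m v) :
    DFun n (fun v => s v (t v)) := by
  -- weakening
  have hwk : ∀ {f : (Fin n → ℕ) → ℕ}, DFun n f →
      DFun (n + 1) (fun w => f (fun i => w i.succ)) := fun hf => hf.weak
  have hw0 : DFun (n + 1) (fun w : Fin (n + 1) → ℕ => w 0) := DFun.proj 0
  -- the code of the polynomial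
  have hc' : DFun n (fun v => ∑ l ∈ range (k v), ((m v - dg (m v) (c v) l) % m v) * m v ^ l) := by
    refine dfun_code (g := fun l v => (m v - dg (m v) (c v) l) % m v) hm hk hB ?_ h2 hmk
    exact Pool.Agent.PTr.DFun.modPos ((hwk hm).sub (dfun_dg (hwk hm) (hwk hc) hw0 fun w => h2 _))
      (hwk hm) fun w => lt_of_lt_of_le two_pos (h2 _)
  have hρ := powX_mul_def hm hk hc' hB (DFun.const (n := n) 1) ht h2 hmk
  have hsum : DFun n (fun v => ∑ i ∈ range (k v),
      dg (m v) (cde (k v) ((X ^ t v * pol (ZMod (m v)) (m v) (k v) 1) %ₘ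
        mu (ZMod (m v)) (m v) (k v)
          (∑ l ∈ range (k v), ((m v - dg (m v) (c v) l) % m v) * m v ^ l))) i *
        dg (m v) (z v) i) := by
    refine dfun_sumPoly (g := fun i v =>
      dg (m v) (cde (k v) ((X ^ t v * pol (ZMod (m v)) (m v) (k v) 1) %ₘ
        mu (ZMod (m v)) (m v) (k v)
          (∑ l ∈ range (k v), ((m v - dg (m v) (c v) l) % m v) * m v ^ l))) i *
        dg (m v) (z v) i) 1 ?_ hk hB ?_
    · exact (dfun_dg (hwk hm) (hwk hρ) hw0 fun w => h2 _).mul
        (dfun_dg (hwk hm) (hwk hz) hw0 fun w => h2 _)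
    · intro v
      rw [pow_one]
      exact (le_lg_of_pow_le (h2 v) (hmk v)).trans (Nat.le_succ _)
  have hfin := Pool.Agent.PTr.DFun.modPos hsum hm fun v => lt_of_lt_of_le two_pos (h2 v)
  have heq : (fun v => s v (t v)) = fun v => (∑ i ∈ range (k v),
      dg (m v) (cde (k v) ((X ^ t v * pol (ZMod (m v)) (m v) (k v) 1) %ₘ
        mu (ZMod (m v)) (m v) (k v)
          (∑ l ∈ range (k v), ((m v - dg (m v) (c v) l) % m v) * m v ^ l))) i *
        dg (m v) (z v) i) % m v := by
    funext v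
    rcases Nat.eq_zero_or_pos (k v) with h0 | h0
    · have h1 := hs v (t v)
      rw [h0] at h1 ⊢
      simpa using h1
    · exact rec_alg (h2 v) h0 (hs0 v) (hs v) (t v)
  rw [heq]
  exact hfin

end Pool.Agent.LinU
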