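import Pool.Agent.LinU.R8

/-!
# Package LinU-R11: all moduli

*Proof.* `m v ≤ 1`: all codes are `0`. In the `n + 1` variables `w = (q, v)` let `q' = q` if `q`
is a prime power which divides `m v` (*valid*) and `q' = 2` otherwise; `N' = N v` if valid and `0`
otherwise; for a code `z < q ^ N` let `T' z` be the code to the base `q` of the digits
`dg m (T ẑ) i % q`, `i < N`, where `ẑ = ∑ i < N, dg q z i * m ^ i` (`dfun_code`), and `x'` the code
of the digits `dg m (x v) i % q`; bound `B + 1`. `T'` is affine over `ZMod q`: reduce `A`, `b`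
modulo `q` (`ZMod.castHom`), and reduction commutes with the maps, because `T` is affine over
`ZMod m`: so the code `Y(q, v) = T'^[t] x'` (in `DFun (n + 1)` by `aff_iter_pp`) has the digits
`dg m (T^[t] x) i % q`. Hence `dg m (T^[t] x) i` is the unique `y < m` with
`y % q = dg q (Y(q, v)) i` for all prime powers `q ∣ m`, a `Delta0` relation;
`DFun.ofGraph`, then `dfun_code`. ∎
-/

set_option autoImplicit false

namespace Pool.Agent.LinU

open Finset Polynomial Pool.Agent.Grz Pool.Agent.GAvg Pool.Agent.PTr Pool.Agent.MTr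
open Pool.Agent.LPC Pool.Agent.ECD

namespace R11

/-- substitution into a family -/
theorem comp' {n k : ℕ} {g : ℕ → (Fin n → ℕ) → ℕ}
    (hg : DFun (n + 1) (fun w => g (w 0) (fun i => w i.succ))) {a : (Fin k → ℕ) → ℕ}
    {s : Fin n → (Fin k → ℕ) → ℕ} (ha : DFun k a) (hs : ∀ i, DFun k (s i)) :
    DFun k (fun u => g (a u) (fun i => s i u)) := by
  have h := hg.comp (n := k) (h := Fin.cons a s) (fun i => by
    refine Fin.cases ?_ (fun j => ?_) i
    · exact ha
    · exact hs j)
  exact h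

/-! ### Arithmetic -/

section arith

variable {m N p : ℕ} {T : ℕ → ℕ}

/-- reduction of an affine map modulo a divisor -/
theorem cast_T (hp : p ∣ m) {A : Matrix (Fin N) (Fin N) (ZMod m)} {b : Fin N → ZMod m}
    (haff : ∀ z, z < m ^ N → vecOf m N (T z) = A.mulVec (vecOf m N z) + b) {y : ℕ}
    (hy : y < m ^ N) (i : Fin N) : ((dg m (T y) i : ℕ) : ZMod p) =
      ((A.map (ZMod.castHom hp (ZMod p))).mulVec (fun j => ((dg m y j : ℕ) : ZMod p)) +
        fun j => ZMod.castHom hp (ZMod p) (b j)) i := by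
  have h := congrArg (ZMod.castHom hp (ZMod p)) (congrFun (haff y hy) i)
  simp only [vecOf, map_natCast] at h
  rw [h, Pi.add_apply, map_add, Pi.add_apply]
  congr 1
  simp only [Matrix.mulVec, dotProduct, map_sum, map_mul, Matrix.map_apply]
  refine sum_congr rfl fun x _ => ?_
  rw [show vecOf m N y x = ((dg m y x : ℕ) : ZMod m) from rfl, map_natCast]

/-- two numbers below `m` which agree modulo the prime powers that divide `m` are equal -/
theorem eq_of_mod {y y' : ℕ} (hy : y < m) (hy' : y' < m)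
    (h : ∀ q, IsPrimePow q → q ∣ m → y % q = y' % q) : y = y' := by
  have h1 : ∀ a b : ℕ, a ≤ b → b < m → (∀ q, IsPrimePow q → q ∣ m → a % q = b % q) → a = b := by
    intro a b hab hb h
    have h2 : m ∣ b - a := by
      rw [Nat.dvd_iff_prime_pow_dvd_dvd]
      intro p k hp hpk
      rcases Nat.eq_zero_or_pos k with rfl | hk
      · rw [pow_zero]; exact one_dvd _
      · exact (Nat.modEq_iff_dvd' hab).1 (h _ (hp.isPrimePow.pow hk.ne') hpk)
    have h3 := Nat.eq_zero_of_dvd_of_lt h2 (by omega)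
    omega
  rcases le_total y y' with h2 | h2
  · exact h1 y y' h2 hy' h
  · exact (h1 y' y h2 hy fun q hq hqm => (h q hq hqm).symm).symm

/-- the code to the base `m` of the digits to the base `p` -/
def up (p m N z : ℕ) : ℕ := ∑ i ∈ range N, dg p z i * m ^ i

/-- the code to the base `p` of the reduced digits -/
def dn (p m N z : ℕ) : ℕ := ∑ i ∈ range N, (dg m z i % p) * p ^ i

theorem up_lt (hp : 0 < p) (hpm : p ≤ m) (z : ℕ) : up p m N z < m ^ N :=
  lt_code (hp.trans_le hpm) _ fun _ _ => (dg_lt hp z _).trans_le hpm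

theorem dg_up (hp : 0 < p) (hpm : p ≤ m) (z : ℕ) {i : ℕ} (hi : i < N) :
    dg m (up p m N z) i = dg p z i :=
  dg_code (hp.trans_le hpm) (fun i => dg p z i) (fun _ _ => (dg_lt hp z _).trans_le hpm) hi

theorem dn_lt (hp : 0 < p) (z : ℕ) : dn p m N z < p ^ N :=
  lt_code hp _ fun _ _ => Nat.mod_lt _ hp

theorem dg_dn (hp : 0 < p) (z : ℕ) {i : ℕ} (hi : i < N) :
    dg p (dn p m N z) i = dg m z i % p :=
  dg_code hp (fun i => dg m z i % p) (fun _ _ => Nat.mod_lt _ hp) hi

/-- the reduced map is affine -/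
theorem aff_red (hp0 : 0 < p) (hm : 0 < m) (hp : p ∣ m)
    (haff : ∃ (A : Matrix (Fin N) (Fin N) (ZMod m)) (b : Fin N → ZMod m),
      ∀ z, z < m ^ N → vecOf m N (T z) = A.mulVec (vecOf m N z) + b) :
    ∃ (A : Matrix (Fin N) (Fin N) (ZMod p)) (b : Fin N → ZMod p),
      ∀ z, z < p ^ N → vecOf p N (dn p m N (T (up p m N z))) = A.mulVec (vecOf p N z) + b := by
  obtain ⟨A, b, h⟩ := haff
  have hpm := Nat.le_of_dvd hm hp
  refine ⟨A.map (ZMod.castHom hp (ZMod p)), fun j => ZMod.castHom hp (ZMod p) (b j),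
    fun z _ => ?_⟩
  funext i
  have h1 := cast_T hp h (up_lt hp0 hpm z) i
  have h2 : (fun j : Fin N => ((dg m (up p m N z) j : ℕ) : ZMod p)) = vecOf p N z := by
    funext j
    rw [dg_up hp0 hpm z j.isLt]
    rfl
  rw [h2] at h1
  rw [← h1]
  unfold vecOf
  rw [dg_dn hp0 _ i.isLt, ZMod.natCast_mod]

/-- reduction commutes with the iterates -/
theorem iter_red (hp0 : 0 < p) (hm : 0 < m) (hp : p ∣ m) (hTb : ∀ z, z < m ^ N → T z < m ^ N)
    (haff : ∃ (A : Matrix (Fin N) (Fin N) (ZMod m)) (b : Fin N → ZMod m),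
      ∀ z, z < m ^ N → vecOf m N (T z) = A.mulVec (vecOf m N z) + b) {x : ℕ} (hx : x < m ^ N)
    (t : ℕ) : T^[t] x < m ^ N ∧ ∀ i, i < N →
      dg p ((fun z => dn p m N (T (up p m N z)))^[t] (dn p m N x)) i = dg m (T^[t] x) i % p := by
  obtain ⟨A, b, h⟩ := haff
  have hpm := Nat.le_of_dvd hm hp
  induction t with
  | zero => exact ⟨hx, fun i hi => dg_dn hp0 x hi⟩
  | succ t ih =>
    obtain ⟨ih1, ih2⟩ := ih
    rw [Function.iterate_succ_apply', Function.iterate_succ_apply']
    refine ⟨hTb _ ih1, fun i hi => ?_⟩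
    rw [dg_dn hp0 _ hi]
    set z := (fun z => dn p m N (T (up p m N z)))^[t] (dn p m N x) with hz
    have h1 := cast_T hp h (up_lt hp0 hpm z) ⟨i, hi⟩
    have h2 := cast_T hp h ih1 ⟨i, hi⟩
    have h3 : (fun j : Fin N => ((dg m (up p m N z) j : ℕ) : ZMod p)) =
        fun j : Fin N => ((dg m (T^[t] x) j : ℕ) : ZMod p) := by
      funext j
      rw [dg_up hp0 hpm z j.isLt, ih2 j j.isLt, ZMod.natCast_mod]
    rw [h3, ← h2] at h1
    exact (ZMod.natCast_eq_natCast_iff' _ _ _).1 h1

end arith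

/-! ### Definability -/

section defin

variable {n : ℕ} {m N B x t : (Fin n → ℕ) → ℕ} {T : ℕ → (Fin n → ℕ) → ℕ}

/-- `p` is a prime power which divides the modulus -/
def Valid (m : (Fin n → ℕ) → ℕ) (p : ℕ) (v : Fin n → ℕ) : Prop := IsPrimePow p ∧ p ∣ m v

open Classical in
/-- the prime -/
noncomputable def pp (m : (Fin n → ℕ) → ℕ) (p : ℕ) (v : Fin n → ℕ) : ℕ :=
  if Valid m p v then p else 2

open Classical in
/-- the dimension -/
noncomputable def nn (m N : (Fin n → ℕ) → ℕ) (p : ℕ) (v : Fin n → ℕ) : ℕ :=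
  if Valid m p v then N v else 0

/-- the modulus, made at least two -/
def m1 (m : (Fin n → ℕ) → ℕ) (v : Fin n → ℕ) : ℕ := if m v ≤ 1 then 2 else m v

theorem m1_two (m : (Fin n → ℕ) → ℕ) (v : Fin n → ℕ) : 2 ≤ m1 m v := by
  unfold m1
  split_ifs <;> omega

theorem pp_two (m : (Fin n → ℕ) → ℕ) (p : ℕ) (v : Fin n → ℕ) : 2 ≤ pp m p v := by
  unfold pp
  split_ifs with h
  · exact h.1.two_le
  · exact le_rfl

theorem pp_prime (m : (Fin n → ℕ) → ℕ) (p : ℕ) (v : Fin n → ℕ) : IsPrimePow (pp m p v) := by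
  unfold pp
  split_ifs with h
  · exact h.1
  · exact Nat.prime_two.isPrimePow

theorem m1_eq {v : Fin n → ℕ} {p : ℕ} (h : Valid m p v) (h0 : 0 < m v) : m1 m v = m v := by
  have h1 := Nat.le_of_dvd h0 h.2
  have h2 := h.1.two_le
  unfold m1
  rw [if_neg (by omega)]

theorem delta_primePow {k : ℕ} {a : (Fin k → ℕ) → ℕ} (ha : DFun k a) :
    Delta0 k (fun u => IsPrimePow (a u)) := by
  have h1 : Delta0 (k + 1 + 1) (fun w => ((w 0).Prime ∧ w 0 ∣ a (fun i => w i.succ.succ)) →
      w 0 = w 1) :=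
    ((delta_prime (DFun.proj 0)).and (delta_dvd (DFun.proj 0) ha.weak.weak)).imp
      (Delta0.eqFun (DFun.proj 0) (DFun.proj 1))
  have h2 : Delta0 (k + 1) (fun w => ((w 0).Prime ∧ w 0 ∣ a (fun i => w i.succ)) ∧
      ∀ r, r ≤ a (fun i => w i.succ) → (r.Prime ∧ r ∣ a (fun i => w i.succ)) → r = w 0) :=
    ((delta_prime (DFun.proj 0)).and (delta_dvd (DFun.proj 0) ha.weak)).and
      (Delta0.ballFun (n := k + 1) (P := fun r w => (r.Prime ∧ r ∣ a (fun i => w i.succ)) →
        r = w 0) ha.weak h1)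
  refine (Delta0.bexFun (P := fun p u => (p.Prime ∧ p ∣ a u) ∧
    ∀ r, r ≤ a u → (r.Prime ∧ r ∣ a u) → r = p) ha h2).of_iff fun u => ?_
  rw [isPrimePow_iff_unique_prime_dvd]
  constructor
  · rintro ⟨p, hp, hu⟩
    refine ⟨p, ?_, hp, fun r _ hr => hu r hr⟩
    rcases Nat.eq_zero_or_pos (a u) with h0 | h0
    · exfalso
      have e2 := hu 2 ⟨Nat.prime_two, by rw [h0]; exact dvd_zero _⟩
      have e3 := hu 3 ⟨Nat.prime_three, by rw [h0]; exact dvd_zero _⟩
      omega
    · exact Nat.le_of_dvd h0 hp.2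
  · rintro ⟨p, hpa, hp, hu⟩
    have h0 : 0 < a u := hp.1.pos.trans_le hpa
    exact ⟨p, hp, fun r hr => hu r (Nat.le_of_dvd h0 hr.2) hr⟩

theorem delta_valid {k : ℕ} {a : (Fin k → ℕ) → ℕ} {s : (Fin k → ℕ) → Fin n → ℕ}
    (hm : DFun k (fun u => m (s u))) (ha : DFun k a) :
    Delta0 k (fun u => Valid m (a u) (s u)) :=
  (delta_primePow ha).and (delta_dvd ha hm)

theorem dfun_pp {k : ℕ} {a : (Fin k → ℕ) → ℕ} {s : (Fin k → ℕ) → Fin n → ℕ}
    (hm : DFun k (fun u => m (s u))) (ha : DFun k a) :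
    DFun k (fun u => pp m (a u) (s u)) := by
  classical
  refine dfun_congr (DFun.ite (delta_valid hm ha) ha (DFun.const 2)) fun u => ?_
  unfold pp
  congr

theorem dfun_nn {k : ℕ} {a : (Fin k → ℕ) → ℕ} {s : (Fin k → ℕ) → Fin n → ℕ}
    (hm : DFun k (fun u => m (s u))) (hN : DFun k (fun u => N (s u))) (ha : DFun k a) :
    DFun k (fun u => nn m N (a u) (s u)) := by
  classical
  refine dfun_congr (DFun.ite (delta_valid hm ha) hN (DFun.const 0)) fun u => ?_
  unfold nn
  congr

theorem dfun_m1 {k : ℕ} {s : (Fin k → ℕ) → Fin n → ℕ} (hm : DFun k (fun u => m (s u))) :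
    DFun k (fun u => m1 m (s u)) := by
  classical
  refine dfun_congr (DFun.ite (Delta0.leFun hm (DFun.const 1)) (DFun.const 2) hm) fun u => ?_
  unfold m1
  congr

/-- the reduced map -/
noncomputable def TT (m N : (Fin n → ℕ) → ℕ) (T : ℕ → (Fin n → ℕ) → ℕ) (p z : ℕ)
    (v : Fin n → ℕ) : ℕ :=
  dn (pp m p v) (m1 m v) (nn m N p v) (T (up (pp m p v) (m1 m v) (nn m N p v) z) v)

theorem pow_bd (hm0 : ∀ v, 0 < m v)
    (hmN : ∀ v p e, p.Prime → p ^ e ∣ m v → (m v * N v ^ e) ^ N v ≤ B v) (p : ℕ)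
    (v : Fin n → ℕ) : m1 m v ^ nn m N p v ≤ B v + 1 ∧ pp m p v ^ nn m N p v ≤ B v + 1 ∧
      ∀ r e, r.Prime → r ^ e ∣ pp m p v →
        (pp m p v * nn m N p v ^ e) ^ nn m N p v ≤ B v + 1 := by
  by_cases h : Valid m p v
  · have h1 : nn m N p v = N v := by unfold nn; rw [if_pos h]
    have h2 : pp m p v = p := by unfold pp; rw [if_pos h]
    have h3 : p ≤ m v := Nat.le_of_dvd (hm0 v) h.2
    have h4 : m v ^ N v ≤ B v := by
      have := hmN v 2 0 Nat.prime_two (by rw [pow_zero]; exact one_dvd _)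
      rwa [pow_zero, mul_one] at this
    rw [h1, h2, m1_eq h (hm0 v)]
    exact ⟨h4.trans (Nat.le_succ _), ((Nat.pow_le_pow_left h3 _).trans h4).trans (Nat.le_succ _),
      fun r e hr hre => (Nat.pow_le_pow_left (Nat.mul_le_mul_right _ h3) _).trans
        ((hmN v r e hr (hre.trans h.2)).trans (Nat.le_succ _))⟩
  · have h1 : nn m N p v = 0 := by unfold nn; rw [if_neg h]
    rw [h1]
    simp

theorem dfun_up (hm0 : ∀ v, 0 < m v) 
    (hmN : ∀ v p e, p.Prime → p ^ e ∣ m v → (m v * N v ^ e) ^ N v ≤ B v) {k : ℕ}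
    {a z : (Fin k → ℕ) → ℕ} {s : (Fin k → ℕ) → Fin n → ℕ}
    (hm : DFun k (fun u => m (s u))) (hN : DFun k (fun u => N (s u)))
    (hB : DFun k (fun u => B (s u))) (ha : DFun k a) (hz : DFun k z) :
    DFun k (fun u => up (pp m (a u) (s u)) (m1 m (s u)) (nn m N (a u) (s u)) (z u)) := by
  refine dfun_code (B := fun u => B (s u) + 1) (dfun_m1 hm) (dfun_nn hm hN ha)
    (hB.add (DFun.const 1)) (g := fun i u => dg (pp m (a u) (s u)) (z u) i) ?_
    (fun u => m1_two m _) (fun u => (pow_bd hm0 hmN _ _).1)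
  exact dfun_dg (dfun_pp hm ha).weak hz.weak (DFun.proj 0) (fun u => pp_two m _ _)

theorem dfun_dn (hm0 : ∀ v, 0 < m v) 
    (hmN : ∀ v p e, p.Prime → p ^ e ∣ m v → (m v * N v ^ e) ^ N v ≤ B v) {k : ℕ}
    {a z : (Fin k → ℕ) → ℕ} {s : (Fin k → ℕ) → Fin n → ℕ}
    (hm : DFun k (fun u => m (s u))) (hN : DFun k (fun u => N (s u)))
    (hB : DFun k (fun u => B (s u))) (ha : DFun k a) (hz : DFun k z) :
    DFun k (fun u => dn (pp m (a u) (s u)) (m1 m (s u)) (nn m N (a u) (s u)) (z u)) := by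
  refine dfun_code (B := fun u => B (s u) + 1) (dfun_pp hm ha) (dfun_nn hm hN ha)
    (hB.add (DFun.const 1)) (g := fun i u => dg (m1 m (s u)) (z u) i % pp m (a u) (s u)) ?_
    (fun u => pp_two m _ _) (fun u => (pow_bd hm0 hmN _ _).2.1)
  exact DFun.modAny (dfun_dg (dfun_m1 hm).weak hz.weak (DFun.proj 0) (fun u => m1_two m _))
    (dfun_pp hm ha).weak

end defin

end R11

open R11

theorem aff_iter_all {n : ℕ} {m N B x t : (Fin n → ℕ) → ℕ} {T : ℕ → (Fin n → ℕ) → ℕ}
    (hm : DFun n m) (hN : DFun n N) (hB : DFun n B) (hx : DFun n x) (ht : DFun n t)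
    (hT : DFun (n + 1) (fun w => T (w 0) (fun i => w i.succ))) (hm0 : ∀ v, 0 < m v)
    (hmN : ∀ v p e, p.Prime → p ^ e ∣ m v → (m v * N v ^ e) ^ N v ≤ B v)
    (hTb : ∀ v z, z < m v ^ N v → T z v < m v ^ N v)
    (haff : ∀ v, ∃ (A : Matrix (Fin (N v)) (Fin (N v)) (ZMod (m v))) (b : Fin (N v) → ZMod (m v)),
      ∀ z, z < m v ^ N v → vecOf (m v) (N v) (T z v) = A.mulVec (vecOf (m v) (N v) z) + b)
    (hxb : ∀ v, x v < m v ^ N v) : DFun n (fun v => (fun z => T z v)^[t v] (x v)) := by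
  classical
  -- the reduced iterate
  let Y : ℕ → (Fin n → ℕ) → ℕ := fun p v => (fun z => TT m N T p z v)^[t v]
    (dn (pp m p v) (m1 m v) (nn m N p v) (x v))
  have hY : DFun (n + 1) (fun w => Y (w 0) (fun i => w i.succ)) := by
    refine aff_iter_pp (q := fun w => pp m (w 0) (fun i => w i.succ))
      (N := fun w => nn m N (w 0) (fun i => w i.succ)) (B := fun w => B (fun i => w i.succ) + 1)
      (x := fun w => dn (pp m (w 0) (fun i => w i.succ)) (m1 m (fun i => w i.succ))
        (nn m N (w 0) (fun i => w i.succ)) (x (fun i => w i.succ)))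
      (t := fun w => t (fun i => w i.succ))
      (T := fun z w => TT m N T (w 0) z (fun i => w i.succ))
      (dfun_pp hm.weak (DFun.proj 0)) (dfun_nn hm.weak hN.weak (DFun.proj 0))
      (hB.weak.add (DFun.const 1))
      (dfun_dn hm0 hmN hm.weak hN.weak hB.weak (DFun.proj 0) hx.weak) ht.weak ?_
      (fun w => pp_prime m _ _) (fun w => (pow_bd hm0 hmN _ _).2.2) (fun w z _ => ?_) (fun w => ?_)
      (fun w => ?_)
    · have h1 := dfun_up (k := n + 1 + 1) (a := fun u => u 1) (z := fun u => u 0)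
        (s := fun u i => u i.succ.succ) hm0 hmN hm.weak.weak hN.weak.weak hB.weak.weak
        (DFun.proj 1) (DFun.proj 0)
      have h2 := comp' hT (k := n + 1 + 1) (s := fun i u => u i.succ.succ) h1
        (fun i => DFun.proj i.succ.succ)
      exact dfun_dn (k := n + 1 + 1) (a := fun u => u 1) (s := fun u i => u i.succ.succ)
        hm0 hmN hm.weak.weak hN.weak.weak hB.weak.weak (DFun.proj 1) h2
    · exact dn_lt (by have := pp_two m (w 0) (fun i => w i.succ); omega) _
    · set v : Fin n → ℕ := fun i => w i.succ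
      by_cases hv : Valid m (w 0) v
      · have e1 : nn m N (w 0) v = N v := by unfold nn; rw [if_pos hv]
        have e2 : pp m (w 0) v = w 0 := by unfold pp; rw [if_pos hv]
        have e3 := m1_eq hv (hm0 v)
        unfold TT
        rw [e1, e2, e3]
        exact aff_red (T := fun z => T z v) hv.1.pos (hm0 v) hv.2 (haff v)
      · have e1 : nn m N (w 0) v = 0 := by unfold nn; rw [if_neg hv]
        refine ⟨0, 0, fun z _ => funext fun i => ?_⟩
        have := i.isLt
        omega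
    · exact dn_lt (by have := pp_two m (w 0) (fun i => w i.succ); omega) _
  -- the digits of the iterate
  let R : (Fin n → ℕ) → ℕ := fun v => (fun z => T z v)^[t v] (x v)
  have hYR : ∀ p v, Valid m p v → R v < m v ^ N v ∧
      ∀ i, i < N v → dg (pp m p v) (Y p v) i = dg (m v) (R v) i % p := by
    intro p v hv
    have e1 : nn m N p v = N v := by unfold nn; rw [if_pos hv]
    have e2 : pp m p v = p := by unfold pp; rw [if_pos hv]
    have e3 := m1_eq hv (hm0 v)
    have h := iter_red (T := fun z => T z v) hv.1.pos (hm0 v) hv.2 (hTb v) (haff v) (hxb v) (t v)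
    simp only [Y, R, TT, e1, e2, e3]
    exact h
  have hRb : ∀ v, R v < m v ^ N v := by
    intro v
    have h : ∀ j, (fun z => T z v)^[j] (x v) < m v ^ N v := by
      intro j
      induction j with
      | zero => exact hxb v
      | succ j ih =>
        rw [Function.iterate_succ_apply']
        exact hTb v _ ih
    exact h (t v)
  let D : ℕ → (Fin n → ℕ) → ℕ := fun i v => if i < N v ∧ 2 ≤ m v then dg (m v) (R v) i else 0
  have hD : DFun (n + 1) (fun w => D (w 0) (fun i => w i.succ)) := by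
    refine DFun.ofGraph (b := fun w => m (fun i => w i.succ)) hm.weak (fun w => ?_) ?_
    · simp only [D]
      split_ifs
      · exact (dg_lt (hm0 _) _ _).le
      · exact Nat.zero_le _
    · have hv : ∀ {f : (Fin n → ℕ) → ℕ}, DFun n f →
          DFun (n + 1 + 1) (fun u => f (fun i => u i.succ.succ)) := fun hf => hf.weak.weak
      have h1 : Delta0 (n + 1 + 1 + 1) (fun w => Valid m (w 0) (fun i => w i.succ.succ.succ) →
          w 1 % w 0 = dg (pp m (w 0) (fun i => w i.succ.succ.succ))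
            (Y (w 0) (fun i => w i.succ.succ.succ)) (w 2)) := by
        refine (delta_valid (k := n + 1 + 1 + 1) (s := fun w i => w i.succ.succ.succ)
          hm.weak.weak.weak (DFun.proj 0)).imp (Delta0.eqFun (DFun.modAny (DFun.proj 1)
          (DFun.proj 0)) (dfun_dg (dfun_pp (k := n + 1 + 1 + 1)
          (s := fun w i => w i.succ.succ.succ) hm.weak.weak.weak (DFun.proj 0))
          (comp' hY (k := n + 1 + 1 + 1) (s := fun i w => w i.succ.succ.succ) (DFun.proj 0)
            (fun i => DFun.proj i.succ.succ.succ)) (DFun.proj 2) (fun u => pp_two m _ _)))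
      have h2 := Delta0.ballFun (n := n + 1 + 1) (b := fun u => m (fun i => u i.succ.succ))
        (P := fun p u => Valid m p (fun i => u i.succ.succ) →
          u 0 % p = dg (pp m p (fun i => u i.succ.succ)) (Y p (fun i => u i.succ.succ)) (u 1))
        (hv hm) h1
      have h3 : Delta0 (n + 1 + 1) (fun u => u 1 < N (fun i => u i.succ.succ) ∧
          2 ≤ m (fun i => u i.succ.succ)) :=
        (Delta0.ltFun (DFun.proj 1) (hv hN)).and (Delta0.leFun (DFun.const 2) (hv hm))
      refine ((h3.and ((Delta0.ltFun (DFun.proj 0) (hv hm)).and h2)).or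
        (h3.not.and (Delta0.eqFun (DFun.proj 0) (DFun.const 0)))).of_iff fun u => ?_
      set v : Fin n → ℕ := fun i => u i.succ.succ with hvdef
      change u 0 = (if u 1 < N v ∧ 2 ≤ m v then dg (m v) (R v) (u 1) else 0) ↔ _
      by_cases hc : u 1 < N v ∧ 2 ≤ m v
      · rw [if_pos hc]
        constructor
        · intro h
          refine Or.inl ⟨hc, ?_, fun p _ hp => ?_⟩
          · rw [h]; exact dg_lt (hm0 v) _ _
          · rw [h, (hYR p v hp).2 _ hc.1]
        · rintro (⟨_, h5, h6⟩ | ⟨h5, _⟩)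
          · refine eq_of_mod h5 (dg_lt (hm0 v) _ _) fun p hp hpm => ?_
            rw [h6 p (Nat.le_of_dvd (hm0 v) hpm) ⟨hp, hpm⟩, (hYR p v ⟨hp, hpm⟩).2 _ hc.1]
          · exact absurd hc h5
      · rw [if_neg hc]
        constructor
        · intro h
          exact Or.inr ⟨hc, h⟩
        · rintro (⟨h5, _⟩ | ⟨_, h5⟩)
          · exact absurd h5 hc
          · exact h5
  -- the code of the digits
  have hcode := dfun_code (m := m1 m) (d := fun v => if m v ≤ 1 then 0 else N v)
    (B := fun v => B v + 1) (g := D) (dfun_m1 (k := n) (s := fun v => v) hm)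
    (DFun.ite (Delta0.leFun hm (DFun.const 1)) (DFun.const 0) hN) (hB.add (DFun.const 1)) hD
    (m1_two m) (fun v => by
      unfold m1
      split_ifs with h
      · simp
      · have h4 := hmN v 2 0 Nat.prime_two (by rw [pow_zero]; exact one_dvd _)
        rw [pow_zero, mul_one] at h4
        exact h4.trans (Nat.le_succ _))
  refine dfun_congr hcode fun v => ?_
  change R v = _
  by_cases h : m v ≤ 1
  · have h1 : m v = 1 := le_antisymm h (hm0 v)
    have h2 := hRb v
    rw [h1, one_pow] at h2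
    rw [if_pos h, Finset.range_zero, Finset.sum_empty]
    omega
  · rw [if_neg h]
    have h3 : m1 m v = m v := by unfold m1; rw [if_neg h]
    rw [h3]
    refine (code_dg (hRb v)).symm.trans (sum_congr rfl fun i hi => ?_)
    simp only [D]
    rw [if_pos ⟨mem_range.1 hi, by omega⟩]

end Pool.Agent.LinU
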