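import Pool.Agent.LinU.P7b
import Pool.Agent.LinU.P7f

/-!
# Package LinU-R7: iterates of linear maps modulo a prime power

`q = p ^ k`, `p` the least prime factor; `e` is the least number `≥ 1` with `3 N ≤ p ^ e`;
`(q ^ N) ^ e ≤ (B + q) ^ 3`. The digit `j < N` of `A ^ t x` is the digit `N - 1` of `X ^ t P mod ν` for
every good pair `(ν, P)`, and there is one (P7a, P7b); the relation is definable (P7f).
-/

set_option autoImplicit false

namespace Pool.Agent.LinU

open Finset Polynomial Pool.Agent.Grz Pool.Agent.GAvg Pool.Agent.PTr Pool.Agent.MTr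
open Pool.Agent.LPC Pool.Agent.ECD

private theorem exE (p N : ℕ) (h2 : 2 ≤ p) : ∃ e, 1 ≤ e ∧ 3 * N ≤ p ^ e :=
  ⟨3 * N + 1, by omega, (Nat.lt_pow_self (n := 3 * N + 1) (by omega : 1 < p)).le.trans' (by omega)⟩

open scoped Classical in
/-- the least `e ≥ 1` with `3 N ≤ p ^ e` -/
private noncomputable def eOf (p N : ℕ) : ℕ :=
  if h : ∃ e, 1 ≤ e ∧ 3 * N ≤ p ^ e then Nat.find h else 0

private theorem eOf_spec {p N : ℕ} (h2 : 2 ≤ p) : 1 ≤ eOf p N ∧ 3 * N ≤ p ^ eOf p N ∧
    (eOf p N = 1 ∨ p ^ (eOf p N - 1) < 3 * N) := by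
  classical
  have h := exE p N h2
  have e1 : eOf p N = Nat.find h := dif_pos h
  have h3 := Nat.find_spec h
  rw [e1]
  refine ⟨h3.1, h3.2, ?_⟩
  by_contra hc
  push Not at hc
  have h4 := Nat.find_min h (m := Nat.find h - 1) (by have := h3.1; omega)
  exact h4 ⟨by have := h3.1; have := hc.1; omega, hc.2⟩

private theorem eOf_uniq {p N y : ℕ} (h2 : 2 ≤ p) (hy : 1 ≤ y) (h3 : 3 * N ≤ p ^ y)
    (h4 : y = 1 ∨ p ^ (y - 1) < 3 * N) : y = eOf p N := by
  obtain ⟨a1, a2, a3⟩ := eOf_spec (N := N) h2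
  rcases lt_trichotomy y (eOf p N) with h | h | h
  · rcases a3 with a3 | a3
    · omega
    · have : p ^ y ≤ p ^ (eOf p N - 1) := Nat.pow_le_pow_right (by omega) (by omega)
      omega
  · exact h
  · rcases h4 with h4 | h4
    · omega
    · have : p ^ eOf p N ≤ p ^ (y - 1) := Nat.pow_le_pow_right (by omega) (by omega)
      omega

private theorem eOf_le {p N : ℕ} (h2 : 2 ≤ p) : eOf p N ≤ 3 * N + 1 := by
  obtain ⟨a1, a2, a3⟩ := eOf_spec (N := N) h2
  rcases a3 with a3 | a3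
  · omega
  · have : eOf p N - 1 < p ^ (eOf p N - 1) := Nat.lt_pow_self (by omega)
    omega

private theorem eOf_def {n : ℕ} {p N : (Fin n → ℕ) → ℕ} (hp : DFun n p) (hN : DFun n N)
    (h2 : ∀ v, 2 ≤ p v) : DFun n (fun v => eOf (p v) (N v)) := by
  refine DFun.ofGraph (b := fun v => 3 * N v + 1) (((DFun.const 3).mul hN).add (DFun.const 1))
    (fun v => eOf_le (h2 v)) ?_
  have hy : DFun (n + 1) (fun w => w 0) := DFun.proj 0
  have h3N := (DFun.const 3).mul hN.weak
  have h1 := Delta0.leFun (DFun.const 1) hy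
  have hA := (delta_powLe hp.weak hy (h3N.sub (DFun.const 1)) fun w => h2 _).not
  have hB := (delta_powLe hp.weak (hy.sub (DFun.const 1)) (h3N.sub (DFun.const 1)) fun w => h2 _)
  have h0 := Delta0.eqFun h3N (DFun.const 0)
  have hy1 := Delta0.eqFun hy (DFun.const 1)
  refine ((h1.and (h0.or hA)).and (hy1.or (h0.not.and hB))).of_iff fun w => ?_
  have h2w := h2 (fun i => w i.succ)
  constructor
  · intro h
    obtain ⟨a1, a2, a3⟩ := eOf_spec (N := N fun i => w i.succ) h2w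
    rw [h]
    refine ⟨⟨a1, ?_⟩, ?_⟩
    · by_cases h5 : 3 * N (fun i => w i.succ) = 0
      · exact Or.inl h5
      · exact Or.inr (by omega)
    · rcases a3 with a3 | a3
      · exact Or.inl a3
      · exact Or.inr ⟨by omega, by omega⟩
  · rintro ⟨⟨a1, a2⟩, a3⟩
    refine eOf_uniq h2w a1 ?_ ?_
    · rcases a2 with a2 | a2
      · omega
      · omega
    · rcases a3 with a3 | a3
      · exact Or.inl a3
      · exact Or.inr (by omega)

private theorem minFac_def {n : ℕ} {q : (Fin n → ℕ) → ℕ} (hq : DFun n q) (h2 : ∀ v, 2 ≤ q v) :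
    DFun n (fun v => (q v).minFac) := by
  refine DFun.ofGraph (b := q) hq (fun v => Nat.minFac_le (by have := h2 v; omega)) ?_
  have hy : DFun (n + 1) (fun w => w 0) := DFun.proj 0
  have hz : DFun (n + 1 + 1) (fun w => w 0) := DFun.proj 0
  have hy2 : DFun (n + 1 + 1) (fun w => w (Fin.succ 0)) := DFun.proj _
  have d1 : Delta0 (n + 1) (fun w => q (fun i => w i.succ) % w 0 = 0) :=
    Delta0.eqFun (DFun.modAny hq.weak hy) (DFun.const 0)
  have d2 : Delta0 (n + 1 + 1) (fun w => q (fun i => w i.succ.succ) % w 0 = 0) :=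
    Delta0.eqFun (DFun.modAny hq.weak.weak hz) (DFun.const 0)
  have h3 := Delta0.ballFun (n := n + 1) (b := fun w => q (fun i => w i.succ)) hq.weak
    (P := fun z w => 2 ≤ z → q (fun i => w i.succ) % z = 0 → w 0 ≤ z)
    ((Delta0.leFun (DFun.const 2) hz).imp (d2.imp (Delta0.leFun hy2 hz)))
  refine (((Delta0.leFun (DFun.const 2) hy).and d1).and h3).of_iff fun w => ?_
  have h2w := h2 (fun i => w i.succ)
  set Q := q (fun i => w i.succ) with hQ
  constructor
  · intro h
    rw [h]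
    refine ⟨⟨(Nat.minFac_prime (by omega)).two_le,
      Nat.mod_eq_zero_of_dvd (Nat.minFac_dvd Q)⟩, fun z _ hz hd => ?_⟩
    exact Nat.minFac_le_of_dvd hz (Nat.dvd_of_mod_eq_zero hd)
  · rintro ⟨⟨h4, h5⟩, h6⟩
    refine le_antisymm ?_ (Nat.minFac_le_of_dvd h4 (Nat.dvd_of_mod_eq_zero h5))
    exact h6 _ (Nat.minFac_le (by omega)) (Nat.minFac_prime (by omega)).two_le
      (Nat.mod_eq_zero_of_dvd (Nat.minFac_dvd Q))

private theorem bndR {q N B : ℕ} (hpp : IsPrimePow q)
    (hB : ∀ p e, p.Prime → p ^ e ∣ q → (q * N ^ e) ^ N ≤ B) :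
    (q ^ max N 1) ^ eOf q.minFac (max N 1) ≤ (B + q) ^ 3 := by
  obtain ⟨p, k, hp, hk, hq⟩ := hpp
  have hp' : p.Prime := hp.nat_prime
  have hmf : q.minFac = p := by
    rw [← hq, Nat.Prime.pow_minFac hp' hk.ne']
  rw [hmf]
  obtain ⟨a1, a2, a3⟩ := eOf_spec (N := max N 1) hp'.two_le
  have hq2 : 2 ≤ q := by
    rw [← hq]
    exact hp'.two_le.trans (Nat.le_self_pow hk.ne' p)
  rcases Nat.eq_zero_or_pos N with h0 | h0
  · have hM : max N 1 = 1 := by rw [h0]; rfl
    rw [hM] at a1 a2 a3 ⊢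
    have he : eOf p 1 ≤ 2 := by
      by_contra hc
      rcases a3 with a3 | a3
      · omega
      · have h5 : p ^ 2 ≤ p ^ (eOf p 1 - 1) := Nat.pow_le_pow_right hp'.pos (by omega)
        have h6 : 2 ^ 2 ≤ p ^ 2 := Nat.pow_le_pow_left hp'.two_le 2
        omega
    rw [pow_one]
    calc q ^ eOf p 1 ≤ q ^ 3 := Nat.pow_le_pow_right (by omega) (by omega)
      _ ≤ (B + q) ^ 3 := Nat.pow_le_pow_left (by omega) 3
  · have hM : max N 1 = N := max_eq_left h0
    rw [hM] at a1 a2 a3 ⊢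
    exact (e_bound hp' hq.symm h0 (hB p k hp' (by rw [hq])) a3 a1).1.trans
      (Nat.pow_le_pow_left (by omega) 3)

/-- the digit `N - 1` of `X ^ t P` modulo `ν` -/
private noncomputable def rx (q N t P ν : ℕ) : ℕ :=
  dg q (cde N ((X ^ t * pol (ZMod q) q N P) %ₘ mu (ZMod q) q N ν)) (N - 1)

private theorem rx_def {n : ℕ} {p N t P ν C : (Fin n → ℕ) → ℕ} (hp : DFun n p) (hN : DFun n N)
    (ht : DFun n t) (hP : DFun n P) (hν : DFun n ν) (hC : DFun n C) (h2 : ∀ v, 2 ≤ p v)
    (hb : ∀ v, p v ^ N v ≤ C v) : DFun n (fun v => rx (p v) (N v) (t v) (P v) (ν v)) :=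
  dfun_dg hp (powX_mul_def hp hN hν hC hP ht h2 hb) (hN.sub (DFun.const 1)) h2

theorem lin_iter_pp {n : ℕ} {q N B x t : (Fin n → ℕ) → ℕ} {T : ℕ → (Fin n → ℕ) → ℕ}
    (hq : DFun n q) (hN : DFun n N) (hB : DFun n B) (hx : DFun n x) (ht : DFun n t)
    (hT : DFun (n + 1) (fun w => T (w 0) (fun i => w i.succ))) (hpp : ∀ v, IsPrimePow (q v))
    (hqN : ∀ v p e, p.Prime → p ^ e ∣ q v → (q v * N v ^ e) ^ N v ≤ B v)
    (hTb : ∀ v z, z < q v ^ N v → T z v < q v ^ N v)
    (hlin : ∀ v, ∃ A : Module.End (ZMod (q v)) (Fin (N v) → ZMod (q v)), ∀ z, z < q v ^ N v →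
      vecOf (q v) (N v) (T z v) = A (vecOf (q v) (N v) z))
    (hxb : ∀ v, x v < q v ^ N v) : DFun n (fun v => (fun z => T z v)^[t v] (x v)) := by
  have hq0 : ∀ v, 2 ≤ q v := fun v => (hpp v).two_le
  obtain ⟨p, hpe⟩ : ∃ p : (Fin n → ℕ) → ℕ, p = fun v => (q v).minFac := ⟨_, rfl⟩
  have hpd : DFun n p := by rw [hpe]; exact minFac_def hq hq0
  have hpr : ∀ v, (p v).Prime := fun v => by
    rw [hpe]
    exact Nat.minFac_prime (by have := hq0 v; omega)
  have hqk : ∀ v, ∃ k, 0 < k ∧ q v = p v ^ k := fun v => by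
    obtain ⟨p', k, hp', hk, hq'⟩ := hpp v
    refine ⟨k, hk, ?_⟩
    rw [hpe]
    show q v = (q v).minFac ^ k
    rw [← hq', Nat.Prime.pow_minFac hp'.nat_prime hk.ne']
  -- the auxiliary functions
  obtain ⟨M, hM⟩ : ∃ M : (Fin n → ℕ) → ℕ, M = fun v => max (N v) 1 := ⟨_, rfl⟩
  have hM1 : ∀ v, 1 ≤ M v := fun v => by rw [hM]; exact le_max_right _ _
  have hMN : ∀ v, 1 ≤ N v → M v = N v := fun v h => by rw [hM]; exact max_eq_left h
  have hMd : DFun n M := by
    have h := DFun.ite (Delta0.eqFun hN (DFun.const 0)) (DFun.const 1) hN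
    refine dfun_congr h fun v => ?_
    rw [hM]
    dsimp only
    split_ifs <;> omega
  obtain ⟨e, he⟩ : ∃ e : (Fin n → ℕ) → ℕ, e = fun v => eOf (p v) (M v) := ⟨_, rfl⟩
  have hp2 : ∀ v, 2 ≤ p v := fun v => (hpr v).two_le
  have hed : DFun n e := by rw [he]; exact eOf_def hpd hMd hp2
  have he1 : ∀ v, 1 ≤ e v ∧ 3 * M v ≤ p v ^ e v := fun v => by
    rw [he]
    exact ⟨(eOf_spec (hp2 v)).1, (eOf_spec (hp2 v)).2.1⟩
  obtain ⟨C, hC⟩ : ∃ C : (Fin n → ℕ) → ℕ, C = fun v => (B v + q v) ^ 3 := ⟨_, rfl⟩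
  have hCd : DFun n C := by
    rw [hC]
    exact DFun.powConst (hB.add hq) 3
  have hC1 : ∀ v, (q v ^ M v) ^ e v ≤ C v := fun v => by
    rw [hC, he, hM, hpe]
    exact bndR (hpp v) (hqN v)
  have hC2 : ∀ v, q v ^ M v ≤ C v := fun v =>
    (Nat.le_self_pow (by have := (he1 v).1; omega) _).trans (hC1 v)
  have hQ : DFun n (fun v => q v ^ M v) := dfun_powLe hq hMd hCd hC2
  -- the digits
  obtain ⟨D, hD⟩ : ∃ D : ℕ → (Fin n → ℕ) → ℕ, D = fun j v =>
      if j < N v then dg (q v) ((fun z => T z v)^[t v] (x v)) j else 0 := ⟨_, rfl⟩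
  have hDd : DFun (n + 1) (fun w => D (w 0) (fun i => w i.succ)) := by
    refine DFun.ofGraph (b := fun w => q (fun i => w i.succ)) hq.weak (fun w => ?_) ?_
    · rw [hD]
      dsimp only
      split_ifs
      · exact (dg_lt (by have := hq0 (fun i => w i.succ); omega) _ _).le
      · exact Nat.zero_le _
    -- the variables `(P, ν, y, j, v)`
    have hgood := goodN_def (n := n + 1 + 1 + 1 + 1) hq.weak.weak.weak.weak
      hMd.weak.weak.weak.weak hed.weak.weak.weak.weak hx.weak.weak.weak.weak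
      (j := fun w => w (Fin.succ (Fin.succ (Fin.succ 0)))) (DFun.proj _)
      (ν := fun w => w (Fin.succ 0)) (DFun.proj _) (P := fun w => w 0) (DFun.proj _)
      hCd.weak.weak.weak.weak (T := fun z w => T z (fun i => w i.succ.succ.succ.succ))
      (DFun.app hT (DFun.proj 0) fun i => DFun.proj _) (fun w => hq0 _) (fun w => hM1 _)
      (fun w => hC1 _) fun w => hC2 _
    have hdig := rx_def (n := n + 1 + 1 + 1 + 1) hq.weak.weak.weak.weak
      hMd.weak.weak.weak.weak ht.weak.weak.weak.weak (P := fun w => w 0) (DFun.proj _)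
      (ν := fun w => w (Fin.succ 0)) (DFun.proj _) hCd.weak.weak.weak.weak
      (fun w => hq0 _) fun w => hC2 _
    have hy : DFun (n + 1 + 1 + 1 + 1) (fun w => w (Fin.succ (Fin.succ 0))) := DFun.proj _
    have hEq := Delta0.eqFun hy hdig
    have hPl : Delta0 (n + 1 + 1 + 1 + 1) (fun w => w 0 < q (fun i => w i.succ.succ.succ.succ) ^
        M (fun i => w i.succ.succ.succ.succ)) :=
      Delta0.ltFun (DFun.proj 0) hQ.weak.weak.weak.weak
    have hνl : Delta0 (n + 1 + 1 + 1) (fun w => w 0 < q (fun i => w i.succ.succ.succ) ^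
        M (fun i => w i.succ.succ.succ)) :=
      Delta0.ltFun (DFun.proj 0) hQ.weak.weak.weak
    have hE1 := Delta0.bexFun (n := n + 1 + 1 + 1)
      (b := fun w => q (fun i => w i.succ.succ.succ) ^ M (fun i => w i.succ.succ.succ))
      hQ.weak.weak.weak
      (P := fun P w => P < q (fun i => w i.succ.succ.succ) ^ M (fun i => w i.succ.succ.succ) ∧
        (GoodN (q (fun i => w i.succ.succ.succ)) (M (fun i => w i.succ.succ.succ))
          (e (fun i => w i.succ.succ.succ)) (x (fun i => w i.succ.succ.succ))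
          (fun z => T z (fun i => w i.succ.succ.succ)) (w (Fin.succ (Fin.succ 0))) (w 0) P ∧
        w (Fin.succ 0) = rx (q (fun i => w i.succ.succ.succ)) (M (fun i => w i.succ.succ.succ))
          (t (fun i => w i.succ.succ.succ)) P (w 0)))
      (hPl.and (hgood.and hEq))
    have hE2 := Delta0.bexFun (n := n + 1 + 1)
      (b := fun w => q (fun i => w i.succ.succ) ^ M (fun i => w i.succ.succ)) hQ.weak.weak
      (P := fun ν w => ν < q (fun i => w i.succ.succ) ^ M (fun i => w i.succ.succ) ∧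
        ∃ P, P ≤ q (fun i => w i.succ.succ) ^ M (fun i => w i.succ.succ) ∧
        (P < q (fun i => w i.succ.succ) ^ M (fun i => w i.succ.succ) ∧
        (GoodN (q (fun i => w i.succ.succ)) (M (fun i => w i.succ.succ))
          (e (fun i => w i.succ.succ)) (x (fun i => w i.succ.succ))
          (fun z => T z (fun i => w i.succ.succ)) (w (Fin.succ 0)) ν P ∧
        w 0 = rx (q (fun i => w i.succ.succ)) (M (fun i => w i.succ.succ))
          (t (fun i => w i.succ.succ)) P ν)))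
      (hνl.and hE1)
    have hjN : Delta0 (n + 1 + 1) (fun w => w (Fin.succ 0) < N (fun i => w i.succ.succ)) :=
      Delta0.ltFun (DFun.proj _) hN.weak.weak
    have hy0 : Delta0 (n + 1 + 1) (fun w => w 0 = 0) := Delta0.eqFun (DFun.proj 0) (DFun.const 0)
    refine ((hjN.not.and hy0).or (hjN.and hE2)).of_iff fun w => ?_
    rw [hD]
    dsimp only
    by_cases hj : w (Fin.succ 0) < N (fun i => w i.succ.succ)
    · rw [if_pos hj]
      have hNe : M (fun i => w i.succ.succ) = N (fun i => w i.succ.succ) := hMN _ (by omega)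
      have h3 := (he1 (fun i => w i.succ.succ)).1
      have h4 := (he1 (fun i => w i.succ.succ)).2
      obtain ⟨A, hA⟩ := hlin (fun i => w i.succ.succ)
      obtain ⟨k, hk, hqk'⟩ := hqk (fun i => w i.succ.succ)
      rw [hNe] at h4 ⊢
      constructor
      · intro h
        refine Or.inr ⟨hj, ?_⟩
        obtain ⟨ν, P, hν, hP, hg⟩ := good_exists_mod (x := x (fun i => w i.succ.succ))
          (T := fun z => T z (fun i => w i.succ.succ)) (hq0 _) h3 hA hj
        refine ⟨ν, hν.le, hν, P, hP.le, hP, hg, ?_⟩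
        rw [h]
        exact good_digit_pp (hpr _) hk hqk' h3 h4 (hTb _) hA (hxb _) hj hν hP hg _
      · rintro (⟨h, _⟩ | ⟨_, ν, _, hν, P, _, hP, hg, h⟩)
        · exact absurd hj h
        · rw [h]
          exact (good_digit_pp (hpr _) hk hqk' h3 h4 (hTb _) hA (hxb _) hj hν hP hg _).symm
    · rw [if_neg hj]
      constructor
      · intro h
        exact Or.inl ⟨hj, h⟩
      · rintro (⟨_, h⟩ | ⟨h, _⟩)
        · exact h
        · exact absurd h hj
  -- the code
  have hNC : ∀ v, q v ^ N v ≤ C v := fun v =>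
    (Nat.pow_le_pow_right (by have := hq0 v; omega) (by rw [hM]; exact le_max_left _ _)).trans
      (hC2 v)
  refine dfun_congr (dfun_code hq hN hCd hDd hq0 hNC) fun v => ?_
  rw [orbit_code (hTb v) (hxb v) (t v)]
  refine sum_congr rfl fun j hj => ?_
  rw [hD]
  dsimp only
  rw [if_pos (mem_range.1 hj)]

end Pool.Agent.LinU
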