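import Pool.Agent.LinU.R7
import Pool.Agent.PTr.Orbit2

/-!
# Package LinU-R8: iterates of affine maps modulo a prime power (v2 of P8)

An affine map `y ↦ A y + b` in dimension `N` is the restriction of the linear map
`(u, s) ↦ (A u + s b, s)` in dimension `N + 1` to `s = 1`. The new codes are
`z = y + s q ^ N < q ^ (N + 1)`. Bound for the dimension `N + 1`: for `N ≥ 1`,
`p ^ e ∣ q`: `(N + 1) ^ e ≤ 2 ^ e N ^ e ≤ q N ^ e`, so
`(q (N + 1) ^ e) ^ (N + 1) ≤ (q ^ 2 N ^ e) ^ (N + 1) ≤ B ^ 3 q ^ 2`.
-/

set_option autoImplicit false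

namespace Pool.Agent.LinU

open Finset Polynomial Pool.Agent.Grz Pool.Agent.GAvg Pool.Agent.PTr Pool.Agent.MTr
open Pool.Agent.LPC Pool.Agent.ECD

/-- The linear map `(u, s) ↦ (A u + s b, s)`. -/
noncomputable def affLin {R : Type*} [CommRing R] {N : ℕ} (A : Matrix (Fin N) (Fin N) R)
    (b : Fin N → R) : Module.End R (Fin (N + 1) → R) where
  toFun w := Fin.snoc (α := fun _ => R)
    (A.mulVec (fun j => w j.castSucc) + w (Fin.last N) • b) (w (Fin.last N))
  map_add' w w' := by
    funext i
    refine Fin.lastCases ?_ (fun i => ?_) i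
    · simp
    · have h : A.mulVec (fun j : Fin N => (w + w') j.castSucc) =
          A.mulVec (fun j : Fin N => w j.castSucc) + A.mulVec (fun j : Fin N => w' j.castSucc) := by
        rw [← Matrix.mulVec_add]
        rfl
      have h1 := congrFun h i
      simp only [Pi.add_apply, Fin.snoc_castSucc, Pi.smul_apply, smul_eq_mul] at h1 ⊢
      rw [h1]
      ring
  map_smul' r w := by
    funext i
    refine Fin.lastCases ?_ (fun i => ?_) i
    · simp
    · have h : A.mulVec (fun j : Fin N => (r • w) j.castSucc) =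
          r • A.mulVec (fun j : Fin N => w j.castSucc) := by
        rw [← Matrix.mulVec_smul]
        rfl
      have h1 := congrFun h i
      simp only [Pi.add_apply, Fin.snoc_castSucc, Pi.smul_apply, smul_eq_mul,
        RingHom.id_apply] at h1 ⊢
      rw [h1]
      ring

/-- The low digits do not see the high ones. -/
theorem dg_mod_pow {q N i z : ℕ} (hq : 0 < q) (hi : i < N) : dg q z i = dg q (z % q ^ N) i := by
  have h1 : q ^ N = q ^ i * (q * q ^ (N - i - 1)) := by
    rw [← pow_succ', ← pow_add]
    congr 1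
    omega
  have h2 : z = z % q ^ N + q ^ i * (q * (q ^ (N - i - 1) * (z / q ^ N))) := by
    have h3 := Nat.mod_add_div z (q ^ N)
    have h4 : q ^ N * (z / q ^ N) = q ^ i * (q * (q ^ (N - i - 1) * (z / q ^ N))) := by
      rw [← mul_assoc q, ← mul_assoc (q ^ i), ← h1]
    omega
  unfold dg
  conv_lhs => rw [h2]
  rw [Nat.add_mul_div_left _ _ (pow_pos hq i), Nat.add_mul_mod_self_left]

theorem affLin_last {R : Type*} [CommRing R] {N : ℕ} (A : Matrix (Fin N) (Fin N) R)
    (b : Fin N → R) (w : Fin (N + 1) → R) : affLin A b w (Fin.last N) = w (Fin.last N) := by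
  simp [affLin]

theorem affLin_castSucc {R : Type*} [CommRing R] {N : ℕ} (A : Matrix (Fin N) (Fin N) R)
    (b : Fin N → R) (w : Fin (N + 1) → R) (i : Fin N) : affLin A b w i.castSucc =
      A.mulVec (fun j => w j.castSucc) i + w (Fin.last N) * b i := by
  simp [affLin]

theorem aff_bound {q N B e p : ℕ} (hp : p.Prime) (hq : 2 ≤ q) (hpe : p ^ e ∣ q)
    (h0 : q ^ N ≤ B) (he : (q * N ^ e) ^ N ≤ B) :
    (q * (N + 1) ^ e) ^ (N + 1) ≤ B * B * B * (q * q) + q := by
  rcases Nat.eq_zero_or_pos N with hN | hN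
  · subst hN
    simp
  · have h1 : (N + 1) ^ e ≤ q * N ^ e := by
      calc (N + 1) ^ e ≤ (p * N) ^ e := by
            refine Nat.pow_le_pow_left ?_ e
            have := hp.two_le
            nlinarith
        _ = p ^ e * N ^ e := mul_pow _ _ _
        _ ≤ q * N ^ e := Nat.mul_le_mul_right _ (Nat.le_of_dvd (by omega) hpe)
    have h2 : N ^ e ≤ B := by
      calc N ^ e ≤ q * N ^ e := Nat.le_mul_of_pos_left _ (by omega)
        _ = (q * N ^ e) ^ 1 := (pow_one _).symm
        _ ≤ (q * N ^ e) ^ N := Nat.pow_le_pow_right (by positivity) hN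
        _ ≤ B := he
    calc (q * (N + 1) ^ e) ^ (N + 1) ≤ (q * (q * N ^ e)) ^ (N + 1) :=
          Nat.pow_le_pow_left (Nat.mul_le_mul_left _ h1) _
      _ = (q * N ^ e) ^ N * q ^ N * N ^ e * (q * q) := by
          rw [mul_pow, pow_succ q N, pow_succ (q * N ^ e) N]
          ring
      _ ≤ B * B * B * (q * q) := by gcongr
      _ ≤ B * B * B * (q * q) + q := Nat.le_add_right _ _

theorem aff_iter_pp {n : ℕ} {q N B x t : (Fin n → ℕ) → ℕ} {T : ℕ → (Fin n → ℕ) → ℕ}
    (hq : DFun n q) (hN : DFun n N) (hB : DFun n B) (hx : DFun n x) (ht : DFun n t)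
    (hT : DFun (n + 1) (fun w => T (w 0) (fun i => w i.succ))) (hpp : ∀ v, IsPrimePow (q v))
    (hqN : ∀ v p e, p.Prime → p ^ e ∣ q v → (q v * N v ^ e) ^ N v ≤ B v)
    (hTb : ∀ v z, z < q v ^ N v → T z v < q v ^ N v)
    (haff : ∀ v, ∃ (A : Matrix (Fin (N v)) (Fin (N v)) (ZMod (q v))) (b : Fin (N v) → ZMod (q v)),
      ∀ z, z < q v ^ N v → vecOf (q v) (N v) (T z v) = A.mulVec (vecOf (q v) (N v) z) + b)
    (hxb : ∀ v, x v < q v ^ N v) : DFun n (fun v => (fun z => T z v)^[t v] (x v)) := by
  classical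
  have h2 : ∀ v, 2 ≤ q v := fun v => (hpp v).two_le
  have hpow : ∀ v, q v ^ N v ≤ B v := fun v => by
    have := hqN v 2 0 Nat.prime_two (by simp)
    simpa using this
  have hqNf : DFun n (fun v => q v ^ N v) := dfun_powLe hq hN hB hpow
  -- the digits of the new map
  obtain ⟨g, hg⟩ : ∃ g : ℕ → ℕ → (Fin n → ℕ) → ℕ, g = fun i z v =>
      if i < N v then (dg (q v) (T (z % q v ^ N v) v) i +
        (z / q v ^ N v + (q v - 1)) * dg (q v) (T 0 v) i) % q v else z / q v ^ N v := ⟨_, rfl⟩
  obtain ⟨T', hT'⟩ : ∃ T' : ℕ → (Fin n → ℕ) → ℕ, T' = fun z v =>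
      ∑ i ∈ range (N v + 1), g i z v * q v ^ i := ⟨_, rfl⟩
  have hpos : ∀ v, 0 < q v ^ N v := fun v => pow_pos (by have := h2 v; omega) _
  have hgD : DFun (n + 2) (fun u => g (u 0) (u (Fin.succ 0)) (fun i => u i.succ.succ)) := by
    have hq2 : DFun (n + 2) (fun u => q (fun i => u i.succ.succ)) := hq.weak.weak
    have hN2 : DFun (n + 2) (fun u => N (fun i => u i.succ.succ)) := hN.weak.weak
    have hP2 : DFun (n + 2) (fun u => q (fun i => u i.succ.succ) ^ N (fun i => u i.succ.succ)) :=
      hqNf.weak.weak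
    have hy : DFun (n + 2) (fun u => u (Fin.succ 0) %
        q (fun i => u i.succ.succ) ^ N (fun i => u i.succ.succ)) :=
      DFun.modPos (DFun.proj _) hP2 fun u => hpos _
    have hs : DFun (n + 2) (fun u => u (Fin.succ 0) /
        q (fun i => u i.succ.succ) ^ N (fun i => u i.succ.succ)) :=
      DFun.divPos (DFun.proj _) hP2 fun u => hpos _
    have hTy : DFun (n + 2) (fun u => T (u (Fin.succ 0) %
        q (fun i => u i.succ.succ) ^ N (fun i => u i.succ.succ)) (fun i => u i.succ.succ)) :=
      DFun.app hT hy fun i => DFun.proj i.succ.succ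
    have hT0 : DFun (n + 2) (fun u => T 0 (fun i => u i.succ.succ)) :=
      DFun.app hT (DFun.const 0) fun i => DFun.proj i.succ.succ
    have hd1 : DFun (n + 2) (fun u => dg (q (fun i => u i.succ.succ)) (T (u (Fin.succ 0) %
        q (fun i => u i.succ.succ) ^ N (fun i => u i.succ.succ)) (fun i => u i.succ.succ)) (u 0)) :=
      dfun_dg hq2 hTy (DFun.proj 0) fun u => h2 _
    have hd0 : DFun (n + 2) (fun u => dg (q (fun i => u i.succ.succ))
        (T 0 (fun i => u i.succ.succ)) (u 0)) :=
      dfun_dg hq2 hT0 (DFun.proj 0) fun u => h2 _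
    rw [hg]
    exact DFun.ite (Delta0.ltFun (DFun.proj 0) hN2)
      (DFun.modPos (hd1.add ((hs.add (hq2.sub (DFun.const 1))).mul hd0)) hq2
        fun u => by have := h2 (fun i => u i.succ.succ); omega) hs
  have hT'D : DFun (n + 1) (fun w => T' (w 0) (fun i => w i.succ)) := by
    rw [hT']
    refine dfun_code (n := n + 1) (m := fun w => q fun i => w i.succ)
      (d := fun w => N (fun i => w i.succ) + 1)
      (B := fun w => B (fun i => w i.succ) * q (fun i => w i.succ))
      (g := fun i w => g i (w 0) (fun i => w i.succ)) hq.weak (hN.weak.add (DFun.const 1))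
      (hB.weak.mul hq.weak) ?_ (fun w => h2 _) ?_
    · exact hgD
    · intro w
      rw [pow_succ]
      exact Nat.mul_le_mul_right _ (hpow _)
  -- arithmetic of the new map
  have hgq : ∀ i z v, z < q v ^ (N v + 1) → g i z v < q v := by
    intro i z v hz
    rw [hg]
    dsimp only
    split_ifs with h
    · exact Nat.mod_lt _ (by have := h2 v; omega)
    · rw [pow_succ] at hz
      exact Nat.div_lt_of_lt_mul hz
  have hdgN : ∀ i z v, i < N v → dg (q v) z i = dg (q v) (z % q v ^ N v) i := by
    intro i z v hi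
    exact dg_mod_pow (by have := h2 v; omega) hi
  have hmain := lin_iter_pp (n := n) (q := q) (N := fun v => N v + 1)
    (B := fun v => B v * B v * B v * (q v * q v) + q v) (x := fun v => x v + q v ^ N v) (t := t)
    (T := T') hq (hN.add (DFun.const 1)) ((((hB.mul hB).mul hB).mul (hq.mul hq)).add hq)
    (hx.add hqNf) ht hT'D hpp
    (fun v p e hp hpe => aff_bound hp (h2 v) hpe (hpow v) (hqN v p e hp hpe)) ?_ ?_ ?_
  · -- the iterates
    have hone : ∀ v y, y < q v ^ N v → T' (y + q v ^ N v) v = T y v + q v ^ N v := by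
      intro v y hy
      rw [hT']
      dsimp only
      have hdiv : (y + q v ^ N v) / q v ^ N v = 1 := by
        rw [Nat.add_div_right _ (hpos v), Nat.div_eq_of_lt hy]
      have hmod : (y + q v ^ N v) % q v ^ N v = y := by
        rw [Nat.add_mod_right, Nat.mod_eq_of_lt hy]
      rw [sum_range_succ]
      have h3 : ∑ i ∈ range (N v), g i (y + q v ^ N v) v * q v ^ i = T y v := by
        refine Eq.trans (sum_congr rfl fun i hi => ?_) (code_dg (hTb v y hy))
        rw [hg]
        dsimp only
        rw [if_pos (mem_range.1 hi), hdiv, hmod]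
        have h4 : 1 + (q v - 1) = q v := by have := h2 v; omega
        rw [h4, Nat.add_mul_mod_self_left, Nat.mod_eq_of_lt
          (dg_lt (by have := h2 v; omega) _ _)]
      rw [h3, hg]
      dsimp only
      rw [if_neg (lt_irrefl _), hdiv, one_mul]
    have hlt : ∀ v j, (fun z => T z v)^[j] (x v) < q v ^ N v := by
      intro v j
      induction j with
      | zero => exact hxb v
      | succ j ih =>
        rw [Function.iterate_succ_apply']
        exact hTb v _ ih
    have hit : ∀ v j, (fun z => T' z v)^[j] (x v + q v ^ N v) =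
        (fun z => T z v)^[j] (x v) + q v ^ N v := by
      intro v j
      induction j with
      | zero => rfl
      | succ j ih =>
        rw [Function.iterate_succ_apply', Function.iterate_succ_apply', ih]
        exact hone v _ (hlt v j)
    have h5 := hmain.sub hqNf
    refine (show _ = (fun v => (fun z => T z v)^[t v] (x v)) from ?_) ▸ h5
    funext v
    rw [hit, Nat.add_sub_cancel]
  · -- range
    intro v z hz
    rw [hT']
    exact lt_code (by have := h2 v; omega) (fun i => g i z v) fun i _ => hgq i z v hz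
  · -- linearity
    intro v
    obtain ⟨A, b, hAb⟩ := haff v
    refine ⟨affLin A b, fun z hz => ?_⟩
    have hq0 : 0 < q v := by have := h2 v; omega
    have hy : z % q v ^ N v < q v ^ N v := Nat.mod_lt _ (hpos v)
    have hdig : ∀ i < N v + 1, dg (q v) (T' z v) i = g i z v := by
      intro i hi
      rw [hT']
      exact dg_code hq0 (fun i => g i z v) (fun i _ => hgq i z v hz) hi
    have hb0 : ∀ i : Fin (N v), ((dg (q v) (T 0 v) i : ℕ) : ZMod (q v)) = b i := by
      intro i
      have h3 := congrFun (hAb 0 (hpos v)) i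
      have h4 : vecOf (q v) (N v) 0 = 0 := by
        funext j
        simp [vecOf, dg]
      rw [h4, Matrix.mulVec_zero, zero_add] at h3
      exact h3
    funext i
    refine Fin.lastCases ?_ (fun i => ?_) i
    · rw [affLin_last]
      unfold vecOf
      have h3 : ((Fin.last (N v) : Fin (N v + 1)) : ℕ) = N v := rfl
      rw [h3, hdig (N v) (Nat.lt_succ_self _), hg]
      dsimp only
      rw [if_neg (lt_irrefl _)]
      unfold dg
      rw [ZMod.natCast_mod]
    · rw [affLin_castSucc]
      have h3 := congrFun (hAb (z % q v ^ N v) hy) i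
      have h4 : (fun j : Fin (N v) => vecOf (q v) (N v + 1) z j.castSucc) =
          vecOf (q v) (N v) (z % q v ^ N v) := by
        funext j
        unfold vecOf
        rw [Fin.val_castSucc, hdgN j z v j.2]
      have h5 : vecOf (q v) (N v + 1) z (Fin.last (N v)) = ((z / q v ^ N v : ℕ) : ZMod (q v)) := by
        unfold vecOf dg
        rw [ZMod.natCast_mod]
        rfl
      rw [h4, h5]
      have h6 : vecOf (q v) (N v + 1) (T' z v) i.castSucc = ((g i z v : ℕ) : ZMod (q v)) := by
        unfold vecOf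
        rw [Fin.val_castSucc, hdig i (Nat.lt_succ_of_lt i.2)]
      rw [h6, hg]
      dsimp only
      rw [if_pos i.2, ZMod.natCast_mod, Nat.cast_add, Nat.cast_mul, hb0 i, Nat.cast_add,
        Nat.cast_sub hq0, ZMod.natCast_self]
      have h7 : ((dg (q v) (T (z % q v ^ N v) v) i : ℕ) : ZMod (q v)) =
          A.mulVec (vecOf (q v) (N v) (z % q v ^ N v)) i + b i := h3
      rw [h7]
      push_cast
      ring
  · -- the starting point
    intro v
    have h3 := hxb v
    rw [pow_succ]
    have h4 : q v ^ N v * 2 ≤ q v ^ N v * q v := Nat.mul_le_mul_left _ (h2 v)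
    omega

end Pool.Agent.LinU
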