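import Pool.Agent.LinU.P9
import Pool.Agent.LinU.P10
import Pool.Agent.LinU.R11

/-!
# Orbits of affine maps
-/

set_option autoImplicit false

namespace Pool.Agent.LinU

open Finset Polynomial Pool.Agent.Grz Pool.Agent.GAvg Pool.Agent.PTr Pool.Agent.MTr
open Pool.Agent.LPC Pool.Agent.ECD

/-- A point of the orbit of `x` under a self-map of `[0, M)` is reached after at most `M` steps. -/
theorem exists_iter_le {f : ℕ → ℕ} {M x : ℕ} (hx : x < M) (hf : ∀ z, z < M → f z < M) (i : ℕ) :
    ∃ j, j ≤ M ∧ f^[j] x = f^[i] x := by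
  have hlt : ∀ j, f^[j] x < M := by
    intro j
    induction j with
    | zero => exact hx
    | succ j ih =>
      rw [Function.iterate_succ_apply']
      exact hf _ ih
  induction i using Nat.strong_induction_on with
  | _ i ih =>
    rcases Nat.lt_or_ge M i with h | h
    · -- two of the first `M + 1` iterates are equal
      have hcard : (Finset.range M).card < (Finset.range (M + 1)).card := by simp
      obtain ⟨a, ha, b, hb, hab, heq⟩ := Finset.exists_ne_map_eq_of_card_lt_of_maps_to hcard
        (f := fun j => f^[j] x) (fun j _ => by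
          simp only [Finset.coe_range, Set.mem_Iio]
          exact hlt j)
      simp only [Finset.mem_range] at ha hb
      have key : ∀ a b, a < b → b ≤ M → f^[a] x = f^[b] x → ∃ j, j ≤ M ∧ f^[j] x = f^[i] x := by
        intro a b hab hbM heq
        have h1 : f^[i - b + a] x = f^[i] x := by
          rw [Function.iterate_add_apply, heq, ← Function.iterate_add_apply]
          congr 2
          omega
        obtain ⟨j, hj, hj'⟩ := ih (i - b + a) (by omega)
        exact ⟨j, hj, hj'.trans h1⟩
      rcases Nat.lt_or_gt_of_ne hab with hab | hab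
      · exact key a b hab (by omega) heq
      · exact key b a hab (by omega) heq.symm
    · exact ⟨i, h, rfl⟩

/-- Orbits of affine maps over `ℤ/m`. -/
theorem aff_orbit {n : ℕ} {m N B x y : (Fin n → ℕ) → ℕ} {T : ℕ → (Fin n → ℕ) → ℕ}
    (hm : DFun n m) (hN : DFun n N) (hB : DFun n B) (hx : DFun n x) (hy : DFun n y)
    (hT : DFun (n + 1) (fun w => T (w 0) (fun i => w i.succ))) (hm0 : ∀ v, 0 < m v)
    (hmN : ∀ v p e, p.Prime → p ^ e ∣ m v → (m v * N v ^ e) ^ N v ≤ B v)
    (hTb : ∀ v z, z < m v ^ N v → T z v < m v ^ N v)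
    (haff : ∀ v, ∃ (A : Matrix (Fin (N v)) (Fin (N v)) (ZMod (m v))) (b : Fin (N v) → ZMod (m v)),
      ∀ z, z < m v ^ N v → vecOf (m v) (N v) (T z v) = A.mulVec (vecOf (m v) (N v) z) + b)
    (hxb : ∀ v, x v < m v ^ N v) :
    Delta0 n (fun v => ∃ i, (fun z => T z v)^[i] (x v) = y v) := by
  -- the iterates as a function of `t` and `v`
  have h1 : DFun (n + 1) (fun w => (fun z => T z (fun i => w i.succ))^[w 0]
      (x fun i => w i.succ)) := by
    refine aff_iter_all (n := n + 1) (m := fun w => m fun i => w i.succ)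
      (N := fun w => N fun i => w i.succ) (B := fun w => B fun i => w i.succ)
      (x := fun w => x fun i => w i.succ) (t := fun w => w 0)
      (T := fun z w => T z fun i => w i.succ) hm.weak hN.weak hB.weak hx.weak (DFun.proj 0)
      ?_ (fun w => hm0 _) (fun w => hmN _) (fun w => hTb _) (fun w => haff _) (fun w => hxb _)
    exact DFun.app hT (DFun.proj 0) fun i => DFun.proj i.succ.succ
  have hb : ∀ v, m v ^ N v ≤ B v := by
    intro v
    have h := hmN v 2 0 Nat.prime_two (by simp)
    simpa using h
  have h2 := Delta0.bexFun (P := fun i v => (fun z => T z v)^[i] (x v) = y v) hB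
    (Delta0.eqFun h1 hy.weak)
  refine h2.of_iff fun v => ⟨?_, ?_⟩
  · rintro ⟨i, hi⟩
    obtain ⟨j, hj, hj'⟩ := exists_iter_le (hxb v) (hTb v) i
    exact ⟨j, hj.trans (hb v), hj'.trans hi⟩
  · rintro ⟨i, -, hi⟩
    exact ⟨i, hi⟩

end Pool.Agent.LinU
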