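import Pool.Agent.LinU.U3
import Pool.Agent.H63LB.All

/-!
# Package LinU-U1: the two regimes together

`FullReg m N B`: `(m N ^ e) ^ N ≤ B` for every prime power `p ^ e` which divides `m`. It is definable
if `0 < m`, `m ^ N ≤ B`. The iterates of affine maps are in `DFun` if for every argument `FullReg` or
a property `Q` of the matrix holds, for every `Q` with `GoodIter Q`.
-/

set_option autoImplicit false

namespace Pool.Agent.LinU

open Finset Pool.Agent.Grz Pool.Agent.GAvg Pool.Agent.PTr Pool.Agent.MTr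
open Pool.Agent.LPC Pool.Agent.ECD

/-- every prime power `p ^ e` which divides `m` satisfies `(m N ^ e) ^ N ≤ B` -/
def FullReg (m N B : ℕ) : Prop := ∀ p e, p.Prime → p ^ e ∣ m → (m * N ^ e) ^ N ≤ B

theorem fullReg_zero {B : ℕ} (hB : 1 ≤ B) : FullReg 2 0 B := fun p e _ _ => by
  rw [pow_zero]
  exact hB

theorem fullReg_iff {m N B : ℕ} (hm : 0 < m) (hB : m ^ N ≤ B) : FullReg m N B ↔
    ∀ p, p ≤ m → ∀ e, e ≤ m → 2 ≤ N → 1 ≤ e → p.Prime → p ^ e ∣ m →
      N ^ e ≤ B ∧ (m * N ^ e) ^ N ≤ B := by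
  constructor
  · intro h p _ e _ hN _ hp hd
    have h1 := h p e hp hd
    refine ⟨?_, h1⟩
    have h2 : N ^ e ≤ m * N ^ e := Nat.le_mul_of_pos_left _ hm
    exact (h2.trans (Nat.le_self_pow (by omega) _)).trans h1
  · intro h p e hp hd
    rcases Nat.lt_or_ge N 2 with hN | hN
    · interval_cases N
      · rw [pow_zero]
        rwa [pow_zero] at hB
      · simpa using hB
    rcases Nat.eq_zero_or_pos e with rfl | he
    · simpa using hB
    · have h3 : p ^ e ≤ m := Nat.le_of_dvd hm hd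
      have h4 : p ≤ p ^ e := Nat.le_self_pow (by omega) p
      have h5 : e < p ^ e := Nat.lt_pow_self hp.one_lt
      exact (h p (h4.trans h3) e (h5.le.trans h3) hN he hp hd).2

private theorem U1_dvd {n : ℕ} {f g : (Fin n → ℕ) → ℕ} (hf : DFun n f) (hg : DFun n g) :
    Delta0 n (fun v => f v ∣ g v) :=
  (Delta0.eqFun (DFun.modAny hg hf) (DFun.const 0)).of_iff fun _ => Nat.dvd_iff_mod_eq_zero

private theorem U1_prime {n : ℕ} {f : (Fin n → ℕ) → ℕ} (hf : DFun n f) :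
    Delta0 n (fun v => (f v).Prime) := by
  have h1 : Delta0 (n + 1) (fun w => w 0 < f (fun i => w i.succ) →
      w 0 ∣ f (fun i => w i.succ) → w 0 = 1) :=
    (Delta0.ltFun (DFun.proj 0) hf.weak).imp ((U1_dvd (DFun.proj 0) hf.weak).imp
      (Delta0.eqFun (DFun.proj 0) (DFun.const 1)))
  refine ((Delta0.leFun (DFun.const 2) hf).and (Delta0.ballFun
    (P := fun x v => x < f v → x ∣ f v → x = 1) hf h1)).of_iff fun v => ?_
  rw [Nat.prime_def_lt]
  refine and_congr_right fun _ => ⟨fun h x _ => h x, fun h x hx => h x hx.le hx⟩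

/-- at least two -/
private def up2 (x : ℕ) : ℕ := if 2 ≤ x then x else 2

private theorem up2_le (x : ℕ) : 2 ≤ up2 x := by
  unfold up2
  split_ifs with h
  · exact h
  · exact le_rfl

private theorem up2_eq {x : ℕ} (h : 2 ≤ x) : up2 x = x := if_pos h

private theorem up2_def {n : ℕ} {f : (Fin n → ℕ) → ℕ} (hf : DFun n f) :
    DFun n (fun v => up2 (f v)) :=
  DFun.ite (Delta0.leFun (DFun.const 2) hf) hf (DFun.const 2)

open Classical in
private theorem U1_cap {n : ℕ} {b e B : (Fin n → ℕ) → ℕ} (hb : DFun n b) (he : DFun n e)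
    (hB : DFun n B) (h2 : ∀ v, 2 ≤ b v) :
    DFun n (fun v => b v ^ (if b v ^ e v ≤ B v then e v else 0)) := by
  refine dfun_powLe hb (DFun.ite (delta_powLe hb he hB h2) he (DFun.const 0))
    (hB.add (DFun.const 1)) fun v => ?_
  split_ifs with h
  · omega
  · simp

private theorem U1_inner {n : ℕ} {p e m N B : (Fin n → ℕ) → ℕ} (hp : DFun n p) (he : DFun n e)
    (hm : DFun n m) (hN : DFun n N) (hB : DFun n B) (hm0 : ∀ v, 0 < m v) :
    Delta0 n (fun v => 2 ≤ N v → 1 ≤ e v → (p v).Prime → p v ^ e v ∣ m v →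
      N v ^ e v ≤ B v ∧ (m v * N v ^ e v) ^ N v ≤ B v) := by
  classical
  have hP2 := up2_def hp
  have hN2 := up2_def hN
  have hM2 := up2_def hm
  have hle1 := delta_powLe hP2 he hm fun v => up2_le _
  have hle2 := delta_powLe hN2 he hB fun v => up2_le _
  have hc1 := U1_cap hP2 he hm fun v => up2_le _
  have hc2 := U1_cap hN2 he hB fun v => up2_le _
  have hbase : ∀ v, 2 ≤ up2 (m v) * up2 (N v) ^ (if up2 (N v) ^ e v ≤ B v then e v else 0) :=
    fun v => (up2_le (m v)).trans (Nat.le_mul_of_pos_right _ (pow_pos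
      (lt_of_lt_of_le (by norm_num) (up2_le _)) _))
  have hle3 := delta_powLe (hM2.mul hc2) hN hB hbase
  refine ((Delta0.leFun (DFun.const 2) hN).imp ((Delta0.leFun (DFun.const 1) he).imp
    ((U1_prime hp).imp ((hle1.and (U1_dvd hc1 hm)).imp (hle2.and hle3))))).of_iff fun v => ?_
  refine imp_congr_right fun h2 => imp_congr_right fun h1 => imp_congr_right fun hpp => ?_
  have e1 : up2 (N v) = N v := up2_eq h2
  have e2 : up2 (p v) = p v := up2_eq hpp.two_le
  rw [e1, e2]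
  have hmm : p v ^ e v ≤ m v → up2 (m v) = m v := fun h => up2_eq
    ((hpp.two_le.trans (Nat.le_self_pow (by omega) _)).trans h)
  constructor
  · rintro h ⟨h3, hd⟩
    rw [if_pos h3] at hd
    have h4 := h hd
    rw [hmm h3, if_pos h4.1]
    exact h4
  · intro h hd
    have h3 : p v ^ e v ≤ m v := Nat.le_of_dvd (hm0 v) hd
    rw [hmm h3] at h
    have h4 := h ⟨h3, by rwa [if_pos h3]⟩
    refine ⟨h4.1, ?_⟩
    have h5 := h4.2
    rwa [if_pos h4.1] at h5

theorem fullReg_delta {n : ℕ} {m N B : (Fin n → ℕ) → ℕ} (hm : DFun n m) (hN : DFun n N)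
    (hB : DFun n B) (hm0 : ∀ v, 0 < m v) (hmN : ∀ v, m v ^ N v ≤ B v) :
    Delta0 n (fun v => FullReg (m v) (N v) (B v)) := by
  have h1 := U1_inner (n := n + 1 + 1) (p := fun w => w (Fin.succ 0)) (e := fun w => w 0)
    (DFun.proj _) (DFun.proj _) hm.weak.weak hN.weak.weak hB.weak.weak fun w => hm0 _
  have h2 := Delta0.ballFun (n := n + 1) (b := fun w => m (fun i => w i.succ)) hm.weak
    (P := fun e w => 2 ≤ N (fun i => w i.succ) → 1 ≤ e → (w 0).Prime →
      w 0 ^ e ∣ m (fun i => w i.succ) → N (fun i => w i.succ) ^ e ≤ B (fun i => w i.succ) ∧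
      (m (fun i => w i.succ) * N (fun i => w i.succ) ^ e) ^ N (fun i => w i.succ) ≤
        B (fun i => w i.succ)) h1
  have h3 := Delta0.ballFun (n := n) (b := m) hm
    (P := fun p v => ∀ e, e ≤ m v → 2 ≤ N v → 1 ≤ e → p.Prime → p ^ e ∣ m v →
      N v ^ e ≤ B v ∧ (m v * N v ^ e) ^ N v ≤ B v) h2
  exact h3.of_iff fun v => fullReg_iff (hm0 v) (hmN v)

theorem goodIter_full : GoodIter (fun m N B _ => FullReg m N B) := by
  intro n m N B x t T hm hN hB hx ht hT hm0 _ hTb haff hxb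
  refine aff_iter_all hm hN hB hx ht hT hm0 (fun v => ?_) hTb (fun v => ?_) hxb
  · obtain ⟨A, b, h, _⟩ := haff v
    exact h
  · obtain ⟨A, b, _, h⟩ := haff v
    exact ⟨A, b, h⟩

theorem goodIter_band (r : ℕ) : GoodIter (fun _ _ _ A => H63LB.BandRank r A) := by
  intro n m N B x t T hm hN hB hx ht hT _ hmN hTb haff hxb
  exact H63LB.band_aff_all hm hN hB hx ht hT hmN hTb haff hxb

/-- **The two regimes together.** -/
theorem GoodIter.or {Q : ∀ m N : ℕ, ℕ → Matrix (Fin N) (Fin N) (ZMod m) → Prop}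
    (hQ : GoodIter Q) (hQ0 : ∀ B A, 1 ≤ B → Q 2 0 B A) :
    GoodIter (fun m N B A => FullReg m N B ∨ Q m N B A) := by
  classical
  intro n m N B x t T hm hN hB hx ht hT hm0 hmN hTb haff hxb
  have hB1 : ∀ v, 1 ≤ B v := fun v => (pow_pos (hm0 v) (N v)).trans_le (hmN v)
  have hC := fullReg_delta hm hN hB hm0 hmN
  have hCw : Delta0 (n + 1) (fun w => FullReg (m fun i => w i.succ) (N fun i => w i.succ)
      (B fun i => w i.succ)) := hC.rename Fin.succ
  -- the first regime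
  obtain ⟨m1, em1⟩ : ∃ m1 : (Fin n → ℕ) → ℕ,
      m1 = fun v => if FullReg (m v) (N v) (B v) then m v else 2 := ⟨_, rfl⟩
  obtain ⟨N1, eN1⟩ : ∃ N1 : (Fin n → ℕ) → ℕ,
      N1 = fun v => if FullReg (m v) (N v) (B v) then N v else 0 := ⟨_, rfl⟩
  obtain ⟨x1, ex1⟩ : ∃ x1 : (Fin n → ℕ) → ℕ,
      x1 = fun v => if FullReg (m v) (N v) (B v) then x v else 0 := ⟨_, rfl⟩
  obtain ⟨T1, eT1⟩ : ∃ T1 : ℕ → (Fin n → ℕ) → ℕ,
      T1 = fun z v => if FullReg (m v) (N v) (B v) then T z v else 0 := ⟨_, rfl⟩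
  have c1 : ∀ v, (FullReg (m v) (N v) (B v) ∧ m1 v = m v ∧ N1 v = N v ∧ x1 v = x v ∧
      ∀ z, T1 z v = T z v) ∨ (¬ FullReg (m v) (N v) (B v) ∧ m1 v = 2 ∧ N1 v = 0 ∧ x1 v = 0 ∧
      ∀ z, T1 z v = 0) := by
    intro v
    rw [em1, eN1, ex1, eT1]
    by_cases h : FullReg (m v) (N v) (B v)
    · exact Or.inl ⟨h, if_pos h, if_pos h, if_pos h, fun z => if_pos h⟩
    · exact Or.inr ⟨h, if_neg h, if_neg h, if_neg h, fun z => if_neg h⟩
  have r1 : DFun n (fun v => (fun z => T1 z v)^[t v] (x1 v)) := by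
    refine goodIter_full n m1 N1 B x1 t T1 (by rw [em1]; exact DFun.ite hC hm (DFun.const 2))
      (by rw [eN1]; exact DFun.ite hC hN (DFun.const 0)) hB
      (by rw [ex1]; exact DFun.ite hC hx (DFun.const 0)) ht
      (by rw [eT1]; exact DFun.ite hCw hT (DFun.const 0)) (fun v => ?_) (fun v => ?_)
      (fun v z hz => ?_) (fun v => ?_) (fun v => ?_)
    · rcases c1 v with ⟨_, e1, _⟩ | ⟨_, e1, _⟩
      · rw [e1]; exact hm0 v
      · rw [e1]; norm_num
    · rcases c1 v with ⟨_, e1, e2, _⟩ | ⟨_, e1, e2, _⟩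
      · rw [e1, e2]; exact hmN v
      · rw [e1, e2, pow_zero]; exact hB1 v
    · rcases c1 v with ⟨_, e1, e2, _, e4⟩ | ⟨_, e1, e2, _, e4⟩
      · rw [e1, e2] at hz ⊢
        rw [e4]
        exact hTb v z hz
      · rw [e1, e2, e4]
        norm_num
    · rcases c1 v with ⟨h, e1, e2, _, e4⟩ | ⟨_, e1, e2, _, e4⟩
      · simp only [e4]
        rw [e1, e2]
        obtain ⟨A, b, _, hA⟩ := haff v
        exact ⟨A, b, h, hA⟩
      · rw [e1, e2]
        exact ⟨0, 0, fullReg_zero (hB1 v), fun z _ => Subsingleton.elim _ _⟩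
    · rcases c1 v with ⟨_, e1, e2, e3, _⟩ | ⟨_, e1, e2, e3, _⟩
      · rw [e1, e2, e3]; exact hxb v
      · rw [e1, e2, e3]; norm_num
  -- the second regime
  obtain ⟨m2, em2⟩ : ∃ m2 : (Fin n → ℕ) → ℕ,
      m2 = fun v => if FullReg (m v) (N v) (B v) then 2 else m v := ⟨_, rfl⟩
  obtain ⟨N2, eN2⟩ : ∃ N2 : (Fin n → ℕ) → ℕ,
      N2 = fun v => if FullReg (m v) (N v) (B v) then 0 else N v := ⟨_, rfl⟩
  obtain ⟨x2, ex2⟩ : ∃ x2 : (Fin n → ℕ) → ℕ,
      x2 = fun v => if FullReg (m v) (N v) (B v) then 0 else x v := ⟨_, rfl⟩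
  obtain ⟨T2, eT2⟩ : ∃ T2 : ℕ → (Fin n → ℕ) → ℕ,
      T2 = fun z v => if FullReg (m v) (N v) (B v) then 0 else T z v := ⟨_, rfl⟩
  have c2 : ∀ v, (¬ FullReg (m v) (N v) (B v) ∧ m2 v = m v ∧ N2 v = N v ∧ x2 v = x v ∧
      ∀ z, T2 z v = T z v) ∨ (FullReg (m v) (N v) (B v) ∧ m2 v = 2 ∧ N2 v = 0 ∧ x2 v = 0 ∧
      ∀ z, T2 z v = 0) := by
    intro v
    rw [em2, eN2, ex2, eT2]
    by_cases h : FullReg (m v) (N v) (B v)
    · exact Or.inr ⟨h, if_pos h, if_pos h, if_pos h, fun z => if_pos h⟩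
    · exact Or.inl ⟨h, if_neg h, if_neg h, if_neg h, fun z => if_neg h⟩
  have r2 : DFun n (fun v => (fun z => T2 z v)^[t v] (x2 v)) := by
    refine hQ n m2 N2 B x2 t T2 (by rw [em2]; exact DFun.ite hC (DFun.const 2) hm)
      (by rw [eN2]; exact DFun.ite hC (DFun.const 0) hN) hB
      (by rw [ex2]; exact DFun.ite hC (DFun.const 0) hx) ht
      (by rw [eT2]; exact DFun.ite hCw (DFun.const 0) hT) (fun v => ?_) (fun v => ?_)
      (fun v z hz => ?_) (fun v => ?_) (fun v => ?_)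
    · rcases c2 v with ⟨_, e1, _⟩ | ⟨_, e1, _⟩
      · rw [e1]; exact hm0 v
      · rw [e1]; norm_num
    · rcases c2 v with ⟨_, e1, e2, _⟩ | ⟨_, e1, e2, _⟩
      · rw [e1, e2]; exact hmN v
      · rw [e1, e2, pow_zero]; exact hB1 v
    · rcases c2 v with ⟨_, e1, e2, _, e4⟩ | ⟨_, e1, e2, _, e4⟩
      · rw [e1, e2] at hz ⊢
        rw [e4]
        exact hTb v z hz
      · rw [e1, e2, e4]
        norm_num
    · rcases c2 v with ⟨h, e1, e2, _, e4⟩ | ⟨_, e1, e2, _, e4⟩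
      · simp only [e4]
        rw [e1, e2]
        obtain ⟨A, b, hq, hA⟩ := haff v
        exact ⟨A, b, hq.resolve_left h, hA⟩
      · rw [e1, e2]
        exact ⟨0, 0, hQ0 _ _ (hB1 v), fun z _ => Subsingleton.elim _ _⟩
    · rcases c2 v with ⟨_, e1, e2, e3, _⟩ | ⟨_, e1, e2, e3, _⟩
      · rw [e1, e2, e3]; exact hxb v
      · rw [e1, e2, e3]; norm_num
  have r3 := DFun.ite hC r1 r2
  refine cast (congrArg (DFun n) ?_) r3
  funext v
  by_cases h : FullReg (m v) (N v) (B v)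
  · rw [if_pos h]
    rcases c1 v with ⟨_, _, _, e3, e4⟩ | ⟨h', _⟩
    · simp only [e3, e4]
    · exact absurd h h'
  · rw [if_neg h]
    rcases c2 v with ⟨_, _, _, e3, e4⟩ | ⟨h', _⟩
    · simp only [e3, e4]
    · exact absurd h' h

/-- the class of the two regimes -/
theorem goodIter_reg (r : ℕ) : GoodIter (fun m N B A => FullReg m N B ∨ H63LB.BandRank r A) :=
  (goodIter_band r).or fun _ _ _ => ⟨0, 0, 0, fun _ _ _ => rfl, Subsingleton.elim _ _⟩

end Pool.Agent.LinU
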