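import Pool.Agent.LinU.Z2
import Pool.Agent.ApC.Final
import Pool.Agent.ECD.FamG

/-!
# Orders of definable subgroups of `(ℤ/m)^N`
-/

set_option autoImplicit false

namespace Pool.Agent.LinU

open Finset Pool.Agent.Grz Pool.Agent.GAvg Pool.Agent.PTr Pool.Agent.MTr
open Pool.Agent.LPC Pool.Agent.ECD

/-! ### The family of the groups `(ℤ/m)^N` -/

/-- the modulus -/
def zm (w : Fin 3 → ℕ) : ℕ := w 0 + 2

open scoped Classical in
/-- the length -/
noncomputable def zn (w : Fin 3 → ℕ) : ℕ := if zm w ^ w 1 ≤ w 2 then w 1 else 0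

instance (w : Fin 3 → ℕ) : NeZero (zm w) := ⟨by unfold zm; omega⟩

theorem two_le_zm (w : Fin 3 → ℕ) : 2 ≤ zm w := by unfold zm; omega

theorem zm_pos (w : Fin 3 → ℕ) : 0 < zm w := by unfold zm; omega

theorem zpow_le (w : Fin 3 → ℕ) : zm w ^ zn w ≤ w 2 + 1 := by
  unfold zn
  split_ifs with h
  · omega
  · simp

theorem zm_def : DFun 3 zm := (DFun.proj 0).add (DFun.const 2)

theorem zn_def : DFun 3 zn := by
  classical
  exact DFun.ite (delta_powLe zm_def (DFun.proj 1) (DFun.proj 2) two_le_zm) (DFun.proj 1)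
    (DFun.const 0)

/-- the code of a vector -/
def venc (m N : ℕ) (x : Fin N → ZMod m) : ℕ :=
  ∑ i ∈ range N, (if h : i < N then (x ⟨i, h⟩).val else 0) * m ^ i

theorem venc_lt {m N : ℕ} [NeZero m] (x : Fin N → ZMod m) : venc m N x < m ^ N := by
  refine lt_code (Nat.pos_of_ne_zero (NeZero.ne m)) _ fun i hi => ?_
  rw [dif_pos hi]
  exact ZMod.val_lt _

theorem dg_venc {m N : ℕ} [NeZero m] (x : Fin N → ZMod m) {i : ℕ} (hi : i < N) :
    dg m (venc m N x) i = (x ⟨i, hi⟩).val := by
  have h := dg_code (m := m) (d := N) (Nat.pos_of_ne_zero (NeZero.ne m))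
    (fun i => if h : i < N then (x ⟨i, h⟩).val else 0)
    (fun i hi => by simpa [dif_pos hi] using ZMod.val_lt _) hi
  rw [venc, h]
  exact dif_pos hi

theorem vecOf_venc {m N : ℕ} [NeZero m] (x : Fin N → ZMod m) :
    vecOf m N (venc m N x) = x := by
  funext i
  show ((dg m (venc m N x) i : ℕ) : ZMod m) = x i
  rw [dg_venc x i.2]
  exact ZMod.natCast_zmod_val _

theorem venc_vecOf {m N z : ℕ} [NeZero m] (hz : z < m ^ N) : venc m N (vecOf m N z) = z := by
  have hm : 0 < m := Nat.pos_of_ne_zero (NeZero.ne m)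
  refine dg_ext (venc_lt _) hz fun i hi => ?_
  rw [dg_venc _ hi]
  show ((dg m z i : ℕ) : ZMod m).val = _
  rw [ZMod.val_natCast, Nat.mod_eq_of_lt (dg_lt hm _ _)]

theorem venc_sum {m N : ℕ} [NeZero m] (P : ℕ → Fin N → ZMod m) (L : ℕ) :
    venc m N (∑ i ∈ range L, P i) =
      ∑ j ∈ range N, ((∑ i ∈ range L, dg m (venc m N (P i)) j) % m) * m ^ j := by
  rw [venc]
  refine sum_congr rfl fun j hj => ?_
  have hj' := mem_range.1 hj
  rw [dif_pos hj']
  congr 1
  have h1 : ((∑ i ∈ range L, P i) ⟨j, hj'⟩ : ZMod m) =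
      ((∑ i ∈ range L, dg m (venc m N (P i)) j : ℕ) : ZMod m) := by
    rw [Finset.sum_apply, Nat.cast_sum]
    refine sum_congr rfl fun i _ => ?_
    rw [dg_venc _ hj', ZMod.natCast_zmod_val]
  rw [h1, ZMod.val_natCast]

/-- the groups `(ℤ/m)^N`, for `m ^ N` bounded -/
noncomputable def vecFam : Fam 3 where
  G w := Fin (zn w) → ZMod (zm w)
  grp w := inferInstance
  enc w := venc (zm w) (zn w)
  inj w x y h := by
    rw [← vecOf_venc x, ← vecOf_venc y]
    exact congrArg _ h
  N w := w 2 + 1
  hN := (DFun.proj 2).add (DFun.const 1)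
  bd w x := (venc_lt x).le.trans (zpow_le w)
  mem := by
    have h := Delta0.ltFun (DFun.proj (n := 4) 0) (dfun_powLe zm_def.weak zn_def.weak
      (((DFun.proj 2).add (DFun.const 1)).weak) fun w => zpow_le fun i => w i.succ)
    refine h.of_iff fun w => ?_
    constructor
    · rintro ⟨x, hx⟩
      rw [← hx]
      exact venc_lt x
    · intro hw
      exact ⟨vecOf _ _ (w 0), venc_vecOf hw⟩
  sum1 := by
    intro n σ P L M hσ hP hL hM hLM
    have hm : DFun n (fun u => zm (fun i => σ i u)) := zm_def.comp hσ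
    have hN : DFun n (fun u => zn (fun i => σ i u)) := zn_def.comp hσ
    have h1 : DFun (n + 1 + 1) (fun w => dg (zm (fun i => σ i (fun j => w j.succ.succ)))
        (venc _ _ (P (fun j => w j.succ.succ) (w 0))) (w 1)) := by
      refine dfun_dg hm.weak.weak ?_ (DFun.proj 1) fun w => two_le_zm _
      have h := hP.comp (n := n + 1 + 1)
        (h := Fin.cons (fun w => w 0) (fun j w => w j.succ.succ)) (fun i => by
          refine Fin.cases ?_ (fun j => ?_) i
          · exact DFun.proj 0
          · exact DFun.proj _)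
      exact h
    have h2 := dfun_sumPoly 1 (n := n + 1) (S := fun w => L (fun j => w j.succ))
      (N := fun w => M (fun j => w j.succ))
      (g := fun i w => dg (zm (fun l => σ l (fun j => w j.succ)))
        (venc _ _ (P (fun j => w j.succ) i)) (w 0)) h1 hL.weak hM.weak fun w => by
          rw [pow_one]; exact hLM _
    have h3 := dfun_code (g := fun j u => (∑ i ∈ range (L u),
      dg (zm (fun l => σ l u)) (venc _ _ (P u i)) j) % zm (fun l => σ l u)) hm hN
      ((hσ 2).add (DFun.const 1)) (DFun.modPos h2 hm.weak fun w => zm_pos _)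
      (fun v => two_le_zm _) fun v => zpow_le _
    convert h3 using 2 with u
    exact venc_sum _ _

theorem subgroup_cast {m m' N N' : ℕ} (hm : m' = m) (hN : N' = N)
    (H : AddSubgroup (Fin N → ZMod m)) : ∃ H' : AddSubgroup (Fin N' → ZMod m'),
      (∀ z, vecOf m' N' z ∈ H' ↔ vecOf m N z ∈ H) ∧ Nat.card H' = Nat.card H := by
  subst hm hN
  exact ⟨H, fun _ => Iff.rfl, rfl⟩

/-- The orders of the definable subgroups of `(ℤ/m)^N` are definable. -/
theorem card_sub_vec {n : ℕ} {m N B : (Fin n → ℕ) → ℕ} (hm : DFun n m) (hN : DFun n N)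
    (hB : DFun n B) (h2 : ∀ v, 2 ≤ m v) (hmN : ∀ v, m v ^ N v ≤ B v)
    {H : ∀ v, AddSubgroup (Fin (N v) → ZMod (m v))}
    (hH : Delta0 (n + 1) (fun w => vecOf (m fun i => w i.succ) (N fun i => w i.succ) (w 0) ∈
      H (fun i => w i.succ))) :
    DFun n (fun v => Nat.card (H v)) := by
  classical
  set σ : Fin 3 → (Fin n → ℕ) → ℕ := ![fun v => m v - 2, N, B] with hσdef
  have hσ : ∀ i, DFun n (σ i) := by
    intro i
    fin_cases i
    · exact hm.sub (DFun.const 2)
    · exact hN
    · exact hB
  have em : ∀ v, zm (fun i => σ i v) = m v := fun v => by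
    show m v - 2 + 2 = m v
    have := h2 v
    omega
  have eN : ∀ v, zn (fun i => σ i v) = N v := fun v => by
    show (if zm (fun i => σ i v) ^ N v ≤ B v then N v else 0) = N v
    rw [em, if_pos (hmN v)]
  choose H' hH1 hH2 using fun v => subgroup_cast (em v) (eN v) (H v)
  let HS : ∀ v : Fin n → ℕ, Subgroup (vecFam.toG.G (fun i => σ i v)) := fun v =>
    (AddSubgroup.toSubgroup (H' v) :
      Subgroup (Multiplicative (Fin (zn fun i => σ i v) → ZMod (zm fun i => σ i v))))
  have hfin : DFun n (fun v => Nat.card (HS v)) := by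
    refine Pool.Agent.ApC.card_sub_comm vecFam.toG hσ (H := HS) ?_ ?_
    · have h0 := Delta0.leFun (dfun_powLe hm.weak hN.weak hB.weak fun w => hmN _)
        (DFun.proj (n := n + 1) 0)
      refine (h0.or hH).of_iff fun w => ?_
      set u : Fin n → ℕ := fun i => w i.succ with hu
      constructor
      · intro h
        rcases Nat.lt_or_ge (w 0) (m u ^ N u) with hw | hw
        · right
          have hw' : w 0 < zm (fun i => σ i u) ^ zn (fun i => σ i u) := by rw [em, eN]; exact hw
          have hdec : vecFam.toG.dec (fun i => σ i u) (w 0) =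
              Multiplicative.ofAdd (vecOf (zm (fun i => σ i u)) (zn (fun i => σ i u)) (w 0)) := by
            have := vecFam.toG.dec_enc (fun i => σ i u)
              (Multiplicative.ofAdd (vecOf (zm (fun i => σ i u)) (zn (fun i => σ i u)) (w 0)))
            rwa [show vecFam.toG.enc (fun i => σ i u)
              (Multiplicative.ofAdd (vecOf (zm (fun i => σ i u)) (zn (fun i => σ i u)) (w 0))) =
              w 0 from venc_vecOf hw'] at this
          rw [hdec] at h
          exact (hH1 u (w 0)).1 h
        · exact Or.inl hw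
      · intro h
        by_cases hw : w 0 < m u ^ N u
        · have h' : vecOf (m u) (N u) (w 0) ∈ H u := h.resolve_left (not_le.2 hw)
          have hw' : w 0 < zm (fun i => σ i u) ^ zn (fun i => σ i u) := by rw [em, eN]; exact hw
          have hdec : vecFam.toG.dec (fun i => σ i u) (w 0) =
              Multiplicative.ofAdd (vecOf (zm (fun i => σ i u)) (zn (fun i => σ i u)) (w 0)) := by
            have := vecFam.toG.dec_enc (fun i => σ i u)
              (Multiplicative.ofAdd (vecOf (zm (fun i => σ i u)) (zn (fun i => σ i u)) (w 0)))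
            rwa [show vecFam.toG.enc (fun i => σ i u)
              (Multiplicative.ofAdd (vecOf (zm (fun i => σ i u)) (zn (fun i => σ i u)) (w 0))) =
              w 0 from venc_vecOf hw'] at this
          rw [hdec]
          exact (hH1 u (w 0)).2 h'
        · have hno : ¬ ∃ x, vecFam.toG.enc (fun i => σ i u) x = w 0 := by
            rintro ⟨x, hx⟩
            apply hw
            rw [← hx, ← em u, ← eN u]
            exact venc_lt (Multiplicative.toAdd x)
          have : vecFam.toG.dec (fun i => σ i u) (w 0) = 1 := by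
            rw [GFam.dec, dif_neg hno]
          rw [this]
          exact one_mem _
    · intro u a b
      have hmc : ∀ x y : Multiplicative (Fin (zn fun i => σ i u) → ZMod (zm fun i => σ i u)),
          x * y = y * x := mul_comm
      exact Subtype.ext (hmc a.1 b.1)
  convert hfin using 2 with v
  rw [← hH2 v]
  exact Nat.card_congr (Equiv.subtypeEquiv Multiplicative.ofAdd fun x => Iff.rfl)

end Pool.Agent.LinU
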