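import Pool.Agent.LinU.Z1

/-!
# Package LinU-Z5: the number of reachable points (pure algebra)

`W` the subgroup of `reach_iff`, `g u = f u + b₀`, `t` the least number `≥ 1` with `g^t x - x ∈ W`: the
reachable points are the disjoint union of the cosets `g^s x + W`, `s < t` (`g` induces a permutation
of `V / W`).
-/

set_option autoImplicit false

namespace Pool.Agent.LinU

private theorem Z5_iter {V : Type*} [AddCommGroup V] {f : V → V} {A : V →+ V}
    (hA : ∀ u w, f u - f w = A (u - w)) (b₀ : V) (s : ℕ) (u w : V) :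
    (fun u => f u + b₀)^[s] u - (fun u => f u + b₀)^[s] w = A^[s] (u - w) := by
  induction s with
  | zero => rfl
  | succ s ih =>
    rw [Function.iterate_succ_apply', Function.iterate_succ_apply', Function.iterate_succ_apply',
      ← ih, ← hA]
    abel

theorem reach_card {V : Type*} [AddCommGroup V] [Finite V] {f : V → V} (hf : Function.Injective f)
    {A : V →+ V} (hA : ∀ u w, f u - f w = A (u - w)) {R : Set V} {b₀ : V} (hb : b₀ ∈ R) (x : V)
    {t : ℕ} (ht : 1 ≤ t)
    (h1 : (fun u => f u + b₀)^[t] x - x ∈ AddSubgroup.closure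
      {z : V | ∃ i : ℕ, ∃ b ∈ R, ∃ b' ∈ R, z = A^[i] (b - b')})
    (h2 : ∀ s, 1 ≤ s → s < t → (fun u => f u + b₀)^[s] x - x ∉ AddSubgroup.closure
      {z : V | ∃ i : ℕ, ∃ b ∈ R, ∃ b' ∈ R, z = A^[i] (b - b')}) :
    Nat.card {y // Relation.ReflTransGen (fun u w => ∃ b ∈ R, w = f u + b) x y} =
      t * Nat.card (AddSubgroup.closure
        {z : V | ∃ i : ℕ, ∃ b ∈ R, ∃ b' ∈ R, z = A^[i] (b - b')}) := by
  classical
  have hreach := fun y => reach_iff hf hA hb x y
  have hAW : ∀ w ∈ AddSubgroup.closure {z : V | ∃ i : ℕ, ∃ b ∈ R, ∃ b' ∈ R, z = A^[i] (b - b')},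
      A w ∈ AddSubgroup.closure {z : V | ∃ i : ℕ, ∃ b ∈ R, ∃ b' ∈ R, z = A^[i] (b - b')} := by
    have h1 : AddSubgroup.closure {z : V | ∃ i : ℕ, ∃ b ∈ R, ∃ b' ∈ R, z = A^[i] (b - b')} ≤
        (AddSubgroup.closure {z : V | ∃ i : ℕ, ∃ b ∈ R, ∃ b' ∈ R, z = A^[i] (b - b')}).comap A := by
      rw [AddSubgroup.closure_le]
      rintro z ⟨i, b, hb, b', hb', rfl⟩
      refine AddSubgroup.subset_closure ⟨i + 1, b, hb, b', hb', ?_⟩
      rw [Function.iterate_succ_apply']
    exact fun w hw => h1 hw
  generalize AddSubgroup.closure {z : V | ∃ i : ℕ, ∃ b ∈ R, ∃ b' ∈ R, z = A^[i] (b - b')} = W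
    at h1 h2 hreach hAW ⊢
  have hAinj : Function.Injective A := by
    intro u w h
    have h3 := hA u w
    rw [map_sub, h, sub_self] at h3
    exact hf (sub_eq_zero.1 h3)
  have hAW' : ∀ z, A z ∈ W → z ∈ W := by
    intro z hz
    let φ : W → W := fun w => ⟨A w, hAW w w.2⟩
    have hφ : Function.Injective φ := fun u w h =>
      Subtype.ext (hAinj (congrArg (fun y : W => (y : V)) h))
    obtain ⟨w, hw⟩ := Finite.surjective_of_injective hφ ⟨A z, hz⟩
    have h3 : A w = A z := congrArg (fun y : W => (y : V)) hw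
    rw [← hAinj h3]
    exact w.2
  have hAs : ∀ s z, z ∈ W → A^[s] z ∈ W := by
    intro s
    induction s with
    | zero => exact fun z hz => hz
    | succ s ih =>
      intro z hz
      rw [Function.iterate_succ_apply']
      exact hAW _ (ih z hz)
  have hAs' : ∀ s z, A^[s] z ∈ W → z ∈ W := by
    intro s
    induction s with
    | zero => exact fun z hz => hz
    | succ s ih =>
      intro z hz
      rw [Function.iterate_succ_apply'] at hz
      exact ih z (hAW' _ hz)
  set g : V → V := fun u => f u + b₀ with hg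
  have hper : ∀ q s, g^[s + t * q] x - g^[s] x ∈ W := by
    intro q
    induction q with
    | zero =>
      intro s
      rw [Nat.mul_zero, Nat.add_zero, sub_self]
      exact W.zero_mem
    | succ q ih =>
      intro s
      have h3 : g^[s + t * (q + 1)] x - g^[s + t * q] x ∈ W := by
        rw [Nat.mul_succ, ← Nat.add_assoc, Function.iterate_add_apply g (s + t * q) t,
          Z5_iter hA b₀]
        exact hAs _ _ h1
      have h4 := W.add_mem h3 (ih s)
      rwa [sub_add_sub_cancel] at h4
  have hlt : ∀ s s', s < s' → s' < t → g^[s'] x - g^[s] x ∉ W := by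
    intro s s' hs hs' h3
    obtain ⟨d, rfl⟩ := Nat.exists_eq_add_of_lt hs
    rw [show s + d + 1 = s + (d + 1) by omega, Function.iterate_add_apply, Z5_iter hA b₀] at h3
    exact h2 (d + 1) (by omega) (by omega) (hAs' _ _ h3)
  let φ : Fin t × W → {y // Relation.ReflTransGen (fun u w => ∃ b ∈ R, w = f u + b) x y} :=
    fun p => ⟨g^[(p.1 : ℕ)] x + p.2, (hreach _).2 ⟨p.1, by
      rw [add_sub_cancel_left]
      exact p.2.2⟩⟩
  have hφ : Function.Bijective φ := by
    constructor
    · rintro ⟨s, w⟩ ⟨s', w'⟩ h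
      have h3 : g^[(s : ℕ)] x + w = g^[(s' : ℕ)] x + w' := congrArg Subtype.val h
      have h4 : s = s' := by
        rcases lt_trichotomy (s : ℕ) s' with h5 | h5 | h5
        · refine absurd ?_ (hlt _ _ h5 s'.2)
          have h6 : g^[(s' : ℕ)] x - g^[(s : ℕ)] x = w - w' := by
            rw [sub_eq_sub_iff_add_eq_add, ← h3]
            abel
          rw [h6]
          exact W.sub_mem w.2 w'.2
        · exact Fin.ext h5
        · refine absurd ?_ (hlt _ _ h5 s.2)
          have h6 : g^[(s : ℕ)] x - g^[(s' : ℕ)] x = w' - w := by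
            rw [sub_eq_sub_iff_add_eq_add, h3]
            abel
          rw [h6]
          exact W.sub_mem w'.2 w.2
      subst h4
      have h5 : (w : V) = w' := add_left_cancel h3
      rw [Subtype.ext h5]
    · rintro ⟨y, hy⟩
      obtain ⟨s, hs⟩ := (hreach y).1 hy
      have h3 := hper (s / t) (s % t)
      rw [Nat.mod_add_div] at h3
      refine ⟨(⟨s % t, Nat.mod_lt _ ht⟩, ⟨y - g^[s % t] x, ?_⟩), Subtype.ext ?_⟩
      · have h4 := W.add_mem hs h3
        rwa [sub_add_sub_cancel] at h4
      · show g^[s % t] x + (y - g^[s % t] x) = y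
        rw [add_sub_cancel]
  rw [← Nat.card_congr (Equiv.ofBijective φ hφ), Nat.card_prod, Nat.card_fin]

/-- There is such a number. -/
theorem reach_period {V : Type*} [AddCommGroup V] [Finite V] {f : V → V}
    (hf : Function.Injective f) (b₀ x : V) (W : AddSubgroup V) :
    ∃ t, 1 ≤ t ∧ t ≤ Nat.card V ∧ (fun u => f u + b₀)^[t] x - x ∈ W := by
  classical
  have := Fintype.ofFinite V
  set g : V → V := fun u => f u + b₀ with hg
  have hginj : Function.Injective g := fun _ _ h => hf (add_right_cancel h)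
  obtain ⟨i, j, hij, h⟩ : ∃ i j : Fin (Fintype.card V + 1), i ≠ j ∧ g^[(i : ℕ)] x = g^[(j : ℕ)] x :=
    Fintype.exists_ne_map_eq_of_card_lt (fun i : Fin (Fintype.card V + 1) => g^[(i : ℕ)] x)
      (by simp)
  have key : ∀ i j : ℕ, i < j → j ≤ Fintype.card V → g^[i] x = g^[j] x →
      ∃ t, 1 ≤ t ∧ t ≤ Nat.card V ∧ g^[t] x - x ∈ W := by
    intro i j hij hj h
    obtain ⟨d, rfl⟩ := Nat.exists_eq_add_of_lt hij
    refine ⟨d + 1, by omega, by rw [Nat.card_eq_fintype_card]; omega, ?_⟩
    rw [show i + d + 1 = i + (d + 1) by omega, Function.iterate_add_apply] at h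
    rw [← (hginj.iterate i) h, sub_self]
    exact W.zero_mem
  have hij' : (i : ℕ) ≠ j := fun h => hij (Fin.ext h)
  rcases lt_or_gt_of_ne hij' with h3 | h3
  · exact key i j h3 (by have := j.2; omega) h
  · exact key j i h3 (by have := i.2; omega) h.symm

end Pool.Agent.LinU
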