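import Pool.Agent.LinU.Z3
import Pool.Agent.LinU.Z4
import Pool.Agent.LinU.Z5

/-!
# Package LinU-Z6: the number of reachable points
-/

set_option autoImplicit false

namespace Pool.Agent.LinU

open Finset Pool.Agent.Grz Pool.Agent.GAvg Pool.Agent.PTr Pool.Agent.MTr
open Pool.Agent.LPC Pool.Agent.ECD

/-- Reachability of codes and of vectors. -/
theorem code_reach {n m N : ℕ} {v : Fin n → ℕ} (h2 : 2 ≤ m) {T : ℕ → ℕ}
    {R : (Fin (n + 1) → ℕ) → Prop} {f : (Fin N → ZMod m) → (Fin N → ZMod m)}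
    (hf : ∀ z, z < m ^ N → vecOf m N (T z) = f (vecOf m N z)) {x y : ℕ} (hx : x < m ^ N) :
    Relation.ReflTransGen (fun z z' => z' < m ^ N ∧ ∃ b, b < m ^ N ∧ R (Fin.cons b v) ∧
      vecOf m N z' = vecOf m N (T z) + vecOf m N b) x y ↔ y < m ^ N ∧
      Relation.ReflTransGen (fun u w => ∃ b ∈ inp R m N v, w = f u + b)
        (vecOf m N x) (vecOf m N y) := by
  have h0 : 0 < m := by omega
  have hto : ∀ {z z' : ℕ}, z < m ^ N → Relation.ReflTransGen (fun z z' => z' < m ^ N ∧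
      ∃ b, b < m ^ N ∧ R (Fin.cons b v) ∧ vecOf m N z' = vecOf m N (T z) + vecOf m N b) z z' →
      z' < m ^ N ∧ Relation.ReflTransGen (fun u w => ∃ b ∈ inp R m N v, w = f u + b)
        (vecOf m N z) (vecOf m N z') := by
    intro z z' hz h
    induction h with
    | refl => exact ⟨hz, Relation.ReflTransGen.refl⟩
    | tail h1 h2 ih =>
      obtain ⟨h3, b, hb, hRb, h4⟩ := h2
      refine ⟨h3, ih.2.tail ⟨_, ⟨b, hb, hRb, rfl⟩, ?_⟩⟩
      rw [h4, hf _ ih.1]
  have hfrom : ∀ {u w : Fin N → ZMod m}, Relation.ReflTransGen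
      (fun u w => ∃ b ∈ inp R m N v, w = f u + b) u w → ∀ z, z < m ^ N →
      vecOf m N z = u → ∃ z', z' < m ^ N ∧ vecOf m N z' = w ∧
      Relation.ReflTransGen (fun z z' => z' < m ^ N ∧
      ∃ b, b < m ^ N ∧ R (Fin.cons b v) ∧ vecOf m N z' =
        vecOf m N (T z) + vecOf m N b) z z' := by
    intro u w h
    induction h with
    | refl => exact fun z hz hu => ⟨z, hz, hu, Relation.ReflTransGen.refl⟩
    | tail h1 h3 ih =>
      intro z hz hu
      obtain ⟨z', hz', hw, hr⟩ := ih z hz hu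
      obtain ⟨_, ⟨b, hb, hRb, rfl⟩, rfl⟩ := h3
      obtain ⟨z'', hz'', hw'⟩ := A7.exists_code h2 N (f (vecOf m N z') + vecOf m N b)
      refine ⟨z'', hz'', by rw [hw', hw], hr.tail ⟨hz'', b, hb, hRb, ?_⟩⟩
      rw [hw', hf z' hz']
  refine ⟨hto hx, fun ⟨hy', h⟩ => ?_⟩
  obtain ⟨z', hz', hw, hr⟩ := hfrom h x hx rfl
  rwa [vecOf_inj h0 hz' hy' hw] at hr

theorem card_reach_code {n m N : ℕ} {v : Fin n → ℕ} (h2 : 2 ≤ m) {T : ℕ → ℕ}
    {R : (Fin (n + 1) → ℕ) → Prop} {f : (Fin N → ZMod m) → (Fin N → ZMod m)}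
    (hf : ∀ z, z < m ^ N → vecOf m N (T z) = f (vecOf m N z)) {x : ℕ} (hx : x < m ^ N) :
    Nat.card {y // Relation.ReflTransGen (fun z z' => z' < m ^ N ∧ ∃ b, b < m ^ N ∧
      R (Fin.cons b v) ∧ vecOf m N z' = vecOf m N (T z) + vecOf m N b) x y} =
      Nat.card {w // Relation.ReflTransGen (fun u w => ∃ b ∈ inp R m N v, w = f u + b)
        (vecOf m N x) w} := by
  refine Nat.card_congr (Equiv.ofBijective (fun y => ⟨vecOf m N y.1,
    ((code_reach h2 hf hx).1 y.2).2⟩) ⟨?_, ?_⟩)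
  · rintro ⟨a, ha⟩ ⟨b, hb⟩ h
    have h3 := ((code_reach h2 hf hx).1 ha).1
    have h4 := ((code_reach h2 hf hx).1 hb).1
    simp only [Subtype.mk.injEq] at h ⊢
    exact vecOf_inj (by omega) h3 h4 h
  · rintro ⟨w, hw⟩
    obtain ⟨z, hz, rfl⟩ := A7.exists_code h2 N w
    exact ⟨⟨z, (code_reach h2 hf hx).2 ⟨hz, hw⟩⟩, rfl⟩

variable {n : ℕ} {m N B x : (Fin n → ℕ) → ℕ} {T : ℕ → (Fin n → ℕ) → ℕ}
  {R : (Fin (n + 1) → ℕ) → Prop}

/-- **The number of the reachable points**, `2 ≤ m`. -/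
theorem reach_num2 (hm : DFun n m) (hN : DFun n N) (hB : DFun n B) (hx : DFun n x)
    (hT : DFun (n + 1) (fun w => T (w 0) (fun i => w i.succ)))
    (hR : Delta0 (n + 1) R) (h2 : ∀ v, 2 ≤ m v)
    (hmN : ∀ v p e, p.Prime → p ^ e ∣ m v → (m v * N v ^ e) ^ N v ≤ B v)
    (hTb : ∀ v z, z < m v ^ N v → T z v < m v ^ N v)
    (haff : ∀ v, ∃ (A : Matrix (Fin (N v)) (Fin (N v)) (ZMod (m v))) (b : Fin (N v) → ZMod (m v)),
      ∀ z, z < m v ^ N v → vecOf (m v) (N v) (T z v) = A.mulVec (vecOf (m v) (N v) z) + b)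
    (hinj : ∀ v z z', z < m v ^ N v → z' < m v ^ N v → T z v = T z' v → z = z')
    (hxb : ∀ v, x v < m v ^ N v) :
    DFun n (fun v => Nat.card {y // Relation.ReflTransGen (fun z z' => z' < m v ^ N v ∧
      ∃ b, b < m v ^ N v ∧ R (Fin.cons b v) ∧ vecOf (m v) (N v) z' =
        vecOf (m v) (N v) (T z v) + vecOf (m v) (N v) b) (x v) y}) := by
  choose A c hAc using haff
  have h0 : ∀ v, 0 < m v := fun v => lt_of_lt_of_le (by norm_num) (h2 v)
  have hmN0 : ∀ v, m v ^ N v ≤ B v := fun v => by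
    have := hmN v 2 0 Nat.prime_two (by simp)
    simpa using this
  have hL : DFun n (fun v => m v ^ N v) := dfun_powLe hm hN hB hmN0
  have hW := closW_def hm hN hB hT hR h2 hmN A c hAc
  have hcard : DFun n (fun v => Nat.card (AddSubgroup.closure
      {z | ∃ i : ℕ, ∃ b ∈ inp R (m v) (N v) v, ∃ b' ∈ inp R (m v) (N v) v,
        z = (fun u => (A v).mulVec u)^[i] (b - b')})) :=
    card_sub_vec hm hN hB h2 hmN0 hW
  -- the iterates of `T + b₀`, variables `(t, b₀, v)`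
  obtain ⟨G, hG⟩ : ∃ G : ℕ → ℕ → (Fin n → ℕ) → ℕ,
      G = fun t b₀ v => (fun z => addc (m v) (N v) (T z v) b₀)^[t] (x v) := ⟨_, rfl⟩
  have hGd : DFun (n + 1 + 1) (fun w => G (w 0) (w (Fin.succ 0)) (fun i => w i.succ.succ)) := by
    rw [hG]
    exact aff_iter_all (n := n + 1 + 1) hm.weak.weak hN.weak.weak hB.weak.weak hx.weak.weak
      (t := fun w => w 0) (DFun.proj _)
      (T := fun z w => addc (m fun i => w i.succ.succ) (N fun i => w i.succ.succ)
        (T z fun i => w i.succ.succ) (w (Fin.succ 0)))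
      (addc_def (n := n + 1 + 1 + 1) hm.weak.weak.weak hN.weak.weak.weak hB.weak.weak.weak
        (DFun.app hT (DFun.proj 0) fun i => DFun.proj _)
        (b := fun w => w (Fin.succ (Fin.succ 0))) (DFun.proj _) (fun w => h2 _) fun w => hmN0 _)
      (fun w => h0 _) (fun w => hmN _) (fun w z _ => addc_lt (h0 _) _ _ _)
      (fun w => ⟨A _, c _ + vecOf _ _ (w (Fin.succ 0)), fun z hz => by
        rw [vecOf_addc (h0 _), hAc _ z hz, add_assoc]⟩) fun w => hxb _
  have hGv : ∀ v t b₀, vecOf (m v) (N v) (G t b₀ v) =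
      (fun u => ((A v).mulVec u + c v) + vecOf (m v) (N v) b₀)^[t] (vecOf (m v) (N v) (x v)) := by
    intro v t b₀
    rw [hG]
    exact iter_vecOf (F := fun u => ((A v).mulVec u + c v) + vecOf (m v) (N v) b₀) (hxb v)
      (fun z _ => addc_lt (h0 v) _ _ _) (fun z hz => by
        rw [vecOf_addc (h0 v), hAc v z hz]) t
  have hs := subc_def (n := n + 1 + 1) hm.weak.weak hN.weak.weak hB.weak.weak hGd hx.weak.weak
    (fun w => h2 _) fun w => hmN0 _
  obtain ⟨IW, hIW⟩ : ∃ IW : ℕ → (Fin n → ℕ) → Prop, IW = fun z v => vecOf (m v) (N v) z ∈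
      AddSubgroup.closure {z | ∃ i : ℕ, ∃ b ∈ inp R (m v) (N v) v,
        ∃ b' ∈ inp R (m v) (N v) v, z = (fun u => (A v).mulVec u)^[i] (b - b')} := ⟨_, rfl⟩
  have hIWd : Delta0 (n + 1) (fun w => IW (w 0) (fun i => w i.succ)) := by
    rw [hIW]
    exact hW
  -- `J t b₀ v`: `g ^ t x - x ∈ W`
  obtain ⟨J, hJ⟩ : ∃ J : ℕ → ℕ → (Fin n → ℕ) → Prop,
      J = fun t b₀ v => IW (subc (m v) (N v) (G t b₀ v) (x v)) v := ⟨_, rfl⟩
  have hJd : Delta0 (n + 1 + 1) (fun w => J (w 0) (w (Fin.succ 0)) (fun i => w i.succ.succ)) := by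
    rw [hJ]
    exact hIWd.subst (n := n + 1 + 1) (h := Fin.cons
      (fun w => subc (m fun i => w i.succ.succ) (N fun i => w i.succ.succ)
        (G (w 0) (w (Fin.succ 0)) (fun i => w i.succ.succ)) (x fun i => w i.succ.succ))
      (fun i w => w i.succ.succ)) (fun i => by
        refine Fin.cases ?_ (fun j => ?_) i
        · exact hs
        · exact DFun.proj _)
  obtain ⟨C, hC⟩ : ∃ C : (Fin n → ℕ) → ℕ, C = fun v => Nat.card (AddSubgroup.closure
      {z | ∃ i : ℕ, ∃ b ∈ inp R (m v) (N v) v, ∃ b' ∈ inp R (m v) (N v) v,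
        z = (fun u => (A v).mulVec u)^[i] (b - b')}) := ⟨_, rfl⟩
  have hCd : DFun n C := by rw [hC]; exact hcard
  have hRb : Delta0 (n + 1) (fun w => R (Fin.cons (w 0) fun i => w i.succ)) := by
    refine hR.of_iff fun w => ?_
    rw [show (Fin.cons (w 0) fun i => w i.succ : Fin (n + 1) → ℕ) = w from Fin.cons_self_tail w]
  -- the vectors
  have hfinj : ∀ v, Function.Injective (fun u : Fin (N v) → ZMod (m v) =>
      (A v).mulVec u + c v) := by
    intro v u w huw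
    obtain ⟨a, ha, rfl⟩ := A7.exists_code (h2 v) (N v) u
    obtain ⟨b, hb, rfl⟩ := A7.exists_code (h2 v) (N v) w
    have h3 : vecOf (m v) (N v) (T a v) = vecOf (m v) (N v) (T b v) := by
      rw [hAc v a ha, hAc v b hb]
      exact huw
    rw [hinj v a b ha hb (vecOf_inj (h0 v) (hTb v a ha) (hTb v b hb) h3)]
  have hfA : ∀ v (u w : Fin (N v) → ZMod (m v)), ((A v).mulVec u + c v) - ((A v).mulVec w + c v) =
      ((A v).mulVecLin.toAddMonoidHom) (u - w) := by
    intro v u w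
    show ((A v).mulVec u + c v) - ((A v).mulVec w + c v) = (A v).mulVec (u - w)
    rw [Matrix.mulVec_sub]
    abel
  have hJv : ∀ v t b₀, J t b₀ v ↔ (fun u => ((A v).mulVec u + c v) + vecOf (m v) (N v) b₀)^[t]
      (vecOf (m v) (N v) (x v)) - vecOf (m v) (N v) (x v) ∈ AddSubgroup.closure
      {z | ∃ i : ℕ, ∃ b ∈ inp R (m v) (N v) v, ∃ b' ∈ inp R (m v) (N v) v,
        z = (fun u => (A v).mulVec u)^[i] (b - b')} := by
    intro v t b₀
    rw [hJ, hIW]
    show vecOf (m v) (N v) (subc (m v) (N v) (G t b₀ v) (x v)) ∈ _ ↔ _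
    rw [vecOf_subc (h0 v), hGv]
  have hcV : ∀ v, Nat.card (Fin (N v) → ZMod (m v)) = m v ^ N v := by
    intro v
    have : NeZero (m v) := ⟨(h0 v).ne'⟩
    rw [Nat.card_eq_fintype_card, Fintype.card_fun, Fintype.card_fin, ZMod.card]
  have hcardV : ∀ v, Nat.card {y // Relation.ReflTransGen (fun z z' => z' < m v ^ N v ∧
      ∃ b, b < m v ^ N v ∧ R (Fin.cons b v) ∧ vecOf (m v) (N v) z' =
        vecOf (m v) (N v) (T z v) + vecOf (m v) (N v) b) (x v) y} =
      Nat.card {w // Relation.ReflTransGen (fun u w => ∃ b ∈ inp R (m v) (N v) v,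
        w = ((A v).mulVec u + c v) + b) (vecOf (m v) (N v) (x v)) w} := fun v =>
    card_reach_code (h2 v) (T := fun z => T z v) (hAc v) (hxb v)
  have hval : ∀ v b₀ t, b₀ < m v ^ N v → R (Fin.cons b₀ v) → 1 ≤ t → J t b₀ v →
      (∀ s, 1 ≤ s → s < t → ¬ J s b₀ v) →
      Nat.card {y // Relation.ReflTransGen (fun z z' => z' < m v ^ N v ∧
        ∃ b, b < m v ^ N v ∧ R (Fin.cons b v) ∧ vecOf (m v) (N v) z' =
          vecOf (m v) (N v) (T z v) + vecOf (m v) (N v) b) (x v) y} = t * C v := by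
    intro v b₀ t hb hRb ht h3 h4
    have : NeZero (m v) := ⟨(h0 v).ne'⟩
    rw [hcardV, hC]
    have hb' : vecOf (m v) (N v) b₀ ∈ inp R (m v) (N v) v := ⟨b₀, hb, hRb, rfl⟩
    exact reach_card (hfinj v) (hfA v) hb' _ ht ((hJv v t b₀).1 h3)
      fun s hs1 hs2 h5 => h4 s hs1 hs2 ((hJv v s b₀).2 h5)
  -- the graph, variables `(y, v)`
  have hlow : Delta0 (n + 1 + 1 + 1 + 1) (fun w => 1 ≤ w 0 → w 0 < w (Fin.succ 0) →
      ¬ J (w 0) (w (Fin.succ (Fin.succ 0))) (fun i => w i.succ.succ.succ.succ)) :=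
    (Delta0.leFun (DFun.const 1) (DFun.proj 0)).imp ((Delta0.ltFun (DFun.proj 0)
      (DFun.proj _)).imp (hJd.rename (n := n + 1 + 1 + 1 + 1)
        (Fin.cons 0 (Fin.cons (Fin.succ (Fin.succ 0)) fun i => i.succ.succ.succ.succ))).not)
  have hball := Delta0.ballFun (n := n + 1 + 1 + 1)
    (b := fun w => m (fun i => w i.succ.succ.succ) ^ N (fun i => w i.succ.succ.succ))
    hL.weak.weak.weak
    (P := fun s w => 1 ≤ s → s < w 0 → ¬ J s (w (Fin.succ 0)) (fun i => w i.succ.succ.succ))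
    hlow
  have hJ3 : Delta0 (n + 1 + 1 + 1) (fun w => J (w 0) (w (Fin.succ 0))
      (fun i => w i.succ.succ.succ)) :=
    hJd.rename (n := n + 1 + 1 + 1) (Fin.cons 0 (Fin.cons (Fin.succ 0) fun i => i.succ.succ.succ))
  have hE3 : Delta0 (n + 1 + 1 + 1) (fun w => w (Fin.succ (Fin.succ 0)) =
      w 0 * C (fun i => w i.succ.succ.succ)) :=
    Delta0.eqFun (DFun.proj _) ((DFun.proj 0).mul hCd.weak.weak.weak)
  have e1 := Delta0.bexFun (n := n + 1 + 1)
    (b := fun w => m (fun i => w i.succ.succ) ^ N (fun i => w i.succ.succ)) hL.weak.weak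
    (P := fun t w => 1 ≤ t ∧ J t (w 0) (fun i => w i.succ.succ) ∧
      (∀ s, s ≤ m (fun i => w i.succ.succ) ^ N (fun i => w i.succ.succ) → 1 ≤ s → s < t →
        ¬ J s (w 0) (fun i => w i.succ.succ)) ∧
      w (Fin.succ 0) = t * C (fun i => w i.succ.succ))
    ((Delta0.leFun (DFun.const 1) (DFun.proj 0)).and (hJ3.and (hball.and hE3)))
  have hRb2 : Delta0 (n + 1 + 1) (fun w => R (Fin.cons (w 0) fun i => w i.succ.succ)) := by
    have h := hRb.rename (n := n + 1 + 1) (Fin.cons 0 fun i => i.succ.succ)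
    exact h
  have e2 := Delta0.bexFun (n := n + 1)
    (b := fun w => m (fun i => w i.succ) ^ N (fun i => w i.succ)) hL.weak
    (P := fun b₀ w => b₀ < m (fun i => w i.succ) ^ N (fun i => w i.succ) ∧
      R (Fin.cons b₀ fun i => w i.succ) ∧
      ∃ t, t ≤ m (fun i => w i.succ) ^ N (fun i => w i.succ) ∧ (1 ≤ t ∧
        J t b₀ (fun i => w i.succ) ∧
        (∀ s, s ≤ m (fun i => w i.succ) ^ N (fun i => w i.succ) → 1 ≤ s → s < t →
          ¬ J s b₀ (fun i => w i.succ)) ∧ w 0 = t * C (fun i => w i.succ)))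
    ((Delta0.ltFun (DFun.proj 0) hL.weak.weak).and (hRb2.and e1))
  have e3 := Delta0.bexFun (n := n + 1)
    (b := fun w => m (fun i => w i.succ) ^ N (fun i => w i.succ)) hL.weak
    (P := fun b₀ w => b₀ < m (fun i => w i.succ) ^ N (fun i => w i.succ) ∧
      R (Fin.cons b₀ fun i => w i.succ)) ((Delta0.ltFun (DFun.proj 0) hL.weak.weak).and hRb2)
  have hy1 : Delta0 (n + 1) (fun w => w 0 = 1) := Delta0.eqFun (DFun.proj 0) (DFun.const 1)
  have hempty : ∀ v, (¬ ∃ b, b < m v ^ N v ∧ R (Fin.cons b v)) →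
      Nat.card {y // Relation.ReflTransGen (fun z z' => z' < m v ^ N v ∧
        ∃ b, b < m v ^ N v ∧ R (Fin.cons b v) ∧ vecOf (m v) (N v) z' =
          vecOf (m v) (N v) (T z v) + vecOf (m v) (N v) b) (x v) y} = 1 := by
    intro v hne
    rw [Nat.card_eq_one_iff_unique]
    have hall : ∀ y, Relation.ReflTransGen (fun z z' => z' < m v ^ N v ∧
        ∃ b, b < m v ^ N v ∧ R (Fin.cons b v) ∧ vecOf (m v) (N v) z' =
          vecOf (m v) (N v) (T z v) + vecOf (m v) (N v) b) (x v) y → y = x v := by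
      intro y h
      rcases Relation.ReflTransGen.cases_tail h with h | ⟨_, _, _, b, hb, hRb, _⟩
      · exact h
      · exact absurd ⟨b, hb, hRb⟩ hne
    refine ⟨⟨?_⟩, ⟨⟨x v, Relation.ReflTransGen.refl⟩⟩⟩
    rintro ⟨a, ha⟩ ⟨b, hb⟩
    rw [Subtype.mk.injEq, hall a ha, hall b hb]
  have hbound : ∀ v, Nat.card {y // Relation.ReflTransGen (fun z z' => z' < m v ^ N v ∧
        ∃ b, b < m v ^ N v ∧ R (Fin.cons b v) ∧ vecOf (m v) (N v) z' =
          vecOf (m v) (N v) (T z v) + vecOf (m v) (N v) b) (x v) y} ≤ m v ^ N v := by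
    intro v
    have : NeZero (m v) := ⟨(h0 v).ne'⟩
    rw [hcardV, ← hcV]
    exact Nat.card_le_card_of_injective _ Subtype.val_injective
  refine DFun.ofGraph hL hbound (((e3.not).and hy1).or e2 |>.of_iff fun w => ?_)
  set v : Fin n → ℕ := fun i => w i.succ with hv
  constructor
  · intro h
    by_cases hne : ∃ b, b < m v ^ N v ∧ R (Fin.cons b v)
    · refine Or.inr ?_
      obtain ⟨b₀, hb, hRb0⟩ := hne
      have : NeZero (m v) := ⟨(h0 v).ne'⟩
      obtain ⟨t, ht1, ht2, ht3⟩ := reach_period (hfinj v) (vecOf (m v) (N v) b₀)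
        (vecOf (m v) (N v) (x v)) (AddSubgroup.closure
          {z | ∃ i : ℕ, ∃ b ∈ inp R (m v) (N v) v, ∃ b' ∈ inp R (m v) (N v) v,
            z = (fun u => (A v).mulVec u)^[i] (b - b')})
      classical
      have hex : ∃ t, 1 ≤ t ∧ J t b₀ v := ⟨t, ht1, (hJv v t b₀).2 ht3⟩
      have hmin := Nat.find_spec hex
      have hle : Nat.find hex ≤ m v ^ N v := by
        rw [← hcV]
        exact (Nat.find_min' hex ⟨ht1, (hJv v t b₀).2 ht3⟩).trans ht2
      have hlo : ∀ s, 1 ≤ s → s < Nat.find hex → ¬ J s b₀ v := fun s hs1 hs2 h5 =>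
        Nat.find_min hex hs2 ⟨hs1, h5⟩
      refine ⟨b₀, hb.le, hb, hRb0, Nat.find hex, hle, hmin.1, hmin.2, fun s _ hs1 hs2 =>
        hlo s hs1 hs2, ?_⟩
      rw [h]
      exact hval v b₀ _ hb hRb0 hmin.1 hmin.2 hlo
    · refine Or.inl ⟨?_, ?_⟩
      · rintro ⟨b, _, hb, hRb0⟩
        exact hne ⟨b, hb, hRb0⟩
      · rw [h]
        exact hempty v hne
  · rintro (⟨hne, h⟩ | ⟨b₀, _, hb, hRb0, t, ht, ht1, hJt, hlo, h⟩)
    · rw [h]
      refine (hempty v ?_).symm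
      rintro ⟨b, hb, hRb0⟩
      exact hne ⟨b, hb.le, hb, hRb0⟩
    · rw [h]
      exact (hval v b₀ t hb hRb0 ht1 hJt fun s hs1 hs2 => hlo s (hs2.le.trans ht) hs1 hs2).symm

/-- **The number of the reachable points**. -/
theorem reach_num (hm : DFun n m) (hN : DFun n N) (hB : DFun n B) (hx : DFun n x)
    (hT : DFun (n + 1) (fun w => T (w 0) (fun i => w i.succ)))
    (hR : Delta0 (n + 1) R) (hm0 : ∀ v, 0 < m v)
    (hmN : ∀ v p e, p.Prime → p ^ e ∣ m v → (m v * N v ^ e) ^ N v ≤ B v)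
    (hTb : ∀ v z, z < m v ^ N v → T z v < m v ^ N v)
    (haff : ∀ v, ∃ (A : Matrix (Fin (N v)) (Fin (N v)) (ZMod (m v))) (b : Fin (N v) → ZMod (m v)),
      ∀ z, z < m v ^ N v → vecOf (m v) (N v) (T z v) = A.mulVec (vecOf (m v) (N v) z) + b)
    (hinj : ∀ v z z', z < m v ^ N v → z' < m v ^ N v → T z v = T z' v → z = z')
    (hxb : ∀ v, x v < m v ^ N v) :
    DFun n (fun v => Nat.card {y // Relation.ReflTransGen (fun z z' => z' < m v ^ N v ∧
      ∃ b, b < m v ^ N v ∧ R (Fin.cons b v) ∧ vecOf (m v) (N v) z' =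
        vecOf (m v) (N v) (T z v) + vecOf (m v) (N v) b) (x v) y}) := by
  have d1 : Delta0 n (fun v => m v = 1) := Delta0.eqFun hm (DFun.const 1)
  obtain ⟨m', hm'⟩ : ∃ m' : (Fin n → ℕ) → ℕ, m' = fun v => if m v = 1 then 2 else m v := ⟨_, rfl⟩
  obtain ⟨N', hN'⟩ : ∃ N' : (Fin n → ℕ) → ℕ, N' = fun v => if m v = 1 then 0 else N v := ⟨_, rfl⟩
  have hmd : DFun n m' := by rw [hm']; exact DFun.ite d1 (DFun.const 2) hm
  have hNd : DFun n N' := by rw [hN']; exact DFun.ite d1 (DFun.const 0) hN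
  have hcase : ∀ v, (m v = 1 ∧ m' v = 2 ∧ N' v = 0) ∨ (m v ≠ 1 ∧ m' v = m v ∧ N' v = N v) := by
    intro v
    rw [hm', hN']
    by_cases h1 : m v = 1
    · exact Or.inl ⟨h1, if_pos h1, if_pos h1⟩
    · exact Or.inr ⟨h1, if_neg h1, if_neg h1⟩
  have hL' : ∀ v, m v = 1 → m v ^ N v = 1 := fun v h => by rw [h, one_pow]
  have hLL : ∀ v, m' v ^ N' v = m v ^ N v := fun v => by
    rcases hcase v with ⟨h1, e1, e2⟩ | ⟨h1, e1, e2⟩
    · rw [e1, e2, hL' v h1, pow_zero]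
    · rw [e1, e2]
  have h := reach_num2 hmd hNd hB hx hT hR (fun v => by
      have := hm0 v
      rcases hcase v with ⟨h1, e1, e2⟩ | ⟨h1, e1, e2⟩ <;> omega) (fun v p e hp hd => by
      rcases hcase v with ⟨h1, e1, e2⟩ | ⟨h1, e1, e2⟩
      · have := hmN v 2 0 Nat.prime_two (by simp)
        rw [e2, pow_zero]
        rw [h1] at this
        simpa using this
      · rw [e1] at hd
        rw [e1, e2]
        exact hmN v p e hp hd) (fun v z hz => by
      rw [hLL] at hz ⊢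
      exact hTb v z hz) (fun v => by
      rcases hcase v with ⟨h1, e1, e2⟩ | ⟨h1, e1, e2⟩
      · rw [e1, e2]
        exact ⟨0, 0, fun z _ => Subsingleton.elim _ _⟩
      · rw [e1, e2]
        exact haff v) (fun v z z' hz hz' he => by
      rw [hLL] at hz hz'
      exact hinj v z z' hz hz' he) (fun v => by
      rw [hLL]
      exact hxb v)
  refine cast (congrArg (DFun n) ?_) h
  funext v
  rw [hLL]
  rcases hcase v with ⟨h1, e1, e2⟩ | ⟨h1, e1, e2⟩
  · rw [e1, e2]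
    have e : ∀ z z' b : ℕ, (vecOf 2 0 z' = vecOf 2 0 (T z v) + vecOf 2 0 b) ↔
        (vecOf (m v) (N v) z' = vecOf (m v) (N v) (T z v) + vecOf (m v) (N v) b) := by
      intro z z' b
      refine ⟨fun _ => ?_, fun _ => Subsingleton.elim _ _⟩
      funext i
      have : Subsingleton (ZMod (m v)) := by
        rw [h1]
        infer_instance
      exact Subsingleton.elim _ _
    simp only [e]
  · rw [e1, e2]

end Pool.Agent.LinU
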