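import Pool.Agent.LinU.U1
import Pool.Agent.LinU.U6
import Pool.Agent.H63WB.All

/-!
# Both regimes, with wide bands
-/

set_option autoImplicit false

namespace Pool.Agent.LinU

open Finset Pool.Agent.Grz Pool.Agent.GAvg Pool.Agent.PTr Pool.Agent.MTr
open Pool.Agent.LPC Pool.Agent.ECD

theorem goodIter_wide {d r : ℕ} (hd : 1 ≤ d) :
    GoodIter (fun _ _ _ A => H63WB.WideRank d r A) := by
  intro n m N B x t T hm hN hB hx ht hT _ hmN hTb haff hxb
  exact H63WB.wide_aff_all hd hm hN hB hx ht hT hmN hTb haff hxb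

/-- **Both regimes**: the iterates, reachability and the number of reachable points. -/
theorem aff_union_wide (d r : ℕ) (hd : 1 ≤ d) {n : ℕ} {m N B x y t : (Fin n → ℕ) → ℕ}
    {T : ℕ → (Fin n → ℕ) → ℕ} {R : (Fin (n + 1) → ℕ) → Prop}
    (hm : DFun n m) (hN : DFun n N) (hB : DFun n B) (hx : DFun n x) (hy : DFun n y)
    (ht : DFun n t) (hT : DFun (n + 1) (fun w => T (w 0) (fun i => w i.succ)))
    (hR : Delta0 (n + 1) R) (hm0 : ∀ v, 0 < m v) (hmN : ∀ v, m v ^ N v ≤ B v)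
    (hTb : ∀ v z, z < m v ^ N v → T z v < m v ^ N v)
    (haff : ∀ v, ∃ (A : Matrix (Fin (N v)) (Fin (N v)) (ZMod (m v))) (b : Fin (N v) → ZMod (m v)),
      ((∀ p e, p.Prime → p ^ e ∣ m v → (m v * N v ^ e) ^ N v ≤ B v) ∨ H63WB.WideRank d r A) ∧
      ∀ z, z < m v ^ N v → vecOf (m v) (N v) (T z v) = A.mulVec (vecOf (m v) (N v) z) + b)
    (hxb : ∀ v, x v < m v ^ N v) :
    DFun n (fun v => (fun z => T z v)^[t v] (x v)) ∧
    ((∀ v z z', z < m v ^ N v → z' < m v ^ N v → T z v = T z' v → z = z') →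
      Delta0 n (fun v => Relation.ReflTransGen (fun z z' => z' < m v ^ N v ∧
        ∃ b, b < m v ^ N v ∧ R (Fin.cons b v) ∧ vecOf (m v) (N v) z' =
          vecOf (m v) (N v) (T z v) + vecOf (m v) (N v) b) (x v) (y v)) ∧
      DFun n (fun v => Nat.card {y // Relation.ReflTransGen (fun z z' => z' < m v ^ N v ∧
        ∃ b, b < m v ^ N v ∧ R (Fin.cons b v) ∧ vecOf (m v) (N v) z' =
          vecOf (m v) (N v) (T z v) + vecOf (m v) (N v) b) (x v) y})) := by
  have hG : GoodIter (fun m N B A => FullReg m N B ∨ H63WB.WideRank d r A) :=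
    (goodIter_wide hd).or fun _ _ _ => ⟨0, 0, 0, fun _ _ _ => rfl, Subsingleton.elim _ _⟩
  have h0 : ∀ B (A : Matrix (Fin 0) (Fin 0) (ZMod 2)), 1 ≤ B →
      (FullReg 2 0 B ∨ H63WB.WideRank d r A) := fun B A hB => Or.inl (fullReg_zero hB)
  exact ⟨hG n m N B x t T hm hN hB hx ht hT hm0 hmN hTb haff hxb, fun hinj =>
    ⟨reach_defP hG h0 hm hN hB hx hy hT hR hm0 hmN hTb haff hinj hxb,
      reach_numP hG h0 hm hN hB hx hT hR hm0 hmN hTb haff hinj hxb⟩⟩

end Pool.Agent.LinU
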