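import Mathlib
import Pool.Agent.AB46.Dual

/-!
# Package LinU-Z1: reachability under affine bijections with inputs (pure algebra)

*`reach_iff`.* `~` (reachability) is symmetric, because every `u ↦ f u + b` is a permutation of a finite
set (its inverse is a power). `z ~ z + (b - b')`: `z = f u + b'`, `f u + b = z + (b - b')`. `z ~ w` gives
`g z ~ g w`, `g = f + b₀`; so the set of the `c` with `z ~ z + c` for all `z` is a subgroup which
contains `b - b'` and with `c` also `A c` (`g (u + c) = g u + A c`). Conversely a step is `g` modulo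
the subgroup `W`, and `W` is invariant under `A`.
-/

set_option autoImplicit false

namespace Pool.Agent.LinU

/-- one step with an input from `R` -/
def Z1step {V : Type*} [AddCommGroup V] (f : V → V) (R : Set V) (u w : V) : Prop :=
  ∃ b ∈ R, w = f u + b

section

variable {V : Type*} [AddCommGroup V] {f : V → V} {R : Set V}

theorem Z1_iter {b : V} (hb : b ∈ R) (n : ℕ) (u : V) :
    Relation.ReflTransGen (Z1step f R) u ((fun u => f u + b)^[n] u) := by
  induction n with
  | zero => exact Relation.ReflTransGen.refl
  | succ n ih =>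
    rw [Function.iterate_succ_apply']
    exact ih.tail ⟨b, hb, rfl⟩

theorem Z1_inj (hf : Function.Injective f) (b : V) : Function.Injective (fun u => f u + b) :=
  fun _ _ h => hf (add_right_cancel h)

theorem Z1_symm [Finite V] (hf : Function.Injective f) {u w : V}
    (h : Relation.ReflTransGen (Z1step f R) u w) : Relation.ReflTransGen (Z1step f R) w u := by
  induction h with
  | refl => exact Relation.ReflTransGen.refl
  | @tail v w _ hs ih =>
    refine Relation.ReflTransGen.trans ?_ ih
    obtain ⟨b, hb, rfl⟩ := hs
    obtain ⟨n, hn, hper⟩ := (Z1_inj hf b).mem_periodicPts v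
    obtain ⟨k, rfl⟩ : ∃ k, n = k + 1 := ⟨n - 1, by omega⟩
    have h1 : (fun u => f u + b)^[k] (f v + b) = v := by
      have h2 : (fun u => f u + b)^[k + 1] v = v := hper
      rwa [Function.iterate_succ_apply] at h2
    have h3 := Z1_iter (f := f) hb k (f v + b)
    rwa [h1] at h3

end

theorem reach_iff {V : Type*} [AddCommGroup V] [Finite V] {f : V → V} (hf : Function.Injective f)
    {A : V →+ V} (hA : ∀ u w, f u - f w = A (u - w)) {R : Set V} {b₀ : V} (hb : b₀ ∈ R) (x y : V) :
    Relation.ReflTransGen (fun u w => ∃ b ∈ R, w = f u + b) x y ↔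
      ∃ t : ℕ, y - (fun u => f u + b₀)^[t] x ∈ AddSubgroup.closure
        {z : V | ∃ i : ℕ, ∃ b ∈ R, ∃ b' ∈ R, z = A^[i] (b - b')} := by
  set W := AddSubgroup.closure {z : V | ∃ i : ℕ, ∃ b ∈ R, ∃ b' ∈ R, z = A^[i] (b - b')} with hW
  have hAW : ∀ w ∈ W, A w ∈ W := by
    have h1 : W ≤ W.comap A := by
      rw [hW, AddSubgroup.closure_le]
      rintro z ⟨i, b, hb, b', hb', rfl⟩
      refine AddSubgroup.subset_closure ⟨i + 1, b, hb, b', hb', ?_⟩
      rw [Function.iterate_succ_apply']
    exact fun w hw => h1 hw
  constructor
  · intro h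
    induction h with
    | refl => exact ⟨0, by simp⟩
    | @tail v w _ hs ih =>
      obtain ⟨t, ht⟩ := ih
      obtain ⟨b, hbR, rfl⟩ := hs
      refine ⟨t + 1, ?_⟩
      rw [Function.iterate_succ_apply']
      have e : f v + b - (f ((fun u => f u + b₀)^[t] x) + b₀) =
          A (v - (fun u => f u + b₀)^[t] x) + (b - b₀) := by
        rw [← hA]
        abel
      rw [e]
      exact W.add_mem (hAW _ ht) (AddSubgroup.subset_closure ⟨0, b, hbR, b₀, hb, rfl⟩)
  · rintro ⟨t, ht⟩
    have hsurj : ∀ b : V, Function.Surjective (fun u => f u + b) := fun b =>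
      Finite.surjective_of_injective (Z1_inj hf b)
    have key : ∀ c ∈ W, ∀ z, Relation.ReflTransGen (Z1step f R) z (z + c) := by
      intro c hc
      induction hc using AddSubgroup.closure_induction with
      | mem c hc =>
        obtain ⟨i, b, hbR, b', hbR', rfl⟩ := hc
        induction i with
        | zero =>
          intro z
          obtain ⟨u, hu⟩ := hsurj b' z
          simp only at hu
          have h1 : Relation.ReflTransGen (Z1step f R) u z :=
            Relation.ReflTransGen.single ⟨b', hbR', hu.symm⟩
          have h2 : Relation.ReflTransGen (Z1step f R) u (z + (b - b')) := by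
            refine Relation.ReflTransGen.single ⟨b, hbR, ?_⟩
            rw [← hu]
            abel
          exact (Z1_symm hf h1).trans h2
        | succ i ih =>
          intro z
          obtain ⟨u, hu⟩ := hsurj b₀ z
          simp only at hu
          have h1 : Relation.ReflTransGen (Z1step f R) u z :=
            Relation.ReflTransGen.single ⟨b₀, hb, hu.symm⟩
          have h2 : Relation.ReflTransGen (Z1step f R) (u + A^[i] (b - b'))
              (z + A^[i + 1] (b - b')) := by
            refine Relation.ReflTransGen.single ⟨b₀, hb, ?_⟩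
            have h3 := hA (u + A^[i] (b - b')) u
            rw [add_sub_cancel_left] at h3
            rw [Function.iterate_succ_apply', ← h3, ← hu]
            abel
          exact ((Z1_symm hf h1).trans (ih u)).trans h2
      | zero =>
        intro z
        rw [add_zero]
      | add a b _ _ iha ihb =>
        intro z
        have h1 := (iha z).trans (ihb (z + a))
        rwa [add_assoc] at h1
      | neg a _ iha =>
        intro z
        have h1 := iha (z + -a)
        rw [neg_add_cancel_right] at h1
        exact Z1_symm hf h1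
    have h1 := (Z1_iter (f := f) hb t x).trans (key _ ht _)
    rw [add_sub_cancel] at h1
    exact h1

theorem mem_closure_dot {m N : ℕ} (hm : 0 < m) (S : Set (Fin N → ZMod m)) (z : Fin N → ZMod m) :
    z ∈ AddSubgroup.closure S ↔
      ∀ s : Fin N → ZMod m, (∀ a ∈ S, ∑ i, s i * a i = 0) → ∑ i, s i * z i = 0 := by
  haveI : NeZero m := ⟨hm.ne'⟩
  have hp : ∀ a s : Fin N → ZMod m,
      m ∣ Pool.Agent.AB46.pair (fun _ : Fin N => m) m a s ↔ ∑ i, s i * a i = 0 := by
    intro a s
    rw [← ZMod.natCast_eq_zero_iff]
    unfold Pool.Agent.AB46.pair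
    push_cast
    have : ∀ i, ((a i).val : ZMod m) * ((s i).val : ZMod m) * ((m / m : ℕ) : ZMod m) =
        s i * a i := by
      intro i
      rw [Nat.div_self hm, ZMod.natCast_zmod_val, ZMod.natCast_zmod_val, Nat.cast_one, mul_one,
        mul_comm]
    simp only [this]
  rw [Pool.Agent.AB46.mem_closure_iff (m := fun _ : Fin N => m) (M := m) hm.ne'
    (fun _ => hm.ne') (fun _ => dvd_rfl) S z]
  simp only [hp]

end Pool.Agent.LinU
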