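import Pool.Agent.LinU.Z1
import Pool.Agent.LinU.R11

/-!
# Package LinU-Z2: reachability under affine bijections with inputs, tools
-/

set_option autoImplicit false

namespace Pool.Agent.LinU

open Finset Pool.Agent.Grz Pool.Agent.GAvg Pool.Agent.PTr Pool.Agent.MTr
open Pool.Agent.LPC Pool.Agent.ECD

/-- the code of the sum of two vectors -/
def addc (m N a b : ℕ) : ℕ := ∑ i ∈ range N, (dg m a i + dg m b i) % m * m ^ i

/-- the code of the difference of two vectors -/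
def subc (m N a b : ℕ) : ℕ := ∑ i ∈ range N, (dg m a i + (m - dg m b i)) % m * m ^ i

/-- the scalar product -/
def dotc (m N a b : ℕ) : ℕ := (∑ i ∈ range N, dg m a i * dg m b i) % m

theorem addc_lt {m : ℕ} (hm : 0 < m) (N a b : ℕ) : addc m N a b < m ^ N :=
  lt_code hm _ fun _ _ => Nat.mod_lt _ hm

theorem subc_lt {m : ℕ} (hm : 0 < m) (N a b : ℕ) : subc m N a b < m ^ N :=
  lt_code hm _ fun _ _ => Nat.mod_lt _ hm

theorem vecOf_addc {m : ℕ} (hm : 0 < m) (N a b : ℕ) :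
    vecOf m N (addc m N a b) = vecOf m N a + vecOf m N b := by
  funext i
  show ((dg m (addc m N a b) i : ℕ) : ZMod m) = (dg m a i : ZMod m) + (dg m b i : ZMod m)
  rw [addc, dg_code hm _ (fun _ _ => Nat.mod_lt _ hm) i.2, ZMod.natCast_mod]
  push_cast
  rfl

theorem vecOf_subc {m : ℕ} (hm : 0 < m) (N a b : ℕ) :
    vecOf m N (subc m N a b) = vecOf m N a - vecOf m N b := by
  funext i
  show ((dg m (subc m N a b) i : ℕ) : ZMod m) = (dg m a i : ZMod m) - (dg m b i : ZMod m)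
  rw [subc, dg_code hm _ (fun _ _ => Nat.mod_lt _ hm) i.2, ZMod.natCast_mod]
  rw [Nat.cast_add, Nat.cast_sub (dg_lt hm _ _).le, ZMod.natCast_self]
  ring

theorem vecOf_inj {m N a b : ℕ} (hm : 0 < m) (ha : a < m ^ N) (hb : b < m ^ N)
    (h : vecOf m N a = vecOf m N b) : a = b := by
  refine dg_ext ha hb fun i hi => ?_
  have h1 : ((dg m a i : ℕ) : ZMod m) = (dg m b i : ZMod m) := congrFun h ⟨i, hi⟩
  rw [ZMod.natCast_eq_natCast_iff', Nat.mod_eq_of_lt (dg_lt hm _ _),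
    Nat.mod_eq_of_lt (dg_lt hm _ _)] at h1
  exact h1

theorem dotc_iff {m N : ℕ} (a b : ℕ) :
    dotc m N a b = 0 ↔ ∑ i, vecOf m N a i * vecOf m N b i = 0 := by
  have h : ∑ i, vecOf m N a i * vecOf m N b i =
      ((∑ i ∈ range N, dg m a i * dg m b i : ℕ) : ZMod m) := by
    rw [Finset.sum_range]
    push_cast
    rfl
  rw [h, ZMod.natCast_eq_zero_iff, dotc, Nat.dvd_iff_mod_eq_zero]

variable {n : ℕ} {m N B a b : (Fin n → ℕ) → ℕ}

theorem addc_def (hm : DFun n m) (hN : DFun n N) (hB : DFun n B) (ha : DFun n a) (hb : DFun n b)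
    (h2 : ∀ v, 2 ≤ m v) (hmN : ∀ v, m v ^ N v ≤ B v) :
    DFun n (fun v => addc (m v) (N v) (a v) (b v)) := by
  have h1 := dfun_dg hm.weak ha.weak (DFun.proj (n := n + 1) 0) fun w => h2 _
  have h3 := dfun_dg hm.weak hb.weak (DFun.proj (n := n + 1) 0) fun w => h2 _
  exact dfun_code (g := fun i v => (dg (m v) (a v) i + dg (m v) (b v) i) % m v) hm hN hB
    (DFun.modPos (h1.add h3) hm.weak fun w => lt_of_lt_of_le (by norm_num) (h2 _)) h2 hmN

theorem subc_def (hm : DFun n m) (hN : DFun n N) (hB : DFun n B) (ha : DFun n a) (hb : DFun n b)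
    (h2 : ∀ v, 2 ≤ m v) (hmN : ∀ v, m v ^ N v ≤ B v) :
    DFun n (fun v => subc (m v) (N v) (a v) (b v)) := by
  have h1 := dfun_dg hm.weak ha.weak (DFun.proj (n := n + 1) 0) fun w => h2 _
  have h3 := dfun_dg hm.weak hb.weak (DFun.proj (n := n + 1) 0) fun w => h2 _
  exact dfun_code (g := fun i v => (dg (m v) (a v) i + (m v - dg (m v) (b v) i)) % m v) hm hN hB
    (DFun.modPos (h1.add (hm.weak.sub h3)) hm.weak fun w => lt_of_lt_of_le (by norm_num) (h2 _))
    h2 hmN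

theorem dotc_def (hm : DFun n m) (hN : DFun n N) (hB : DFun n B) (ha : DFun n a) (hb : DFun n b)
    (h2 : ∀ v, 2 ≤ m v) (hmN : ∀ v, m v ^ N v ≤ B v) :
    DFun n (fun v => dotc (m v) (N v) (a v) (b v)) := by
  have h1 := dfun_dg hm.weak ha.weak (DFun.proj (n := n + 1) 0) fun w => h2 _
  have h3 := dfun_dg hm.weak hb.weak (DFun.proj (n := n + 1) 0) fun w => h2 _
  have h4 := dfun_sumPoly 1 (g := fun i v => dg (m v) (a v) i * dg (m v) (b v) i) (h1.mul h3) hN hB
    fun v => by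
      rw [pow_one]
      exact (le_lg_of_pow_le (h2 v) (hmN v)).trans (Nat.le_succ _)
  exact DFun.modPos h4 hm fun v => lt_of_lt_of_le (by norm_num) (h2 v)

end Pool.Agent.LinU
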