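import Pool.Agent.LinU.Z2

/-!
# Package LinU-Z3: reachability under affine bijections with inputs
-/

set_option autoImplicit false

namespace Pool.Agent.LinU

open Finset Pool.Agent.Grz Pool.Agent.GAvg Pool.Agent.PTr Pool.Agent.MTr
open Pool.Agent.LPC Pool.Agent.ECD

/-- the vectors of the inputs -/
def inp {n : ℕ} (R : (Fin (n + 1) → ℕ) → Prop) (m N : ℕ) (v : Fin n → ℕ) : Set (Fin N → ZMod m) :=
  {u | ∃ b, b < m ^ N ∧ R (Fin.cons b v) ∧ u = vecOf m N b}

theorem vecOf_zero (m N : ℕ) : vecOf m N 0 = 0 := by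
  funext i
  show ((dg m 0 i : ℕ) : ZMod m) = 0
  rw [A7.dg_zero]
  exact Nat.cast_zero

theorem iter_bd {L x : ℕ} {f : ℕ → ℕ} (hx : x < L) (hf : ∀ z, z < L → f z < L) (i : ℕ) :
    f^[i] x < L := by
  induction i with
  | zero => exact hx
  | succ i ih =>
    rw [Function.iterate_succ_apply']
    exact hf _ ih

theorem iter_vecOf {m N x : ℕ} {f : ℕ → ℕ} {F : (Fin N → ZMod m) → (Fin N → ZMod m)}
    (hx : x < m ^ N) (hf : ∀ z, z < m ^ N → f z < m ^ N)
    (hF : ∀ z, z < m ^ N → vecOf m N (f z) = F (vecOf m N z)) (i : ℕ) :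
    vecOf m N (f^[i] x) = F^[i] (vecOf m N x) := by
  induction i with
  | zero => rfl
  | succ i ih =>
    rw [Function.iterate_succ_apply', Function.iterate_succ_apply', hF _ (iter_bd hx hf i), ih]

/-- A point of the orbit of `x` under a self-map of `[0, M)` is reached after at most `M` steps. -/
theorem exists_iter_le' {f : ℕ → ℕ} {M x : ℕ} (hx : x < M) (hf : ∀ z, z < M → f z < M) (i : ℕ) :
    ∃ j, j ≤ M ∧ f^[j] x = f^[i] x := by
  have hlt : ∀ j, f^[j] x < M := iter_bd hx hf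
  induction i using Nat.strong_induction_on with
  | _ i ih =>
    rcases Nat.lt_or_ge M i with h | h
    · have hcard : (Finset.range M).card < (Finset.range (M + 1)).card := by simp
      obtain ⟨a, ha, b, hb, hab, heq⟩ := Finset.exists_ne_map_eq_of_card_lt_of_maps_to hcard
        (f := fun j => f^[j] x) (fun j _ => by
          simp only [Finset.coe_range, Set.mem_Iio]
          exact hlt j)
      simp only [Finset.mem_range] at ha hb
      have key : ∀ a b, a < b → b ≤ M → f^[a] x = f^[b] x → ∃ j, j ≤ M ∧ f^[j] x = f^[i] x := by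
        intro a b hab hbM heq
        have h1 : f^[i - b + a] x = f^[i] x := by
          rw [Function.iterate_add_apply, heq, ← Function.iterate_add_apply]
          congr 2
          omega
        obtain ⟨j, hj, hj'⟩ := ih (i - b + a) (by omega)
        exact ⟨j, hj, hj'.trans h1⟩
      rcases Nat.lt_or_gt_of_ne hab with hab | hab
      · exact key a b hab (by omega) heq
      · exact key b a hab (by omega) heq.symm
    · exact ⟨i, h, rfl⟩

variable {n : ℕ} {m N B x y : (Fin n → ℕ) → ℕ} {T : ℕ → (Fin n → ℕ) → ℕ}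
  {R : (Fin (n + 1) → ℕ) → Prop}

/-- the subgroup of the differences of reachable points -/
theorem closW_def (hm : DFun n m) (hN : DFun n N) (hB : DFun n B)
    (hT : DFun (n + 1) (fun w => T (w 0) (fun i => w i.succ))) (hR : Delta0 (n + 1) R)
    (h2 : ∀ v, 2 ≤ m v)
    (hmN : ∀ v p e, p.Prime → p ^ e ∣ m v → (m v * N v ^ e) ^ N v ≤ B v)
    (A : ∀ v, Matrix (Fin (N v)) (Fin (N v)) (ZMod (m v))) (c : ∀ v, Fin (N v) → ZMod (m v))
    (haff : ∀ v z, z < m v ^ N v →
      vecOf (m v) (N v) (T z v) = (A v).mulVec (vecOf (m v) (N v) z) + c v) :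
    Delta0 (n + 1) (fun w => vecOf (m fun i => w i.succ) (N fun i => w i.succ) (w 0) ∈
      AddSubgroup.closure {z | ∃ i : ℕ, ∃ b ∈ inp R (m fun i => w i.succ) (N fun i => w i.succ)
        (fun i => w i.succ), ∃ b' ∈ inp R (m fun i => w i.succ) (N fun i => w i.succ)
        (fun i => w i.succ), z = (fun u => (A fun i => w i.succ).mulVec u)^[i] (b - b')}) := by
  have h0 : ∀ v, 0 < m v := fun v => lt_of_lt_of_le (by norm_num) (h2 v)
  have hmN0 : ∀ v, m v ^ N v ≤ B v := fun v => by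
    have := hmN v 2 0 Nat.prime_two (by simp)
    simpa using this
  have hL : DFun n (fun v => m v ^ N v) := dfun_powLe hm hN hB hmN0
  -- the homogeneous part
  obtain ⟨T0, hT0⟩ : ∃ T0 : ℕ → (Fin n → ℕ) → ℕ,
      T0 = fun z v => subc (m v) (N v) (T z v) (T 0 v) := ⟨_, rfl⟩
  have hTz : DFun n (fun v => T 0 v) := DFun.app hT (DFun.const 0) fun i => DFun.proj i
  have hT0d : DFun (n + 1) (fun w => T0 (w 0) (fun i => w i.succ)) := by
    rw [hT0]
    exact subc_def hm.weak hN.weak hB.weak hT hTz.weak (fun w => h2 _) fun w => hmN0 _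
  have hT0b : ∀ v z, T0 z v < m v ^ N v := fun v z => by
    rw [hT0]
    exact subc_lt (h0 v) _ _ _
  have hT0v : ∀ v z, z < m v ^ N v → vecOf (m v) (N v) (T0 z v) =
      (A v).mulVec (vecOf (m v) (N v) z) := fun v z hz => by
    rw [hT0]
    show vecOf (m v) (N v) (subc (m v) (N v) (T z v) (T 0 v)) = _
    rw [vecOf_subc (h0 v), haff v z hz, haff v 0 (pow_pos (h0 v) _), vecOf_zero,
      Matrix.mulVec_zero, zero_add, add_sub_cancel_right]
  -- the iterates on the differences, variables `(i, b, b', v)`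
  obtain ⟨H, hH⟩ : ∃ H : ℕ → ℕ → ℕ → (Fin n → ℕ) → ℕ,
      H = fun i b b' v => (fun z => T0 z v)^[i] (subc (m v) (N v) b b') := ⟨_, rfl⟩
  have hHd : DFun (n + 1 + 1 + 1) (fun w => H (w 0) (w (Fin.succ 0)) (w (Fin.succ (Fin.succ 0)))
      (fun i => w i.succ.succ.succ)) := by
    rw [hH]
    have hsub := subc_def (n := n + 1 + 1 + 1) hm.weak.weak.weak hN.weak.weak.weak
      hB.weak.weak.weak (a := fun w => w (Fin.succ 0)) (DFun.proj _)
      (b := fun w => w (Fin.succ (Fin.succ 0))) (DFun.proj _) (fun w => h2 _) fun w => hmN0 _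
    exact aff_iter_all (n := n + 1 + 1 + 1) hm.weak.weak.weak hN.weak.weak.weak
      hB.weak.weak.weak hsub (t := fun w => w 0) (DFun.proj _)
      (T := fun z w => T0 z (fun i => w i.succ.succ.succ))
      (DFun.app hT0d (DFun.proj 0) fun i => DFun.proj _) (fun w => h0 _) (fun w => hmN _)
      (fun w z _ => hT0b _ _) (fun w => ⟨A _, 0, fun z hz => by
        rw [add_zero]
        exact hT0v _ z hz⟩) fun w => subc_lt (h0 _) _ _ _
  have hHv : ∀ v i b b', vecOf (m v) (N v) (H i b b' v) =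
      (fun u => (A v).mulVec u)^[i] (vecOf (m v) (N v) b - vecOf (m v) (N v) b') := by
    intro v i b b'
    rw [hH]
    show vecOf (m v) (N v) ((fun z => T0 z v)^[i] (subc (m v) (N v) b b')) = _
    rw [iter_vecOf (F := fun u => (A v).mulVec u) (subc_lt (h0 v) _ _ _) (fun z _ => hT0b v z)
      (fun z hz => hT0v v z hz), vecOf_subc (h0 v)]
  -- the relation, variables `(b', b, i, s, z, v)`
  have hRb : ∀ {k : ℕ} {f : (Fin k → ℕ) → ℕ} {g : Fin n → (Fin k → ℕ) → ℕ}, DFun k f →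
      (∀ i, DFun k (g i)) → Delta0 k (fun w => R (Fin.cons (f w) fun i => g i w)) := by
    intro k f g hf hg
    have h := hR.subst (n := k) (h := Fin.cons f g) (fun i => by
      refine Fin.cases ?_ (fun j => ?_) i
      · exact hf
      · exact hg j)
    refine h.of_iff fun w => ?_
    have e : (fun i => (Fin.cons f g : Fin (n + 1) → (Fin k → ℕ) → ℕ) i w) =
        (Fin.cons (f w) fun i => g i w : Fin (n + 1) → ℕ) := by
      funext i
      refine Fin.cases ?_ (fun j => ?_) i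
      · rfl
      · rfl
    rw [e]
  -- the annihilator, variables `(b', b, i, s, v)`
  have hd4 := dotc_def (n := n + 1 + 1 + 1 + 1) hm.weak.weak.weak.weak
    hN.weak.weak.weak.weak hB.weak.weak.weak.weak
    (a := fun w => w (Fin.succ (Fin.succ (Fin.succ 0)))) (DFun.proj _)
    (b := fun w => H (w (Fin.succ (Fin.succ 0))) (w (Fin.succ 0)) (w 0)
      (fun i => w i.succ.succ.succ.succ))
    (hHd.comp (h := Fin.cons (fun w => w (Fin.succ (Fin.succ 0))) (Fin.cons
      (fun w => w (Fin.succ 0)) (Fin.cons (fun w => w 0)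
        (fun i w => w i.succ.succ.succ.succ)))) (fun i => by
      refine Fin.cases ?_ (fun i => ?_) i
      · exact DFun.proj _
      refine Fin.cases ?_ (fun i => ?_) i
      · exact DFun.proj _
      refine Fin.cases ?_ (fun i => ?_) i
      · exact DFun.proj _
      · exact DFun.proj _)) (fun w => h2 _) fun w => hmN0 _
  have hL4 := hL.weak.weak.weak.weak
  have q4 := (Delta0.ltFun (DFun.proj (n := n + 1 + 1 + 1 + 1) 0) hL4).imp
    ((Delta0.ltFun (DFun.proj (n := n + 1 + 1 + 1 + 1) (Fin.succ 0)) hL4).imp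
    ((hRb (DFun.proj (n := n + 1 + 1 + 1 + 1) (Fin.succ 0))
      (g := fun i w => w i.succ.succ.succ.succ) fun i => DFun.proj _).imp
    ((hRb (DFun.proj (n := n + 1 + 1 + 1 + 1) 0)
      (g := fun i w => w i.succ.succ.succ.succ) fun i => DFun.proj _).imp
    (Delta0.eqFun hd4 (DFun.const 0)))))
  have q3 := Delta0.ballFun (n := n + 1 + 1 + 1)
    (b := fun w => m (fun i => w i.succ.succ.succ) ^ N (fun i => w i.succ.succ.succ))
    hL.weak.weak.weak
    (P := fun b' w => b' < m (fun i => w i.succ.succ.succ) ^ N (fun i => w i.succ.succ.succ) →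
      w 0 < m (fun i => w i.succ.succ.succ) ^ N (fun i => w i.succ.succ.succ) →
      R (Fin.cons (w 0) fun i => w i.succ.succ.succ) →
      R (Fin.cons b' fun i => w i.succ.succ.succ) →
      dotc (m fun i => w i.succ.succ.succ) (N fun i => w i.succ.succ.succ)
        (w (Fin.succ (Fin.succ 0))) (H (w (Fin.succ 0)) (w 0) b'
          (fun i => w i.succ.succ.succ)) = 0) q4
  have q2 := Delta0.ballFun (n := n + 1 + 1)
    (b := fun w => m (fun i => w i.succ.succ) ^ N (fun i => w i.succ.succ)) hL.weak.weak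
    (P := fun b w => ∀ b', b' ≤ m (fun i => w i.succ.succ) ^ N (fun i => w i.succ.succ) →
      b' < m (fun i => w i.succ.succ) ^ N (fun i => w i.succ.succ) →
      b < m (fun i => w i.succ.succ) ^ N (fun i => w i.succ.succ) →
      R (Fin.cons b fun i => w i.succ.succ) → R (Fin.cons b' fun i => w i.succ.succ) →
      dotc (m fun i => w i.succ.succ) (N fun i => w i.succ.succ)
        (w (Fin.succ 0)) (H (w 0) b b' (fun i => w i.succ.succ)) = 0) q3
  have q1 := Delta0.ballFun (n := n + 1)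
    (b := fun w => m (fun i => w i.succ) ^ N (fun i => w i.succ)) hL.weak
    (P := fun i w => ∀ b, b ≤ m (fun i => w i.succ) ^ N (fun i => w i.succ) →
      ∀ b', b' ≤ m (fun i => w i.succ) ^ N (fun i => w i.succ) →
      b' < m (fun i => w i.succ) ^ N (fun i => w i.succ) →
      b < m (fun i => w i.succ) ^ N (fun i => w i.succ) →
      R (Fin.cons b fun i => w i.succ) → R (Fin.cons b' fun i => w i.succ) →
      dotc (m fun i => w i.succ) (N fun i => w i.succ)
        (w 0) (H i b b' (fun i => w i.succ)) = 0) q2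
  obtain ⟨Ann, hAnn⟩ : ∃ Ann : ℕ → (Fin n → ℕ) → Prop, Ann = fun s v =>
      ∀ i, i ≤ m v ^ N v → ∀ b, b ≤ m v ^ N v → ∀ b', b' ≤ m v ^ N v → b' < m v ^ N v →
        b < m v ^ N v → R (Fin.cons b v) → R (Fin.cons b' v) →
        dotc (m v) (N v) s (H i b b' v) = 0 := ⟨_, rfl⟩
  have hAd : Delta0 (n + 1) (fun w => Ann (w 0) (fun i => w i.succ)) := by
    rw [hAnn]
    exact q1
  have hAd2 : Delta0 (n + 1 + 1) (fun w => Ann (w 0) (fun i => w i.succ.succ)) :=
    hAd.rename (n := n + 1 + 1) (Fin.cons 0 fun i => i.succ.succ)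
  have hdz := dotc_def (n := n + 1 + 1) hm.weak.weak hN.weak.weak hB.weak.weak
    (a := fun w => w 0) (DFun.proj _) (b := fun w => w (Fin.succ 0)) (DFun.proj _)
    (fun w => h2 _) fun w => hmN0 _
  have hfin := Delta0.ballFun (n := n + 1)
    (b := fun w => m (fun i => w i.succ) ^ N (fun i => w i.succ)) hL.weak
    (P := fun s w => s < m (fun i => w i.succ) ^ N (fun i => w i.succ) →
      Ann s (fun i => w i.succ) → dotc (m fun i => w i.succ) (N fun i => w i.succ) s (w 0) = 0)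
    ((Delta0.ltFun (DFun.proj 0) hL.weak.weak).imp (hAd2.imp
      (Delta0.eqFun hdz (DFun.const 0))))
  refine hfin.of_iff fun w => ?_
  set v : Fin n → ℕ := fun i => w i.succ with hv
  rw [mem_closure_dot (h0 v)]
  -- the annihilator condition in vectors
  have hA1 : ∀ s, Ann s v ↔ ∀ a ∈ {z | ∃ i : ℕ, ∃ b ∈ inp R (m v) (N v) v,
      ∃ b' ∈ inp R (m v) (N v) v, z = (fun u => (A v).mulVec u)^[i] (b - b')},
      ∑ i, vecOf (m v) (N v) s i * a i = 0 := by
    intro s
    rw [hAnn]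
    constructor
    · rintro h a ⟨i, _, ⟨b, hb, hRb1, rfl⟩, _, ⟨b', hb', hRb2, rfl⟩, rfl⟩
      obtain ⟨j, hj, hj'⟩ := exists_iter_le' (f := fun z => T0 z v)
        (subc_lt (h0 v) (N v) b b') (fun z _ => hT0b v z) i
      have h3 := h j hj b hb.le b' hb'.le hb' hb hRb1 hRb2
      rw [dotc_iff, hHv] at h3
      have h4 : (fun u => (A v).mulVec u)^[j] (vecOf (m v) (N v) b - vecOf (m v) (N v) b') =
          (fun u => (A v).mulVec u)^[i] (vecOf (m v) (N v) b - vecOf (m v) (N v) b') := by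
        rw [← hHv, ← hHv, hH]
        exact congrArg _ hj'
      rw [h4] at h3
      exact h3
    · intro h i _ b _ b' _ hb' hb hRb1 hRb2
      rw [dotc_iff, hHv]
      exact h _ ⟨i, _, ⟨b, hb, hRb1, rfl⟩, _, ⟨b', hb', hRb2, rfl⟩, rfl⟩
  constructor
  · intro h s _ _ hs
    rw [dotc_iff]
    exact h _ ((hA1 s).1 hs)
  · intro h s hs
    obtain ⟨s', hs', hs2⟩ := A7.exists_code (h2 v) (N v) s
    have hs3 : vecOf (m v) (N v) s' = s := hs2
    rw [← hs3] at hs ⊢
    have h3 := h s' hs'.le hs' ((hA1 s').2 hs)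
    rwa [dotc_iff] at h3

/-- **Reachability** under affine bijections with inputs, `2 ≤ m`. -/
theorem reach_def2 (hm : DFun n m) (hN : DFun n N) (hB : DFun n B) (hx : DFun n x)
    (hy : DFun n y) (hT : DFun (n + 1) (fun w => T (w 0) (fun i => w i.succ)))
    (hR : Delta0 (n + 1) R) (h2 : ∀ v, 2 ≤ m v)
    (hmN : ∀ v p e, p.Prime → p ^ e ∣ m v → (m v * N v ^ e) ^ N v ≤ B v)
    (hTb : ∀ v z, z < m v ^ N v → T z v < m v ^ N v)
    (haff : ∀ v, ∃ (A : Matrix (Fin (N v)) (Fin (N v)) (ZMod (m v))) (b : Fin (N v) → ZMod (m v)),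
      ∀ z, z < m v ^ N v → vecOf (m v) (N v) (T z v) = A.mulVec (vecOf (m v) (N v) z) + b)
    (hinj : ∀ v z z', z < m v ^ N v → z' < m v ^ N v → T z v = T z' v → z = z')
    (hxb : ∀ v, x v < m v ^ N v) :
    Delta0 n (fun v => Relation.ReflTransGen (fun z z' => z' < m v ^ N v ∧ ∃ b, b < m v ^ N v ∧
      R (Fin.cons b v) ∧ vecOf (m v) (N v) z' = vecOf (m v) (N v) (T z v) +
        vecOf (m v) (N v) b) (x v) (y v)) := by
  choose A c hAc using haff
  have h0 : ∀ v, 0 < m v := fun v => lt_of_lt_of_le (by norm_num) (h2 v)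
  have hmN0 : ∀ v, m v ^ N v ≤ B v := fun v => by
    have := hmN v 2 0 Nat.prime_two (by simp)
    simpa using this
  have hL : DFun n (fun v => m v ^ N v) := dfun_powLe hm hN hB hmN0
  have hW := closW_def hm hN hB hT hR h2 hmN A c hAc
  -- the iterates of `T + b₀`, variables `(t, b₀, v)`
  obtain ⟨G, hG⟩ : ∃ G : ℕ → ℕ → (Fin n → ℕ) → ℕ,
      G = fun t b₀ v => (fun z => addc (m v) (N v) (T z v) b₀)^[t] (x v) := ⟨_, rfl⟩
  have hGd : DFun (n + 1 + 1) (fun w => G (w 0) (w (Fin.succ 0)) (fun i => w i.succ.succ)) := by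
    rw [hG]
    exact aff_iter_all (n := n + 1 + 1) hm.weak.weak hN.weak.weak hB.weak.weak hx.weak.weak
      (t := fun w => w 0) (DFun.proj _)
      (T := fun z w => addc (m fun i => w i.succ.succ) (N fun i => w i.succ.succ)
        (T z fun i => w i.succ.succ) (w (Fin.succ 0)))
      (addc_def (n := n + 1 + 1 + 1) hm.weak.weak.weak hN.weak.weak.weak hB.weak.weak.weak
        (DFun.app hT (DFun.proj 0) fun i => DFun.proj _)
        (b := fun w => w (Fin.succ (Fin.succ 0))) (DFun.proj _) (fun w => h2 _) fun w => hmN0 _)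
      (fun w => h0 _) (fun w => hmN _) (fun w z _ => addc_lt (h0 _) _ _ _)
      (fun w => ⟨A _, c _ + vecOf _ _ (w (Fin.succ 0)), fun z hz => by
        rw [vecOf_addc (h0 _), hAc _ z hz, add_assoc]⟩) fun w => hxb _
  have hGv : ∀ v t b₀, vecOf (m v) (N v) (G t b₀ v) =
      (fun u => ((A v).mulVec u + c v) + vecOf (m v) (N v) b₀)^[t] (vecOf (m v) (N v) (x v)) := by
    intro v t b₀
    rw [hG]
    exact iter_vecOf (F := fun u => ((A v).mulVec u + c v) + vecOf (m v) (N v) b₀) (hxb v)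
      (fun z _ => addc_lt (h0 v) _ _ _) (fun z hz => by
        rw [vecOf_addc (h0 v), hAc v z hz]) t
  have hs := subc_def (n := n + 1 + 1) hm.weak.weak hN.weak.weak hB.weak.weak hy.weak.weak hGd
    (fun w => h2 _) fun w => hmN0 _
  obtain ⟨IW, hIW⟩ : ∃ IW : ℕ → (Fin n → ℕ) → Prop, IW = fun z v => vecOf (m v) (N v) z ∈
      AddSubgroup.closure {z | ∃ i : ℕ, ∃ b ∈ inp R (m v) (N v) v,
        ∃ b' ∈ inp R (m v) (N v) v, z = (fun u => (A v).mulVec u)^[i] (b - b')} := ⟨_, rfl⟩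
  have hIWd : Delta0 (n + 1) (fun w => IW (w 0) (fun i => w i.succ)) := by
    rw [hIW]
    exact hW
  have hIW2 := hIWd.subst (n := n + 1 + 1) (h := Fin.cons
    (fun w => subc (m fun i => w i.succ.succ) (N fun i => w i.succ.succ)
      (y fun i => w i.succ.succ) (G (w 0) (w (Fin.succ 0)) (fun i => w i.succ.succ)))
    (fun i w => w i.succ.succ)) (fun i => by
      refine Fin.cases ?_ (fun j => ?_) i
      · exact hs
      · exact DFun.proj _)
  have e1 := Delta0.bexFun (n := n + 1)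
    (b := fun w => m (fun i => w i.succ) ^ N (fun i => w i.succ)) hL.weak
    (P := fun t w => IW (subc (m fun i => w i.succ) (N fun i => w i.succ)
      (y fun i => w i.succ) (G t (w 0) (fun i => w i.succ))) (fun i => w i.succ)) hIW2
  have hRb : Delta0 (n + 1) (fun w => R (Fin.cons (w 0) fun i => w i.succ)) := by
    refine hR.of_iff fun w => ?_
    rw [show (Fin.cons (w 0) fun i => w i.succ : Fin (n + 1) → ℕ) = w from Fin.cons_self_tail w]
  have e2 := Delta0.bexFun (n := n) (b := fun v => m v ^ N v) hL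
    (P := fun b₀ v => b₀ < m v ^ N v ∧ R (Fin.cons b₀ v) ∧
      ∃ t, t ≤ m v ^ N v ∧ IW (subc (m v) (N v) (y v) (G t b₀ v)) v)
    ((Delta0.ltFun (DFun.proj 0) hL.weak).and (hRb.and e1))
  refine ((Delta0.ltFun hy hL).and ((Delta0.eqFun hx hy).or e2)).of_iff fun v => ?_
  -- the relations on codes and on vectors
  set V := Fin (N v) → ZMod (m v) with hV
  have : NeZero (m v) := ⟨(h0 v).ne'⟩
  set f : V → V := fun u => (A v).mulVec u + c v with hf
  have hcode : ∀ {z z' : ℕ}, z < m v ^ N v → (z' < m v ^ N v ∧ ∃ b, b < m v ^ N v ∧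
      R (Fin.cons b v) ∧ vecOf (m v) (N v) z' = vecOf (m v) (N v) (T z v) +
        vecOf (m v) (N v) b) → ∃ b ∈ inp R (m v) (N v) v,
        vecOf (m v) (N v) z' = f (vecOf (m v) (N v) z) + b := by
    rintro z z' hz ⟨_, b, hb, hRb, h⟩
    refine ⟨_, ⟨b, hb, hRb, rfl⟩, ?_⟩
    rw [h, hAc v z hz]
  have hto : ∀ {z z' : ℕ}, z < m v ^ N v → Relation.ReflTransGen (fun z z' => z' < m v ^ N v ∧
      ∃ b, b < m v ^ N v ∧ R (Fin.cons b v) ∧ vecOf (m v) (N v) z' =
        vecOf (m v) (N v) (T z v) + vecOf (m v) (N v) b) z z' → z' < m v ^ N v ∧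
      Relation.ReflTransGen (fun u w => ∃ b ∈ inp R (m v) (N v) v, w = f u + b)
        (vecOf (m v) (N v) z) (vecOf (m v) (N v) z') := by
    intro z z' hz h
    induction h with
    | refl => exact ⟨hz, Relation.ReflTransGen.refl⟩
    | tail h1 h2 ih => exact ⟨h2.1, ih.2.tail (hcode ih.1 h2)⟩
  have hfrom : ∀ {u w : V}, Relation.ReflTransGen
      (fun u w => ∃ b ∈ inp R (m v) (N v) v, w = f u + b) u w → ∀ z, z < m v ^ N v →
      vecOf (m v) (N v) z = u → ∃ z', z' < m v ^ N v ∧ vecOf (m v) (N v) z' = w ∧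
      Relation.ReflTransGen (fun z z' => z' < m v ^ N v ∧
      ∃ b, b < m v ^ N v ∧ R (Fin.cons b v) ∧ vecOf (m v) (N v) z' =
        vecOf (m v) (N v) (T z v) + vecOf (m v) (N v) b) z z' := by
    intro u w h
    induction h with
    | refl => exact fun z hz hu => ⟨z, hz, hu, Relation.ReflTransGen.refl⟩
    | tail h1 h2 ih =>
      intro z hz hu
      obtain ⟨z', hz', hw, hr⟩ := ih z hz hu
      obtain ⟨_, ⟨b, hb, hRb, rfl⟩, rfl⟩ := h2
      obtain ⟨z'', hz'', hw'⟩ := A7.exists_code (h2 v) (N v)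
        (f (vecOf (m v) (N v) z') + vecOf (m v) (N v) b)
      refine ⟨z'', hz'', by rw [hw', hw], hr.tail ⟨hz'', b, hb, hRb, ?_⟩⟩
      rw [hw', hAc v z' hz']
  have hkey : ∀ {x' y' : ℕ}, x' < m v ^ N v → (Relation.ReflTransGen (fun z z' =>
      z' < m v ^ N v ∧ ∃ b, b < m v ^ N v ∧ R (Fin.cons b v) ∧ vecOf (m v) (N v) z' =
        vecOf (m v) (N v) (T z v) + vecOf (m v) (N v) b) x' y' ↔ y' < m v ^ N v ∧
      Relation.ReflTransGen (fun u w => ∃ b ∈ inp R (m v) (N v) v, w = f u + b)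
        (vecOf (m v) (N v) x') (vecOf (m v) (N v) y')) := by
    intro x' y' hx'
    refine ⟨hto hx', fun ⟨hy', h⟩ => ?_⟩
    obtain ⟨z', hz', hw, hr⟩ := hfrom h x' hx' rfl
    rwa [vecOf_inj (h0 v) hz' hy' hw] at hr
  rw [hkey (hxb v)]
  refine and_congr_right fun hyv => ?_
  -- `f` is injective
  have hfinj : Function.Injective f := by
    intro u w huw
    obtain ⟨a, ha, rfl⟩ := A7.exists_code (h2 v) (N v) u
    obtain ⟨b, hb, rfl⟩ := A7.exists_code (h2 v) (N v) w
    have h3 : vecOf (m v) (N v) (T a v) = vecOf (m v) (N v) (T b v) := by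
      rw [hAc v a ha, hAc v b hb]
      exact huw
    rw [hinj v a b ha hb (vecOf_inj (h0 v) (hTb v a ha) (hTb v b hb) h3)]
  have hfA : ∀ u w, f u - f w = ((A v).mulVecLin.toAddMonoidHom) (u - w) := by
    intro u w
    show ((A v).mulVec u + c v) - ((A v).mulVec w + c v) = (A v).mulVec (u - w)
    rw [Matrix.mulVec_sub]
    abel
  by_cases hne : (inp R (m v) (N v) v).Nonempty
  · have hiff : ∀ b₀ ∈ inp R (m v) (N v) v, (Relation.ReflTransGen
        (fun u w => ∃ b ∈ inp R (m v) (N v) v, w = f u + b)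
        (vecOf (m v) (N v) (x v)) (vecOf (m v) (N v) (y v)) ↔
        ∃ t : ℕ, vecOf (m v) (N v) (y v) - (fun u => f u + b₀)^[t] (vecOf (m v) (N v) (x v)) ∈
          AddSubgroup.closure {z | ∃ i : ℕ, ∃ b ∈ inp R (m v) (N v) v,
            ∃ b' ∈ inp R (m v) (N v) v, z = (fun u => (A v).mulVec u)^[i] (b - b')}) :=
      fun b₀ hb₀ => reach_iff hfinj hfA hb₀ _ _
    have hIWv : ∀ t b₀, IW (subc (m v) (N v) (y v) (G t b₀ v)) v ↔
        vecOf (m v) (N v) (y v) - (fun u => f u + vecOf (m v) (N v) b₀)^[t]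
          (vecOf (m v) (N v) (x v)) ∈ AddSubgroup.closure {z | ∃ i : ℕ,
            ∃ b ∈ inp R (m v) (N v) v, ∃ b' ∈ inp R (m v) (N v) v,
              z = (fun u => (A v).mulVec u)^[i] (b - b')} := by
      intro t b₀
      rw [hIW]
      show vecOf (m v) (N v) (subc (m v) (N v) (y v) (G t b₀ v)) ∈ _ ↔ _
      rw [vecOf_subc (h0 v), hGv]
    constructor
    · intro h
      obtain ⟨_, b₀, hb, hRb, rfl⟩ := hne
      obtain ⟨t, ht⟩ := (hiff _ ⟨b₀, hb, hRb, rfl⟩).1 h
      obtain ⟨t', ht', he⟩ := exists_iter_le' (f := fun z => addc (m v) (N v) (T z v) b₀) (hxb v)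
        (fun z _ => addc_lt (h0 v) _ _ _) t
      refine Or.inr ⟨b₀, hb.le, hb, hRb, t', ht', (hIWv t' b₀).2 ?_⟩
      have h4 : (fun u => f u + vecOf (m v) (N v) b₀)^[t'] (vecOf (m v) (N v) (x v)) =
          (fun u => f u + vecOf (m v) (N v) b₀)^[t] (vecOf (m v) (N v) (x v)) := by
        have h5 := hGv v t' b₀
        have h6 := hGv v t b₀
        rw [hG] at h5 h6
        rw [← h5, ← h6]
        exact congrArg _ he
      rw [h4]
      exact ht
    · rintro (h | ⟨b₀, _, hb, hRb, t, _, h⟩)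
      · rw [h]
      · rw [hiff _ ⟨b₀, hb, hRb, rfl⟩]
        exact ⟨t, (hIWv t b₀).1 h⟩
  · have hemp : ∀ b ∈ inp R (m v) (N v) v, False := fun b hb => hne ⟨b, hb⟩
    constructor
    · intro h
      have h7 : vecOf (m v) (N v) (x v) = vecOf (m v) (N v) (y v) := by
        rcases Relation.ReflTransGen.cases_tail h with h | ⟨_, _, b, hb, _⟩
        · exact h.symm
        · exact (hemp b hb).elim
      exact Or.inl (vecOf_inj (h0 v) (hxb v) hyv h7)
    · rintro (h | ⟨b₀, _, hb, hRb, _⟩)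
      · rw [h]
      · exact (hemp _ ⟨b₀, hb, hRb, rfl⟩).elim

/-- **Reachability** under affine bijections with inputs. -/
theorem reach_def (hm : DFun n m) (hN : DFun n N) (hB : DFun n B) (hx : DFun n x)
    (hy : DFun n y) (hT : DFun (n + 1) (fun w => T (w 0) (fun i => w i.succ)))
    (hR : Delta0 (n + 1) R) (hm0 : ∀ v, 0 < m v)
    (hmN : ∀ v p e, p.Prime → p ^ e ∣ m v → (m v * N v ^ e) ^ N v ≤ B v)
    (hTb : ∀ v z, z < m v ^ N v → T z v < m v ^ N v)
    (haff : ∀ v, ∃ (A : Matrix (Fin (N v)) (Fin (N v)) (ZMod (m v))) (b : Fin (N v) → ZMod (m v)),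
      ∀ z, z < m v ^ N v → vecOf (m v) (N v) (T z v) = A.mulVec (vecOf (m v) (N v) z) + b)
    (hinj : ∀ v z z', z < m v ^ N v → z' < m v ^ N v → T z v = T z' v → z = z')
    (hxb : ∀ v, x v < m v ^ N v) :
    Delta0 n (fun v => Relation.ReflTransGen (fun z z' => z' < m v ^ N v ∧ ∃ b, b < m v ^ N v ∧
      R (Fin.cons b v) ∧ vecOf (m v) (N v) z' = vecOf (m v) (N v) (T z v) +
        vecOf (m v) (N v) b) (x v) (y v)) := by
  have d1 : Delta0 n (fun v => m v = 1) := Delta0.eqFun hm (DFun.const 1)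
  obtain ⟨m', hm'⟩ : ∃ m' : (Fin n → ℕ) → ℕ, m' = fun v => if m v = 1 then 2 else m v := ⟨_, rfl⟩
  obtain ⟨N', hN'⟩ : ∃ N' : (Fin n → ℕ) → ℕ, N' = fun v => if m v = 1 then 0 else N v := ⟨_, rfl⟩
  have hmd : DFun n m' := by rw [hm']; exact DFun.ite d1 (DFun.const 2) hm
  have hNd : DFun n N' := by rw [hN']; exact DFun.ite d1 (DFun.const 0) hN
  have hcase : ∀ v, (m v = 1 ∧ m' v = 2 ∧ N' v = 0) ∨ (m v ≠ 1 ∧ m' v = m v ∧ N' v = N v) := by
    intro v
    rw [hm', hN']
    by_cases h1 : m v = 1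
    · exact Or.inl ⟨h1, if_pos h1, if_pos h1⟩
    · exact Or.inr ⟨h1, if_neg h1, if_neg h1⟩
  have hL' : ∀ v, m v = 1 → m v ^ N v = 1 := fun v h => by rw [h, one_pow]
  have hLL : ∀ v, m' v ^ N' v = m v ^ N v := fun v => by
    rcases hcase v with ⟨h1, e1, e2⟩ | ⟨h1, e1, e2⟩
    · rw [e1, e2, hL' v h1, pow_zero]
    · rw [e1, e2]
  have h := reach_def2 hmd hNd hB hx hy hT hR (fun v => by
      have := hm0 v
      rcases hcase v with ⟨h1, e1, e2⟩ | ⟨h1, e1, e2⟩ <;> omega) (fun v p e hp hd => by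
      rcases hcase v with ⟨h1, e1, e2⟩ | ⟨h1, e1, e2⟩
      · have := hmN v 2 0 Nat.prime_two (by simp)
        rw [e2, pow_zero]
        rw [h1] at this
        simpa using this
      · rw [e1] at hd
        rw [e1, e2]
        exact hmN v p e hp hd) (fun v z hz => by
      rw [hLL] at hz ⊢
      exact hTb v z hz) (fun v => by
      rcases hcase v with ⟨h1, e1, e2⟩ | ⟨h1, e1, e2⟩
      · rw [e1, e2]
        exact ⟨0, 0, fun z _ => Subsingleton.elim _ _⟩
      · rw [e1, e2]
        exact haff v) (fun v z z' hz hz' he => by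
      rw [hLL] at hz hz'
      exact hinj v z z' hz hz' he) (fun v => by
      rw [hLL]
      exact hxb v)
  refine h.of_iff fun v => ?_
  rw [hLL]
  rcases hcase v with ⟨h1, e1, e2⟩ | ⟨h1, e1, e2⟩
  · rw [e1, e2]
    have e : ∀ z z' b : ℕ, (vecOf (m v) (N v) z' = vecOf (m v) (N v) (T z v) +
        vecOf (m v) (N v) b) ↔ (vecOf 2 0 z' = vecOf 2 0 (T z v) + vecOf 2 0 b) := by
      intro z z' b
      refine ⟨fun _ => Subsingleton.elim _ _, fun _ => ?_⟩
      funext i
      have : Subsingleton (ZMod (m v)) := by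
        rw [h1]
        infer_instance
      exact Subsingleton.elim _ _
    simp only [e]
  · rw [e1, e2]

end Pool.Agent.LinU
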